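import Mathlib

/-!
Prismatic graphs, stable sets, slot systems and fractional solutions.
-/

namespace Pool.Agent.H.MP_ebc13b_lc.h46

variable {α : Type*} [DecidableEq α]

/-- The graph induced on `A` is prismatic: every vertex of `A` outside a triangle inside `A` has
exactly one neighbour in the triangle. -/
def Prism (G : SimpleGraph α) (A : Finset α) : Prop :=
  ∀ T ⊆ A, G.IsNClique 3 T → ∀ v ∈ A, v ∉ T → ∃ u ∈ T, G.Adj v u ∧ ∀ u' ∈ T, G.Adj v u' → u' = u

open Classical in
/-- the neighbours in `A` of the elements of `D` -/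
noncomputable def nb (G : SimpleGraph α) (A D : Finset α) : Finset α :=
  A.filter (fun v => ∃ d ∈ D, G.Adj v d)

/-- stable subsets of `A` -/
def Stab (G : SimpleGraph α) (A D : Finset α) : Prop :=
  D ⊆ A ∧ ∀ u ∈ D, ∀ v ∈ D, ¬ G.Adj u v

/-- `c(D) = |N(D)| - |D|` -/
noncomputable def cc (G : SimpleGraph α) (A D : Finset α) : ℤ := ((nb G A D).card : ℤ) - D.card

/-- `M_D(T) = |T ∩ N(D)| - |T ∩ D|` -/
noncomputable def MM (G : SimpleGraph α) (A D T : Finset α) : ℤ :=
  ((T ∩ nb G A D).card : ℤ) - (T ∩ D).card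

/-- the sign of the vertex `v`: `1` on `N(D)`, `-1` on `D`, `0` elsewhere -/
noncomputable def chi (G : SimpleGraph α) (A D : Finset α) (v : α) : ℤ :=
  (if v ∈ nb G A D then 1 else 0) - (if v ∈ D then 1 else 0)

/-- A slot system: `P` is the set of the hubs of the slots, `O p` is the set of the options of the
slot `p`, triangles inside `A` containing `p`; options of different slots are disjoint. -/
structure Slots (G : SimpleGraph α) (A P : Finset α) (O : α → Finset (Finset α)) : Prop where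
  sub : ∀ p ∈ P, ∀ T ∈ O p, T ⊆ A
  clq : ∀ p ∈ P, ∀ T ∈ O p, G.IsNClique 3 T
  hub : ∀ p ∈ P, ∀ T ∈ O p, p ∈ T
  disj : ∀ p ∈ P, ∀ q ∈ P, p ≠ q → ∀ T ∈ O p, ∀ T' ∈ O q, Disjoint T T'

/-- the load of the vertex `v` -/
noncomputable def load (P : Finset α) (O : α → Finset (Finset α)) (z : Finset α → ℝ) (v : α) : ℝ :=
  ∑ p ∈ P, ∑ T ∈ O p, if v ∈ T then z T else 0

/-- Fractional solutions: `z` is a probability distribution on the options of every slot, and `y`
is a nonnegative symmetric weight on the edges inside `A` such that every vertex of `A` is covered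
exactly once. -/
structure FSol (G : SimpleGraph α) (A P : Finset α) (O : α → Finset (Finset α))
    (z : Finset α → ℝ) (y : α → α → ℝ) : Prop where
  z0 : ∀ p ∈ P, ∀ T ∈ O p, 0 ≤ z T
  z1 : ∀ p ∈ P, ∑ T ∈ O p, z T = 1
  y0 : ∀ u v, 0 ≤ y u v
  ysymm : ∀ u v, y u v = y v u
  yE : ∀ u v, y u v ≠ 0 → G.Adj u v ∧ u ∈ A ∧ v ∈ A
  cover : ∀ v ∈ A, ∑ u ∈ A, y v u + load P O z v = 1

/-- there is a fractional solution -/
def Feas (G : SimpleGraph α) (A P : Finset α) (O : α → Finset (Finset α)) : Prop :=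
  ∃ z y, FSol G A P O z y

/-- The row of `D` is tight at `z`. -/
def Tight (G : SimpleGraph α) (A P : Finset α) (O : α → Finset (Finset α)) (z : Finset α → ℝ)
    (D : Finset α) : Prop :=
  ∑ p ∈ P, ∑ T ∈ O p, z T * (MM G A D T : ℝ) = (cc G A D : ℝ)

/-- `D` is a violator for the option `T` of the slot `p`, whose other option is `T'`. -/
structure Vio (G : SimpleGraph α) (A P : Finset α) (O : α → Finset (Finset α))
    (z : Finset α → ℝ) (p : α) (T T' D : Finset α) : Prop where
  stab : Stab G A D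
  one : MM G A D T = 1
  three : MM G A D T' = 3
  const : ∀ q ∈ P, q ≠ p → ∀ T₁ ∈ O q, ∀ T₂ ∈ O q, MM G A D T₁ = MM G A D T₂
  tight : Tight G A P O z D

/-- Every slot has exactly two options, both with weight `1/2`. -/
def Half (P : Finset α) (O : α → Finset (Finset α)) (z : Finset α → ℝ) : Prop :=
  ∀ p ∈ P, ∃ T T', T ≠ T' ∧ O p = {T, T'} ∧ z T = 1 / 2 ∧ z T' = 1 / 2

section basic

variable {G : SimpleGraph α} {A D T : Finset α}

theorem mem_nb {v : α} : v ∈ nb G A D ↔ v ∈ A ∧ ∃ d ∈ D, G.Adj v d := by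
  classical
  unfold nb
  rw [Finset.mem_filter]

theorem nb_sub : nb G A D ⊆ A := fun _ h => (mem_nb.1 h).1

theorem Stab.disj (h : Stab G A D) : Disjoint (nb G A D) D := by
  rw [Finset.disjoint_left]
  intro v hv hd
  obtain ⟨_, d, h1, h2⟩ := mem_nb.1 hv
  exact h.2 v hd d h1 h2

theorem nb_mono {E : Finset α} (h : D ⊆ E) : nb G A D ⊆ nb G A E := by
  intro v hv
  obtain ⟨h1, d, h2, h3⟩ := mem_nb.1 hv
  exact mem_nb.2 ⟨h1, d, h h2, h3⟩

theorem Stab.mono {E : Finset α} (h : Stab G A E) (hD : D ⊆ E) : Stab G A D :=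
  ⟨hD.trans h.1, fun u hu v hv => h.2 u (hD hu) v (hD hv)⟩

theorem Prism.mono {B : Finset α} (h : Prism G A) (hB : B ⊆ A) : Prism G B :=
  fun T hT h3 v hv => h T (hT.trans hB) h3 v (hB hv)

/-- a triangle with three given vertices -/
theorem clique_abc {a b c : α} (h1 : G.Adj a b) (h2 : G.Adj a c) (h3 : G.Adj b c) :
    G.IsNClique 3 {a, b, c} := SimpleGraph.is3Clique_triple_iff.2 ⟨h1, h2, h3⟩

/-- the vertices of a triangle containing `p` -/
theorem exists_abc {p : α} (h : G.IsNClique 3 T) (hp : p ∈ T) :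
    ∃ a b, G.Adj p a ∧ G.Adj p b ∧ G.Adj a b ∧ T = {p, a, b} := by
  obtain ⟨x, y, z, h1, h2, h3, rfl⟩ := SimpleGraph.is3Clique_iff.1 h
  simp only [Finset.mem_insert, Finset.mem_singleton] at hp
  rcases hp with rfl | rfl | rfl
  · exact ⟨y, z, h1, h2, h3, rfl⟩
  · refine ⟨x, z, h1.symm, h3, h2, ?_⟩
    ext w
    simp only [Finset.mem_insert, Finset.mem_singleton]
    tauto
  · refine ⟨x, y, h2.symm, h3.symm, h1, ?_⟩
    ext w
    simp only [Finset.mem_insert, Finset.mem_singleton]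
    tauto

/-- A vertex sees at most one vertex of a triangle. -/
theorem Prism.unique (h : Prism G A) {a b c v : α} (ha : a ∈ A) (hb : b ∈ A) (hc : c ∈ A)
    (h1 : G.Adj a b) (h2 : G.Adj a c) (h3 : G.Adj b c) (hv : v ∈ A) (hvc : v ≠ c)
    (hva : G.Adj v a) : ¬ G.Adj v b := by
  intro hvb
  have hT : ({a, b, c} : Finset α) ⊆ A := by
    intro x hx
    simp only [Finset.mem_insert, Finset.mem_singleton] at hx
    rcases hx with rfl | rfl | rfl <;> assumption
  have hvT : v ∉ ({a, b, c} : Finset α) := by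
    simp only [Finset.mem_insert, Finset.mem_singleton, not_or]
    exact ⟨hva.ne, hvb.ne, hvc⟩
  obtain ⟨u, _, _, h4⟩ := h _ hT (clique_abc h1 h2 h3) v hv hvT
  have e1 := h4 a (by simp) hva
  have e2 := h4 b (by simp) hvb
  exact h1.ne (e1.trans e2.symm)

/-- A vertex sees at least one vertex of a triangle. -/
theorem Prism.sees (h : Prism G A) {a b c v : α} (ha : a ∈ A) (hb : b ∈ A) (hc : c ∈ A)
    (h1 : G.Adj a b) (h2 : G.Adj a c) (h3 : G.Adj b c) (hv : v ∈ A) (hva : v ≠ a) (hvb : v ≠ b)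
    (hvc : v ≠ c) : G.Adj v a ∨ G.Adj v b ∨ G.Adj v c := by
  have hT : ({a, b, c} : Finset α) ⊆ A := by
    intro x hx
    simp only [Finset.mem_insert, Finset.mem_singleton] at hx
    rcases hx with rfl | rfl | rfl <;> assumption
  have hvT : v ∉ ({a, b, c} : Finset α) := by
    simp only [Finset.mem_insert, Finset.mem_singleton, not_or]
    exact ⟨hva, hvb, hvc⟩
  obtain ⟨u, hu, hvu, _⟩ := h _ hT (clique_abc h1 h2 h3) v hv hvT
  simp only [Finset.mem_insert, Finset.mem_singleton] at hu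
  rcases hu with rfl | rfl | rfl
  · exact Or.inl hvu
  · exact Or.inr (Or.inl hvu)
  · exact Or.inr (Or.inr hvu)

end basic

end Pool.Agent.H.MP_ebc13b_lc.h46
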