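import Pool.Agent.H.MP_ebc13b_lc.h46.Defs

/-!
Deleting a slot with a single option, changing the options.
-/

namespace Pool.Agent.H.MP_ebc13b_lc.h46

variable {α : Type*} [DecidableEq α] {G : SimpleGraph α} {A P : Finset α}
  {O : α → Finset (Finset α)}

/-- subsystems -/
theorem Slots.sub_opt (hS : Slots G A P O) {O' : α → Finset (Finset α)}
    (h : ∀ p ∈ P, O' p ⊆ O p) : Slots G A P O' where
  sub := fun p hp T hT => hS.sub p hp T (h p hp hT)
  clq := fun p hp T hT => hS.clq p hp T (h p hp hT)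
  hub := fun p hp T hT => hS.hub p hp T (h p hp hT)
  disj := fun p hp q hq hpq T hT T' hT' => hS.disj p hp q hq hpq T (h p hp hT) T' (h q hq hT')

/-- the other slots after deleting an option of one slot -/
theorem Slots.del (hS : Slots G A P O) {p : α} (hp : p ∈ P) {T : Finset α} (hT : T ∈ O p) :
    Slots G (A \ T) (P.erase p) O where
  sub := fun q hq T' hT' => by
    have hq' := Finset.mem_erase.1 hq
    have h1 := hS.disj p hp q hq'.2 (Ne.symm hq'.1) T hT T' hT'
    intro x hx
    exact Finset.mem_sdiff.2 ⟨hS.sub q hq'.2 T' hT' hx,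
      fun hxT => (Finset.disjoint_left.1 h1) hxT hx⟩
  clq := fun q hq T' hT' => hS.clq q (Finset.mem_of_mem_erase hq) T' hT'
  hub := fun q hq T' hT' => hS.hub q (Finset.mem_of_mem_erase hq) T' hT'
  disj := fun q hq r hr hqr T₁ h₁ T₂ h₂ =>
    hS.disj q (Finset.mem_of_mem_erase hq) r (Finset.mem_of_mem_erase hr) hqr T₁ h₁ T₂ h₂

/-- Only the option sets of the slots matter. -/
theorem Feas.congr {O' : α → Finset (Finset α)} (h : ∀ p ∈ P, O p = O' p)
    (hF : Feas G A P O) : Feas G A P O' := by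
  obtain ⟨z, y, hz⟩ := hF
  have hl : ∀ v, load P O' z v = load P O z v := by
    intro v
    unfold load
    exact Finset.sum_congr rfl fun p hp => by rw [h p hp]
  refine ⟨z, y, ?_, ?_, hz.y0, hz.ysymm, hz.yE, ?_⟩
  · intro p hp T hT
    rw [← h p hp] at hT
    exact hz.z0 p hp T hT
  · intro p hp
    rw [← h p hp]
    exact hz.z1 p hp
  · intro v hv
    rw [hl]
    exact hz.cover v hv

private theorem del_load_split {p : α} (hp : p ∈ P) (z : Finset α → ℝ) (v : α) :
    load P O z v = (∑ T ∈ O p, if v ∈ T then z T else 0) + load (P.erase p) O z v := by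
  unfold load
  rw [← Finset.add_sum_erase P _ hp]

/-- If the only option of the slot `p` is `T` then `T` can be deleted.

Proof. Let `(z, y)` be a solution; `z T = 1`. For `v ∈ T`: `load v ≥ z T = 1` and all terms are
nonnegative, so `y v u = 0` for all `u ∈ A` (and all `u`, `yE`), and no option of another slot contains
`v`. So `(z, y)` is a solution for `A \ T`, `P.erase p`: for `v ∈ A \ T` the slot `p` contributes
`0` to `load v`, and `y v u = 0` for `u ∈ T`. `yE`: if `y u v ≠ 0` then `u, v ∉ T`. -/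
theorem Feas.del (hS : Slots G A P O) {p : α} (hp : p ∈ P) {T : Finset α} (hO : O p = {T})
    (hF : Feas G A P O) : Feas G (A \ T) (P.erase p) O := by
  obtain ⟨z, y, hz⟩ := hF
  have hTp : T ∈ O p := by rw [hO]; exact Finset.mem_singleton_self T
  have hzT : z T = 1 := by
    have := hz.z1 p hp
    rwa [hO, Finset.sum_singleton] at this
  have hls : ∀ v, load P O z v = (if v ∈ T then 1 else 0) + load (P.erase p) O z v := by
    intro v
    rw [del_load_split hp z v, hO, Finset.sum_singleton, hzT]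
  have hln : ∀ v, 0 ≤ load (P.erase p) O z v := by
    intro v
    unfold load
    refine Finset.sum_nonneg fun q hq => Finset.sum_nonneg fun T' hT' => ?_
    split_ifs
    · exact hz.z0 q (Finset.mem_of_mem_erase hq) T' hT'
    · exact le_rfl
  have hy0 : ∀ v ∈ T, ∀ u, y v u = 0 := by
    intro v hv u
    by_contra hne
    have h1 := hz.yE v u hne
    have h2 := hz.cover v h1.2.1
    rw [hls, if_pos hv] at h2
    have h3 : 0 ≤ ∑ u ∈ A, y v u := Finset.sum_nonneg fun u _ => hz.y0 v u
    have h4 : ∑ u ∈ A, y v u = 0 := by linarith [hln v]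
    rw [Finset.sum_eq_zero_iff_of_nonneg (fun u _ => hz.y0 v u)] at h4
    exact hne (h4 u h1.2.2)
  refine ⟨z, y, ?_, ?_, hz.y0, hz.ysymm, ?_, ?_⟩
  · intro q hq T' hT'
    exact hz.z0 q (Finset.mem_of_mem_erase hq) T' hT'
  · intro q hq
    exact hz.z1 q (Finset.mem_of_mem_erase hq)
  · intro u v huv
    obtain ⟨h1, h2, h3⟩ := hz.yE u v huv
    refine ⟨h1, Finset.mem_sdiff.2 ⟨h2, fun hu => huv (hy0 u hu v)⟩,
      Finset.mem_sdiff.2 ⟨h3, fun hv => huv ?_⟩⟩
    rw [hz.ysymm]
    exact hy0 v hv u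
  · intro v hv
    obtain ⟨hvA, hvT⟩ := Finset.mem_sdiff.1 hv
    have h1 := hz.cover v hvA
    rw [hls, if_neg hvT, zero_add] at h1
    rw [← h1]
    congr 1
    refine Finset.sum_subset Finset.sdiff_subset fun u hu hu' => ?_
    rw [Finset.mem_sdiff, not_and_not_right] at hu'
    rw [hz.ysymm]
    exact hy0 u (hu' hu) v

/-- Conversely (`z T = 1`, for the other options of `p` weight `0`): a solution for `A \ T` gives one
for `A`. (`z' T = 1`, `z' T₁ = 0` for the other `T₁ ∈ O p`, `z' = z` elsewhere; options of different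
slots are different since they are disjoint and nonempty; `y` does not change.) -/
theorem Feas.undel (hS : Slots G A P O) {p : α} (hp : p ∈ P) {T : Finset α} (hT : T ∈ O p)
    (hF : Feas G (A \ T) (P.erase p) O) : Feas G A P O := by
  classical
  obtain ⟨z, y, hz⟩ := hF
  set z' : Finset α → ℝ := fun T₁ => if T₁ ∈ O p then (if T₁ = T then 1 else 0) else z T₁ with hz'
  have hnp : ∀ q ∈ P.erase p, ∀ T₁ ∈ O q, T₁ ∉ O p := by
    intro q hq T₁ h1 h2
    obtain ⟨hqp, hqP⟩ := Finset.mem_erase.1 hq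
    have h3 := hS.disj q hqP p hp hqp T₁ h1 T₁ h2
    exact (Finset.disjoint_left.1 h3) (hS.hub p hp T₁ h2) (hS.hub p hp T₁ h2)
  have hzq : ∀ q ∈ P.erase p, ∀ T₁ ∈ O q, z' T₁ = z T₁ := by
    intro q hq T₁ h1
    rw [hz']
    simp only
    rw [if_neg (hnp q hq T₁ h1)]
  have hzp : ∀ T₁ ∈ O p, z' T₁ = if T₁ = T then 1 else 0 := by
    intro T₁ h1
    rw [hz']
    simp only
    rw [if_pos h1]
  have hls : ∀ v, load P O z' v = (if v ∈ T then 1 else 0) + load (P.erase p) O z v := by
    intro v
    rw [del_load_split hp z' v]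
    congr 1
    · rw [Finset.sum_eq_single T]
      · rw [hzp T hT, if_pos rfl]
      · intro T₁ h1 h2
        rw [hzp T₁ h1, if_neg h2]
        split_ifs <;> rfl
      · intro h
        exact absurd hT h
    · unfold load
      refine Finset.sum_congr rfl fun q hq => Finset.sum_congr rfl fun T₁ h1 => ?_
      rw [hzq q hq T₁ h1]
  have hP : ∀ q ∈ P, q ≠ p → q ∈ P.erase p := fun q hq hne => Finset.mem_erase.2 ⟨hne, hq⟩
  refine ⟨z', y, ?_, ?_, hz.y0, hz.ysymm, ?_, ?_⟩
  · intro q hq T₁ h1
    by_cases hqp : q = p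
    · subst hqp
      rw [hzp T₁ h1]
      split_ifs <;> norm_num
    · rw [hzq q (hP q hq hqp) T₁ h1]
      exact hz.z0 q (hP q hq hqp) T₁ h1
  · intro q hq
    by_cases hqp : q = p
    · subst hqp
      rw [Finset.sum_congr rfl hzp, Finset.sum_ite_eq', if_pos hT]
    · rw [Finset.sum_congr rfl (hzq q (hP q hq hqp))]
      exact hz.z1 q (hP q hq hqp)
  · intro u v huv
    obtain ⟨h1, h2, h3⟩ := hz.yE u v huv
    exact ⟨h1, (Finset.mem_sdiff.1 h2).1, (Finset.mem_sdiff.1 h3).1⟩
  · intro v hv
    have hyT : ∀ v ∈ T, ∀ u, y v u = 0 := by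
      intro v hv u
      by_contra hne
      exact (Finset.mem_sdiff.1 (hz.yE v u hne).2.1).2 hv
    rw [hls]
    by_cases hvT : v ∈ T
    · rw [if_pos hvT, Finset.sum_eq_zero (fun u _ => hyT v hvT u)]
      have : load (P.erase p) O z v = 0 := by
        unfold load
        refine Finset.sum_eq_zero fun q hq => Finset.sum_eq_zero fun T₁ h1 => ?_
        obtain ⟨hqp, hqP⟩ := Finset.mem_erase.1 hq
        have h3 := hS.disj q hqP p hp hqp T₁ h1 T hT
        rw [if_neg]
        intro h4
        exact (Finset.disjoint_left.1 h3) h4 hvT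
      rw [this]
      norm_num
    · rw [if_neg hvT, zero_add, ← hz.cover v (Finset.mem_sdiff.2 ⟨hv, hvT⟩)]
      congr 1
      symm
      refine Finset.sum_subset Finset.sdiff_subset fun u hu hu' => ?_
      rw [Finset.mem_sdiff, not_and_not_right] at hu'
      rw [hz.ysymm]
      exact hyT u (hu' hu) v

/-- `T` has three elements, all in `A` -/
theorem par_del (hS : Slots G A P O) {p : α} (hp : p ∈ P) {T : Finset α} (hT : T ∈ O p)
    (hpar : Even (A.card + P.card)) : Even ((A \ T).card + (P.erase p).card) := by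
  have h1 := (hS.clq p hp T hT).card_eq
  have h2 := hS.sub p hp T hT
  have h3 := Finset.card_le_card h2
  rw [Finset.card_sdiff_of_subset h2, Finset.card_erase_of_mem hp]
  have h4 : 0 < P.card := Finset.card_pos.2 ⟨p, hp⟩
  rw [Nat.even_iff] at hpar ⊢
  omega

end Pool.Agent.H.MP_ebc13b_lc.h46
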