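import Pool.Agent.H.MP_ebc13b_lc.h46.Defs

/-!
Linear programming duality for slot systems.
-/

namespace Pool.Agent.H.MP_ebc13b_lc.h46

variable {α : Type*} [DecidableEq α] {G : SimpleGraph α} {A P : Finset α}
  {O : α → Finset (Finset α)}

/-- Separation of a point from a compact convex set in `V → ℝ`, `V` finite.

Proof. `geometric_hahn_banach_point_closed` gives a continuous linear `f` and `u` with `f b < u` and
`u < f x` for all `x ∈ C`; put `π v = f (Pi.single v 1)`; `f x = ∑ v, x v * π v`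
(`LinearMap.pi_apply_eq_sum_univ` or `pi_eq_sum_univ'`). -/
theorem separate {V : Type*} [Fintype V] [DecidableEq V] {C : Set (V → ℝ)} (hC : Convex ℝ C)
    (hK : IsCompact C) {b : V → ℝ} (hb : b ∉ C) :
    ∃ π : V → ℝ, ∀ x ∈ C, ∑ v, b v * π v < ∑ v, x v * π v := by
  obtain ⟨f, u, h1, h2⟩ := geometric_hahn_banach_point_closed hC hK.isClosed hb
  have key : ∀ x : V → ℝ, f x = ∑ v, x v * f (Pi.single v 1) := by
    intro x
    have hx : x = ∑ v, x v • (Pi.single v (1 : ℝ) : V → ℝ) := by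
      funext w
      rw [Finset.sum_apply]
      simp [Pi.single_apply]
    conv_lhs => rw [hx]
    rw [map_sum]
    refine Finset.sum_congr rfl fun v _ => ?_
    rw [map_smul, smul_eq_mul]
  refine ⟨fun v => f (Pi.single v 1), fun x hx => ?_⟩
  rw [← key, ← key]
  exact h1.trans (h2 x hx)

/-- distributions on the options -/
def dualZ (P : Finset α) (O : α → Finset (Finset α)) : Set (Finset α → ℝ) :=
  {Z | (∀ T, Z T ∈ Set.Icc (0 : ℝ) 1) ∧ ∀ p ∈ P, ∑ T ∈ O p, Z T = 1}

/-- weights on the edges -/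
def dualY (G : SimpleGraph α) (A : Finset α) : Set (α → α → ℝ) :=
  {Y | (∀ u v, Y u v ∈ Set.Icc (0 : ℝ) 1) ∧
    ∀ u v, ¬ (G.Adj u v ∧ u ∈ A ∧ v ∈ A) → Y u v = 0}

omit [DecidableEq α] in
theorem dualZ_compact : IsCompact (dualZ P O) := by
  refine IsCompact.of_isClosed_subset (isCompact_univ_pi
    (fun _ : Finset α => isCompact_Icc (a := (0 : ℝ)) (b := 1))) ?_ ?_
  · have h1 : dualZ P O = (⋂ T : Finset α, {Z : Finset α → ℝ | Z T ∈ Set.Icc (0 : ℝ) 1}) ∩
        ⋂ p ∈ P, {Z : Finset α → ℝ | ∑ T ∈ O p, Z T = 1} := by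
      ext Z
      simp [dualZ]
    rw [h1]
    refine IsClosed.inter (isClosed_iInter fun T => ?_) (isClosed_biInter fun p _ => ?_)
    · exact isClosed_Icc.preimage (continuous_apply T)
    · exact isClosed_eq (continuous_finsetSum _ fun T _ => continuous_apply T)
        continuous_const
  · intro Z hZ T _
    exact hZ.1 T

omit [DecidableEq α] in
theorem dualZ_convex : Convex ℝ (dualZ P O) := by
  intro Z hZ W hW a b ha hb hab
  refine ⟨fun T => ?_, fun p hp => ?_⟩
  · have h1 := (convex_Icc (0 : ℝ) 1) (hZ.1 T) (hW.1 T) ha hb hab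
    exact h1
  · have h1 : ∑ T ∈ O p, (a • Z + b • W) T = a * ∑ T ∈ O p, Z T + b * ∑ T ∈ O p, W T := by
      rw [Finset.mul_sum, Finset.mul_sum, ← Finset.sum_add_distrib]
      rfl
    rw [h1, hZ.2 p hp, hW.2 p hp, mul_one, mul_one, hab]

omit [DecidableEq α] in
theorem dualY_compact : IsCompact (dualY G A) := by
  refine IsCompact.of_isClosed_subset (isCompact_univ_pi
    (fun _ : α => isCompact_univ_pi
      (fun _ : α => isCompact_Icc (a := (0 : ℝ)) (b := 1)))) ?_ ?_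
  · have h1 : dualY G A =
        (⋂ u : α, ⋂ v : α, {Y : α → α → ℝ | Y u v ∈ Set.Icc (0 : ℝ) 1}) ∩
        ⋂ u : α, ⋂ v : α, ⋂ _ : ¬ (G.Adj u v ∧ u ∈ A ∧ v ∈ A),
          {Y : α → α → ℝ | Y u v = 0} := by
      ext Y
      simp only [dualY, Set.mem_ofPred_eq, Set.mem_inter_iff, Set.mem_iInter]
    rw [h1]
    refine IsClosed.inter (isClosed_iInter fun u => isClosed_iInter fun v => ?_)
      (isClosed_iInter fun u => isClosed_iInter fun v => isClosed_iInter fun _ => ?_)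
    · exact isClosed_Icc.preimage (continuous_apply_apply u v)
    · exact isClosed_eq (continuous_apply_apply u v) continuous_const
  · intro Y hY u _ v _
    exact hY.1 u v

omit [DecidableEq α] in
theorem dualY_convex : Convex ℝ (dualY G A) := by
  intro Z hZ W hW a b ha hb hab
  refine ⟨fun u v => ?_, fun u v h => ?_⟩
  · have h1 := (convex_Icc (0 : ℝ) 1) (hZ.1 u v) (hW.1 u v) ha hb hab
    exact h1
  · show a * Z u v + b * W u v = 0
    rw [hZ.2 u v h, hW.2 u v h, mul_zero, mul_zero, add_zero]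

/-- the vector of the covers -/
noncomputable def dualF (A P : Finset α) (O : α → Finset (Finset α)) :
    ((Finset α → ℝ) × (α → α → ℝ)) →ₗ[ℝ] ({v // v ∈ A} → ℝ) where
  toFun x v := (∑ u ∈ A, (x.2 v u + x.2 u v) / 2) + load P O x.1 v
  map_add' x y := by
    funext v
    have h1 : ∀ T, (if (v : α) ∈ T then (x + y).1 T else 0) =
        (if (v : α) ∈ T then x.1 T else 0) + (if (v : α) ∈ T then y.1 T else 0) := by
      intro T
      split_ifs
      · rfl
      · rw [add_zero]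
    show (∑ u ∈ A, ((x + y).2 v u + (x + y).2 u v) / 2) + load P O (x + y).1 v =
      ((∑ u ∈ A, (x.2 v u + x.2 u v) / 2) + load P O x.1 v) +
      ((∑ u ∈ A, (y.2 v u + y.2 u v) / 2) + load P O y.1 v)
    have h2 : load P O (x + y).1 v = load P O x.1 v + load P O y.1 v := by
      unfold load
      rw [← Finset.sum_add_distrib]
      refine Finset.sum_congr rfl fun p _ => ?_
      rw [← Finset.sum_add_distrib]
      exact Finset.sum_congr rfl fun T _ => h1 T
    have h3 : (∑ u ∈ A, ((x + y).2 v u + (x + y).2 u v) / 2) =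
        (∑ u ∈ A, (x.2 v u + x.2 u v) / 2) + (∑ u ∈ A, (y.2 v u + y.2 u v) / 2) := by
      rw [← Finset.sum_add_distrib]
      refine Finset.sum_congr rfl fun u _ => ?_
      show ((x.2 v u + y.2 v u) + (x.2 u v + y.2 u v)) / 2 = _
      ring
    rw [h2, h3]
    ring
  map_smul' c x := by
    funext v
    show (∑ u ∈ A, ((c • x).2 v u + (c • x).2 u v) / 2) + load P O (c • x).1 v =
      c * ((∑ u ∈ A, (x.2 v u + x.2 u v) / 2) + load P O x.1 v)
    have h2 : load P O (c • x).1 v = c * load P O x.1 v := by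
      unfold load
      rw [Finset.mul_sum]
      refine Finset.sum_congr rfl fun p _ => ?_
      rw [Finset.mul_sum]
      refine Finset.sum_congr rfl fun T _ => ?_
      split_ifs
      · rfl
      · rw [mul_zero]
    have h3 : (∑ u ∈ A, ((c • x).2 v u + (c • x).2 u v) / 2) =
        c * (∑ u ∈ A, (x.2 v u + x.2 u v) / 2) := by
      rw [Finset.mul_sum]
      refine Finset.sum_congr rfl fun u _ => ?_
      show (c * x.2 v u + c * x.2 u v) / 2 = _
      ring
    rw [h2, h3]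
    ring

theorem dualF_apply (x : (Finset α → ℝ) × (α → α → ℝ)) (v : {v // v ∈ A}) :
    dualF A P O x v = (∑ u ∈ A, (x.2 v u + x.2 u v) / 2) + load P O x.1 v := rfl

theorem dualF_cont : Continuous (dualF A P O) := by
  refine continuous_pi fun v => ?_
  show Continuous fun x : (Finset α → ℝ) × (α → α → ℝ) =>
    (∑ u ∈ A, (x.2 v u + x.2 u v) / 2) + load P O x.1 v
  refine Continuous.add (continuous_finsetSum _ fun u _ => ?_) ?_
  · refine Continuous.div_const (Continuous.add ?_ ?_) 2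
    · exact (continuous_apply_apply (v : α) u).comp continuous_snd
    · exact (continuous_apply_apply u (v : α)).comp continuous_snd
  · unfold load
    refine continuous_finsetSum _ fun p _ => continuous_finsetSum _ fun T _ => ?_
    split_ifs
    · exact (continuous_apply T).comp continuous_fst
    · exact continuous_const

/-- The separating functional. -/
theorem dual_sep (hinf : ¬ Feas G A P O) :
    ∃ π : α → ℝ, ∀ Z ∈ dualZ P O, ∀ Y ∈ dualY G A,
      ∑ v ∈ A, π v < ∑ v ∈ A, ((∑ u ∈ A, (Y v u + Y u v) / 2) + load P O Z v) * π v := by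
  have hconv : Convex ℝ (dualF A P O '' (dualZ P O ×ˢ dualY G A)) :=
    (dualZ_convex.prod dualY_convex).linear_image _
  have hcomp : IsCompact (dualF A P O '' (dualZ P O ×ˢ dualY G A)) :=
    (dualZ_compact.prod dualY_compact).image dualF_cont
  have hnot : (fun _ => (1 : ℝ)) ∉ dualF A P O '' (dualZ P O ×ˢ dualY G A) := by
    rintro ⟨⟨Z, Y⟩, ⟨hZ, hY⟩, h⟩
    apply hinf
    refine ⟨Z, fun u v => (Y u v + Y v u) / 2, ?_⟩
    refine ⟨fun p _ T _ => (hZ.1 T).1, hZ.2, fun u v => ?_, fun u v => ?_, ?_, ?_⟩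
    · have h1 := (hY.1 u v).1
      have h2 := (hY.1 v u).1
      show (0 : ℝ) ≤ (Y u v + Y v u) / 2
      linarith
    · show (Y u v + Y v u) / 2 = (Y v u + Y u v) / 2
      ring
    · intro u v h1
      by_contra h2
      apply h1
      have h3 : ¬ (G.Adj v u ∧ v ∈ A ∧ u ∈ A) := fun h4 => h2 ⟨h4.1.symm, h4.2.2, h4.2.1⟩
      show (Y u v + Y v u) / 2 = 0
      rw [show Y u v = 0 from hY.2 u v h2, show Y v u = 0 from hY.2 v u h3]
      norm_num
    · intro v hv
      have h1 := congrFun h ⟨v, hv⟩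
      rw [dualF_apply] at h1
      exact h1
  obtain ⟨π, hπ⟩ := separate hconv hcomp hnot
  refine ⟨fun v => if h : v ∈ A then π ⟨v, h⟩ else 0, fun Z hZ Y hY => ?_⟩
  have h1 := hπ (dualF A P O (Z, Y)) ⟨(Z, Y), ⟨hZ, hY⟩, rfl⟩
  have e : ∀ f : α → ℝ, ∑ v ∈ A, f v * (if h : v ∈ A then π ⟨v, h⟩ else 0) =
      ∑ v : {v // v ∈ A}, f v * π v := by
    intro f
    rw [← Finset.sum_coe_sort]
    refine Finset.sum_congr rfl fun v _ => ?_
    rw [dif_pos v.2]
  have e1 : ∑ v ∈ A, (if h : v ∈ A then π ⟨v, h⟩ else 0) =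
      ∑ v : {v // v ∈ A}, (1 : ℝ) * π v := by
    rw [← e (fun _ => 1)]
    exact Finset.sum_congr rfl fun v _ => (one_mul _).symm
  show ∑ v ∈ A, (if h : v ∈ A then π ⟨v, h⟩ else 0) < _
  rw [e1]
  refine h1.trans_eq ?_
  exact (e (fun v => (∑ u ∈ A, (Y v u + Y u v) / 2) + load P O Z v)).symm

/-- Farkas: a certificate of infeasibility.

Proof. Work with the finite type `V = {v // v ∈ A}`. Let `C` be the set of all vectors
`x v = (∑ u ∈ A, (Y v u + Y u v) / 2) + load P O Z v` (`v ∈ A`), where `Z : Finset α → ℝ` with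
`0 ≤ Z T ≤ 1` for all `T`, `∑ T ∈ O p, Z T = 1` for `p ∈ P`, and `Y : α → α → ℝ` with
`0 ≤ Y u v ≤ 1` and `Y u v = 0` unless `G.Adj u v`, `u ∈ A`, `v ∈ A`. `C` is convex and compact: it
is the image, under a continuous (linear) map, of a compact convex set of pairs `(Z, Y)`; to have
compactness take `Z T = 0` for `T` outside the finite set `P.biUnion O`, `Y u v = 0` outside `A`: the
set of pairs is a closed subset of `Set.pi univ (fun _ => Icc 0 1)` (`isCompact_univ_pi`, product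
topology, `IsCompact.of_isClosed_subset`); all the maps `(Z, Y) ↦ x v` are continuous
(`continuous_finset_sum`, `continuous_apply`).
`1 ∉ C`: otherwise `z = Z` and `y u v = (Y u v + Y v u) / 2` is a solution `FSol`.
`separate` gives `π` (extend by `0` outside `A`) with `∑ v ∈ A, π v < ∑ v, x v π v` for all
`x ∈ C`. For `p ∈ P` choose `S p ∈ O p` with minimal `π(S p) = ∑ v ∈ S p, π v`
(`Finset.exists_min_image`), let `Z T = 1` if `T = S p` for some `p ∈ P` and `0` otherwise (options of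
different slots are disjoint and nonempty, so different), and `Y u v = 1` if `u, v ∈ A` are adjacent and
`π u + π v < 0`, `0` otherwise (`Y` is symmetric). With
`r u v = max 0 (-(π u + π v))` for adjacent `u, v ∈ A`, `r u v = 0` otherwise, this gives
`∑ v ∈ A, π v < ∑ p ∈ P, π(S p) - (1/2) ∑ u ∈ A, ∑ v ∈ A, r u v`. Put
`π' v = π v + (1/2) ∑ u ∈ A, r v u`, `l p = π(S p)`. For adjacent `u, v ∈ A`:
`π' u + π' v ≥ π u + π v + (r u v + r v u) / 2 ≥ 0`. For `T ∈ O p`: `l p ≤ π(T) ≤ π'(T)`. -/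
theorem dual_cert (hS : Slots G A P O) (hne : ∀ p ∈ P, (O p).Nonempty) (hinf : ¬ Feas G A P O) :
    ∃ (π : α → ℝ) (l : α → ℝ), (∀ u ∈ A, ∀ v ∈ A, G.Adj u v → 0 ≤ π u + π v) ∧
      (∀ p ∈ P, ∀ T ∈ O p, l p ≤ ∑ v ∈ T, π v) ∧ ∑ v ∈ A, π v < ∑ p ∈ P, l p := by
  classical
  obtain ⟨π, hπ⟩ := dual_sep hinf
  have hmin : ∀ p : α, ∃ T : Finset α, p ∈ P → T ∈ O p ∧
      ∀ T' ∈ O p, ∑ v ∈ T, π v ≤ ∑ v ∈ T', π v := by
    intro p
    by_cases hp : p ∈ P
    · obtain ⟨T, h1, h2⟩ := Finset.exists_min_image (O p) (fun T => ∑ v ∈ T, π v) (hne p hp)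
      exact ⟨T, fun _ => ⟨h1, h2⟩⟩
    · exact ⟨∅, fun h => absurd h hp⟩
  choose S hSO using hmin
  obtain ⟨Z, hZdef⟩ : ∃ Z : Finset α → ℝ, Z = fun T => if ∃ p ∈ P, T = S p then 1 else 0 :=
    ⟨_, rfl⟩
  obtain ⟨r, hrdef⟩ : ∃ r : α → α → ℝ, r = fun u v =>
      if G.Adj u v ∧ u ∈ A ∧ v ∈ A ∧ π u + π v < 0 then -(π u + π v) else 0 := ⟨_, rfl⟩
  obtain ⟨Y, hYdef⟩ : ∃ Y : α → α → ℝ, Y = fun u v =>
      if G.Adj u v ∧ u ∈ A ∧ v ∈ A ∧ π u + π v < 0 then 1 else 0 := ⟨_, rfl⟩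
  have hZp : ∀ p ∈ P, ∀ T ∈ O p, Z T = if T = S p then 1 else 0 := by
    intro p hp T hT
    rw [hZdef]
    show (if ∃ p ∈ P, T = S p then (1 : ℝ) else 0) = _
    by_cases h1 : T = S p
    · rw [if_pos h1, if_pos ⟨p, hp, h1⟩]
    · rw [if_neg h1, if_neg]
      rintro ⟨q, hq, h2⟩
      by_cases hpq : p = q
      · rw [hpq] at h1
        exact h1 h2
      · have h3 : T ∈ O q := by
          rw [h2]
          exact (hSO q hq).1
        have h4 := hS.disj p hp q hq hpq T hT T h3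
        have h5 := hS.hub p hp T hT
        exact Finset.disjoint_left.1 h4 h5 h5
  have hZs : ∀ p ∈ P, ∀ f : Finset α → ℝ, ∑ T ∈ O p, Z T * f T = f (S p) := by
    intro p hp f
    rw [Finset.sum_congr rfl fun T hT => by rw [hZp p hp T hT]]
    simp only [ite_mul, one_mul, zero_mul]
    rw [Finset.sum_ite_eq', if_pos (hSO p hp).1]
  have hZK : Z ∈ dualZ P O := by
    refine ⟨fun T => ?_, fun p hp => ?_⟩
    · rw [hZdef]
      show (if ∃ p ∈ P, T = S p then (1 : ℝ) else 0) ∈ Set.Icc (0 : ℝ) 1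
      split_ifs
      · exact ⟨zero_le_one, le_refl _⟩
      · exact ⟨le_refl _, zero_le_one⟩
    · have h1 := hZs p hp (fun _ => 1)
      simpa using h1
  have hYK : Y ∈ dualY G A := by
    refine ⟨fun u v => ?_, fun u v h => ?_⟩
    · rw [hYdef]
      show (if G.Adj u v ∧ u ∈ A ∧ v ∈ A ∧ π u + π v < 0 then (1 : ℝ) else 0) ∈
        Set.Icc (0 : ℝ) 1
      split_ifs
      · exact ⟨zero_le_one, le_refl _⟩
      · exact ⟨le_refl _, zero_le_one⟩
    · rw [hYdef]
      exact if_neg fun h1 => h ⟨h1.1, h1.2.1, h1.2.2.1⟩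
  have hlt := hπ Z hZK Y hYK
  have hload : ∑ v ∈ A, load P O Z v * π v = ∑ p ∈ P, ∑ v ∈ S p, π v := by
    unfold load
    have h1 : ∀ v ∈ A, (∑ p ∈ P, ∑ T ∈ O p, if v ∈ T then Z T else 0) * π v =
        ∑ p ∈ P, ∑ T ∈ O p, Z T * (if v ∈ T then π v else 0) := by
      intro v _
      rw [Finset.sum_mul]
      refine Finset.sum_congr rfl fun p _ => ?_
      rw [Finset.sum_mul]
      refine Finset.sum_congr rfl fun T _ => ?_
      split_ifs
      · rfl
      · rw [zero_mul, mul_zero]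
    rw [Finset.sum_congr rfl h1, Finset.sum_comm]
    refine Finset.sum_congr rfl fun p hp => ?_
    rw [Finset.sum_comm]
    have h2 : ∀ T ∈ O p, ∑ v ∈ A, Z T * (if v ∈ T then π v else 0) =
        Z T * ∑ v ∈ T, π v := by
      intro T hT
      rw [← Finset.mul_sum, Finset.sum_ite_mem, Finset.inter_eq_right.2 (hS.sub p hp T hT)]
    rw [Finset.sum_congr rfl h2]
    exact hZs p hp (fun T => ∑ v ∈ T, π v)
  have hYr : ∀ u v, Y u v * (π u + π v) = - r u v := by
    intro u v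
    rw [hYdef, hrdef]
    show (if G.Adj u v ∧ u ∈ A ∧ v ∈ A ∧ π u + π v < 0 then (1 : ℝ) else 0) * (π u + π v) =
      -(if G.Adj u v ∧ u ∈ A ∧ v ∈ A ∧ π u + π v < 0 then -(π u + π v) else 0)
    split_ifs
    · ring
    · ring
  have hedge : ∑ v ∈ A, (∑ u ∈ A, (Y v u + Y u v) / 2) * π v =
      -(1 / 2) * ∑ v ∈ A, ∑ u ∈ A, r v u := by
    have h1 : ∑ v ∈ A, (∑ u ∈ A, (Y v u + Y u v) / 2) * π v =
        ∑ v ∈ A, ∑ u ∈ A, Y v u * π v / 2 + ∑ v ∈ A, ∑ u ∈ A, Y u v * π v / 2 := by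
      rw [← Finset.sum_add_distrib]
      refine Finset.sum_congr rfl fun v _ => ?_
      rw [Finset.sum_mul, ← Finset.sum_add_distrib]
      refine Finset.sum_congr rfl fun u _ => ?_
      ring
    have h2 : ∑ v ∈ A, ∑ u ∈ A, Y u v * π v / 2 = ∑ v ∈ A, ∑ u ∈ A, Y v u * π u / 2 :=
      Finset.sum_comm
    rw [h1, h2, ← Finset.sum_add_distrib, Finset.mul_sum]
    refine Finset.sum_congr rfl fun v _ => ?_
    rw [← Finset.sum_add_distrib, Finset.mul_sum]
    refine Finset.sum_congr rfl fun u _ => ?_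
    have h3 := hYr v u
    linear_combination h3 / 2
  have hr0 : ∀ u v, 0 ≤ r u v := by
    intro u v
    rw [hrdef]
    show (0 : ℝ) ≤ if G.Adj u v ∧ u ∈ A ∧ v ∈ A ∧ π u + π v < 0 then -(π u + π v) else 0
    split_ifs with h
    · linarith [h.2.2.2]
    · exact le_refl _
  have hlt2 : ∑ v ∈ A, π v < ∑ p ∈ P, ∑ v ∈ S p, π v - 1 / 2 * ∑ v ∈ A, ∑ u ∈ A, r v u := by
    refine hlt.trans_eq ?_
    rw [← hload]
    have h1 : ∑ v ∈ A, ((∑ u ∈ A, (Y v u + Y u v) / 2) + load P O Z v) * π v =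
        ∑ v ∈ A, (∑ u ∈ A, (Y v u + Y u v) / 2) * π v + ∑ v ∈ A, load P O Z v * π v := by
      rw [← Finset.sum_add_distrib]
      exact Finset.sum_congr rfl fun v _ => add_mul _ _ _
    rw [h1, hedge]
    ring
  refine ⟨fun v => π v + 1 / 2 * ∑ u ∈ A, r v u, fun p => ∑ v ∈ S p, π v, ?_, ?_, ?_⟩
  · intro u hu v hv huv
    have h1 : r u v ≤ ∑ w ∈ A, r u w := Finset.single_le_sum (fun w _ => hr0 u w) hv
    have h2 : r v u ≤ ∑ w ∈ A, r v w := Finset.single_le_sum (fun w _ => hr0 v w) hu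
    show 0 ≤ (π u + 1 / 2 * ∑ w ∈ A, r u w) + (π v + 1 / 2 * ∑ w ∈ A, r v w)
    by_cases hneg : π u + π v < 0
    · have h3 : r u v = -(π u + π v) := by
        rw [hrdef]
        exact if_pos ⟨huv, hu, hv, hneg⟩
      have h4 : r v u = -(π v + π u) := by
        rw [hrdef]
        exact if_pos ⟨huv.symm, hv, hu, by rwa [add_comm]⟩
      linarith
    · have h3 := hr0 u v
      have h4 := hr0 v u
      linarith [not_lt.1 hneg]
  · intro p hp T hT
    refine ((hSO p hp).2 T hT).trans (Finset.sum_le_sum fun v _ => ?_)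
    have h1 : 0 ≤ ∑ u ∈ A, r v u := Finset.sum_nonneg fun u _ => hr0 v u
    linarith
  · rw [Finset.sum_add_distrib, ← Finset.mul_sum]
    linarith

end Pool.Agent.H.MP_ebc13b_lc.h46
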