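import Pool.Agent.H.MP_ebc13b_lc.h46.Tri

/-!
Lemma C: nested stable sets order the triangles with a common vertex in compatible ways.
-/

namespace Pool.Agent.H.MP_ebc13b_lc.h46

variable {α : Type*} [DecidableEq α] {G : SimpleGraph α} {A D E T T' : Finset α}

/-- Lemma C. Suppose `MM D T < MM D T'` and `MM E T' < MM E T`.
`D` is nonempty (`MM_empty`) and so is `E`; all numbers are in `{1, 2, 3}` (`MM_pos`, `MM_le`).
So `MM D T' ≥ 2` and `MM E T ≥ 2`; by `MM_of_mem` `T'` does not meet `D`, and `T` does not meet `E`,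
hence not `D`. Write `T = {p, a, b}`, `T' = {p, a', b'}` (`exists_abc`).
Case `MM D T' = 3`: `T' ⊆ N(D) ⊆ N(E)` (`MM_three`, `nb_mono`), so `T'` does not meet `E`
(`Stab.disj`) and `MM E T' = 3` (`MM_of_disj`), contradiction to `MM E T' < MM E T ≤ 3`.
Case `MM D T' = 2`, so `MM D T = 1`: exactly one vertex `x` of `T` is in `N(D)`, and every `d ∈ D` (it
is not in `T`) sees exactly one vertex of `T`, so it sees `x` and no other vertex of `T`.
If `x = p`: every `d ∈ D` sees `p`, so (`d ∉ T'`) it sees no other vertex of `T'`, and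
`T' ∩ N(D) = {p}`, contradiction to `MM D T' = 2`.
If `x ≠ p`: `p ∉ N(D)`, so `a', b' ∈ N(D) ⊆ N(E)`, and `a', b' ∉ E`. If `p ∈ E` then `MM E T = 1`
(`MM_of_mem`), contradiction. So `T'` does not meet `E` and `MM E T' ≥ 2` (`MM_of_disj`). So
`MM E T' = 2`, `MM E T = 3`, `p ∈ N(E)` (`MM_three`), and `T' ⊆ N(E)`, `MM E T' = 3`,
contradiction. -/
theorem lemmaC (hPr : Prism G A) (hD : Stab G A D) (hE : Stab G A E) (hDE : D ⊆ E) {p : α}
    (hT : T ⊆ A) (h3 : G.IsNClique 3 T) (hT' : T' ⊆ A) (h3' : G.IsNClique 3 T') (hp : p ∈ T)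
    (hp' : p ∈ T') : ¬ (MM G A D T < MM G A D T' ∧ MM G A E T' < MM G A E T) := by
  rintro ⟨hDT, hET⟩
  have hDne : D.Nonempty := by
    rw [Finset.nonempty_iff_ne_empty]
    rintro rfl
    rw [MM_empty, MM_empty] at hDT
    exact lt_irrefl _ hDT
  have hEne : E.Nonempty := hDne.mono hDE
  have b1 := MM_pos hPr hD hDne hT h3
  have b2 := MM_pos hPr hE hEne hT' h3'
  have b3 := MM_le (A := A) (D := D) h3'
  have b4 := MM_le (A := A) (D := E) h3
  have hTE : Disjoint T E := by
    by_contra hcon
    obtain ⟨e, heT, he⟩ := Finset.not_disjoint_iff.1 hcon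
    have := (MM_of_mem hE hT h3 he heT).1
    omega
  have hTD : Disjoint T D := Finset.disjoint_of_subset_right hDE hTE
  have hT'D : Disjoint T' D := by
    by_contra hcon
    obtain ⟨e, heT, he⟩ := Finset.not_disjoint_iff.1 hcon
    have := (MM_of_mem hD hT' h3' he heT).1
    omega
  have hmono : nb G A D ⊆ nb G A E := nb_mono hDE
  by_cases hc3 : MM G A D T' = 3
  · have h1 := (MM_three hD hT' h3' hc3).1
    have h2 : T' ⊆ nb G A E := h1.trans hmono
    have h4 : Disjoint T' E := Finset.disjoint_of_subset_left h2 hE.disj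
    have h5 := MM_of_disj (G := G) (A := A) h4
    rw [Finset.inter_eq_left.2 h2, h3'.card_eq] at h5
    omega
  · have hc2 : MM G A D T' = 2 := by omega
    have hc1 : MM G A D T = 1 := by omega
    have h1 := MM_of_disj (G := G) (A := A) hTD
    rw [hc1] at h1
    obtain ⟨x, hx⟩ := Finset.card_eq_one.1 (show (T ∩ nb G A D).card = 1 by omega)
    have hx1 : x ∈ T ∩ nb G A D := by
      rw [hx]
      exact Finset.mem_singleton_self x
    have hxT := (Finset.mem_inter.1 hx1).1
    by_cases hxp : x = p
    · -- every element of D sees p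
      have h2 : T' ∩ nb G A D ⊆ {p} := by
        intro w hw
        obtain ⟨hw1, hw2⟩ := Finset.mem_inter.1 hw
        obtain ⟨_, d, hd, hdw⟩ := mem_nb.1 hw2
        have hdT : d ∉ T := fun h => Finset.disjoint_left.1 hTD h hd
        have hdT' : d ∉ T' := fun h => Finset.disjoint_left.1 hT'D h hd
        obtain ⟨u, hu, hdu, _⟩ := hPr T hT h3 d (hD.1 hd) hdT
        have hu1 : u ∈ T ∩ nb G A D := Finset.mem_inter.2 ⟨hu, mem_nb.2 ⟨hT hu, d, hd, hdu.symm⟩⟩
        rw [hx, Finset.mem_singleton] at hu1
        obtain ⟨u', hu', _, huniq⟩ := hPr T' hT' h3' d (hD.1 hd) hdT'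
        have e1 := huniq w hw1 hdw.symm
        have e2 := huniq p hp' (by rw [← hxp, ← hu1]; exact hdu)
        rw [Finset.mem_singleton, e1, e2]
      have h4 := MM_of_disj (G := G) (A := A) hT'D
      have h5 := Finset.card_le_card h2
      rw [Finset.card_singleton] at h5
      omega
    · have hpD : p ∉ nb G A D := by
        intro h2
        have h4 : p ∈ T ∩ nb G A D := Finset.mem_inter.2 ⟨hp, h2⟩
        rw [hx, Finset.mem_singleton] at h4
        exact hxp h4.symm
      have hpE : p ∉ E := fun h => Finset.disjoint_left.1 hTE hp h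
      obtain ⟨_, w, hwT', hwN, hwall⟩ := MM_two hD hT' h3' hc2
      have hwp : w = p := by
        by_contra hne
        exact hpD (hwall p hp' (Ne.symm hne))
      have hall : ∀ v ∈ T', v ≠ p → v ∈ nb G A E := by
        intro v hv hvp
        exact hmono (hwall v hv (by rw [hwp]; exact hvp))
      have hT'E : Disjoint T' E := by
        rw [Finset.disjoint_left]
        intro v hv hvE
        by_cases hvp : v = p
        · rw [hvp] at hvE
          exact hpE hvE
        · exact Finset.disjoint_left.1 hE.disj (hall v hv hvp) hvE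
      have h5 := MM_of_disj (G := G) (A := A) hT'E
      have h6 : T'.erase p ⊆ T' ∩ nb G A E := by
        intro v hv
        obtain ⟨h7, h8⟩ := Finset.mem_erase.1 hv
        exact Finset.mem_inter.2 ⟨h8, hall v h8 h7⟩
      have h7 := Finset.card_le_card h6
      rw [Finset.card_erase_of_mem hp', h3'.card_eq] at h7
      have h8 : MM G A E T = 3 := by omega
      have h9 := (MM_three hE hT h3 h8).1 hp
      have h10 : T' ⊆ nb G A E := by
        intro v hv
        by_cases hvp : v = p
        · rw [hvp]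
          exact h9
        · exact hall v hv hvp
      rw [Finset.inter_eq_left.2 h10, h3'.card_eq] at h5
      omega

end Pool.Agent.H.MP_ebc13b_lc.h46
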