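import Pool.Agent.H.MP_ebc13b_lc.h46.Defs

/-!
The rows of the stable sets.
-/

namespace Pool.Agent.H.MP_ebc13b_lc.h46

variable {α : Type*} [DecidableEq α] {G : SimpleGraph α} {A P D : Finset α}
  {O : α → Finset (Finset α)} {z : Finset α → ℝ} {y : α → α → ℝ}

/-- `nb G A D ⊆ A` and `D ⊆ A`: count both sides (`Finset.sum_sub_distrib`, `Finset.sum_ite_mem`,
`Finset.card_eq_sum_ones`, `Finset.inter_eq_right`). -/
theorem cc_eq_sum (hD : Stab G A D) : cc G A D = ∑ v ∈ A, chi G A D v := by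
  unfold cc chi
  rw [Finset.sum_sub_distrib, Finset.sum_ite_mem, Finset.sum_ite_mem,
    Finset.inter_eq_right.2 nb_sub, Finset.inter_eq_right.2 hD.1]
  simp

theorem MM_eq_sum (T : Finset α) : MM G A D T = ∑ v ∈ T, chi G A D v := by
  unfold MM chi
  rw [Finset.sum_sub_distrib, Finset.sum_ite_mem, Finset.sum_ite_mem]
  simp

/-- If `u ∈ D` then `v ∈ N(D)`, and `v ∉ D` (`Stab.disj`), so the sum is `-1 + 1`; symmetric for
`v ∈ D`; if both are outside `D` both signs are nonnegative. -/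
theorem chi_edge (hD : Stab G A D) {u v : α} (hu : u ∈ A) (hv : v ∈ A) (h : G.Adj u v) :
    0 ≤ chi G A D u + chi G A D v := by
  have h1 : u ∈ D → v ∈ nb G A D := fun hu' => mem_nb.2 ⟨hv, u, hu', h.symm⟩
  have h2 : v ∈ D → u ∈ nb G A D := fun hv' => mem_nb.2 ⟨hu, v, hv', h⟩
  have h3 := fun (x : α) (hx : x ∈ nb G A D) => Finset.disjoint_left.1 hD.disj hx
  unfold chi
  by_cases hu1 : u ∈ D
  · have h4 := h1 hu1
    have h5 := h3 v h4
    have h6 : u ∉ nb G A D := fun h7 => h3 u h7 hu1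
    rw [if_pos hu1, if_pos h4, if_neg h5, if_neg h6]
    norm_num
  · by_cases hv1 : v ∈ D
    · have h4 := h2 hv1
      have h6 : v ∉ nb G A D := fun h7 => h3 v h7 hv1
      rw [if_neg hu1, if_pos hv1, if_pos h4, if_neg h6]
      norm_num
    · rw [if_neg hu1, if_neg hv1]
      split_ifs <;> norm_num

/-- Multiply the cover equation of every `v ∈ A` by `chi v` and sum over `v ∈ A`. The left sides
give `∑ v ∈ A, ∑ u ∈ A, chi v * y v u + ∑ p ∈ P, ∑ T ∈ O p, z T * MM T` (exchange the sums, for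
`T ⊆ A` the sum over `v ∈ A` of `chi v * (if v ∈ T then z T else 0)` is `z T * ∑ v ∈ T, chi v`,
`MM_eq_sum`), the right sides give `cc` (`cc_eq_sum`). Finally
`2 * ∑ v, ∑ u, chi v * y v u = ∑ v, ∑ u, y v u * (chi v + chi u)` by the symmetry of `y`
(`Finset.sum_comm`). -/
theorem row_eq (hS : Slots G A P O) (hx : FSol G A P O z y) (hD : Stab G A D) :
    2 * ((cc G A D : ℝ) - ∑ p ∈ P, ∑ T ∈ O p, z T * (MM G A D T : ℝ)) =
      ∑ v ∈ A, ∑ u ∈ A, y v u * ((chi G A D v : ℝ) + (chi G A D u : ℝ)) := by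
  have h1 : (cc G A D : ℝ) = ∑ v ∈ A, (chi G A D v : ℝ) * (∑ u ∈ A, y v u + load P O z v) := by
    rw [cc_eq_sum hD]
    push_cast
    apply Finset.sum_congr rfl
    intro v hv
    rw [hx.cover v hv, mul_one]
  have h2 : ∑ v ∈ A, (chi G A D v : ℝ) * load P O z v =
      ∑ p ∈ P, ∑ T ∈ O p, z T * (MM G A D T : ℝ) := by
    unfold load
    simp only [Finset.mul_sum]
    rw [Finset.sum_comm]
    apply Finset.sum_congr rfl
    intro p hp
    rw [Finset.sum_comm]
    apply Finset.sum_congr rfl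
    intro T hT
    rw [MM_eq_sum, Int.cast_sum, Finset.mul_sum, ← Finset.inter_eq_right.2 (hS.sub p hp T hT),
      ← Finset.sum_ite_mem]
    apply Finset.sum_congr rfl
    intro v _
    rw [Finset.inter_eq_right.2 (hS.sub p hp T hT)]
    split_ifs
    · ring
    · ring
  have h3 : ∑ v ∈ A, ∑ u ∈ A, y v u * ((chi G A D v : ℝ) + (chi G A D u : ℝ)) =
      2 * ∑ v ∈ A, (chi G A D v : ℝ) * ∑ u ∈ A, y v u := by
    simp only [mul_add, Finset.sum_add_distrib]
    have h4 : ∑ v ∈ A, ∑ u ∈ A, y v u * (chi G A D u : ℝ) =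
        ∑ v ∈ A, ∑ u ∈ A, y v u * (chi G A D v : ℝ) := by
      rw [Finset.sum_comm]
      apply Finset.sum_congr rfl
      intro v _
      apply Finset.sum_congr rfl
      intro u _
      rw [hx.ysymm u v]
    rw [h4, ← two_mul]
    congr 1
    apply Finset.sum_congr rfl
    intro v _
    rw [Finset.mul_sum]
    apply Finset.sum_congr rfl
    intro u _
    ring
  rw [h3, h1]
  simp only [mul_add, Finset.sum_add_distrib]
  rw [h2]
  ring

theorem row_aux (hx : FSol G A P O z y) (hD : Stab G A D) {u v : α} :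
    0 ≤ y v u * ((chi G A D v : ℝ) + (chi G A D u : ℝ)) := by
  by_cases h : y v u = 0
  · rw [h, zero_mul]
  · obtain ⟨h1, h2, h3⟩ := hx.yE v u h
    apply mul_nonneg (hx.y0 v u)
    have h4 := chi_edge hD h2 h3 h1
    exact_mod_cast h4

/-- All terms on the right side of `row_eq` are nonnegative: `y v u = 0` or `v, u` are adjacent
vertices of `A` (`yE`) and `chi_edge` (cast to the reals). -/
theorem row_le (hS : Slots G A P O) (hx : FSol G A P O z y) (hD : Stab G A D) :
    ∑ p ∈ P, ∑ T ∈ O p, z T * (MM G A D T : ℝ) ≤ (cc G A D : ℝ) := by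
  have h1 := row_eq hS hx hD
  have h2 : 0 ≤ ∑ v ∈ A, ∑ u ∈ A, y v u * ((chi G A D v : ℝ) + (chi G A D u : ℝ)) :=
    Finset.sum_nonneg fun v _ => Finset.sum_nonneg fun u _ => row_aux hx hD
  linarith

/-- All the nonnegative terms on the right side of `row_eq` are zero. -/
theorem tight_edge (hS : Slots G A P O) (hx : FSol G A P O z y) (hD : Stab G A D)
    (ht : Tight G A P O z D) {u v : α} (hy : y u v ≠ 0) :
    chi G A D u + chi G A D v = 0 := by
  have h1 := row_eq hS hx hD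
  unfold Tight at ht
  rw [ht, sub_self, mul_zero] at h1
  obtain ⟨h2, h3, h4⟩ := hx.yE u v hy
  have h5 := (Finset.sum_eq_zero_iff_of_nonneg (fun v _ => Finset.sum_nonneg
    fun u _ => row_aux hx hD)).1 h1.symm u h3
  have h6 := (Finset.sum_eq_zero_iff_of_nonneg (fun u _ => row_aux hx hD)).1 h5 v h4
  rcases mul_eq_zero.1 h6 with h7 | h7
  · exact absurd h7 hy
  · exact_mod_cast h7

end Pool.Agent.H.MP_ebc13b_lc.h46
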