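import Pool.Agent.H.MP_ebc13b_lc.h46.Mx
import Pool.Agent.H.MP_ebc13b_lc.h46.Row

/-!
Level sets of potentials.
-/

namespace Pool.Agent.H.MP_ebc13b_lc.h46

variable {α : Type*} [DecidableEq α] {G : SimpleGraph α} {A P : Finset α}

open Classical in
/-- the level set -/
noncomputable def lev (A : Finset α) (ν : α → ℝ) (s : ℝ) : Finset α := A.filter (fun v => s ≤ ν v)

theorem lev_stab {ν : α → ℝ} (h : Pot G A ν) {s : ℝ} (hs : 0 < s) : Stab G A (lev A ν s) := by
  classical
  constructor
  · exact Finset.filter_subset _ _
  · intro u hu v hv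
    unfold lev at hu hv
    rw [Finset.mem_filter] at hu hv
    exact h.stab u v (hs.trans_le hu.2).ne' (hs.trans_le hv.2).ne'

theorem lev_anti {ν : α → ℝ} {s t : ℝ} (h : s ≤ t) : lev A ν t ⊆ lev A ν s := by
  classical
  intro v hv
  unfold lev at hv ⊢
  rw [Finset.mem_filter] at hv ⊢
  exact ⟨hv.1, h.trans hv.2⟩

theorem Peel_mx_nn {ν : α → ℝ} (v : α) : 0 ≤ mx G A ν v :=
  (mx_le_iff.1 (le_refl (mx G A ν v))).1

theorem Peel_le_mx {ν : α → ℝ} {u v : α} (hu : u ∈ A) (h : G.Adj v u) : ν u ≤ mx G A ν v :=
  (mx_le_iff.1 (le_refl (mx G A ν v))).2 u hu h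

/-- Layer cake. If all the level sets satisfy the inequality for the triangles `S p`, then the
potential satisfies it.

Proof. Induction on the number of `v ∈ A` with `ν v ≠ 0`. If it is zero, then `ν = 0`, `mx = 0` and
both sides are `0`. Otherwise let `D = {v ∈ A | ν v ≠ 0}`, `ε > 0` the minimum of `ν` on `D`
(`Finset.exists_min_image`), so `D = lev A ν ε`, and `ν' v = ν v - ε` on `D`, `0` elsewhere. `ν'` is a
`Pot` with smaller support. For `s > 0`: `lev A ν' s = lev A ν (s + ε)`, so the hypothesis holds for
`ν'`. For every `v`: `ν v = ν' v + ε * [v ∈ D]` and for `v ∈ A`: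
`mx G A ν v = mx G A ν' v + ε * [v ∈ nb G A D]` (if `v ∉ N(D)` both are `0`; if `v ∈ N(D)` then for
`c > 0`... show both inequalities with `mx_le_iff`, `le_mx_iff`). So for `v ∈ A`:
`mx ν v - ν v = (mx ν' v - ν' v) + ε * chi G A D v`. Sum over `v ∈ A` (`cc_eq_sum`) and over
`v ∈ S p` (`MM_eq_sum`), use the induction hypothesis and the hypothesis for `s = ε`. -/
theorem layer (S : α → Finset α) (hSA : ∀ p ∈ P, S p ⊆ A) {ν : α → ℝ} (h : Pot G A ν)
    (hlev : ∀ s > 0, ∑ p ∈ P, MM G A (lev A ν s) (S p) ≤ cc G A (lev A ν s)) :
    ∑ p ∈ P, ∑ v ∈ S p, (mx G A ν v - ν v) ≤ ∑ v ∈ A, (mx G A ν v - ν v) := by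
  classical
  have main : ∀ (n : ℕ) (ν : α → ℝ), (A.filter (fun v => ν v ≠ 0)).card = n → Pot G A ν →
      (∀ s > 0, ∑ p ∈ P, MM G A (lev A ν s) (S p) ≤ cc G A (lev A ν s)) →
      ∑ p ∈ P, ∑ v ∈ S p, (mx G A ν v - ν v) ≤ ∑ v ∈ A, (mx G A ν v - ν v) := by
    intro n
    induction n using Nat.strong_induction_on with
    | _ n ih =>
    intro ν hn hν hlv
    rcases (A.filter (fun v => ν v ≠ 0)).eq_empty_or_nonempty with h0 | hne
    · have hz : ∀ v, ν v = 0 := by
        intro v
        by_cases hv : v ∈ A
        · by_contra hvn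
          have : v ∈ A.filter (fun v => ν v ≠ 0) := Finset.mem_filter.2 ⟨hv, hvn⟩
          rw [h0] at this
          simp at this
        · exact hν.out v hv
      have hm : ∀ v, mx G A ν v = 0 := by
        intro v
        apply le_antisymm
        · rw [mx_le_iff]
          exact ⟨le_refl _, fun u _ _ => (hz u).le⟩
        · exact Peel_mx_nn v
      simp [hz, hm]
    · obtain ⟨w, hw, hmin⟩ := Finset.exists_min_image _ ν hne
      rw [Finset.mem_filter] at hw
      have hε : 0 < ν w := lt_of_le_of_ne (hν.nn w) (Ne.symm hw.2)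
      have hD : lev A ν (ν w) = A.filter (fun v => ν v ≠ 0) := by
        ext v
        rw [lev, Finset.mem_filter, Finset.mem_filter]
        constructor
        · rintro ⟨h1, h2⟩
          exact ⟨h1, (hε.trans_le h2).ne'⟩
        · rintro ⟨h1, h2⟩
          exact ⟨h1, hmin v (Finset.mem_filter.2 ⟨h1, h2⟩)⟩
      have hDst := lev_stab hν hε
      have hmemD : ∀ v, v ∈ lev A ν (ν w) ↔ ν v ≠ 0 := by
        intro v
        rw [hD, Finset.mem_filter]
        constructor
        · exact fun h => h.2
        · intro h
          refine ⟨?_, h⟩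
          by_contra hvA
          exact h (hν.out v hvA)
      have hwD : ∀ v, v ∈ lev A ν (ν w) → ν w ≤ ν v := by
        intro v hv
        rw [hD] at hv
        exact hmin v hv
      obtain ⟨ν', hν'⟩ : ∃ ν' : α → ℝ, ∀ v, ν' v = ν v -
          ν w * (if v ∈ lev A ν (ν w) then 1 else 0) := ⟨_, fun _ => rfl⟩
      have hin : ∀ v, v ∈ lev A ν (ν w) → ν' v = ν v - ν w := by
        intro v hv
        rw [hν', if_pos hv, mul_one]
      have hout : ∀ v, v ∉ lev A ν (ν w) → ν' v = 0 ∧ ν v = 0 := by
        intro v hv
        have h1 : ν v = 0 := by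
          by_contra h
          exact hv ((hmemD v).2 h)
        rw [hν', if_neg hv, mul_zero, sub_zero]
        exact ⟨h1, h1⟩
      have hle : ∀ v, ν' v ≤ ν v := by
        intro v
        by_cases hv : v ∈ lev A ν (ν w)
        · rw [hin v hv]
          linarith
        · rw [(hout v hv).1, (hout v hv).2]
      have hne0 : ∀ v, ν' v ≠ 0 → ν v ≠ 0 := by
        intro v hv h
        have hv' : v ∉ lev A ν (ν w) := fun h1 => (hmemD v).1 h1 h
        exact hv (hout v hv').1
      have hpot : Pot G A ν' := by
        constructor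
        · intro v
          by_cases hv : v ∈ lev A ν (ν w)
          · rw [hin v hv]
            linarith [hwD v hv]
          · rw [(hout v hv).1]
        · intro v hv
          have hv' : v ∉ lev A ν (ν w) := fun h1 => (hmemD v).1 h1 (hν.out v hv)
          exact (hout v hv').1
        · intro u v hu hv
          exact hν.stab u v (hne0 u hu) (hne0 v hv)
      have hcard : (A.filter (fun v => ν' v ≠ 0)).card < n := by
        rw [← hn]
        apply Finset.card_lt_card
        rw [Finset.ssubset_iff_of_subset]
        · refine ⟨w, Finset.mem_filter.2 hw, ?_⟩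
          rw [Finset.mem_filter, not_and, not_not]
          intro _
          rw [hin w ((hmemD w).2 hw.2), sub_self]
        · intro v hv
          rw [Finset.mem_filter] at hv ⊢
          exact ⟨hv.1, hne0 v hv.2⟩
      have hlev' : ∀ s > 0, lev A ν' s = lev A ν (s + ν w) := by
        intro s hs
        ext v
        rw [lev, lev, Finset.mem_filter, Finset.mem_filter]
        by_cases hv : v ∈ lev A ν (ν w)
        · rw [hin v hv]
          constructor
          · rintro ⟨h1, h2⟩
            exact ⟨h1, by linarith⟩
          · rintro ⟨h1, h2⟩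
            exact ⟨h1, by linarith⟩
        · rw [(hout v hv).1, (hout v hv).2]
          constructor
          · rintro ⟨h1, h2⟩
            linarith
          · rintro ⟨h1, h2⟩
            linarith
      have key := ih _ hcard ν' rfl hpot (fun s hs => by
        rw [hlev' s hs]
        exact hlv (s + ν w) (by linarith))
      have hmx : ∀ v ∈ A, mx G A ν v = mx G A ν' v +
          ν w * (if v ∈ nb G A (lev A ν (ν w)) then 1 else 0) := by
        intro v hv
        by_cases hvN : v ∈ nb G A (lev A ν (ν w))
        · rw [if_pos hvN, mul_one]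
          obtain ⟨_, d, hd, hvd⟩ := mem_nb.1 hvN
          have hdA : d ∈ A := hDst.1 hd
          apply le_antisymm
          · rw [mx_le_iff]
            refine ⟨by linarith [Peel_mx_nn (G := G) (A := A) (ν := ν') v], ?_⟩
            intro u hu huv
            have h1 := Peel_le_mx (ν := ν') hu huv
            by_cases hu' : u ∈ lev A ν (ν w)
            · rw [hin u hu'] at h1
              linarith
            · rw [(hout u hu').2]
              linarith [Peel_mx_nn (G := G) (A := A) (ν := ν') v]
          · have h2 : mx G A ν' v ≤ mx G A ν v - ν w := by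
              have h3 := Peel_le_mx (ν := ν) hdA hvd
              have h4 := hwD d hd
              rw [mx_le_iff]
              refine ⟨by linarith, ?_⟩
              intro u hu huv
              by_cases hu' : u ∈ lev A ν (ν w)
              · rw [hin u hu']
                have h1 := Peel_le_mx (ν := ν) hu huv
                linarith
              · rw [(hout u hu').1]
                linarith
            linarith
        · rw [if_neg hvN, mul_zero, add_zero]
          have hu0 : ∀ u ∈ A, G.Adj v u → u ∉ lev A ν (ν w) := by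
            intro u hu huv hu'
            exact hvN (mem_nb.2 ⟨hv, u, hu', huv⟩)
          have h1 : mx G A ν v = 0 := by
            apply le_antisymm
            · rw [mx_le_iff]
              exact ⟨le_refl _, fun u hu huv => ((hout u (hu0 u hu huv)).2).le⟩
            · exact Peel_mx_nn v
          have h2 : mx G A ν' v = 0 := by
            apply le_antisymm
            · rw [mx_le_iff]
              exact ⟨le_refl _, fun u hu huv => ((hout u (hu0 u hu huv)).1).le⟩
            · exact Peel_mx_nn v
          rw [h1, h2]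
      have hdiff : ∀ v ∈ A, mx G A ν v - ν v = (mx G A ν' v - ν' v) +
          ν w * (chi G A (lev A ν (ν w)) v : ℝ) := by
        intro v hv
        rw [hmx v hv, hν' v]
        unfold chi
        push_cast
        ring
      have hsumA : ∑ v ∈ A, (mx G A ν v - ν v) = ∑ v ∈ A, (mx G A ν' v - ν' v) +
          ν w * (cc G A (lev A ν (ν w)) : ℝ) := by
        rw [Finset.sum_congr rfl hdiff, Finset.sum_add_distrib, ← Finset.mul_sum,
          cc_eq_sum hDst]
        push_cast
        rfl
      have hsumS : ∀ p ∈ P, ∑ v ∈ S p, (mx G A ν v - ν v) = ∑ v ∈ S p, (mx G A ν' v - ν' v) +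
          ν w * (MM G A (lev A ν (ν w)) (S p) : ℝ) := by
        intro p hp
        rw [Finset.sum_congr rfl (fun v hv => hdiff v (hSA p hp hv)), Finset.sum_add_distrib,
          ← Finset.mul_sum, MM_eq_sum]
        push_cast
        rfl
      rw [hsumA, Finset.sum_congr rfl hsumS, Finset.sum_add_distrib, ← Finset.mul_sum]
      have h5 : (∑ p ∈ P, (MM G A (lev A ν (ν w)) (S p) : ℝ)) ≤
          (cc G A (lev A ν (ν w)) : ℝ) := by
        exact_mod_cast hlv (ν w) hε
      have h6 := mul_le_mul_of_nonneg_left h5 hε.le
      linarith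
  exact main _ ν rfl h hlev

end Pool.Agent.H.MP_ebc13b_lc.h46
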