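import Pool.Agent.H.MP_ebc13b_lc.h46.Dual
import Pool.Agent.H.MP_ebc13b_lc.h46.Peel
import Pool.Agent.H.MP_ebc13b_lc.h46.LemC

/-!
An infeasible slot system has a violated row.
-/

namespace Pool.Agent.H.MP_ebc13b_lc.h46

variable {α : Type*} [DecidableEq α] {G : SimpleGraph α} {A P : Finset α}
  {O : α → Finset (Finset α)}

/-- A finite nonempty set has a minimum for a transitive relation which is total on it. -/
theorem FT2_min {β : Type*} (R : β → β → Prop) (htr : ∀ a b c, R a b → R b c → R a c)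
    (s : Finset β) (hs : s.Nonempty) (htot : ∀ a ∈ s, ∀ b ∈ s, R a b ∨ R b a) :
    ∃ a ∈ s, ∀ b ∈ s, R a b := by
  classical
  induction hs using Finset.Nonempty.cons_induction with
  | singleton a =>
    refine ⟨a, Finset.mem_singleton_self a, fun b hb => ?_⟩
    rw [Finset.mem_singleton] at hb
    subst hb
    rcases htot b (Finset.mem_singleton_self b) b (Finset.mem_singleton_self b) with h | h <;>
      exact h
  | cons a s ha hs ih =>
    obtain ⟨c, hc, hmin⟩ := ih fun x hx y hy =>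
      htot x (Finset.mem_cons_of_mem hx) y (Finset.mem_cons_of_mem hy)
    have haa : R a a := by
      rcases htot a (Finset.mem_cons_self a s) a (Finset.mem_cons_self a s) with h | h <;> exact h
    rcases htot a (Finset.mem_cons_self a s) c (Finset.mem_cons_of_mem hc) with h | h
    · refine ⟨a, Finset.mem_cons_self a s, fun b hb => ?_⟩
      rcases Finset.mem_cons.1 hb with rfl | hb
      · exact haa
      · exact htr _ _ _ h (hmin b hb)
    · refine ⟨c, Finset.mem_cons_of_mem hc, fun b hb => ?_⟩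
      rcases Finset.mem_cons.1 hb with rfl | hb
      · exact h
      · exact hmin b hb

/-- A common minimiser for all level sets.

Proof. Write `T ≼ T'` if `MM (lev s) T ≤ MM (lev s) T'` for all `s > 0`. For `T, T' ∈ O p` one of
`T ≼ T'`, `T' ≼ T` holds: otherwise there are `s, s' > 0` with `MM (lev s) T' < MM (lev s) T` and
`MM (lev s') T < MM (lev s') T'`; the level sets are nested (`lev_anti`) and stable, contradiction to
`lemmaC` (in one of the two orders). `≼` is transitive. Induction on the finite set `O p`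
(`Finset.Nonempty.cons_induction` or `Finset.induction_on`) gives a minimum. -/
theorem common_min (hPr : Prism G A) (hS : Slots G A P O) {p : α} (hp : p ∈ P)
    (hne : (O p).Nonempty) {ν : α → ℝ} (h : Pot G A ν) :
    ∃ T ∈ O p, ∀ s > 0, ∀ T' ∈ O p, MM G A (lev A ν s) T ≤ MM G A (lev A ν s) T' := by
  obtain ⟨T, hT, hmin⟩ := FT2_min
    (fun T T' : Finset α => ∀ s > 0, MM G A (lev A ν s) T ≤ MM G A (lev A ν s) T')
    (fun a b c h1 h2 s hs => (h1 s hs).trans (h2 s hs)) (O p) hne (by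
      intro T hT T' hT'
      by_contra hcon
      push Not at hcon
      obtain ⟨⟨s, hs, h1⟩, ⟨s', hs', h2⟩⟩ := hcon
      rcases le_total s s' with hss | hss
      · exact lemmaC hPr (lev_stab h hs') (lev_stab h hs) (lev_anti hss) (hS.sub p hp T hT)
          (hS.clq p hp T hT) (hS.sub p hp T' hT') (hS.clq p hp T' hT') (hS.hub p hp T hT)
          (hS.hub p hp T' hT') ⟨h2, h1⟩
      · exact lemmaC hPr (lev_stab h hs) (lev_stab h hs') (lev_anti hss) (hS.sub p hp T' hT')
          (hS.clq p hp T' hT') (hS.sub p hp T hT) (hS.clq p hp T hT) (hS.hub p hp T' hT')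
          (hS.hub p hp T hT) ⟨h1, h2⟩)
  exact ⟨T, hT, fun s hs T' hT' => hmin T' hT' s hs⟩

/-- FT2. Proof: `dual_cert`, `reduce_cert`, `common_min` for every `p ∈ P` (choose `S p`), so
`∑ v ∈ A, (mx ν v - ν v) < ∑ p ∈ P, l' p ≤ ∑ p ∈ P, ∑ v ∈ S p, (mx ν v - ν v)`; by `layer` there
is `s > 0` with `cc (lev s) < ∑ p ∈ P, MM (lev s) (S p)`; take `D = lev s`, `m p = MM D (S p)`. -/
theorem ft2 (hPr : Prism G A) (hS : Slots G A P O) (hne : ∀ p ∈ P, (O p).Nonempty)
    (hinf : ¬ Feas G A P O) :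
    ∃ D, Stab G A D ∧ ∃ m : α → ℤ, (∀ p ∈ P, ∀ T ∈ O p, m p ≤ MM G A D T) ∧
      cc G A D < ∑ p ∈ P, m p := by
  classical
  obtain ⟨π, l, h1, h2, h3⟩ := dual_cert hS hne hinf
  obtain ⟨ν, l', hν, h4, h5⟩ := reduce_cert hS h1 h2 h3
  have hex : ∀ p : α, ∃ T : Finset α, p ∈ P → (T ∈ O p ∧
      ∀ s > 0, ∀ T' ∈ O p, MM G A (lev A ν s) T ≤ MM G A (lev A ν s) T') := by
    intro p
    by_cases hp : p ∈ P
    · obtain ⟨T, hT, hmin⟩ := common_min hPr hS hp (hne p hp) hν
      exact ⟨T, fun _ => ⟨hT, hmin⟩⟩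
    · exact ⟨∅, fun h => absurd h hp⟩
  choose S hSp using hex
  have key : ∃ s > 0, cc G A (lev A ν s) < ∑ p ∈ P, MM G A (lev A ν s) (S p) := by
    by_contra hcon
    push Not at hcon
    have h6 := layer (G := G) S (fun p hp => hS.sub p hp _ (hSp p hp).1) hν hcon
    have h7 : ∑ p ∈ P, l' p ≤ ∑ p ∈ P, ∑ v ∈ S p, (mx G A ν v - ν v) :=
      Finset.sum_le_sum fun p hp => h4 p hp (S p) (hSp p hp).1
    linarith
  obtain ⟨s, hs, h6⟩ := key
  exact ⟨lev A ν s, lev_stab hν hs, fun p => MM G A (lev A ν s) (S p),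
    fun p hp T hT => (hSp p hp).2 s hs T hT, h6⟩

/-- Conversely the rows hold for fractional solutions: `∑ p, m p ≤ ∑ p, ∑ T ∈ O p, z T * MM T`,
because the `z T`, `T ∈ O p`, are nonnegative with sum 1; `row_le`. -/
theorem ft2_conv (hS : Slots G A P O) (hF : Feas G A P O) {D : Finset α} (hD : Stab G A D)
    {m : α → ℤ} (hm : ∀ p ∈ P, ∀ T ∈ O p, m p ≤ MM G A D T) : ∑ p ∈ P, m p ≤ cc G A D := by
  obtain ⟨z, y, hx⟩ := hF
  have h1 := row_le hS hx hD
  have h2 : ∑ p ∈ P, (m p : ℝ) ≤ ∑ p ∈ P, ∑ T ∈ O p, z T * (MM G A D T : ℝ) := by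
    refine Finset.sum_le_sum fun p hp => ?_
    calc (m p : ℝ) = ∑ T ∈ O p, z T * (m p : ℝ) := by
          rw [← Finset.sum_mul, hx.z1 p hp, one_mul]
      _ ≤ ∑ T ∈ O p, z T * (MM G A D T : ℝ) :=
          Finset.sum_le_sum fun T hT => mul_le_mul_of_nonneg_left
            (by exact_mod_cast hm p hp T hT) (hx.z0 p hp T hT)
  have h3 := h2.trans h1
  exact_mod_cast h3

end Pool.Agent.H.MP_ebc13b_lc.h46
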