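import Pool.Agent.H.MP_ebc13b_lc.h61.Alg

/-!
Searching for families of disjoint columns of bounded size, and quantifying over sets of bounded
size, in polynomial time.
-/

namespace Pool.Agent.H.MP_ebc13b_lc.h46

open Pool.Agent.H.MP_5be563_lc.PT Pool.Agent.H.MP_ebc13b_lc.h61

/-- Is there a family of at most `d` columns of `L`, disjoint to each other and to the columns of
`acc`, such that the family and `acc` together satisfy `P`? -/
def exS (L : List (List ℕ)) (P : List (List ℕ) → Bool) : ℕ → List (List ℕ) → Bool
  | 0, acc => P acc
  | d + 1, acc => P acc ||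
      L.any fun c => (c.all fun v => !memb v acc.flatten) && exS L P d (c :: acc)

/-- Do all lists of at most `d` elements of `V`, put in front of `acc`, satisfy `P`? -/
def allS (V : List ℕ) (P : List ℕ → Bool) : ℕ → List ℕ → Bool
  | 0, acc => P acc
  | d + 1, acc => P acc && V.all fun v => allS V P d (v :: acc)

/-- Proof: induction on `d`; `l` for `c :: acc` corresponds to `l ++ [c]` for `acc`. -/
theorem exS_iff {L : List (List ℕ)} {P : List (List ℕ) → Bool} (d : ℕ) (acc : List (List ℕ))
    (hacc : acc.Pairwise List.Disjoint) : exS L P d acc = true ↔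
      ∃ l : List (List ℕ), l.length ≤ d ∧ (∀ c ∈ l, c ∈ L) ∧ (l ++ acc).Pairwise List.Disjoint ∧
        P (l ++ acc) = true := by
  induction d generalizing acc with
  | zero =>
    constructor
    · intro h
      exact ⟨[], Nat.le_refl _, by simp, by simpa using hacc, h⟩
    · rintro ⟨l, h1, -, -, h2⟩
      have e : l = [] := List.length_eq_zero_iff.1 (Nat.le_zero.1 h1)
      subst e
      exact h2
  | succ d ih =>
    have hkey : exS L P (d + 1) acc = true ↔ P acc = true ∨ ∃ c ∈ L,
        (∀ v ∈ c, v ∉ acc.flatten) ∧ exS L P d (c :: acc) = true := by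
      simp only [exS, Bool.or_eq_true, List.any_eq_true, Bool.and_eq_true, List.all_eq_true,
        Bool.not_eq_true', memb_false]
    rw [hkey]
    constructor
    · rintro (h | ⟨c, hc, hd, h⟩)
      · exact ⟨[], Nat.zero_le _, by simp, by simpa using hacc, h⟩
      · have hacc' : (c :: acc).Pairwise List.Disjoint := by
          refine List.Pairwise.cons ?_ hacc
          intro a ha v hv hva
          exact hd v hv (List.mem_flatten.2 ⟨a, ha, hva⟩)
        obtain ⟨l, h1, h2, h3, h4⟩ := (ih (c :: acc) hacc').1 h
        refine ⟨l ++ [c], ?_, ?_, ?_, ?_⟩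
        · rw [List.length_append, List.length_singleton]
          omega
        · intro c' hc'
          rcases List.mem_append.1 hc' with h5 | h5
          · exact h2 c' h5
          · rw [List.mem_singleton.1 h5]
            exact hc
        · rw [List.append_assoc]
          exact h3
        · rw [List.append_assoc]
          exact h4
    · rintro ⟨l, h1, h2, h3, h4⟩
      rcases List.eq_nil_or_concat' l with rfl | ⟨l', c, rfl⟩
      · exact Or.inl h4
      · right
        rw [List.append_assoc, List.singleton_append] at h3 h4
        rw [List.length_append, List.length_singleton] at h1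
        have hacc' : (c :: acc).Pairwise List.Disjoint := (List.pairwise_append.1 h3).2.1
        refine ⟨c, h2 c (by simp), ?_, ?_⟩
        · intro v hv hva
          obtain ⟨a, ha, hva'⟩ := List.mem_flatten.1 hva
          exact (List.pairwise_cons.1 hacc').1 a ha hv hva'
        · exact (ih (c :: acc) hacc').2 ⟨l', by omega,
            fun c' hc' => h2 c' (List.mem_append_left _ hc'), h3, h4⟩

theorem exS_nil {L : List (List ℕ)} {P : List (List ℕ) → Bool} (d : ℕ) : exS L P d [] = true ↔
      ∃ l : List (List ℕ), l.length ≤ d ∧ (∀ c ∈ l, c ∈ L) ∧ l.Pairwise List.Disjoint ∧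
        P l = true := by
  rw [exS_iff d [] List.Pairwise.nil]
  simp

/-- Proof: induction on `d`. -/
theorem allS_iff {V : List ℕ} {P : List ℕ → Bool} (d : ℕ) (acc : List ℕ) :
    allS V P d acc = true ↔
      ∀ l : List ℕ, l.length ≤ d → (∀ v ∈ l, v ∈ V) → P (l ++ acc) = true := by
  induction d generalizing acc with
  | zero =>
    constructor
    · intro h l hl _
      have e : l = [] := List.length_eq_zero_iff.1 (Nat.le_zero.1 hl)
      subst e
      exact h
    · intro h
      exact h [] (Nat.le_refl _) (by simp)
  | succ d ih =>
    have hkey : allS V P (d + 1) acc = true ↔ P acc = true ∧ ∀ v ∈ V,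
        allS V P d (v :: acc) = true := by
      simp only [allS, Bool.and_eq_true, List.all_eq_true]
    rw [hkey]
    constructor
    · rintro ⟨h1, h2⟩ l hl hV
      rcases List.eq_nil_or_concat' l with rfl | ⟨l', v, rfl⟩
      · exact h1
      · rw [List.append_assoc, List.singleton_append]
        rw [List.length_append, List.length_singleton] at hl
        exact (ih (v :: acc)).1 (h2 v (hV v (by simp))) l' (by omega)
          fun w hw => hV w (List.mem_append_left _ hw)
    · intro h
      refine ⟨h [] (Nat.zero_le _) (by simp), fun v hv => (ih (v :: acc)).2 fun l hl hlV => ?_⟩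
      have h1 := h (l ++ [v]) (by rw [List.length_append, List.length_singleton]; omega) (by
        intro w hw
        rcases List.mem_append.1 hw with h5 | h5
        · exact hlV w h5
        · rw [List.mem_singleton.1 h5]
          exact hv)
      rwa [List.append_assoc] at h1

theorem allS_nil {V : List ℕ} {P : List ℕ → Bool} (d : ℕ) : allS V P d [] = true ↔
      ∀ l : List ℕ, l.length ≤ d → (∀ v ∈ l, v ∈ V) → P l = true := by
  rw [allS_iff]
  simp

/-- Proof: induction on `d`, generalising the type `α` (in the induction step the context is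
`α × List ℕ`, the second component is `c`), with `Poly.any`, `Poly.all`, `Poly.memb` (`fun_prop`). -/
theorem Poly.exS (d : ℕ) : ∀ {α : Type} [Enc α] {L : α → List (List ℕ)}
    {P : α → List (List ℕ) → Bool} {acc : α → List (List ℕ)}, Poly L →
    Poly (fun p : α × List (List ℕ) => P p.1 p.2) → Poly acc →
    Poly (fun a => h46.exS (L a) (P a) d (acc a)) := by
  induction d with
  | zero =>
    intro α _ L P acc hL hP hacc
    exact hP.comp (g := fun a => (a, acc a)) (by fun_prop)
  | succ d ih =>
    intro α _ L P acc hL hP hacc
    have h1 : Poly (fun a => P a (acc a)) := hP.comp (g := fun a => (a, acc a)) (by fun_prop)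
    have h2 : Poly (fun p : α × List ℕ =>
        (p.2.all fun v => !memb v (acc p.1).flatten) &&
          h46.exS (L p.1) (P p.1) d (p.2 :: acc p.1)) := by
      refine Poly.and (by fun_prop) ?_
      exact ih (α := α × List ℕ) (L := fun p => L p.1) (P := fun p => P p.1)
        (acc := fun p => p.2 :: acc p.1) (by fun_prop)
        (hP.comp (g := fun q : (α × List ℕ) × List (List ℕ) => (q.1.1, q.2)) (by fun_prop))
        (by fun_prop)
    exact Poly.or h1 (Poly.any (f := fun a c => (c.all fun v => !memb v (acc a).flatten) &&
      h46.exS (L a) (P a) d (c :: acc a)) h2 hL)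

/-- Proof: the same. -/
theorem Poly.allS (d : ℕ) : ∀ {α : Type} [Enc α] {V : α → List ℕ} {P : α → List ℕ → Bool}
    {acc : α → List ℕ}, Poly V → Poly (fun p : α × List ℕ => P p.1 p.2) → Poly acc →
    Poly (fun a => h46.allS (V a) (P a) d (acc a)) := by
  induction d with
  | zero =>
    intro α _ V P acc hV hP hacc
    exact hP.comp (g := fun a => (a, acc a)) (by fun_prop)
  | succ d ih =>
    intro α _ V P acc hV hP hacc
    have h1 : Poly (fun a => P a (acc a)) := hP.comp (g := fun a => (a, acc a)) (by fun_prop)
    have h2 : Poly (fun p : α × ℕ => h46.allS (V p.1) (P p.1) d (p.2 :: acc p.1)) :=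
      ih (α := α × ℕ) (V := fun p => V p.1) (P := fun p => P p.1)
        (acc := fun p => p.2 :: acc p.1) (by fun_prop)
        (hP.comp (g := fun q : (α × ℕ) × List ℕ => (q.1.1, q.2)) (by fun_prop))
        (by fun_prop)
    exact Poly.and h1 (Poly.all (f := fun a v => h46.allS (V a) (P a) d (v :: acc a)) h2 hV)

end Pool.Agent.H.MP_ebc13b_lc.h46
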