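import Pool.Agent.H.MP_ebc13b_lc.h46.FinS
import Pool.Agent.H.MP_ebc13b_lc.h61.Inst

/-!
The simple graph of an edge list, the graph induced on a list of vertices with renamed vertices, and
matchings as lists.
-/

namespace Pool.Agent.H.MP_ebc13b_lc.h46

open Pool.Agent.H.MP_5be563_lc.PT Pool.Agent.H.MP_ebc13b_lc.h61 Pool.Agent.H.MP_ebc13b_lc.h53

/-- the simple graph of a list of edges -/
def gr (Es : List (ℕ × ℕ)) : SimpleGraph ℕ where
  Adj a b := a ≠ b ∧ EE Es a b ∧ EE Es b a
  symm := ⟨fun _ _ h => ⟨h.1.symm, h.2.2, h.2.1⟩⟩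
  loopless := ⟨fun _ h => h.1 rfl⟩

variable {Es : List (ℕ × ℕ)} {n : ℕ} {X : Finset ℕ} {V : List ℕ}

theorem gr_adj (hG : Gr X (EE Es)) {a b : ℕ} : (gr Es).Adj a b ↔ EE Es a b := by
  exact ⟨fun h => h.2.1, fun h => ⟨hG.ne h, h, hG.sym _ _ h⟩⟩

theorem prism_gr (hG : Gr X (EE Es)) (hP : Prismatic X (EE Es)) : Prism (gr Es) X := by
  intro T hT h3 v hv hvT
  obtain ⟨a, b, c, hab, hac, hbc, rfl⟩ := Finset.card_eq_three.1 h3.card_eq
  have key : ∀ x ∈ ({a, b, c} : Finset ℕ), ∀ y ∈ ({a, b, c} : Finset ℕ), x ≠ y → EE Es x y :=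
    fun x hx y hy hxy => (gr_adj hG).1 (h3.isClique (by simpa using hx) (by simpa using hy) hxy)
  have htri : Tri (EE Es) a b c :=
    ⟨key a (by simp) b (by simp) hab, key b (by simp) c (by simp) hbc,
      key a (by simp) c (by simp) hac⟩
  simp only [Finset.mem_insert, Finset.mem_singleton, not_or] at hvT
  have hmain : ∀ u ∈ ({a, b, c} : Finset ℕ), EE Es v u →
      (∀ u' ∈ ({a, b, c} : Finset ℕ), u' ≠ u → ¬ EE Es v u') →
      ∃ u ∈ ({a, b, c} : Finset ℕ), (gr Es).Adj v u ∧
        ∀ u' ∈ ({a, b, c} : Finset ℕ), (gr Es).Adj v u' → u' = u := by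
    intro u hu h1 h2
    refine ⟨u, hu, (gr_adj hG).2 h1, ?_⟩
    intro u' hu' h3
    by_contra hne
    exact h2 u' hu' hne ((gr_adj hG).1 h3)
  rcases hP a b c v htri hv hvT.1 hvT.2.1 hvT.2.2 with ⟨h1, h2, h3'⟩ | ⟨h1, h2, h3'⟩ | ⟨h1, h2, h3'⟩
  · refine hmain a (by simp) h1 ?_
    intro u' hu' hne
    simp only [Finset.mem_insert, Finset.mem_singleton] at hu'
    rcases hu' with rfl | rfl | rfl
    · exact absurd rfl hne
    · exact h2
    · exact h3'
  · refine hmain b (by simp) h2 ?_
    intro u' hu' hne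
    simp only [Finset.mem_insert, Finset.mem_singleton] at hu'
    rcases hu' with rfl | rfl | rfl
    · exact h1
    · exact absurd rfl hne
    · exact h3'
  · refine hmain c (by simp) h3' ?_
    intro u' hu' hne
    simp only [Finset.mem_insert, Finset.mem_singleton] at hu'
    rcases hu' with rfl | rfl | rfl
    · exact h1
    · exact h2
    · exact absurd rfl hne

/-- the vertices outside the columns of `K` -/
def rest (n : ℕ) (K : List (List ℕ)) : List ℕ := (List.range n).filter fun v => !memb v K.flatten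

/-- the graph induced on the list `V`, with the vertices renamed `0, 1, …` -/
def relE (Es : List (ℕ × ℕ)) (V : List ℕ) : List (ℕ × ℕ) :=
  (List.range V.length).flatMap fun i =>
    ((List.range V.length).filter fun j => hasE Es (V.getD i 0) (V.getD j 0)).map fun j => (i, j)

theorem nodup_rest {K : List (List ℕ)} : (rest n K).Nodup := List.nodup_range.filter _

theorem mem_rest {K : List (List ℕ)} {v : ℕ} : v ∈ rest n K ↔ v < n ∧ v ∉ K.flatten := by
  unfold rest
  rw [List.mem_filter, List.mem_range, Bool.not_eq_true', memb_false]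

theorem ee_relE {i j : ℕ} : EE (relE Es V) i j ↔
    i < V.length ∧ j < V.length ∧ EE Es (V.getD i 0) (V.getD j 0) := by
  unfold EE relE
  simp only [List.mem_flatMap, List.mem_range, List.mem_map, List.mem_filter, hasE_iff]
  constructor
  · rintro ⟨i', hi', j', ⟨hj', h⟩, he⟩
    rw [Prod.mk.injEq] at he
    obtain ⟨rfl, rfl⟩ := he
    exact ⟨hi', hj', h⟩
  · rintro ⟨hi, hj, h⟩
    exact ⟨i, hi, j, ⟨hj, h⟩, rfl⟩

theorem gr_relE (hG : Gr X (EE Es)) : Gr (Finset.range V.length) (EE (relE Es V)) := by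
  refine ⟨?_, ?_, ?_⟩
  · intro a b h
    obtain ⟨h1, h2, h3⟩ := ee_relE.1 h
    exact ee_relE.2 ⟨h2, h1, hG.sym _ _ h3⟩
  · intro a h
    exact hG.irr _ (ee_relE.1 h).2.2
  · intro a b h
    exact Finset.mem_range.2 (ee_relE.1 h).1

theorem getD_inj (hV : V.Nodup) : ∀ i ∈ Finset.range V.length, ∀ j ∈ Finset.range V.length,
    V.getD i 0 = V.getD j 0 → i = j := by
  intro i hi j hj h
  rw [Finset.mem_range] at hi hj
  rw [List.getD_eq_getElem _ _ hi, List.getD_eq_getElem _ _ hj] at h
  exact (List.Nodup.getElem_inj_iff hV).1 h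

theorem image_getD : (Finset.range V.length).image (fun i => V.getD i 0) = V.toFinset := by
  ext x
  rw [Finset.mem_image, List.mem_toFinset, List.mem_iff_getElem]
  constructor
  · rintro ⟨i, hi, h⟩
    rw [Finset.mem_range] at hi
    refine ⟨i, hi, ?_⟩
    rw [← h, List.getD_eq_getElem _ _ hi]
  · rintro ⟨i, hi, h⟩
    refine ⟨i, Finset.mem_range.2 hi, ?_⟩
    rw [List.getD_eq_getElem _ _ hi]
    exact h

theorem relE_adj (hG : Gr X (EE Es)) : ∀ i ∈ Finset.range V.length, ∀ j ∈ Finset.range V.length,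
    ((gr (relE Es V)).Adj i j ↔ (gr Es).Adj (V.getD i 0) (V.getD j 0)) := by
  intro i hi j hj
  rw [gr_adj (gr_relE hG), gr_adj hG, ee_relE]
  exact ⟨fun h => h.2.2, fun h => ⟨Finset.mem_range.1 hi, Finset.mem_range.1 hj, h⟩⟩

/-- Proof: `sol_image`, `image_getD`. -/
theorem sol_rel (hG : Gr X (EE Es)) (hV : V.Nodup) {t : ℕ} :
    Sol (gr (relE Es V)) (Finset.range V.length) t ↔ Sol (gr Es) V.toFinset t := by
  rw [sol_image (getD_inj hV) (relE_adj hG), image_getD]

theorem pc_rel (hG : Gr X (EE Es)) (hV : V.Nodup) {col : ℕ → ZMod 3}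
    (h : PC (gr Es) V.toFinset col) :
    PC (gr (relE Es V)) (Finset.range V.length) (col ∘ fun i => V.getD i 0) := by
  exact pc_comap (getD_inj hV) (relE_adj hG) (by rw [image_getD]; exact h)

theorem prism_rel (hG : Gr X (EE Es)) (hV : V.Nodup) (h : Prism (gr Es) V.toFinset) :
    Prism (gr (relE Es V)) (Finset.range V.length) := by
  exact prism_comap (getD_inj hV) (relE_adj hG) (by rw [image_getD]; exact h)

@[fun_prop]
theorem Poly.rest {α : Type} [Enc α] {n : α → ℕ} {K : α → List (List ℕ)} (hn : Poly n)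
    (hK : Poly K) : Poly (fun a => h46.rest (n a) (K a)) := by
  unfold h46.rest
  fun_prop

@[fun_prop]
theorem Poly.relE {α : Type} [Enc α] {E : α → List (ℕ × ℕ)} {V : α → List ℕ} (hE : Poly E)
    (hV : Poly V) : Poly (fun a => h46.relE (E a) (V a)) := by
  unfold h46.relE
  fun_prop

/-- Proof. `f v` is the partner of `v` in the pair of `M` containing `v` (unique, as the ends are
distinct). -/
theorem pmon_of_mat (hG : Gr X (EE Es)) {M : List (ℕ × ℕ)} (hM : ∀ p ∈ M, EE Es p.1 p.2)
    (hnd : (ends M).Nodup) : PMon (gr Es) (ends M).toFinset := by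
  refine ⟨mate M, ?_⟩
  intro v hv
  rw [List.mem_toFinset] at hv
  refine ⟨List.mem_toFinset.2 (mate_mem hv), (gr_adj hG).2 ?_, mate_mate hnd v⟩
  rcases mate_cases hv with h | h
  · exact hM _ h
  · exact hG.sym _ _ (hM _ h)

/-- Proof. `M` lists the pairs `(v, f v)` for the `v ∈ W` with `v < f v`. -/
theorem mat_of_pmon (hG : Gr X (EE Es)) {W : Finset ℕ} (h : PMon (gr Es) W) :
    ∃ M : List (ℕ × ℕ), (∀ p ∈ M, EE Es p.1 p.2 ∧ p.1 ∈ W ∧ p.2 ∈ W) ∧ (ends M).Nodup ∧
      2 * M.length = W.card := by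
  obtain ⟨f, hf⟩ := h
  have hne : ∀ v ∈ W, v ≠ f v := fun v hv => hG.ne ((gr_adj hG).1 (hf v hv).2.1)
  have hmem : ∀ v, v ∈ (W.filter (fun v => v < f v)).toList ↔ v ∈ W ∧ v < f v := by
    intro v
    rw [Finset.mem_toList, Finset.mem_filter]
  have hends : ends ((W.filter (fun v => v < f v)).toList.map fun v => (v, f v)) =
      (W.filter (fun v => v < f v)).toList.flatMap fun v => [v, f v] := by
    unfold ends
    rw [List.flatMap_map]
  have hnd : (ends ((W.filter (fun v => v < f v)).toList.map fun v => (v, f v))).Nodup := by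
    rw [hends, List.nodup_flatMap]
    constructor
    · intro v hv
      have h1 := ((hmem v).1 hv).2
      simp only [List.nodup_cons, List.mem_cons, List.not_mem_nil, or_false, not_false_eq_true,
        List.nodup_nil, and_true]
      omega
    · have h1 : (W.filter (fun v => v < f v)).toList.Nodup := Finset.nodup_toList _
      refine List.Pairwise.imp_of_mem ?_ h1
      intro a b ha hb hab
      obtain ⟨haW, ha1⟩ := (hmem a).1 ha
      obtain ⟨hbW, hb1⟩ := (hmem b).1 hb
      have e1 := (hf a haW).2.2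
      have e2 := (hf b hbW).2.2
      simp only [Function.onFun, List.disjoint_left, List.mem_cons, List.not_mem_nil, or_false,
        not_or]
      intro x hx
      rcases hx with rfl | rfl
      · refine ⟨hab, ?_⟩
        intro h
        rw [← h] at e2
        rw [← h] at hb1
        omega
      · constructor
        · intro h
          rw [h] at e1 ha1
          rw [e1] at hb1
          omega
        · intro h
          rw [h, e2] at e1
          exact hab e1.symm
  refine ⟨(W.filter (fun v => v < f v)).toList.map fun v => (v, f v), ?_, hnd, ?_⟩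
  · intro p hp
    obtain ⟨v, hv, rfl⟩ := List.mem_map.1 hp
    obtain ⟨hvW, _⟩ := (hmem v).1 hv
    exact ⟨(gr_adj hG).1 (hf v hvW).2.1, hvW, (hf v hvW).1⟩
  · rw [← length_ends, ← List.toFinset_card_of_nodup hnd]
    congr 1
    ext x
    rw [List.mem_toFinset, hends, List.mem_flatMap]
    constructor
    · rintro ⟨v, hv, hx⟩
      obtain ⟨hvW, _⟩ := (hmem v).1 hv
      simp only [List.mem_cons, List.not_mem_nil, or_false] at hx
      rcases hx with rfl | rfl
      · exact hvW
      · exact (hf v hvW).1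
    · intro hx
      by_cases hlt : x < f x
      · exact ⟨x, (hmem x).2 ⟨hx, hlt⟩, by simp⟩
      · have h1 := hne x hx
        refine ⟨f x, (hmem _).2 ⟨(hf x hx).1, ?_⟩, ?_⟩
        · rw [(hf x hx).2.2]
          omega
        · rw [(hf x hx).2.2]
          simp

end Pool.Agent.H.MP_ebc13b_lc.h46
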