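import Pool.Agent.H.MP_ebc13b_lc.h46.PDefs

/-!
Maximal barriers.
-/

namespace Pool.Agent.H.MP_ebc13b_lc.h46

variable {α : Type*} [DecidableEq α] {G : SimpleGraph α} {W S : Finset α} {c : α → ℕ}

/-- the number of the odd classes is at most the number of the labelled vertices -/
theorem oddl_card_le (hb : Bar G W S c) : S.card + (oddl W S c).card ≤ W.card := by
  have h1 : (oddl W S c).card ≤ (W \ S).card :=
    (Finset.card_filter_le _ _).trans Finset.card_image_le
  have h2 : (W \ S).card + S.card = W.card := Finset.card_sdiff_add_card_eq_card hb.sub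
  omega

/-- the splitting with the smaller side in the barrier -/
private theorem PMax_split (hb : Bar G W S c) (h2 : S.card + 2 ≤ (oddl W S c).card) {i : ℕ}
    (hi : i ∈ oddl W S c) (hK : 2 ≤ (cls W S c i).card) {X : Finset α} (hX : X ⊆ cls W S c i)
    (hX2 : ∀ u ∈ cls W S c i \ X, ∀ v ∈ cls W S c i \ X, ¬ G.Adj u v)
    (hlt : X.card < (cls W S c i \ X).card) :
    ∃ (S' : Finset α) (c' : α → ℕ), Bar G W S' c' ∧ S'.card + 2 ≤ (oddl W S' c').card ∧
      S.card + (oddl W S c).card < S'.card + (oddl W S' c').card := by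
  set K := cls W S c i with hKdef
  set Y := K \ X with hY
  obtain ⟨e, he⟩ := Set.countable_iff_exists_injOn.1 K.countable_toSet
  set N : ℕ := W.sup c + 1 with hN
  have hcN : ∀ v ∈ W, c v < N := fun v hv => Nat.lt_succ_of_le (Finset.le_sup hv)
  have hKm : ∀ v, v ∈ K ↔ (v ∈ W ∧ v ∉ S) ∧ c v = i := fun v => mem_cls
  have hYm : ∀ v, v ∈ Y ↔ v ∈ K ∧ v ∉ X := fun v => Finset.mem_sdiff
  set c' : α → ℕ := fun v => if v ∈ Y then N + e v else c v with hc'
  have hc1 : ∀ v ∈ Y, c' v = N + e v := fun v hv => if_pos hv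
  have hc2 : ∀ v, v ∉ Y → c' v = c v := fun v hv => if_neg hv
  have hXW : X ⊆ W := fun v hv => ((hKm v).1 (hX hv)).1.1
  have hXS : Disjoint S X := by
    rw [Finset.disjoint_left]
    intro v hv hvX
    exact ((hKm v).1 (hX hvX)).1.2 hv
  have hbar : Bar G W (S ∪ X) c' := by
    refine ⟨Finset.union_subset hb.sub hXW, ?_⟩
    have key : ∀ x ∈ W \ (S ∪ X), ∀ y ∈ W \ (S ∪ X), G.Adj x y → x ∈ Y → False := by
      intro x hx y hy hxy hxY
      rw [Finset.mem_sdiff, Finset.mem_union, not_or] at hx hy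
      have h3 := hb.mono x (Finset.mem_sdiff.2 ⟨hx.1, hx.2.1⟩) y
        (Finset.mem_sdiff.2 ⟨hy.1, hy.2.1⟩) hxy
      have h4 : c x = i := ((hKm x).1 ((hYm x).1 hxY).1).2
      have h5 : y ∈ Y := (hYm y).2 ⟨(hKm y).2 ⟨⟨hy.1, hy.2.1⟩, h3 ▸ h4⟩, hy.2.2⟩
      exact hX2 x hxY y h5 hxy
    intro x hx y hy hxy
    have hxY : x ∉ Y := fun h => key x hx y hy hxy h
    have hyY : y ∉ Y := fun h => key y hy x hx hxy.symm h
    rw [hc2 x hxY, hc2 y hyY]
    rw [Finset.mem_sdiff, Finset.mem_union, not_or] at hx hy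
    exact hb.mono x (Finset.mem_sdiff.2 ⟨hx.1, hx.2.1⟩) y
        (Finset.mem_sdiff.2 ⟨hy.1, hy.2.1⟩) hxy
  have hoddN : ∀ j ∈ oddl W S c, j < N := by
    intro j hj
    obtain ⟨v, hv⟩ := Finset.card_pos.1 (mem_oddl.1 hj).pos
    obtain ⟨h3, h4⟩ := mem_cls.1 hv
    rw [← h4]
    exact hcN v h3.1
  have hsub : (oddl W S c).erase i ∪ Y.image (fun v => N + e v) ⊆ oddl W (S ∪ X) c' := by
    intro j hj
    rw [mem_oddl]
    rcases Finset.mem_union.1 hj with hj | hj
    · rw [Finset.mem_erase] at hj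
      have hjN := hoddN j hj.2
      have h3 : cls W (S ∪ X) c' j = cls W S c j := by
        ext v
        rw [mem_cls, mem_cls, Finset.mem_union, not_or]
        constructor
        · rintro ⟨⟨h4, h5, -⟩, h6⟩
          by_cases hv : v ∈ Y
          · rw [hc1 v hv] at h6
            omega
          · rw [hc2 v hv] at h6
            exact ⟨⟨h4, h5⟩, h6⟩
        · rintro ⟨⟨h4, h5⟩, h6⟩
          have hvK : v ∉ K := fun h => hj.1 (by rw [← h6]; exact ((hKm v).1 h).2)
          have hvY : v ∉ Y := fun h => hvK ((hYm v).1 h).1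
          rw [hc2 v hvY]
          exact ⟨⟨h4, h5, fun h => hvK (hX h)⟩, h6⟩
      rw [h3]
      exact mem_oddl.1 hj.2
    · obtain ⟨v, hv, rfl⟩ := Finset.mem_image.1 hj
      have h3 : cls W (S ∪ X) c' (N + e v) = {v} := by
        ext w
        rw [mem_cls, Finset.mem_union, not_or, Finset.mem_singleton]
        constructor
        · rintro ⟨⟨h4, h5, -⟩, h6⟩
          by_cases hw : w ∈ Y
          · rw [hc1 w hw] at h6
            have h7 : e w = e v := by omega
            exact he ((hYm w).1 hw).1 ((hYm v).1 hv).1 h7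
          · rw [hc2 w hw] at h6
            have := hcN w h4
            omega
        · rintro rfl
          have h4 := (hYm w).1 hv
          have h5 := (hKm w).1 h4.1
          exact ⟨⟨h5.1.1, h5.1.2, h4.2⟩, hc1 w hv⟩
      show Odd (cls W (S ∪ X) c' (N + e v)).card
      rw [h3, Finset.card_singleton]
      exact odd_one
  have hdisj : Disjoint ((oddl W S c).erase i) (Y.image (fun v => N + e v)) := by
    rw [Finset.disjoint_left]
    intro j hj hj'
    have h3 := hoddN j (Finset.mem_of_mem_erase hj)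
    obtain ⟨v, hv, rfl⟩ := Finset.mem_image.1 hj'
    have h4 : N + e v < N := h3
    omega
  have hcard := Finset.card_le_card hsub
  rw [Finset.card_union_of_disjoint hdisj, Finset.card_erase_of_mem hi,
    Finset.card_image_of_injOn (by
      intro v hv w hw h
      have h4 : N + e v = N + e w := h
      exact he ((hYm v).1 hv).1 ((hYm w).1 hw).1 (by omega))] at hcard
  have hS' : (S ∪ X).card = S.card + X.card := Finset.card_union_of_disjoint hXS
  have hKc : Y.card + X.card = K.card := Finset.card_sdiff_add_card_eq_card hX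
  refine ⟨S ∪ X, c', hbar, ?_, ?_⟩
  · omega
  · omega

/-- Splitting a bipartite odd class `K` with at least two vertices: the smaller side goes to the
barrier, the vertices of the larger side get new labels.

Proof. `K = cls W S c i`, `X ⊆ K`, `Y = K \ X`, both stable, `X.card < Y.card` after exchanging them
(`K.card` is odd). Let `N` be larger than all labels of `W \ S` and `e : α → ℕ` injective on `K`
(`K.equivFin`, or `Finset.exists_injOn`...). `S' = S ∪ X`, `c' v = if v ∈ Y then N + e v else c v`.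
`Bar`: an edge between a vertex of `Y` and a vertex outside `S'`: the latter has the label `i`, is not
in `X`, so it is in `Y`, contradiction (`Y` is stable). The odd labels of `(S', c')` contain the old ones
except `i` (their classes do not change) and `N + e v`, `v ∈ Y` (the class is `{v}`). So there are at
least `|oddl| - 1 + |Y|` of them. `|X| + 1 ≤ |Y|` gives the first inequality; `|K| ≥ 3` (odd, `≥ 2`)
gives the second one. -/
theorem bar_split (hb : Bar G W S c) (h2 : S.card + 2 ≤ (oddl W S c).card) {i : ℕ}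
    (hi : i ∈ oddl W S c) (hK : 2 ≤ (cls W S c i).card) {X : Finset α} (hX : X ⊆ cls W S c i)
    (hX1 : ∀ u ∈ X, ∀ v ∈ X, ¬ G.Adj u v)
    (hX2 : ∀ u ∈ cls W S c i \ X, ∀ v ∈ cls W S c i \ X, ¬ G.Adj u v) :
    ∃ (S' : Finset α) (c' : α → ℕ), Bar G W S' c' ∧ S'.card + 2 ≤ (oddl W S' c').card ∧
      S.card + (oddl W S c).card < S'.card + (oddl W S' c').card := by
  have hsum : (cls W S c i \ X).card + X.card = (cls W S c i).card :=
    Finset.card_sdiff_add_card_eq_card hX
  have hodd : Odd (cls W S c i).card := mem_oddl.1 hi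
  rcases lt_trichotomy X.card (cls W S c i \ X).card with h | h | h
  · exact PMax_split hb h2 hi hK hX hX2 h
  · exfalso
    rw [← hsum, h] at hodd
    exact (Nat.not_odd_iff_even.2 ⟨_, rfl⟩) hodd
  · have h3 : cls W S c i \ (cls W S c i \ X) = X := by
      rw [Finset.sdiff_sdiff_eq_self hX]
    refine PMax_split hb h2 hi hK (X := cls W S c i \ X) Finset.sdiff_subset ?_ ?_
    · rw [h3]
      exact hX1
    · rw [h3]
      exact h

/-- A barrier whose odd classes with at least two vertices are not bipartite.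

Proof. Strong induction on `W.card - (S.card + (oddl W S c).card)` (`oddl_card_le`) with
`bar_split`. -/
theorem exists_maxbar (hb : Bar G W S c) (h2 : S.card + 2 ≤ (oddl W S c).card) :
    ∃ (S' : Finset α) (c' : α → ℕ), Bar G W S' c' ∧ S'.card + 2 ≤ (oddl W S' c').card ∧
      ∀ i ∈ oddl W S' c', 2 ≤ (cls W S' c' i).card → ∀ X ⊆ cls W S' c' i,
        (∀ u ∈ X, ∀ v ∈ X, ¬ G.Adj u v) →
        ¬ ∀ u ∈ cls W S' c' i \ X, ∀ v ∈ cls W S' c' i \ X, ¬ G.Adj u v := by
  obtain ⟨n, hn⟩ : ∃ n, n = W.card - (S.card + (oddl W S c).card) := ⟨_, rfl⟩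
  induction n using Nat.strong_induction_on generalizing S c with
  | _ n ih =>
    by_cases h : ∀ i ∈ oddl W S c, 2 ≤ (cls W S c i).card → ∀ X ⊆ cls W S c i,
        (∀ u ∈ X, ∀ v ∈ X, ¬ G.Adj u v) →
        ¬ ∀ u ∈ cls W S c i \ X, ∀ v ∈ cls W S c i \ X, ¬ G.Adj u v
    · exact ⟨S, c, hb, h2, h⟩
    · push Not at h
      obtain ⟨i, hi, hK, X, hX, hX1, hX2⟩ := h
      obtain ⟨S', c', hb', h2', hlt⟩ := bar_split hb h2 hi hK hX hX1 hX2
      have h3 := oddl_card_le hb'
      exact ih (W.card - (S'.card + (oddl W S' c').card)) (by omega) hb' h2' rfl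

end Pool.Agent.H.MP_ebc13b_lc.h46
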