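import Pool.Agent.H.MP_ebc13b_lc.h46.PDefs

/-!
Two large odd classes, from a fractional perfect matching.
-/

namespace Pool.Agent.H.MP_ebc13b_lc.h46

variable {α : Type*} [DecidableEq α] {G : SimpleGraph α} {W S : Finset α} {c : α → ℕ}

/-- Proof. Let `I` be the set of the labels `i ∈ oddl` whose class has one vertex and `D` the union of
these classes, `D.card = I.card`. For `d ∈ D` and `u ∈ W` with `y d u ≠ 0`: `d ~ u`, so `u ≠ d`; if
`u ∉ S` then `u` has the label of `d` and is in its class, which is `{d}`, contradiction. So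
`D.card = ∑ d ∈ D, ∑ u ∈ W, y d u = ∑ d ∈ D, ∑ u ∈ S, y d u ≤ ∑ u ∈ S, ∑ d ∈ W, y u d = S.card`
(`Finset.sum_comm`, symmetry, `D ⊆ W`). So `oddl \ I` has at least two elements
(`Finset.one_lt_card`), and their classes have at least two vertices (an odd class is nonempty). -/
theorem two_big (hF : FPM G W) (hb : Bar G W S c) (h2 : S.card + 2 ≤ (oddl W S c).card) :
    ∃ i ∈ oddl W S c, ∃ j ∈ oddl W S c, i ≠ j ∧ 2 ≤ (cls W S c i).card ∧
      2 ≤ (cls W S c j).card := by
  classical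
  obtain ⟨y, hy0, hys, hyE, hy1⟩ := hF
  set I : Finset ℕ := (oddl W S c).filter (fun i => (cls W S c i).card = 1) with hI
  set D : Finset α := I.biUnion (cls W S c) with hD
  have hIsub : I ⊆ oddl W S c := Finset.filter_subset _ _
  have hDcard : D.card = I.card := by
    rw [hD, Finset.card_biUnion]
    · rw [Finset.sum_congr rfl (g := fun _ => 1), Finset.sum_const, smul_eq_mul, mul_one]
      intro i hi
      exact (Finset.mem_filter.1 hi).2
    · intro i _ j _ hij
      rw [Function.onFun, Finset.disjoint_left]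
      intro v hv hv'
      exact hij ((mem_cls.1 hv).2.symm.trans (mem_cls.1 hv').2)
  have hDW : D ⊆ W := by
    intro v hv
    obtain ⟨i, _, hvi⟩ := Finset.mem_biUnion.1 hv
    exact (mem_cls.1 hvi).1.1
  have hzero : ∀ d ∈ D, ∀ u ∈ W, u ∉ S → y d u = 0 := by
    intro d hd u hu huS
    by_contra hne
    obtain ⟨hadj, _, _⟩ := hyE d u hne
    obtain ⟨i, hi, hdi⟩ := Finset.mem_biUnion.1 hd
    obtain ⟨⟨hdW, hdS⟩, hcd⟩ := mem_cls.1 hdi
    have hc := hb.mono d (Finset.mem_sdiff.2 ⟨hdW, hdS⟩) u (Finset.mem_sdiff.2 ⟨hu, huS⟩) hadj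
    have hui : u ∈ cls W S c i := mem_cls.2 ⟨⟨hu, huS⟩, hc ▸ hcd⟩
    have h1 : (cls W S c i).card = 1 := (Finset.mem_filter.1 hi).2
    obtain ⟨w, hw⟩ := Finset.card_eq_one.1 h1
    rw [hw, Finset.mem_singleton] at hdi hui
    rw [hdi, hui] at hadj
    exact G.loopless.irrefl _ hadj
  have hle : (D.card : ℝ) ≤ S.card := by
    have e1 : (D.card : ℝ) = ∑ d ∈ D, ∑ u ∈ S, y d u := by
      rw [Finset.card_eq_sum_ones, Nat.cast_sum]
      refine Finset.sum_congr rfl fun d hd => ?_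
      rw [Nat.cast_one, ← hy1 d (hDW hd)]
      symm
      refine Finset.sum_subset hb.sub fun u hu huS => hzero d hd u hu huS
    have e2 : (S.card : ℝ) = ∑ u ∈ S, ∑ d ∈ W, y u d := by
      rw [Finset.card_eq_sum_ones, Nat.cast_sum]
      refine Finset.sum_congr rfl fun u hu => ?_
      rw [Nat.cast_one, hy1 u (hb.sub hu)]
    rw [e1, e2, Finset.sum_comm]
    refine Finset.sum_le_sum fun u _ => ?_
    calc ∑ d ∈ D, y d u = ∑ d ∈ D, y u d := Finset.sum_congr rfl fun d _ => hys d u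
      _ ≤ ∑ d ∈ W, y u d := Finset.sum_le_sum_of_subset_of_nonneg hDW fun d _ _ => hy0 u d
  have hle' : I.card ≤ S.card := by
    rw [← hDcard]
    exact_mod_cast hle
  have hcard : 1 < (oddl W S c \ I).card := by
    rw [Finset.card_sdiff_of_subset hIsub]
    omega
  obtain ⟨i, hi, j, hj, hij⟩ := Finset.one_lt_card.1 hcard
  have hbig : ∀ i ∈ oddl W S c \ I, i ∈ oddl W S c ∧ 2 ≤ (cls W S c i).card := by
    intro i hi
    obtain ⟨h1, h2⟩ := Finset.mem_sdiff.1 hi
    refine ⟨h1, ?_⟩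
    have h3 : (cls W S c i).card ≠ 1 := fun h => h2 (Finset.mem_filter.2 ⟨h1, h⟩)
    have h4 := (mem_oddl.1 h1).pos
    omega
  exact ⟨i, (hbig i hi).1, j, (hbig j hj).1, hij, (hbig i hi).2, (hbig j hj).2⟩

end Pool.Agent.H.MP_ebc13b_lc.h46
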