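import Pool.Agent.H.MP_ebc13b_lc.h46.PDefs

/-!
All triangles are inside the barrier and the deleted set.
-/

namespace Pool.Agent.H.MP_ebc13b_lc.h46

variable {α : Type*} [DecidableEq α] {G : SimpleGraph α} {A C S : Finset α} {c : α → ℕ}

/-- A graph of maximum degree one is bipartite.

Proof. `exists_wellOrder α` (or any injection of `K` into `ℕ`) gives a linear order; let
`X = {v ∈ K | ∃ w ∈ K, v ~ w ∧ v < w}`. If `u, v ∈ X` are adjacent, then the `w` of `u` is `v`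
(`hdeg`), so `u < v`, and in the same way `v < u`. If `u, v ∈ K \ X` are adjacent then `u < v` or `v < u`,
so one of them is in `X`. -/
theorem two_col {K : Finset α}
    (hdeg : ∀ v ∈ K, ∀ w ∈ K, ∀ w' ∈ K, G.Adj v w → G.Adj v w' → w = w') :
    ∃ X ⊆ K, (∀ u ∈ X, ∀ v ∈ X, ¬ G.Adj u v) ∧ ∀ u ∈ K \ X, ∀ v ∈ K \ X, ¬ G.Adj u v := by
  classical
  obtain ⟨e, he⟩ : ∃ e : α → ℕ, Set.InjOn e K :=
    Set.countable_iff_exists_injOn.1 (Finset.countable_toSet K)
  refine ⟨K.filter (fun v => ∃ w ∈ K, G.Adj v w ∧ e v < e w), Finset.filter_subset _ _, ?_, ?_⟩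
  · intro u hu v hv hadj
    obtain ⟨huK, w, hwK, huw, hlt⟩ := Finset.mem_filter.1 hu
    obtain ⟨hvK, w', hwK', hvw, hlt'⟩ := Finset.mem_filter.1 hv
    have e1 : w = v := hdeg u huK w hwK v hvK huw hadj
    have e2 : w' = u := hdeg v hvK w' hwK' u huK hvw hadj.symm
    subst e1
    subst e2
    omega
  · intro u hu v hv hadj
    obtain ⟨huK, huX⟩ := Finset.mem_sdiff.1 hu
    obtain ⟨hvK, hvX⟩ := Finset.mem_sdiff.1 hv
    rcases lt_trichotomy (e u) (e v) with h | h | h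
    · exact huX (Finset.mem_filter.2 ⟨huK, v, hvK, hadj, h⟩)
    · exact hadj.ne (he huK hvK h)
    · exact hvX (Finset.mem_filter.2 ⟨hvK, u, huK, hadj.symm, h⟩)

/-- The data: a barrier of `G[A \ C]`, two different odd classes with at least two vertices, and no
such class is bipartite. -/
structure BigBar (G : SimpleGraph α) (A C S : Finset α) (c : α → ℕ) : Prop where
  bar : Bar G (A \ C) S c
  big : ∃ i ∈ oddl (A \ C) S c, ∃ j ∈ oddl (A \ C) S c, i ≠ j ∧
    2 ≤ (cls (A \ C) S c i).card ∧ 2 ≤ (cls (A \ C) S c j).card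
  nbip : ∀ i ∈ oddl (A \ C) S c, 2 ≤ (cls (A \ C) S c i).card → ∀ X ⊆ cls (A \ C) S c i,
    (∀ u ∈ X, ∀ v ∈ X, ¬ G.Adj u v) →
    ¬ ∀ u ∈ cls (A \ C) S c i \ X, ∀ v ∈ cls (A \ C) S c i \ X, ¬ G.Adj u v

/-- one of the two big classes has a label different from a given one -/
private theorem BigBar.other (h : BigBar G A C S c) (l : ℕ) :
    ∃ i ∈ oddl (A \ C) S c, 2 ≤ (cls (A \ C) S c i).card ∧ i ≠ l := by
  obtain ⟨i, hi, j, hj, hij, h1, h2⟩ := h.big
  by_cases hil : i = l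
  · exact ⟨j, hj, h2, fun hjl => hij (hil.trans hjl.symm)⟩
  · exact ⟨i, hi, h1, hil⟩

/-- There is no triangle `{p, w, w'}` in `A` with `w, w'` outside `C` and `S`.

Proof. `w, w'` have the same label. One of the two big classes, `K`, has another label. A vertex
`v ∈ K` is not adjacent to `w, w'` and different from them (`Bar.mono`); `v ≠ p` (otherwise
`p ∈ (A \ C) \ S` is adjacent to `w`, so it has the label of `w`). So all `v ∈ K` are adjacent to
`p` (`Prism.sees`). If `v, w₁, w₂ ∈ K`, `v ~ w₁`, `v ~ w₂`, `w₁ ≠ w₂`: `{p, v, w₁}` is a triangle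
and `w₂` sees `p` and `v`, contradiction (`Prism.unique`). So `K` has maximum degree one:
`two_col` contradicts `nbip`. -/
theorem BigBar.no_two (h : BigBar G A C S c) (hPr : Prism G A) {p w w' : α} (hp : p ∈ A)
    (hw : w ∈ (A \ C) \ S) (hw' : w' ∈ (A \ C) \ S) (h1 : G.Adj p w) (h2 : G.Adj p w')
    (h3 : G.Adj w w') : False := by
  have hcw : c w = c w' := h.bar.mono w hw w' hw' h3
  obtain ⟨i, hi, hcard, hil⟩ := h.other (c w)
  have hmemR : ∀ v ∈ cls (A \ C) S c i, v ∈ (A \ C) \ S ∧ c v = i := by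
    intro v hv
    obtain ⟨⟨e1, e2⟩, e3⟩ := mem_cls.1 hv
    exact ⟨Finset.mem_sdiff.2 ⟨e1, e2⟩, e3⟩
  have hA : ∀ v, v ∈ (A \ C) \ S → v ∈ A :=
    fun v hv => (Finset.mem_sdiff.1 (Finset.mem_sdiff.1 hv).1).1
  have hne : ∀ v ∈ cls (A \ C) S c i, c v ≠ c w := by
    intro v hv he
    exact hil ((hmemR v hv).2.symm.trans he)
  have hvp : ∀ v ∈ cls (A \ C) S c i, v ≠ p := by
    intro v hv he
    subst he
    exact hne v hv (h.bar.mono v (hmemR v hv).1 w hw h1)
  have hsee : ∀ v ∈ cls (A \ C) S c i, G.Adj v p := by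
    intro v hv
    have hR := (hmemR v hv).1
    rcases hPr.sees hp (hA w hw) (hA w' hw') h1 h2 h3 (hA v hR) (hvp v hv)
      (fun he => hne v hv (by rw [he])) (fun he => hne v hv (by rw [he, hcw])) with h4 | h4 | h4
    · exact h4
    · exact absurd (h.bar.mono v hR w hw h4) (hne v hv)
    · exact absurd ((h.bar.mono v hR w' hw' h4).trans hcw.symm) (hne v hv)
  obtain ⟨X, hX, hX1, hX2⟩ := two_col (G := G) (K := cls (A \ C) S c i) (by
    intro v hv w₁ hw₁ w₂ hw₂ hv1 hv2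
    by_contra hcon
    have hvA := hA v (hmemR v hv).1
    have hw1A := hA w₁ (hmemR w₁ hw₁).1
    have hw2A := hA w₂ (hmemR w₂ hw₂).1
    -- the triangle `{p, v, w₁}` and the vertex `w₂`
    exact hPr.unique hp hvA hw1A (hsee v hv).symm (hsee w₁ hw₁).symm hv1 hw2A
      (fun he => hcon he.symm) (hsee w₂ hw₂) hv2.symm)
  exact h.nbip i hi hcard X hX hX1 hX2

/-- Every triangle in `A` is contained in `S ∪ C`.

Proof. Suppose `u ∈ T`, `u ∉ S ∪ C`. `T = {u, p, p'}` (`exists_abc`). If `p ∉ S ∪ C` or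
`p' ∉ S ∪ C`: `no_two`. So `p, p' ∈ S ∪ C`. Let `K` be one of the two big classes, with a label
different from `c u`. Every `v ∈ K` is not adjacent to `u`, is different from `u, p, p'`, so it is
adjacent to `p` or `p'` (`Prism.sees`). `X = {v ∈ K | v ~ p}`. If `X` is not stable, two adjacent
`v, v' ∈ X` with `p` give a contradiction to `no_two`. If `K \ X` is not stable: the same with `p'`.
Otherwise contradiction to `nbip`. -/
theorem BigBar.tri_sub (h : BigBar G A C S c) (hPr : Prism G A) {T : Finset α} (hT : T ⊆ A)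
    (h3 : G.IsNClique 3 T) : T ⊆ S ∪ C := by
  classical
  intro u hu
  by_contra hcon
  rw [Finset.mem_union, not_or] at hcon
  obtain ⟨p, p', hup, hup', hpp, hTe⟩ := exists_abc h3 hu
  have hpT : p ∈ T := by rw [hTe]; simp
  have hpT' : p' ∈ T := by rw [hTe]; simp
  have huA := hT hu
  have hpA := hT hpT
  have hpA' := hT hpT'
  have huR : u ∈ (A \ C) \ S :=
    Finset.mem_sdiff.2 ⟨Finset.mem_sdiff.2 ⟨huA, hcon.2⟩, hcon.1⟩
  have hpn : p ∉ (A \ C) \ S := fun hpR =>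
    h.no_two hPr hpA' huR hpR hup'.symm hpp.symm hup
  have hpn' : p' ∉ (A \ C) \ S := fun hpR =>
    h.no_two hPr hpA huR hpR hup.symm hpp hup'
  obtain ⟨i, hi, hcard, hil⟩ := h.other (c u)
  have hmemR : ∀ v ∈ cls (A \ C) S c i, v ∈ (A \ C) \ S ∧ c v = i := by
    intro v hv
    obtain ⟨⟨e1, e2⟩, e3⟩ := mem_cls.1 hv
    exact ⟨Finset.mem_sdiff.2 ⟨e1, e2⟩, e3⟩
  have hA : ∀ v, v ∈ (A \ C) \ S → v ∈ A :=
    fun v hv => (Finset.mem_sdiff.1 (Finset.mem_sdiff.1 hv).1).1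
  have hsee : ∀ v ∈ cls (A \ C) S c i, G.Adj v p ∨ G.Adj v p' := by
    intro v hv
    obtain ⟨hR, hcv⟩ := hmemR v hv
    have hvu : v ≠ u := fun he => hil (by rw [← hcv, he])
    have hvp : v ≠ p := fun he => hpn (he ▸ hR)
    have hvp' : v ≠ p' := fun he => hpn' (he ▸ hR)
    rcases hPr.sees huA hpA hpA' hup hup' hpp (hA v hR) hvu hvp hvp' with h4 | h4 | h4
    · exact absurd (hcv.symm.trans (h.bar.mono v hR u huR h4)) hil
    · exact Or.inl h4
    · exact Or.inr h4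
  refine h.nbip i hi hcard ((cls (A \ C) S c i).filter (fun v => G.Adj v p))
    (Finset.filter_subset _ _) ?_ ?_
  · intro v hv v' hv' hadj
    obtain ⟨h5, h6⟩ := Finset.mem_filter.1 hv
    obtain ⟨h7, h8⟩ := Finset.mem_filter.1 hv'
    exact h.no_two hPr hpA (hmemR v h5).1 (hmemR v' h7).1 h6.symm h8.symm hadj
  · intro v hv v' hv' hadj
    obtain ⟨h5, h6⟩ := Finset.mem_sdiff.1 hv
    obtain ⟨h7, h8⟩ := Finset.mem_sdiff.1 hv'
    have e1 : G.Adj v p' := (hsee v h5).resolve_left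
      (fun h9 => h6 (Finset.mem_filter.2 ⟨h5, h9⟩))
    have e2 : G.Adj v' p' := (hsee v' h7).resolve_left
      (fun h9 => h8 (Finset.mem_filter.2 ⟨h7, h9⟩))
    exact h.no_two hPr hpA' (hmemR v h5).1 (hmemR v' h7).1 e1.symm e2.symm hadj

end Pool.Agent.H.MP_ebc13b_lc.h46
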