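import Pool.Agent.H.MP_ebc13b_lc.h46.PDefs

/-!
Weak duality for matchings, and the condition outside the core.
-/

namespace Pool.Agent.H.MP_ebc13b_lc.h46

variable {α : Type*} [DecidableEq α] {G : SimpleGraph α} {A R S : Finset α} {c : α → ℕ}

/-- a set with a perfect matching is even: `∑ v ∈ M, (1 : ZMod 2) = 0` by `Finset.sum_involution` -/
theorem PMon.even {M : Finset α} (h : PMon G M) : Even M.card := by
  obtain ⟨f, hf⟩ := h
  have h1 : ∑ v ∈ M, (1 : ZMod 2) = 0 := by
    refine Finset.sum_involution (fun v _ => f v) ?_ ?_ ?_ ?_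
    · intro v _
      decide
    · intro v hv _ he
      exact (hf v hv).2.1.ne he.symm
    · intro v hv
      exact (hf v hv).1
    · intro v hv
      exact (hf v hv).2.2
  rw [Finset.sum_const, nsmul_eq_mul, mul_one, ZMod.natCast_eq_zero_iff] at h1
  exact even_iff_two_dvd.2 h1

/-- Weak duality: a matching of `G[R]` with vertex set `M` misses at least `#odd classes - |S|`
vertices.

Proof. `oddl R S c ⊆ (R \ M).image c ∪ S.image (fun s => c (f s))`: let `i` be an odd label,
`K = cls R S c i`. If `K` is not contained in `M`, some `v ∈ K \ M` has the label `i`. If `K ⊆ M`: if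
`f v ∈ K` for all `v ∈ K` then `K` has a perfect matching, contradiction to `PMon.even`. So
`f v ∉ K` for some `v ∈ K`; `f v ∈ M ⊆ R`; if `f v ∉ S` then `c (f v) = c v = i` (`Bar.mono`) and
`f v ∈ K`; so `s = f v ∈ S` and `c (f s) = c v = i`. -/
theorem weak {M : Finset α} (hM : M ⊆ R) (hPM : PMon G M) (hb : Bar G R S c) :
    (oddl R S c).card ≤ S.card + (R \ M).card := by
  obtain ⟨f, hf⟩ := hPM
  have hsub : oddl R S c ⊆ (R \ M).image c ∪ S.image (fun s => c (f s)) := by
    intro i hi
    rw [mem_oddl] at hi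
    rw [Finset.mem_union]
    by_cases hK : cls R S c i ⊆ M
    · right
      have hex : ∃ v ∈ cls R S c i, f v ∉ cls R S c i := by
        by_contra hcon
        push Not at hcon
        have hpm : PMon G (cls R S c i) :=
          ⟨f, fun v hv => ⟨hcon v hv, (hf v (hK hv)).2.1, (hf v (hK hv)).2.2⟩⟩
        exact (Nat.not_even_iff_odd.2 hi) hpm.even
      obtain ⟨v, hv, hfv⟩ := hex
      have hvM := hK hv
      obtain ⟨⟨hvR, hvS⟩, hcv⟩ := mem_cls.1 hv
      obtain ⟨hfM, hadj, hff⟩ := hf v hvM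
      have hfS : f v ∈ S := by
        by_contra hns
        apply hfv
        refine mem_cls.2 ⟨⟨hM hfM, hns⟩, ?_⟩
        rw [← hcv]
        exact (hb.mono v (Finset.mem_sdiff.2 ⟨hvR, hvS⟩) (f v)
          (Finset.mem_sdiff.2 ⟨hM hfM, hns⟩) hadj).symm
      refine Finset.mem_image.2 ⟨f v, hfS, ?_⟩
      show c (f (f v)) = i
      rw [hff, hcv]
    · left
      obtain ⟨v, hv, hvM⟩ := Finset.not_subset.1 hK
      obtain ⟨⟨hvR, _⟩, hcv⟩ := mem_cls.1 hv
      exact Finset.mem_image.2 ⟨v, Finset.mem_sdiff.2 ⟨hvR, hvM⟩, hcv⟩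
  calc (oddl R S c).card ≤ ((R \ M).image c ∪ S.image (fun s => c (f s))).card :=
        Finset.card_le_card hsub
    _ ≤ ((R \ M).image c).card + (S.image (fun s => c (f s))).card := Finset.card_union_le _ _
    _ ≤ (R \ M).card + S.card := Nat.add_le_add Finset.card_image_le Finset.card_image_le
    _ = S.card + (R \ M).card := Nat.add_comm _ _

/-- The condition outside the core is necessary: if `G[A \ C]` has a perfect matching, `C ⊆ core`,
then `G[A \ core]` has a matching missing at most `|core| - |C|` vertices.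

Proof. `M = {v ∈ A \ core | f v ∈ A \ core}`; `f` maps `(A \ core) \ M` injectively into
`core \ C`. -/
theorem rcond_of_pm {C : Finset α} (hC : C ⊆ core G A) (h : PMon G (A \ C)) :
    ∃ M ⊆ A \ core G A, PMon G M ∧ ((A \ core G A) \ M).card + C.card ≤ (core G A).card := by
  classical
  obtain ⟨f, hf⟩ := h
  have hmem : ∀ v ∈ A \ core G A, v ∈ A \ C := by
    intro v hv
    obtain ⟨h1, h2⟩ := Finset.mem_sdiff.1 hv
    exact Finset.mem_sdiff.2 ⟨h1, fun h3 => h2 (hC h3)⟩
  refine ⟨(A \ core G A).filter (fun v => f v ∈ A \ core G A), Finset.filter_subset _ _, ?_, ?_⟩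
  · refine ⟨f, ?_⟩
    intro v hv
    obtain ⟨h1, h2⟩ := Finset.mem_filter.1 hv
    obtain ⟨h3, h4, h5⟩ := hf v (hmem v h1)
    refine ⟨Finset.mem_filter.2 ⟨h2, ?_⟩, h4, h5⟩
    rw [h5]
    exact h1
  · have hle : ((A \ core G A) \ (A \ core G A).filter (fun v => f v ∈ A \ core G A)).card
        ≤ (core G A \ C).card := by
      refine Finset.card_le_card_of_injOn f ?_ ?_
      · intro v hv
        have hv' := Finset.mem_coe.1 hv
        obtain ⟨h1, h2⟩ := Finset.mem_sdiff.1 hv'
        obtain ⟨h3, _, _⟩ := hf v (hmem v h1)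
        obtain ⟨h4, h5⟩ := Finset.mem_sdiff.1 h3
        refine Finset.mem_coe.2 (Finset.mem_sdiff.2 ⟨?_, h5⟩)
        by_contra h6
        exact h2 (Finset.mem_filter.2 ⟨h1, Finset.mem_sdiff.2 ⟨h4, h6⟩⟩)
      · intro v hv w hw hvw
        have hv' := (Finset.mem_sdiff.1 (Finset.mem_coe.1 hv)).1
        have hw' := (Finset.mem_sdiff.1 (Finset.mem_coe.1 hw)).1
        have e1 := (hf v (hmem v hv')).2.2
        have e2 := (hf w (hmem w hw')).2.2
        rw [← e1, ← e2]
        exact congrArg f hvw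
    have hcard := Finset.card_sdiff_add_card_eq_card hC
    omega

end Pool.Agent.H.MP_ebc13b_lc.h46
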