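import Pool.Agent.H.MP_ebc13b_lc.h46.PTutte
import Pool.Agent.H.MP_ebc13b_lc.h46.PWeak
import Pool.Agent.H.MP_ebc13b_lc.h46.PMax
import Pool.Agent.H.MP_ebc13b_lc.h46.PSing
import Pool.Agent.H.MP_ebc13b_lc.h46.PTri

/-!
From a fractional perfect matching to a perfect matching.
-/

namespace Pool.Agent.H.MP_ebc13b_lc.h46

variable {α : Type*} [DecidableEq α] {G : SimpleGraph α} {A : Finset α}

/-- Let `G[A]` be prismatic, `C` a subset of the core, `A \ C` even. If `G[A \ C]` has a fractional
perfect matching and `G[A \ core]` has a matching which misses at most `|core| - |C|` vertices, then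
`G[A \ C]` has a perfect matching.

Proof. Otherwise `tutte_lab` and `exists_maxbar` give `S, c`, with `two_big` a `BigBar`. By `tri_sub`,
`core ⊆ S ∪ C`. Let `R = A \ core`, `S' = S \ core`. As `C ⊆ core ⊆ S ∪ C`, `R \ S' = (A \ C) \ S`,
so `Bar G R S' c` and `oddl R S' c = oddl (A \ C) S c`. `weak`:
`|oddl| ≤ |S'| + |R \ M|`. `S` and `C` are disjoint, so `|S'| = |S| - (|core| - |C|)`. With
`|S| + 2 ≤ |oddl|` and `hR` this is a contradiction. -/
theorem parity (hPr : Prism G A) {C : Finset α} (hC : C ⊆ core G A) (hev : Even (A \ C).card)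
    (hF : FPM G (A \ C)) {M : Finset α} (hM : M ⊆ A \ core G A) (hPM : PMon G M)
    (hR : ((A \ core G A) \ M).card + C.card ≤ (core G A).card) : PMon G (A \ C) := by
  classical
  rcases tutte_lab (G := G) hev with h | ⟨S₀, c₀, hb₀, h₀⟩
  · exact h
  exfalso
  obtain ⟨S, c, hb, h2, hnb⟩ := exists_maxbar hb₀ h₀
  have hbig : BigBar G A C S c := ⟨hb, two_big hF hb h2, hnb⟩
  have hcore : core G A ⊆ S ∪ C := by
    intro v hv
    obtain ⟨_, T, hT, h3, hvT⟩ := mem_core.1 hv
    exact hbig.tri_sub hPr hT h3 hvT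
  have hSC : Disjoint S C := by
    rw [Finset.disjoint_left]
    intro v hv hvC
    exact (Finset.mem_sdiff.1 (hb.sub hv)).2 hvC
  have hset : (A \ core G A) \ (S \ core G A) = (A \ C) \ S := by
    ext v
    simp only [Finset.mem_sdiff]
    constructor
    · rintro ⟨⟨h1, h3⟩, h4⟩
      refine ⟨⟨h1, fun h5 => h3 (hC h5)⟩, fun h5 => h4 ⟨h5, h3⟩⟩
    · rintro ⟨⟨h1, h3⟩, h4⟩
      have h5 : v ∉ core G A := by
        intro h6
        rcases Finset.mem_union.1 (hcore h6) with h7 | h7
        · exact h4 h7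
        · exact h3 h7
      exact ⟨⟨h1, h5⟩, fun h6 => h4 h6.1⟩
  have hb' : Bar G (A \ core G A) (S \ core G A) c := by
    refine ⟨?_, ?_⟩
    · intro v hv
      obtain ⟨h1, h3⟩ := Finset.mem_sdiff.1 hv
      exact Finset.mem_sdiff.2 ⟨(Finset.mem_sdiff.1 (hb.sub h1)).1, h3⟩
    · rw [hset]
      exact hb.mono
  have hodd : oddl (A \ core G A) (S \ core G A) c = oddl (A \ C) S c := by
    unfold oddl cls
    rw [hset]
  have hw := weak hM hPM hb'
  rw [hodd] at hw
  have e1 : (S \ core G A).card + (S ∩ core G A).card = S.card := Finset.card_sdiff_add_card_inter _ _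
  have e2 : core G A = (S ∩ core G A) ∪ C := by
    ext v
    simp only [Finset.mem_union, Finset.mem_inter]
    constructor
    · intro h1
      rcases Finset.mem_union.1 (hcore h1) with h3 | h3
      · exact Or.inl ⟨h3, h1⟩
      · exact Or.inr h3
    · rintro (h1 | h1)
      · exact h1.2
      · exact hC h1
  have e3 : (core G A).card = (S ∩ core G A).card + C.card := by
    conv_lhs => rw [e2]
    apply Finset.card_union_of_disjoint
    rw [Finset.disjoint_left]
    intro v hv hvC
    exact Finset.disjoint_left.1 hSC (Finset.mem_inter.1 hv).1 hvC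
  omega

end Pool.Agent.H.MP_ebc13b_lc.h46
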