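import Pool.Agent.H.MP_ebc13b_lc.h46.FinT
import Pool.Agent.H.MP_ebc13b_lc.h46.Parity

/-!
Soundness of the test.
-/

namespace Pool.Agent.H.MP_ebc13b_lc.h46

open Pool.Agent.H.MP_5be563_lc.PT Pool.Agent.H.MP_ebc13b_lc.h61 Pool.Agent.H.MP_ebc13b_lc.h53

variable {Es : List (ℕ × ℕ)} {n : ℕ}

/-- swap the sums -/
private theorem FinC_sum {θ : ℝ} {z : List ℕ → ℚ} (f : Finset ℕ → ℝ) :
    ∑ T ∈ (Finset.range n).powerset,
      (θ * ∑ c ∈ (triL n Es).toFinset, if c.toFinset = T then (z c : ℝ) else 0) * f T =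
    θ * ∑ c ∈ (triL n Es).toFinset, (z c : ℝ) * f c.toFinset := by
  have h1 : ∀ T ∈ (Finset.range n).powerset,
      (θ * ∑ c ∈ (triL n Es).toFinset, if c.toFinset = T then (z c : ℝ) else 0) * f T =
      ∑ c ∈ (triL n Es).toFinset, if c.toFinset = T then θ * ((z c : ℝ) * f T) else 0 := by
    intro T _
    rw [Finset.mul_sum, Finset.sum_mul]
    refine Finset.sum_congr rfl fun c _ => ?_
    split_ifs <;> ring
  rw [Finset.sum_congr rfl h1, Finset.sum_comm, Finset.mul_sum]
  refine Finset.sum_congr rfl fun c hc => ?_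
  rw [Finset.sum_ite_eq, if_pos]
  rw [Finset.mem_powerset]
  intro v hv
  rw [Finset.mem_range]
  exact (cols_triL n Es c (List.mem_toFinset.1 hc)).2.2 v (List.mem_toFinset.1 hv)

/-- the other end -/
private theorem FinC_other {c : List ℕ} (hc : c ∈ edgL n Es) (a : ℝ) (v : ℕ) :
    (∑ u ∈ Finset.range n, if v ≠ u ∧ v ∈ c ∧ u ∈ c then a else 0) = if v ∈ c then a else 0 := by
  obtain ⟨i, j, rfl, hi, hj, hij, _⟩ := mem_edgL.1 hc
  by_cases hv : v ∈ [i, j]
  · rw [if_pos hv]
    simp only [List.mem_cons, List.not_mem_nil, or_false] at hv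
    rcases hv with rfl | rfl
    · rw [Finset.sum_eq_single j]
      · rw [if_pos]
        exact ⟨by omega, by simp, by simp⟩
      · intro u _ hu
        rw [if_neg]
        rintro ⟨h1, _, h2⟩
        simp only [List.mem_cons, List.not_mem_nil, or_false] at h2
        omega
      · intro h
        exact absurd (Finset.mem_range.2 hj) h
    · rw [Finset.sum_eq_single i]
      · rw [if_pos]
        exact ⟨by omega, by simp, by simp⟩
      · intro u _ hu
        rw [if_neg]
        rintro ⟨h1, _, h2⟩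
        simp only [List.mem_cons, List.not_mem_nil, or_false] at h2
        omega
      · intro h
        exact absurd (Finset.mem_range.2 hi) h
  · rw [if_neg hv]
    refine Finset.sum_eq_zero fun u _ => ?_
    rw [if_neg]
    exact fun h => hv h.2.1

private theorem FinC_cov {A : List (List ℕ)} {z : List ℕ → ℚ} {v : ℕ} :
    (∑ c ∈ A.toFinset, if v ∈ c then (z c : ℝ) else 0) = ((cov A z v : ℚ) : ℝ) := by
  unfold cov
  push_cast
  refine Finset.sum_congr rfl fun c _ => ?_
  split_ifs <;> simp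

/-- From the output of the perceptron to an approximate solution of the linear program.

Proof. Let `θ = K / (K + 1)`. For a triangle `T ⊆ range n` of `gr Es` let `z' T = θ z c` where `c` is
the increasing list of the elements of `T` (`c ∈ triL n Es`; `T ↦ T.sort`), and `z' T = 0` for the
other sets; for adjacent `u < v` let `y' u v = y' v u = θ y [u, v]`, `0` for the other pairs. The
total load of the vertex `v` is `θ (cov z v + cov y v)`, which is at most `1` (as
`θ (1 + 1 / K) = 1`) and at least `θ (1 - 1 / K) ≥ 1 - 2 / K`. The slack is `s v = 1 -` this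
(`0` outside `range n`). The sum of the slacks is at most `2 n / K`. Finally
`|∑ z' - τ| = (1 - θ) τ ≤ τ / K ≤ n / K` (`τ ≤ n` from `hn`). -/
theorem alp_of_perc (hG : Gr (Finset.range n) (EE Es)) {τ h K : ℕ} {z y : List ℕ → ℚ}
    (hn : n = 3 * τ + 2 * h) (hK : 0 < K) (hz : Frac n (triL n Es) τ z)
    (hy : Frac n (edgL n Es) h y)
    (hcov : ∀ v < n, |cov (triL n Es) z v + cov (edgL n Es) y v - 1| ≤ 1 / K) :
    ALP (gr Es) (Finset.range n) τ (3 * n / K : ℝ) := by
  classical
  have hKr : (0 : ℝ) < K := by exact_mod_cast hK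
  set θ : ℝ := K / (K + 1) with hθ
  have hθ0 : 0 ≤ θ := by positivity
  have hθK : θ * (1 + 1 / K) = 1 := by
    rw [hθ]
    field_simp
  have hθ1 : (1 - θ) * (K + 1) = 1 := by
    rw [hθ]
    field_simp
    ring
  have hcov' : ∀ v < n, |((cov (triL n Es) z v : ℚ) : ℝ) + ((cov (edgL n Es) y v : ℚ) : ℝ) - 1| ≤
      1 / K := by
    intro v hv
    have h1 := hcov v hv
    have h2 : ((|cov (triL n Es) z v + cov (edgL n Es) y v - 1| : ℚ) : ℝ) ≤ ((1 / K : ℚ) : ℝ) := by
      exact_mod_cast h1
    push_cast at h2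
    exact h2
  set z' : Finset ℕ → ℝ := fun T =>
    θ * ∑ c ∈ (triL n Es).toFinset, if c.toFinset = T then (z c : ℝ) else 0 with hz'
  set y' : ℕ → ℕ → ℝ := fun u v =>
    θ * ∑ c ∈ (edgL n Es).toFinset, if u ≠ v ∧ u ∈ c ∧ v ∈ c then (y c : ℝ) else 0 with hy'
  set s : ℕ → ℝ := fun v => if v < n then
    1 - θ * (((cov (triL n Es) z v : ℚ) : ℝ) + ((cov (edgL n Es) y v : ℚ) : ℝ)) else 0 with hs
  have zn : ∀ c ∈ (triL n Es).toFinset, (0 : ℝ) ≤ (z c : ℝ) := fun c hc => by
    exact_mod_cast hz.nonneg c (List.mem_toFinset.1 hc)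
  have yn : ∀ c ∈ (edgL n Es).toFinset, (0 : ℝ) ≤ (y c : ℝ) := fun c hc => by
    exact_mod_cast hy.nonneg c (List.mem_toFinset.1 hc)
  have hld : ∀ v, h53.ld (Finset.range n) z' v = θ * ((cov (triL n Es) z v : ℚ) : ℝ) := by
    intro v
    have h1 := FinC_sum (Es := Es) (n := n) (θ := θ) (z := z) (fun T => if v ∈ T then (1 : ℝ) else 0)
    unfold h53.ld
    rw [← FinC_cov]
    have h2 : ∀ T ∈ (Finset.range n).powerset, (if v ∈ T then z' T else 0) =
        (θ * ∑ c ∈ (triL n Es).toFinset, if c.toFinset = T then (z c : ℝ) else 0) *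
          (if v ∈ T then (1 : ℝ) else 0) := by
      intro T _
      split_ifs
      · rw [mul_one]
      · rw [mul_zero]
    rw [Finset.sum_congr rfl h2, h1]
    congr 1
    refine Finset.sum_congr rfl fun c _ => ?_
    simp only [List.mem_toFinset]
    split_ifs
    · rw [mul_one]
    · rw [mul_zero]
  have hb : ∀ v < n, 0 ≤ s v ∧ s v ≤ 2 / K := by
    intro v hv
    have h1 := abs_le.1 (hcov' v hv)
    have h2 : s v = 1 - θ * (((cov (triL n Es) z v : ℚ) : ℝ) +
        ((cov (edgL n Es) y v : ℚ) : ℝ)) := by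
      rw [hs]
      dsimp only
      rw [if_pos hv]
    rw [h2]
    constructor
    · have h3 := mul_le_mul_of_nonneg_left (a := θ) (b := ((cov (triL n Es) z v : ℚ) : ℝ) +
        ((cov (edgL n Es) y v : ℚ) : ℝ)) (c := 1 + 1 / K) (by linarith [h1.2]) hθ0
      linarith
    · have h3 := mul_le_mul_of_nonneg_left (a := θ) (b := (1 : ℝ) - 1 / K)
        (c := ((cov (triL n Es) z v : ℚ) : ℝ) +
        ((cov (edgL n Es) y v : ℚ) : ℝ)) (by linarith [h1.1]) hθ0
      have h4 : 1 - θ * (1 - 1 / (K : ℝ)) = 2 / (K + 1) := by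
        rw [hθ]
        field_simp
        ring
      have h5 : 2 / ((K : ℝ) + 1) ≤ 2 / K := by
        apply div_le_div_of_nonneg_left (by norm_num) hKr (by linarith)
      linarith
  refine ⟨z', y', s, ⟨?_, ?_⟩, ?_, ⟨?_, ?_, ?_, ?_⟩, ?_⟩
  · intro T
    refine mul_nonneg hθ0 (Finset.sum_nonneg fun c hc => ?_)
    split_ifs
    · exact zn c hc
    · exact le_rfl
  · intro T hT
    have h1 : ∃ c ∈ (triL n Es).toFinset, (if c.toFinset = T then (z c : ℝ) else 0) ≠ 0 := by
      by_contra hcon
      push Not at hcon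
      apply hT
      rw [hz']
      dsimp only
      rw [Finset.sum_eq_zero hcon, mul_zero]
    obtain ⟨c, hc, h2⟩ := h1
    have h3 : c.toFinset = T := by
      by_contra h3
      exact h2 (if_neg h3)
    obtain ⟨i, j, k, rfl, hi, hj, hk, _, _, g1, g2, g3⟩ := mem_triL.1 (List.mem_toFinset.1 hc)
    have h4 : T = {i, j, k} := by
      rw [← h3]
      ext w
      simp
    rw [h4]
    refine ⟨?_, clique_abc ((gr_adj hG).2 g1) ((gr_adj hG).2 g3) ((gr_adj hG).2 g2)⟩
    intro w hw
    simp only [Finset.mem_insert, Finset.mem_singleton] at hw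
    rw [Finset.mem_range]
    rcases hw with rfl | rfl | rfl <;> assumption
  · intro v
    by_cases hv : v < n
    · exact (hb v hv).1
    · rw [hs]
      dsimp only
      rw [if_neg hv]
  · intro u v
    refine mul_nonneg hθ0 (Finset.sum_nonneg fun c hc => ?_)
    split_ifs
    · exact yn c hc
    · exact le_rfl
  · intro u v
    rw [hy']
    dsimp only
    congr 1
    refine Finset.sum_congr rfl fun c _ => ?_
    refine if_congr ?_ rfl rfl
    exact ⟨fun h => ⟨h.1.symm, h.2.2, h.2.1⟩, fun h => ⟨h.1.symm, h.2.2, h.2.1⟩⟩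
  · intro u v huv
    have h1 : ∃ c ∈ (edgL n Es).toFinset, (if u ≠ v ∧ u ∈ c ∧ v ∈ c then (y c : ℝ) else 0) ≠ 0 := by
      by_contra hcon
      push Not at hcon
      apply huv
      rw [hy']
      dsimp only
      rw [Finset.sum_eq_zero hcon, mul_zero]
    obtain ⟨c, hc, h2⟩ := h1
    have h3 : u ≠ v ∧ u ∈ c ∧ v ∈ c := by
      by_contra h3
      exact h2 (if_neg h3)
    obtain ⟨i, j, rfl, hi, hj, _, g1⟩ := mem_edgL.1 (List.mem_toFinset.1 hc)
    simp only [List.mem_cons, List.not_mem_nil, or_false] at h3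
    obtain ⟨hne, h4, h5⟩ := h3
    rw [gr_adj hG, Finset.mem_range, Finset.mem_range]
    rcases h4 with rfl | rfl <;> rcases h5 with rfl | rfl
    · exact absurd rfl hne
    · exact ⟨g1, hi, hj⟩
    · exact ⟨hG.sym _ _ g1, hj, hi⟩
    · exact absurd rfl hne
  · intro v hv
    rw [hld v]
    have h1 : ∑ u ∈ Finset.range n, y' v u = θ * ((cov (edgL n Es) y v : ℚ) : ℝ) := by
      rw [← FinC_cov, hy']
      dsimp only
      rw [← Finset.mul_sum, Finset.sum_comm]
      congr 1
      refine Finset.sum_congr rfl fun c hc => ?_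
      exact FinC_other (List.mem_toFinset.1 hc) _ v
    have h2 : s v = 1 - θ * (((cov (triL n Es) z v : ℚ) : ℝ) +
        ((cov (edgL n Es) y v : ℚ) : ℝ)) := by
      rw [hs]
      dsimp only
      rw [if_pos (Finset.mem_range.1 hv)]
    rw [h1, h2]
    ring
  · have h1 : ∑ T ∈ (Finset.range n).powerset, z' T = θ * τ := by
      have h2 := FinC_sum (Es := Es) (n := n) (θ := θ) (z := z) (fun _ => (1 : ℝ))
      simp only [mul_one] at h2
      rw [hz']
      dsimp only
      rw [h2]
      congr 1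
      have h3 := hz.sum
      have h4 : ((∑ c ∈ (triL n Es).toFinset, z c : ℚ) : ℝ) = ((τ : ℚ) : ℝ) := by rw [h3]
      push_cast at h4
      exact h4
    have h2 : ∑ v ∈ Finset.range n, s v ≤ n * (2 / K) := by
      refine (Finset.sum_le_card_nsmul _ _ (2 / (K : ℝ)) fun v hv =>
        (hb v (Finset.mem_range.1 hv)).2).trans ?_
      rw [Finset.card_range, nsmul_eq_mul]
    have h3 : θ ≤ 1 := by
      rw [hθ, div_le_one (by linarith)]
      linarith
    have h4 : |θ * τ - (τ : ℝ)| = (1 - θ) * τ := by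
      have h5 : θ * τ - (τ : ℝ) = -((1 - θ) * τ) := by ring
      rw [h5, abs_neg, abs_of_nonneg]
      exact mul_nonneg (by linarith) (Nat.cast_nonneg _)
    have h5 : (1 - θ) * (τ : ℝ) ≤ n * (1 / K) := by
      have h6 : 1 - θ ≤ 1 / K := by
        rw [le_div_iff₀ hKr]
        have : 0 ≤ 1 - θ := by linarith
        nlinarith
      have h7 : (τ : ℝ) ≤ n := by
        have : τ ≤ n := by omega
        exact_mod_cast this
      have h8 : 0 ≤ 1 - θ := by linarith
      calc (1 - θ) * (τ : ℝ) ≤ (1 / K) * n :=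
            mul_le_mul h6 h7 (Nat.cast_nonneg _) (by positivity)
        _ = n * (1 / K) := by ring
    rw [h1, h4]
    calc (1 - θ) * (τ : ℝ) + ∑ v ∈ Finset.range n, s v ≤ n * (1 / K) + n * (2 / K) :=
          add_le_add h5 h2
      _ = 3 * n / K := by ring

/-- `restL` is the complement of the core

Proof: `mem_restL` (in `h61/Alg.lean`), `mem_core`. -/
theorem restL_core (hG : Gr (Finset.range n) (EE Es)) :
    (restL n Es).toFinset = Finset.range n \ core (gr Es) (Finset.range n) := by
  ext v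
  rw [List.mem_toFinset, mem_restL hG, Finset.mem_sdiff, mem_core, Finset.mem_range]
  constructor
  · rintro ⟨h1, h2⟩
    refine ⟨h1, ?_⟩
    rintro ⟨_, T, _, h4, h5⟩
    obtain ⟨a, b, g1, g2, g3, _⟩ := exists_abc h4 h5
    exact h2 ⟨a, b, (gr_adj hG).1 g1, (gr_adj hG).1 g3, (gr_adj hG).1 g2⟩
  · rintro ⟨h1, h2⟩
    refine ⟨h1, ?_⟩
    rintro ⟨a, b, g1, g3, g2⟩
    refine h2 ⟨h1, {v, a, b}, ?_, clique_abc ((gr_adj hG).2 g1) ((gr_adj hG).2 g2)
      ((gr_adj hG).2 g3), by simp⟩
    intro w hw
    simp only [Finset.mem_insert, Finset.mem_singleton] at hw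
    rcases hw with rfl | rfl | rfl
    · exact Finset.mem_range.2 h1
    · exact hG.mem' g1
    · exact hG.mem' g2

/-- Soundness of the test.

Proof. Unfold the test: `h`, `n = 3 τ + 2 h`, the matching condition, `perc = true`. `perc_sound` and
`alp_of_perc` with `K = prc C n` give `ALP (gr Es) (range n) τ (3 n / K)`, and
`C (n + 1) 3 n ≤ K`. `hMain` gives a family `S` of `τ` disjoint triangles whose complement has a
fractional perfect matching. Apply `parity` with `C = S.biUnion id` (contained in the core, `3 τ`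
elements) and `M` the set of the ends of the matching `maxMatch (restL n Es) (restE n Es)`
(`maxMatch_spec`, `isG_rest`, `mem_restE`, `pmon_of_mat`, `length_ends`); `|A \ C| = 2 h`. The same
family `S` is a solution. -/
theorem test3_sound {C : ℕ} (hMain : Main C) (hG : Gr (Finset.range n) (EE Es)) {col : ℕ → ZMod 3}
    (hPC : PC (gr Es) (Finset.range n) col) {τ : ℕ} (h : test3 C n Es τ = true) :
    Sol (gr Es) (Finset.range n) τ := by
  classical
  unfold test3 at h
  simp only [List.any_eq_true, List.mem_range, Bool.and_eq_true, decide_eq_true_eq] at h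
  obtain ⟨h, hh, hn, hρ, hperc⟩ := h
  have hK : 0 < prc C n := by unfold prc; omega
  have hKr : (0 : ℝ) < (prc C n : ℝ) := by exact_mod_cast hK
  obtain ⟨z, y, hz, hy, hcov⟩ := perc_sound (Nat.succ_pos _) hK hperc
  have hA := alp_of_perc hG hn hK hz hy hcov
  have hcard : (Finset.range n).card = n := Finset.card_range n
  have hsmall : (C : ℝ) * ((Finset.range n).card + 1) * (3 * n / (prc C n : ℝ)) ≤ 1 := by
    rw [hcard, ← mul_div_assoc, div_le_one hKr]
    have h1 : C * (n + 1) * (3 * n) ≤ prc C n := by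
      unfold prc
      nlinarith [Nat.zero_le (C * (n + 1))]
    exact_mod_cast h1
  have hev : Even ((Finset.range n).card + τ) := by
    rw [hcard]
    exact ⟨2 * τ + h, by omega⟩
  obtain ⟨S, hS1, hS2, hS3, hS4⟩ := hMain (gr Es) (Finset.range n) col τ _ hPC hA (by positivity)
    hsmall hev
  refine ⟨S, hS1, hS2, hS3, ?_⟩
  -- the union of the triangles
  have hU : (S.biUnion id).card = 3 * τ := by
    rw [Finset.card_biUnion]
    · have h1 : ∀ T ∈ S, (id T : Finset ℕ).card = 3 := fun T hT => (hS2 T hT).2.card_eq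
      rw [Finset.sum_congr rfl h1, Finset.sum_const, hS1, smul_eq_mul, mul_comm]
    · intro T hT T' hT' hne
      exact hS3 T hT T' hT' hne
  have hUA : S.biUnion id ⊆ core (gr Es) (Finset.range n) := by
    intro v hv
    obtain ⟨T, hT, hvT⟩ := Finset.mem_biUnion.1 hv
    exact mem_core.2 ⟨(hS2 T hT).1 hvT, T, (hS2 T hT).1, (hS2 T hT).2, hvT⟩
  have hUr : S.biUnion id ⊆ Finset.range n := hUA.trans core_sub
  have hev2 : Even (Finset.range n \ S.biUnion id).card := by
    rw [Finset.card_sdiff_of_subset hUr, hcard, hU]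
    exact ⟨h, by omega⟩
  obtain ⟨hM1, _⟩ := maxMatch_spec (isG_rest hG)
  set MR := maxMatch (restL n Es) (restE n Es) with hMR
  have hRl : (restL n Es).toFinset.card = (restL n Es).length :=
    List.toFinset_card_of_nodup nodup_restL
  have hMc : (ends MR).toFinset.card = 2 * MR.length := by
    rw [List.toFinset_card_of_nodup hM1.nd, length_ends]
  have hMsub : (ends MR).toFinset ⊆ (restL n Es).toFinset := by
    intro v hv
    rw [List.mem_toFinset] at hv
    obtain ⟨p, hp, h1⟩ := mem_ends.1 hv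
    have h2 := mem_restE.1 (hM1.sub p hp)
    rw [List.mem_toFinset]
    rcases h1 with rfl | rfl
    · exact h2.2.1
    · exact h2.2.2
  have hPM : PMon (gr Es) (ends MR).toFinset := by
    apply pmon_of_mat hG _ hM1.nd
    intro p hp
    exact (mem_restE.1 (hM1.sub p hp)).1
  have hcore : (core (gr Es) (Finset.range n)).card + (restL n Es).length = n := by
    have h1 := Finset.card_sdiff_add_card_eq_card (core_sub (G := gr Es) (A := Finset.range n))
    rw [← restL_core hG, hRl, hcard] at h1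
    omega
  refine parity hPC.pr hUA hev2 hS4 (M := (ends MR).toFinset) ?_ hPM ?_
  · rw [← restL_core hG]
    exact hMsub
  · have h1 := Finset.card_le_card hMsub
    rw [hMc, hRl] at h1
    rw [← restL_core hG, Finset.card_sdiff_of_subset hMsub, hRl, hMc, hU]
    omega

end Pool.Agent.H.MP_ebc13b_lc.h46
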