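import Pool.Agent.H.MP_ebc13b_lc.h46.FinT
import Pool.Agent.H.MP_ebc13b_lc.h46.PWeak

/-!
Completeness of the test.
-/

namespace Pool.Agent.H.MP_ebc13b_lc.h46

open Pool.Agent.H.MP_5be563_lc.PT Pool.Agent.H.MP_ebc13b_lc.h61 Pool.Agent.H.MP_ebc13b_lc.h53

variable {Es : List (ℕ × ℕ)} {n : ℕ}

/-- the increasing list of the elements of a triangle -/
private theorem FinD_sort (hG : Gr (Finset.range n) (EE Es)) {T : Finset ℕ}
    (h3 : (gr Es).IsNClique 3 T) :
    ∃ i j k, i < j ∧ j < k ∧ T = {i, j, k} ∧ Tri (EE Es) i j k := by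
  have hadj : ∀ u ∈ T, ∀ v ∈ T, u ≠ v → EE Es u v := by
    intro u hu v hv huv
    exact (gr_adj hG).1 (h3.isClique (Finset.mem_coe.2 hu) (Finset.mem_coe.2 hv) huv)
  have key : ∀ i j k, i < j → j < k → T = {i, j, k} →
      ∃ i j k, i < j ∧ j < k ∧ T = {i, j, k} ∧ Tri (EE Es) i j k := by
    intro i j k hij hjk he
    have hi : i ∈ T := by rw [he]; simp
    have hj : j ∈ T := by rw [he]; simp
    have hk : k ∈ T := by rw [he]; simp
    exact ⟨i, j, k, hij, hjk, he, hadj i hi j hj hij.ne, hadj j hj k hk hjk.ne,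
      hadj i hi k hk (hij.trans hjk).ne⟩
  obtain ⟨x, y, z, hxy, hxz, hyz, he⟩ := Finset.card_eq_three.1 h3.card_eq
  rcases lt_or_gt_of_ne hxy with g1 | g1 <;> rcases lt_or_gt_of_ne hyz with g2 | g2 <;>
    rcases lt_or_gt_of_ne hxz with g3 | g3
  · exact key x y z g1 g2 he
  · omega
  · exact key x z y g3 g2 (by rw [he]; ext v; simp; tauto)
  · exact key z x y g3 g1 (by rw [he]; ext v; simp; tauto)
  · exact key y x z g1 g3 (by rw [he]; ext v; simp; tauto)
  · exact key y z x g2 g3 (by rw [he]; ext v; simp; tauto)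
  · omega
  · exact key z y x g2 g1 (by rw [he]; ext v; simp; tauto)

/-- `restL` is the complement of the core -/
private theorem FinD_rest (hG : Gr (Finset.range n) (EE Es)) :
    (restL n Es).toFinset = Finset.range n \ core (gr Es) (Finset.range n) := by
  ext v
  rw [List.mem_toFinset, mem_restL hG, Finset.mem_sdiff, Finset.mem_range, mem_core]
  refine and_congr_right fun hv => not_congr ?_
  constructor
  · rintro ⟨b, d, h⟩
    refine ⟨Finset.mem_range.2 hv, {v, b, d}, ?_, ?_, by simp⟩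
    · intro x hx
      simp only [Finset.mem_insert, Finset.mem_singleton] at hx
      rcases hx with rfl | rfl | rfl
      · exact Finset.mem_range.2 hv
      · exact hG.mem' h.1
      · exact hG.mem' h.2.1
    · rw [SimpleGraph.is3Clique_triple_iff]
      exact ⟨(gr_adj hG).2 h.1, (gr_adj hG).2 h.2.2, (gr_adj hG).2 h.2.1⟩
  · rintro ⟨_, T, hT, h3, hvT⟩
    obtain ⟨i, j, k, _, _, he, ht⟩ := FinD_sort hG h3
    rw [he] at hvT
    simp only [Finset.mem_insert, Finset.mem_singleton] at hvT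
    rcases hvT with rfl | rfl | rfl
    · exact ⟨_, _, ht⟩
    · exact ⟨_, _, ht.rot hG⟩
    · exact ⟨_, _, (ht.rot hG).rot hG⟩

/-- the number of pairs of a fixed point free involution -/
private theorem FinD_card {W : Finset ℕ} {g : ℕ → ℕ}
    (hg : ∀ v ∈ W, g v ∈ W ∧ v ≠ g v ∧ g (g v) = v) :
    W.card = 2 * (W.filter fun v => v < g v).card := by
  have h1 : (W.filter fun v => ¬ v < g v).card = (W.filter fun v => v < g v).card := by
    refine Finset.card_bij (fun v _ => g v) ?_ ?_ ?_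
    · intro v hv
      obtain ⟨hv1, hv2⟩ := Finset.mem_filter.1 hv
      obtain ⟨a1, a2, a3⟩ := hg v hv1
      refine Finset.mem_filter.2 ⟨a1, ?_⟩
      rw [a3]
      omega
    · intro v hv w hw e
      have e1 := (hg v (Finset.mem_filter.1 hv).1).2.2
      have e2 := (hg w (Finset.mem_filter.1 hw).1).2.2
      rw [← e1, ← e2]
      exact congrArg g e
    · intro w hw
      obtain ⟨hw1, hw2⟩ := Finset.mem_filter.1 hw
      obtain ⟨a1, a2, a3⟩ := hg w hw1
      refine ⟨g w, Finset.mem_filter.2 ⟨a1, ?_⟩, a3⟩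
      rw [a3]
      omega
  have h2 := Finset.card_filter_add_card_filter_not (s := W) (fun v => v < g v)
  omega

/-- Completeness of the test.

Proof. (Compare `test_complete` in `h61/Alg.lean`, which does the same for a partition given by a
colouring; `frac_of_fib` there may help.) Let `S` be the family and `f` the involution of the rest
`W = range n \ ⋃ S`, `2 h = |W|` (`mat_of_pmon` gives a list `M` of `h` edges). `n = 3 τ + 2 h`.
Weights: `z c = 1` if the set of the elements of `c` belongs to `S` and `c` is increasing, otherwise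
`0`; `y c = 1` if `c = [u, v]` with `u < v` and `f u = v`, `u ∈ W`, otherwise `0`. Every vertex
`v < n` has `cov z v + cov y v = 1`. So `perc_complete` applies, with
`n (τ + h + 1) ^ 2 K ^ 2 ≤ n ((τ + h + 1) (τ + h + 1)) (K K) + 1`.
The matching condition: `rcond_of_pm` (in `PWeak.lean`) with `C = ⋃ S ⊆ core`, `|C| = 3 τ`, gives
`M' ⊆ R = range n \ core` with a perfect matching and `|R \ M'| + 3 τ ≤ |core|`; `mat_of_pmon` and
`maxMatch_max` (with `isG_rest`) give `|M'| ≤ 2 (maxMatch ..).length`; and `R = (restL n Es).toFinset`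
(`mem_restL`, `mem_core`), `|core| = n - |R|`. -/
theorem test3_complete {C : ℕ} (hG : Gr (Finset.range n) (EE Es))
    (hPr : Prism (gr Es) (Finset.range n)) {τ : ℕ} (h : Sol (gr Es) (Finset.range n) τ) :
    test3 C n Es τ = true := by
  classical
  obtain ⟨S, hSc, hS, hSd, hPM⟩ := h
  set X := Finset.range n with hX
  set C0 := S.biUnion id with hC0
  set W := X \ C0 with hW
  have hPM' := hPM
  obtain ⟨g, hg0⟩ := hPM'
  have hg : ∀ v ∈ W, g v ∈ W ∧ v ≠ g v ∧ g (g v) = v := fun v hv =>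
    ⟨(hg0 v hv).1, (hg0 v hv).2.1.ne, (hg0 v hv).2.2⟩
  have hgE : ∀ v ∈ W, EE Es v (g v) := fun v hv => (gr_adj hG).1 (hg0 v hv).2.1
  -- the smallest elements of the triangles
  have hmn : ∀ T : Finset ℕ, ∃ m : ℕ, T ∈ S → m ∈ T := by
    intro T
    by_cases hT : T ∈ S
    · obtain ⟨m, hm⟩ := Finset.card_pos.1 (by rw [(hS T hT).2.card_eq]; norm_num : 0 < T.card)
      exact ⟨m, fun _ => hm⟩
    · exact ⟨0, fun h => absurd h hT⟩
  choose m hm using hmn
  have huniq : ∀ T ∈ S, ∀ T' ∈ S, ∀ v, v ∈ T → v ∈ T' → T = T' := by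
    intro T hT T' hT' v hv hv'
    by_contra hne
    exact Finset.disjoint_left.1 (hSd T hT T' hT' hne) hv hv'
  have hCmem : ∀ v, v ∈ C0 ↔ ∃ T ∈ S, v ∈ T := by
    intro v
    rw [hC0, Finset.mem_biUnion]
    rfl
  have hCX : C0 ⊆ X := by
    intro v hv
    obtain ⟨T, hT, hvT⟩ := (hCmem v).1 hv
    exact (hS T hT).1 hvT
  set f : ℕ → ℕ := fun v => if h : ∃ T ∈ S, v ∈ T then m h.choose else min v (g v) with hf
  have hf1 : ∀ T ∈ S, ∀ v ∈ T, f v = m T := by
    intro T hT v hv
    have h : ∃ T ∈ S, v ∈ T := ⟨T, hT, hv⟩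
    have h1 : f v = m h.choose := by
      rw [hf]
      exact dif_pos h
    rw [h1, huniq _ h.choose_spec.1 T hT v h.choose_spec.2 hv]
  have hf2 : ∀ v ∈ W, f v = min v (g v) := by
    intro v hv
    have h : ¬ ∃ T ∈ S, v ∈ T := by
      rw [← hCmem]
      exact (Finset.mem_sdiff.1 hv).2
    rw [hf]
    exact dif_neg h
  have hminW : ∀ v ∈ W, min v (g v) ∈ W := by
    intro v hv
    rcases min_choice v (g v) with h | h <;> rw [h]
    · exact hv
    · exact (hg v hv).1
  set S3 := S.image m with hS3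
  set S2 := W.filter fun v => v < g v with hS2
  have hS3C : ∀ s ∈ S3, s ∈ C0 := by
    intro s hs
    obtain ⟨T, hT, rfl⟩ := Finset.mem_image.1 hs
    exact (hCmem _).2 ⟨T, hT, hm T hT⟩
  have hS3c : S3.card = τ := by
    rw [hS3, Finset.card_image_of_injOn, hSc]
    intro T hT T' hT' e
    have h1 := hm T (Finset.mem_coe.1 hT)
    have h2 := hm T' (Finset.mem_coe.1 hT')
    have e' : m T = m T' := e
    rw [e'] at h1
    exact huniq T (Finset.mem_coe.1 hT) T' (Finset.mem_coe.1 hT') _ h1 h2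
  have hC0c : C0.card = 3 * τ := by
    have h1 : (S.biUnion id).card = ∑ T ∈ S, (id T : Finset ℕ).card :=
      Finset.card_biUnion (fun T hT T' hT' hne => hSd T hT T' hT' hne)
    have h2 : ∑ T ∈ S, (id T : Finset ℕ).card = ∑ T ∈ S, 3 :=
      Finset.sum_congr rfl (fun T hT => (hS T hT).2.card_eq)
    rw [hC0, h1, h2, Finset.sum_const, hSc, smul_eq_mul, Nat.mul_comm]
  have hWc : W.card = 2 * S2.card := FinD_card hg
  have hXc : n = 3 * τ + 2 * S2.card := by
    have h1 := Finset.card_sdiff_add_card_eq_card hCX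
    rw [← hW, hWc, hC0c, hX, Finset.card_range] at h1
    omega
  have hfib3 : ∀ T ∈ S, fib X f (m T) = T := by
    intro T hT
    ext v
    rw [mem_fib]
    constructor
    · rintro ⟨hvX, hv⟩
      by_cases hvC : v ∈ C0
      · obtain ⟨T', hT', hvT'⟩ := (hCmem v).1 hvC
        rw [hf1 T' hT' v hvT'] at hv
        have h1 := hm T' hT'
        rw [hv] at h1
        rw [← huniq T' hT' T hT _ h1 (hm T hT)]
        exact hvT'
      · exfalso
        have hvW : v ∈ W := Finset.mem_sdiff.2 ⟨hvX, hvC⟩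
        have h1 := hminW v hvW
        rw [← hf2 v hvW, hv] at h1
        exact (Finset.mem_sdiff.1 h1).2 ((hCmem _).2 ⟨T, hT, hm T hT⟩)
    · intro hv
      exact ⟨(hS T hT).1 hv, hf1 T hT v hv⟩
  have hfib2 : ∀ s ∈ S2, fib X f s = {s, g s} := by
    intro s hs
    obtain ⟨hsW, hlt⟩ := Finset.mem_filter.1 hs
    obtain ⟨a1, a2, a3⟩ := hg s hsW
    ext v
    rw [mem_fib, Finset.mem_insert, Finset.mem_singleton]
    constructor
    · rintro ⟨hvX, hv⟩
      by_cases hvC : v ∈ C0
      · exfalso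
        obtain ⟨T', hT', hvT'⟩ := (hCmem v).1 hvC
        rw [hf1 T' hT' v hvT'] at hv
        have h1 := hm T' hT'
        rw [hv] at h1
        exact (Finset.mem_sdiff.1 hsW).2 ((hCmem _).2 ⟨T', hT', h1⟩)
      · have hvW : v ∈ W := Finset.mem_sdiff.2 ⟨hvX, hvC⟩
        rw [hf2 v hvW] at hv
        rcases min_choice v (g v) with h1 | h1
        · exact Or.inl (h1.symm.trans hv)
        · right
          rw [← hv, h1]
          exact ((hg v hvW).2.2).symm
    · rintro (rfl | rfl)
      · refine ⟨(Finset.mem_sdiff.1 hsW).1, ?_⟩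
        rw [hf2 _ hsW]
        omega
      · refine ⟨(Finset.mem_sdiff.1 a1).1, ?_⟩
        rw [hf2 _ a1, a3]
        omega
  have htrip : ∀ s, ∃ c : List ℕ, s ∈ S3 → (c ∈ triL n Es ∧ ∀ v, v ∈ c ↔ v ∈ fib X f s) := by
    intro s
    by_cases hs : s ∈ S3
    · obtain ⟨T, hT, rfl⟩ := Finset.mem_image.1 hs
      obtain ⟨i, j, k, hij, hjk, he, ht⟩ := FinD_sort hG (hS T hT).2
      have hsub := (hS T hT).1
      have hi : i < n := Finset.mem_range.1 (hsub (by rw [he]; simp))
      have hj : j < n := Finset.mem_range.1 (hsub (by rw [he]; simp))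
      have hk : k < n := Finset.mem_range.1 (hsub (by rw [he]; simp))
      refine ⟨[i, j, k], fun _ => ⟨mem_triL.2 ⟨i, j, k, rfl, hi, hj, hk, hij, hjk, ht⟩, ?_⟩⟩
      intro v
      rw [hfib3 T hT, he]
      simp
    · exact ⟨[], fun h => absurd h hs⟩
  choose c3 hc3 using htrip
  obtain ⟨hz, hzc⟩ := frac_of_fib (n := n) (f := f) (A := triL n Es) S3 c3
    (fun s hs => (hc3 s hs).1) (fun s hs => (hc3 s hs).2)
    (fun s hs => by
      obtain ⟨T, hT, rfl⟩ := Finset.mem_image.1 hs
      refine ⟨m T, ?_⟩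
      have h1 := hfib3 T hT
      rw [hX] at h1
      rw [h1]
      exact hm T hT)
  obtain ⟨hy, hyc⟩ := frac_of_fib (n := n) (f := f) (A := edgL n Es) S2
    (fun s => [s, g s])
    (by
      intro s hs
      obtain ⟨hsW, hlt⟩ := Finset.mem_filter.1 hs
      have a1 := (hg s hsW).1
      exact mem_edgL.2 ⟨s, g s, rfl, Finset.mem_range.1 (Finset.mem_sdiff.1 hsW).1,
        Finset.mem_range.1 (Finset.mem_sdiff.1 a1).1, hlt, hgE s hsW⟩)
    (by
      intro s hs v
      have h1 := hfib2 s hs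
      rw [hX] at h1
      rw [h1]
      simp)
    (fun s hs => by
      refine ⟨s, ?_⟩
      have h1 := hfib2 s hs
      rw [hX] at h1
      rw [h1]
      simp)
  have hcov : ∀ v < n, cov (triL n Es) (fun c => if c ∈ S3.image c3 then 1 else 0) v +
      cov (edgL n Es) (fun c => if c ∈ S2.image (fun s => [s, g s]) then 1 else 0) v = 1 := by
    intro v hv
    rw [hzc v hv, hyc v hv]
    have hvX : v ∈ X := Finset.mem_range.2 hv
    by_cases hvC : v ∈ C0
    · obtain ⟨T, hT, hvT⟩ := (hCmem v).1 hvC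
      have h1 : f v ∈ S3 := by
        rw [hf1 T hT v hvT]
        exact Finset.mem_image_of_mem _ hT
      have h2 : f v ∉ S2 := fun h2 =>
        (Finset.mem_sdiff.1 (Finset.mem_filter.1 h2).1).2 (hS3C _ h1)
      rw [if_pos h1, if_neg h2, add_zero]
    · have hvW : v ∈ W := Finset.mem_sdiff.2 ⟨hvX, hvC⟩
      have h1 : f v ∈ S2 := by
        rw [hf2 v hvW]
        refine Finset.mem_filter.2 ⟨hminW v hvW, ?_⟩
        obtain ⟨a1, a2, a3⟩ := hg v hvW
        rcases min_choice v (g v) with h1 | h1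
        · rw [h1]
          have := min_le_right v (g v)
          omega
        · rw [h1, a3]
          have := min_le_left v (g v)
          omega
      have h2 : f v ∉ S3 := fun h2 => (Finset.mem_sdiff.1 (Finset.mem_filter.1 h1).1).2 (hS3C _ h2)
      rw [if_pos h1, if_neg h2, zero_add]
  rw [hS3c] at hz
  have hperc : perc n τ S2.card (triL n Es) (edgL n Es)
      (n * ((τ + S2.card + 1) * (τ + S2.card + 1)) * (prc C n * prc C n) + 1)
      (prc C n) = true := by
    refine perc_complete (cols_triL n Es) (cols_edgL n Es) hz hy hcov ?_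
    rw [sq, sq]
    omega
  -- the condition outside the core
  have hρ : (restL n Es).length + 3 * τ ≤
      2 * (maxMatch (restL n Es) (restE n Es)).length + (n - (restL n Es).length) := by
    have hR := FinD_rest hG
    rw [← hX] at hR
    have hRc : (restL n Es).toFinset.card = (restL n Es).length :=
      List.toFinset_card_of_nodup nodup_restL
    have hCcore : C0 ⊆ core (gr Es) X := by
      intro v hv
      obtain ⟨T, hT, hvT⟩ := (hCmem v).1 hv
      exact mem_core.2 ⟨hCX hv, T, (hS T hT).1, (hS T hT).2, hvT⟩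
    obtain ⟨M, hMR, hPMM, hMc⟩ := rcond_of_pm hCcore hPM
    obtain ⟨ML, hML, hMLn, hMLc⟩ := mat_of_pmon hG hPMM
    have h1 : Mch (EE Es) (restL n Es).toFinset ML := by
      refine ⟨fun p hp => ?_, hMLn⟩
      obtain ⟨a1, a2, a3⟩ := hML p hp
      rw [hR]
      exact ⟨a1, hMR a2, hMR a3⟩
    have h2 := maxMatch_max (isG_rest hG) (mch_rest.1 h1)
    have h3 := Finset.card_sdiff_add_card_eq_card hMR
    have h4 := Finset.card_sdiff_add_card_eq_card (core_sub (G := gr Es) (A := X))
    have h5 : X.card = n := by rw [hX, Finset.card_range]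
    rw [← hRc, hR]
    rw [hC0c] at hMc
    omega
  unfold test3
  rw [List.any_eq_true]
  refine ⟨S2.card, List.mem_range.2 (by omega), ?_⟩
  simp only [Bool.and_eq_true, decide_eq_true_eq]
  exact ⟨hXc, hρ, hperc⟩

end Pool.Agent.H.MP_ebc13b_lc.h46
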