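import Pool.Agent.H.MP_ebc13b_lc.h46.RLg
import Pool.Agent.H.MP_ebc13b_lc.h46.Defs

/-!
Disjoint triangles which meet different blades of a vertex: there are at most 13.
-/

namespace Pool.Agent.H.MP_ebc13b_lc.h46

variable {α : Type*} [DecidableEq α] {ι : Type*} [DecidableEq ι]

/-- Disjoint triangles `{u i, p i, q i}` without `h`, where `{h, u i, w i}`, `i ∈ I`, are different
triangles. -/
structure Fam (G : SimpleGraph α) (A : Finset α) (h : α) (I : Finset ι) (u w p q : ι → α) :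
    Prop where
  pr : Prism G A
  hA : h ∈ A
  mem : ∀ i ∈ I, u i ∈ A ∧ w i ∈ A ∧ p i ∈ A ∧ q i ∈ A
  bl : ∀ i ∈ I, G.Adj h (u i) ∧ G.Adj h (w i) ∧ G.Adj (u i) (w i)
  tr : ∀ i ∈ I, G.Adj (u i) (p i) ∧ G.Adj (u i) (q i) ∧ G.Adj (p i) (q i)
  nh : ∀ i ∈ I, p i ≠ h ∧ q i ≠ h
  inj : ∀ i ∈ I, ∀ j ∈ I, i ≠ j → u i ≠ u j ∧ u i ≠ w j ∧ w i ≠ w j
  disj : ∀ i ∈ I, ∀ j ∈ I, i ≠ j → Disjoint ({u i, p i, q i} : Finset α) {u j, p j, q j}

variable {G : SimpleGraph α} {A : Finset α} {h : α} {I : Finset ι} {u w p q : ι → α}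

/-- Proof: `h` is outside the triangle `{u i, p i, q i}` and adjacent to `u i` (`Prism.unique`). -/
theorem Fam.nadj (F : Fam G A h I u w p q) {i : ι} (hi : i ∈ I) :
    ¬ G.Adj h (p i) ∧ ¬ G.Adj h (q i) := by
  obtain ⟨hu, hw, hp, hq⟩ := F.mem i hi
  obtain ⟨b1, b2, b3⟩ := F.bl i hi
  obtain ⟨t1, t2, t3⟩ := F.tr i hi
  obtain ⟨n1, n2⟩ := F.nh i hi
  exact ⟨F.pr.unique hu hp hq t1 t2 t3 F.hA n2.symm b1,
    F.pr.unique hu hq hp t2 t1 t3.symm F.hA n1.symm b1⟩

/-- Proof: `u i` is outside the triangle `{h, u j, w j}` and adjacent to `h` (`Prism.unique`). -/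
theorem Fam.nadj' (F : Fam G A h I u w p q) {i j : ι} (hi : i ∈ I) (hj : j ∈ I) (hij : i ≠ j) :
    ¬ G.Adj (u i) (u j) ∧ ¬ G.Adj (u i) (w j) := by
  obtain ⟨hu, hw, hp, hq⟩ := F.mem i hi
  obtain ⟨hu', hw', hp', hq'⟩ := F.mem j hj
  obtain ⟨b1, b2, b3⟩ := F.bl i hi
  obtain ⟨c1, c2, c3⟩ := F.bl j hj
  obtain ⟨d1, d2, d3⟩ := F.inj i hi j hj hij
  exact ⟨F.pr.unique F.hA hu' hw' c1 c2 c3 hu d2 b1.symm,
    F.pr.unique F.hA hw' hu' c2 c1 c3.symm hu d1 b1.symm⟩

/-- The vertices of the two triangles are different. -/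
theorem rlb_ne (F : Fam G A h I u w p q) {i j : ι} (hi : i ∈ I) (hj : j ∈ I) (hij : i ≠ j) :
    (u i ≠ u j ∧ u i ≠ p j ∧ u i ≠ q j) ∧ (p i ≠ u j ∧ p i ≠ p j ∧ p i ≠ q j) ∧
      (q i ≠ u j ∧ q i ≠ p j ∧ q i ≠ q j) := by
  have hd := F.disj i hi j hj hij
  rw [Finset.disjoint_left] at hd
  have key : ∀ x, x ∈ ({u i, p i, q i} : Finset α) → x ≠ u j ∧ x ≠ p j ∧ x ≠ q j := by
    intro x hx
    have h1 := hd hx
    simp only [Finset.mem_insert, Finset.mem_singleton, not_or] at h1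
    exact h1
  exact ⟨key _ (by simp), key _ (by simp), key _ (by simp)⟩

/-- The exchange of all the names `p i` and `q i`. -/
theorem rlb_swapAll (F : Fam G A h I u w p q) : Fam G A h I u w q p where
  pr := F.pr
  hA := F.hA
  mem i hi := by
    obtain ⟨a, b, c, d⟩ := F.mem i hi
    exact ⟨a, b, d, c⟩
  bl := F.bl
  tr i hi := by
    obtain ⟨a, b, c⟩ := F.tr i hi
    exact ⟨b, a, c.symm⟩
  nh i hi := (F.nh i hi).symm
  inj := F.inj
  disj i hi j hj hij := by
    have hd := F.disj i hi j hj hij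
    have e : ∀ a b c : α, ({a, b, c} : Finset α) = {a, c, b} := by
      intro a b c
      ext x
      simp only [Finset.mem_insert, Finset.mem_singleton]
      tauto
    rw [e (u i), e (u j)]
    exact hd

/-- Proof. `u j` and `w j` are outside the triangle `{u i, p i, q i}` (`w j` is adjacent to `h`, so
it is not `p i` or `q i`), and not adjacent to `u i` (`Fam.nadj'`): so each of them is adjacent to
exactly one of `p i, q i`. `p i` and `q i` are outside the triangle `{h, u j, w j}` and not adjacent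
to `h`: so each of them is adjacent to exactly one of `u j, w j`. -/
theorem Fam.sees (F : Fam G A h I u w p q) {i j : ι} (hi : i ∈ I) (hj : j ∈ I) (hij : i ≠ j) :
    (G.Adj (p i) (u j) ∧ G.Adj (q i) (w j) ∧ ¬ G.Adj (p i) (w j) ∧ ¬ G.Adj (q i) (u j)) ∨
      (G.Adj (p i) (w j) ∧ G.Adj (q i) (u j) ∧ ¬ G.Adj (p i) (u j) ∧ ¬ G.Adj (q i) (w j)) := by
  obtain ⟨hu, hw, hp, hq⟩ := F.mem i hi
  obtain ⟨hu', hw', hp', hq'⟩ := F.mem j hj
  obtain ⟨b1, b2, b3⟩ := F.bl i hi
  obtain ⟨c1, c2, c3⟩ := F.bl j hj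
  obtain ⟨t1, t2, t3⟩ := F.tr i hi
  obtain ⟨n1, n2⟩ := F.nh i hi
  obtain ⟨a1, a2⟩ := F.nadj hi
  obtain ⟨e1, e2⟩ := F.nadj' hi hj hij
  obtain ⟨d1, d2, d3⟩ := F.inj i hi j hj hij
  have up : u j ≠ p i := fun e => a1 (e ▸ c1)
  have uq : u j ≠ q i := fun e => a2 (e ▸ c1)
  have wp : w j ≠ p i := fun e => a1 (e ▸ c2)
  have wq : w j ≠ q i := fun e => a2 (e ▸ c2)
  have s1 := F.pr.sees hu hp hq t1 t2 t3 hu' d1.symm up uq
  have s2 := F.pr.sees hu hp hq t1 t2 t3 hw' d2.symm wp wq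
  have p1 : G.Adj (p i) (u j) → ¬ G.Adj (p i) (w j) :=
    F.pr.unique hu' hw' F.hA c3 c1.symm c2.symm hp n1
  have q1 : G.Adj (q i) (u j) → ¬ G.Adj (q i) (w j) :=
    F.pr.unique hu' hw' F.hA c3 c1.symm c2.symm hq n2
  have s1' : G.Adj (p i) (u j) ∨ G.Adj (q i) (u j) := by
    rcases s1 with s | s | s
    · exact absurd s.symm e1
    · exact Or.inl s.symm
    · exact Or.inr s.symm
  have s2' : G.Adj (p i) (w j) ∨ G.Adj (q i) (w j) := by
    rcases s2 with s | s | s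
    · exact absurd s.symm e2
    · exact Or.inl s.symm
    · exact Or.inr s.symm
  tauto

/-- Proof. Every vertex of one of the two disjoint triangles is adjacent to exactly one vertex of
the other one; `q i` is not adjacent to `u j` (which is adjacent to `p i`, `Prism.unique`) and not
adjacent to `p j` (which is adjacent to `u i`). -/
theorem Fam.qq (F : Fam G A h I u w p q) {i j : ι} (hi : i ∈ I) (hj : j ∈ I) (hij : i ≠ j)
    (h1 : G.Adj (p i) (u j)) (h2 : G.Adj (p j) (u i)) : G.Adj (q i) (q j) := by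
  obtain ⟨hu, hw, hp, hq⟩ := F.mem i hi
  obtain ⟨hu', hw', hp', hq'⟩ := F.mem j hj
  obtain ⟨t1, t2, t3⟩ := F.tr i hi
  obtain ⟨r1, r2, r3⟩ := F.tr j hj
  obtain ⟨⟨x1, x2, x3⟩, ⟨y1, y2, y3⟩, ⟨z1, z2, z3⟩⟩ := rlb_ne F hi hj hij
  have s := F.pr.sees hu' hp' hq' r1 r2 r3 hq z1 z2 z3
  have s1 : ¬ G.Adj (u j) (q i) :=
    F.pr.unique hp hq hu t3 t1.symm t2.symm hu' x1.symm h1.symm
  have s2 : ¬ G.Adj (p j) (q i) :=
    F.pr.unique hu hq hp t2 t1 t3.symm hp' y2.symm h2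
  rcases s with s | s | s
  · exact absurd s.symm s1
  · exact absurd s.symm s2
  · exact s

/-- the same with the names exchanged

Proof. `p i` is not adjacent to `u j` (which is adjacent to `q i`) and not adjacent to `q j` (which is
adjacent to `u i`), so it is adjacent to `p j`. -/
theorem Fam.pp (F : Fam G A h I u w p q) {i j : ι} (hi : i ∈ I) (hj : j ∈ I) (hij : i ≠ j)
    (h1 : G.Adj (q i) (u j)) (h2 : G.Adj (q j) (u i)) : G.Adj (p i) (p j) :=
  Fam.qq (rlb_swapAll F) hi hj hij h1 h2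

/-- Exchange the names of `p i` and `q i` for some indices. Proof: check the fields. -/
theorem Fam.swap (F : Fam G A h I u w p q) {p' q' : ι → α}
    (hs : ∀ i ∈ I, (p' i = p i ∧ q' i = q i) ∨ (p' i = q i ∧ q' i = p i)) :
    Fam G A h I u w p' q' := by
  have hset : ∀ i ∈ I, ({u i, p' i, q' i} : Finset α) = {u i, p i, q i} := by
    intro i hi
    rcases hs i hi with ⟨e1, e2⟩ | ⟨e1, e2⟩
    · rw [e1, e2]
    · rw [e1, e2]
      ext x
      simp only [Finset.mem_insert, Finset.mem_singleton]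
      tauto
  refine ⟨F.pr, F.hA, ?_, F.bl, ?_, ?_, F.inj, ?_⟩
  · intro i hi
    obtain ⟨a, b, c, d⟩ := F.mem i hi
    rcases hs i hi with ⟨e1, e2⟩ | ⟨e1, e2⟩
    · rw [e1, e2]
      exact ⟨a, b, c, d⟩
    · rw [e1, e2]
      exact ⟨a, b, d, c⟩
  · intro i hi
    obtain ⟨a, b, c⟩ := F.tr i hi
    rcases hs i hi with ⟨e1, e2⟩ | ⟨e1, e2⟩
    · rw [e1, e2]
      exact ⟨a, b, c⟩
    · rw [e1, e2]
      exact ⟨b, a, c.symm⟩
  · intro i hi
    obtain ⟨a, b⟩ := F.nh i hi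
    rcases hs i hi with ⟨e1, e2⟩ | ⟨e1, e2⟩
    · rw [e1, e2]
      exact ⟨a, b⟩
    · rw [e1, e2]
      exact ⟨b, a⟩
  · intro i hi j hj hij
    rw [hset i hi, hset j hj]
    exact F.disj i hi j hj hij

/-- There are no seven indices `j` with `p i ~ u j` and `p j ~ u i`.

Proof. For `j ∈ J`: `q i ~ w j` (`Fam.sees`) and `q i ~ q j` (`Fam.qq`). Let `F k j` be the relation
`q k ~ w j`. If `j, j', k ∈ J`, `j, j' ≠ k` and `F k j`, `F k j'`, then `{q i, q k, w j}` and
`{q i, q k, w j'}` are triangles, so `w j = w j'` (`Prism.unique`: `w j'` sees `q i` and `q k`), so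
`j = j'` by `inj`. By `indep_triple` there are three different indices `j, k, l ∈ J` without `F`
relations. For any two of them, `q k` is not adjacent to `w j` and `q j` is not adjacent to `w k`; by
`Fam.sees` `q k ~ u j` and `q j ~ u k`, so `p j ~ p k` (`Fam.pp`). So `p j, p k, p l` are pairwise
adjacent, and all adjacent to `u i`: `u i` is outside the triangle `{p j, p k, p l}` and sees two of
its vertices, `Prism.unique`. -/
theorem Fam.no_seven (F : Fam G A h I u w p q) {i : ι} (hi : i ∈ I) {J : Finset ι}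
    (hJ : J ⊆ I.erase i) (h7 : 7 ≤ J.card)
    (hall : ∀ j ∈ J, G.Adj (p i) (u j) ∧ G.Adj (p j) (u i)) : False := by
  have hJI : ∀ j ∈ J, j ∈ I ∧ i ≠ j := by
    intro j hj
    have h1 := hJ hj
    rw [Finset.mem_erase] at h1
    exact ⟨h1.2, h1.1.symm⟩
  have hqw : ∀ j ∈ J, G.Adj (q i) (w j) := by
    intro j hj
    obtain ⟨hjI, hij⟩ := hJI j hj
    rcases F.sees hi hjI hij with h1 | h1
    · exact h1.2.1
    · exact absurd (hall j hj).1 h1.2.2.1
  have hF : ∀ k ∈ J, ∀ j ∈ J, ∀ j' ∈ J, j ≠ k → j' ≠ k → G.Adj (q k) (w j) →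
      G.Adj (q k) (w j') → j = j' := by
    intro k hk j hj j' hj' _ _ h1 h2
    by_contra hjj
    obtain ⟨hkI, hik⟩ := hJI k hk
    obtain ⟨hjI, hij⟩ := hJI j hj
    obtain ⟨hjI', hij'⟩ := hJI j' hj'
    have hqq : G.Adj (q i) (q k) := F.qq hi hkI hik (hall k hk).1 (hall k hk).2
    have hne : w j' ≠ w j := (F.inj j' hjI' j hjI (fun e => hjj e.symm)).2.2
    exact F.pr.unique (F.mem i hi).2.2.2 (F.mem k hkI).2.2.2 (F.mem j hjI).2.1 hqq (hqw j hj) h1
      (F.mem j' hjI').2.1 hne (hqw j' hj').symm h2.symm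
  obtain ⟨j, hj, k, hk, l, hl, hjk, hjl, hkl, f1, f2, f3, f4, f5, f6⟩ :=
    indep_triple (F := fun a b => G.Adj (q a) (w b)) h7 hF
  have hpp : ∀ a ∈ J, ∀ b ∈ J, a ≠ b → ¬ G.Adj (q a) (w b) → ¬ G.Adj (q b) (w a) →
      G.Adj (p a) (p b) := by
    intro a ha b hb hab g1 g2
    have haI := (hJI a ha).1
    have hbI := (hJI b hb).1
    have r1 : G.Adj (q a) (u b) := by
      rcases F.sees haI hbI hab with h1 | h1
      · exact absurd h1.2.1 g1
      · exact h1.2.1
    have r2 : G.Adj (q b) (u a) := by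
      rcases F.sees hbI haI hab.symm with h1 | h1
      · exact absurd h1.2.1 g2
      · exact h1.2.1
    exact F.pp haI hbI hab r1 r2
  have g1 := hpp j hj k hk hjk f1 f2
  have g2 := hpp j hj l hl hjl f3 f4
  have g3 := hpp k hk l hl hkl f5 f6
  exact F.pr.unique (F.mem j (hJI j hj).1).2.2.1 (F.mem k (hJI k hk).1).2.2.1
    (F.mem l (hJI l hl).1).2.2.1 g1 g2 g3 (F.mem i hi).1 (hall l hl).2.ne' (hall j hj).2.symm
    (hall k hk).2.symm

/-- The same when only `p i ~ u j` is known. -/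
theorem rlb_seven (F : Fam G A h I u w p q) {i : ι} (hi : i ∈ I) {J : Finset ι}
    (hJ : J ⊆ I.erase i) (h7 : 7 ≤ J.card) (hall : ∀ j ∈ J, G.Adj (p i) (u j)) : False := by
  classical
  have F' : Fam G A h I u w (fun j => if j ≠ i ∧ G.Adj (q j) (u i) then q j else p j)
      (fun j => if j ≠ i ∧ G.Adj (q j) (u i) then p j else q j) := by
    refine F.swap ?_
    intro j _
    by_cases hc : j ≠ i ∧ G.Adj (q j) (u i)
    · right
      exact ⟨if_pos hc, if_pos hc⟩
    · left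
      exact ⟨if_neg hc, if_neg hc⟩
  refine F'.no_seven hi hJ h7 ?_
  intro j hj
  have hji := hJ hj
  rw [Finset.mem_erase] at hji
  refine ⟨?_, ?_⟩
  · have hc : ¬ (i ≠ i ∧ G.Adj (q i) (u i)) := fun hc => hc.1 rfl
    simp only [if_neg hc]
    exact hall j hj
  · by_cases hc : j ≠ i ∧ G.Adj (q j) (u i)
    · simp only [if_pos hc]
      exact hc.2
    · simp only [if_neg hc]
      rcases F.sees hji.2 hi hji.1 with h1 | h1
      · exact h1.1
      · exact absurd ⟨hji.1, h1.2.1⟩ hc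

/-- Proof. Suppose `|I| ≥ 14`, take `i ∈ I`, `|I.erase i| ≥ 13`. By `Fam.sees` every `j ∈ I.erase i`
satisfies `p i ~ u j` or `q i ~ u j`; after an exchange of `p i` and `q i` (`Fam.swap`) the set `J` of
the `j` with `p i ~ u j` has at least seven elements. For `j ∈ J`, `p j ~ u i` or `q j ~ u i`;
exchange the names for the `j` of the second kind. Then `Fam.no_seven`. -/
theorem Fam.card_le (F : Fam G A h I u w p q) : I.card ≤ 13 := by
  classical
  by_contra hcon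
  have h14 : 14 ≤ I.card := by omega
  have hne : I.Nonempty := by
    rw [← Finset.card_pos]
    omega
  obtain ⟨i, hi⟩ := hne
  have hce : (I.erase i).card = I.card - 1 := Finset.card_erase_of_mem hi
  have hun : I.erase i ⊆ (I.erase i).filter (fun j => G.Adj (p i) (u j)) ∪
      (I.erase i).filter (fun j => G.Adj (q i) (u j)) := by
    intro j hj
    have hj' := hj
    rw [Finset.mem_erase] at hj'
    rw [Finset.mem_union, Finset.mem_filter, Finset.mem_filter]
    rcases F.sees hi hj'.2 hj'.1.symm with h1 | h1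
    · exact Or.inl ⟨hj, h1.1⟩
    · exact Or.inr ⟨hj, h1.2.1⟩
  have hc1 := Finset.card_le_card hun
  have hc2 := Finset.card_union_le ((I.erase i).filter (fun j => G.Adj (p i) (u j)))
    ((I.erase i).filter (fun j => G.Adj (q i) (u j)))
  by_cases h7 : 7 ≤ ((I.erase i).filter (fun j => G.Adj (p i) (u j))).card
  · exact rlb_seven F hi (Finset.filter_subset _ _) h7
      (fun j hj => (Finset.mem_filter.1 hj).2)
  · have h7' : 7 ≤ ((I.erase i).filter (fun j => G.Adj (q i) (u j))).card := by omega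
    exact rlb_seven (rlb_swapAll F) hi (Finset.filter_subset _ _) h7'
      (fun j hj => (Finset.mem_filter.1 hj).2)

end Pool.Agent.H.MP_ebc13b_lc.h46
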