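import Pool.Agent.H.MP_ebc13b_lc.h46.RLa
import Pool.Agent.H.MP_ebc13b_lc.h46.RLb

/-!
A prismatic graph with many disjoint triangles is three-colourable up to 78 vertices.
-/

namespace Pool.Agent.H.MP_ebc13b_lc.h46

open Pool.Agent.H.MP_ebc13b_lc.h53

variable {α : Type*} [DecidableEq α] {G : SimpleGraph α} {A : Finset α}

open Classical in
/-- the triangles through `v` -/
noncomputable def trs (G : SimpleGraph α) (A : Finset α) (v : α) : Finset (Finset α) :=
  A.powerset.filter (fun T => IsT G A T ∧ v ∈ T)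

theorem mem_trs {v : α} {T : Finset α} : T ∈ trs G A v ↔ IsT G A T ∧ v ∈ T := by
  classical
  unfold trs
  rw [Finset.mem_filter, Finset.mem_powerset]
  exact ⟨fun h => h.2, fun h => ⟨h.1.1, h⟩⟩

/-- two triangles with two common vertices are equal -/
private theorem RLd_eq (hP : Prism G A) {T₁ T₂ : Finset α} (h1 : IsT G A T₁) (h2 : IsT G A T₂)
    {a b : α} (hab : a ≠ b) (ha1 : a ∈ T₁) (hb1 : b ∈ T₁) (ha2 : a ∈ T₂) (hb2 : b ∈ T₂) :
    T₁ = T₂ := by
  symm
  refine Finset.eq_of_subset_of_card_le ?_ (by rw [h1.2.card_eq, h2.2.card_eq])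
  intro x hx
  by_contra hx1
  have hxa : x ≠ a := fun e => hx1 (e ▸ ha1)
  have hxb : x ≠ b := fun e => hx1 (e ▸ hb1)
  obtain ⟨u, -, -, hu⟩ := hP T₁ h1.1 h1.2 x (h2.1 hx) hx1
  exact hab ((hu a ha1 (h2.adj hx ha2 hxa)).trans (hu b hb1 (h2.adj hx hb2 hxb)).symm)

private theorem RLd_tri {a b c : α} (ha : a ∈ A) (hb : b ∈ A) (hc : c ∈ A) (h1 : G.Adj a b)
    (h2 : G.Adj a c) (h3 : G.Adj b c) : IsT G A {a, b, c} := by
  refine ⟨?_, clique_abc h1 h2 h3⟩
  intro x hx
  simp only [Finset.mem_insert, Finset.mem_singleton] at hx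
  rcases hx with rfl | rfl | rfl <;> assumption

private theorem RLd_mono {B T : Finset α} (hB : B ⊆ A) (h : IsT G B T) : IsT G A T :=
  ⟨h.1.trans hB, h.2⟩

private theorem RLd_inj (T : Finset α) (h3 : T.card = 3) : ∃ c : α → ZMod 3,
    ∀ a ∈ T, ∀ b ∈ T, c a = c b → a = b := by
  obtain ⟨v, x, y, h1, h2, h3', rfl⟩ := Finset.card_eq_three.1 h3
  refine ⟨fun z => if z = v then 0 else if z = x then 1 else 2, ?_⟩
  have d1 : (0 : ZMod 3) ≠ 1 := by decide
  have d2 : (0 : ZMod 3) ≠ 2 := by decide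
  have d3 : (1 : ZMod 3) ≠ 2 := by decide
  intro a ha b hb
  simp only [Finset.mem_insert, Finset.mem_singleton] at ha hb
  rcases ha with rfl | rfl | rfl <;> rcases hb with rfl | rfl | rfl <;>
    simp [h1, h1.symm, h2, h2.symm, h3', h3'.symm, d1, d1.symm, d2, d2.symm, d3, d3.symm]

/-- A triangle which meets no other triangle: the graph is three-colourable.

Proof. `T = {v, x, y}`. Colour `z ∈ A \ T` with `0` if it sees `v`, `1` if it sees `x`, `2` if it sees
`y` (exactly one of the three, by prismaticity), `v` with `1`, `x` with `2`, `y` with `0`. Two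
adjacent vertices outside `T` which see the same vertex of `T` would be a triangle meeting `T` and
different from `T`. `v` has colour `1`, and the vertices of colour `1` outside `T` see `x`, hence
not `v`. The same for `x` and `y`. -/
theorem pc_of_isolated (hP : Prism G A) {T : Finset α} (hT : IsT G A T)
    (hall : ∀ T', IsT G A T' → T' ≠ T → Disjoint T' T) : ∃ col : α → ZMod 3, PC G A col := by
  classical
  obtain ⟨c, hc⟩ := RLd_inj T hT.2.card_eq
  have hs : ∀ z, ∃ t, (z ∈ A → z ∉ T → t ∈ T ∧ G.Adj z t ∧ ∀ t' ∈ T, G.Adj z t' → t' = t) := by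
    intro z
    by_cases hz : z ∈ A ∧ z ∉ T
    · obtain ⟨t, h1, h2, h3⟩ := hP T hT.1 hT.2 z hz.1 hz.2
      exact ⟨t, fun _ _ => ⟨h1, h2, h3⟩⟩
    · exact ⟨z, fun h1 h2 => absurd ⟨h1, h2⟩ hz⟩
  choose s hs using hs
  have z31 : ∀ a : ZMod 3, a + 1 ≠ a := by decide
  refine ⟨fun z => if z ∈ T then c z + 1 else c (s z), hP, ?_⟩
  intro a ha b hb hab
  by_cases haT : a ∈ T <;> by_cases hbT : b ∈ T
  · rw [if_pos haT, if_pos hbT]
    intro e
    exact hab.ne (hc a haT b hbT (add_right_cancel e))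
  · rw [if_pos haT, if_neg hbT]
    have h1 := (hs b hb hbT).2.2 a haT hab.symm
    rw [← h1]
    exact z31 _
  · rw [if_neg haT, if_pos hbT]
    have h1 := (hs a ha haT).2.2 b hbT hab
    rw [← h1]
    exact (z31 _).symm
  · rw [if_neg haT, if_neg hbT]
    intro e
    obtain ⟨h1, h2, -⟩ := hs a ha haT
    obtain ⟨h3, h4, -⟩ := hs b hb hbT
    have h5 : s a = s b := hc _ h1 _ h3 e
    rw [← h5] at h4
    have h6 := RLd_tri (hT.1 h1) ha hb h2.symm h4.symm hab
    have hne : ({s a, a, b} : Finset α) ≠ T := by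
      intro e2
      exact haT (e2 ▸ (by simp))
    exact Finset.disjoint_left.1 (hall _ h6 hne) (by simp) h1

/-- Proof. Let `T` be a triangle. For every triangle `T' ≠ T` which meets `T` choose a vertex of
`T' \ T` (nonempty, both sets have three elements). Let `X` be the set of the chosen vertices. Every
vertex of `T` is in at most `25` triangles other than `T`, so `|X| ≤ 75`. `X` is disjoint from `T`, so
`T` is a triangle of `A \ X`, and every other triangle of `A \ X` is disjoint from `T`. Use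
`pc_of_isolated` (and `Prism.mono`). -/
theorem few_hub (hP : Prism G A) {T : Finset α} (hT : IsT G A T)
    (hall : ∀ v ∈ A, (trs G A v).card ≤ 26) :
    ∃ X ⊆ A, X.card ≤ 75 ∧ ∃ col : α → ZMod 3, PC G (A \ X) col := by
  classical
  set M : Finset (Finset α) := T.biUnion (fun v => (trs G A v).erase T) with hM
  have hMcard : M.card ≤ 75 := by
    have h1 : M.card ≤ T.card * 25 := by
      refine Finset.card_biUnion_le_card_mul _ _ _ fun v hv => ?_
      have h2 : T ∈ trs G A v := mem_trs.2 ⟨hT, hv⟩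
      rw [Finset.card_erase_of_mem h2]
      have h3 := hall v (hT.1 hv)
      omega
    rw [hT.2.card_eq] at h1
    omega
  have hmemM : ∀ T', T' ∈ M ↔ (T' ≠ T ∧ IsT G A T' ∧ ∃ v ∈ T, v ∈ T') := by
    intro T'
    rw [hM, Finset.mem_biUnion]
    constructor
    · rintro ⟨v, hv, h⟩
      rw [Finset.mem_erase, mem_trs] at h
      exact ⟨h.1, h.2.1, v, hv, h.2.2⟩
    · rintro ⟨h1, h2, v, hv, h3⟩
      refine ⟨v, hv, ?_⟩
      rw [Finset.mem_erase, mem_trs]
      exact ⟨h1, h2, h3⟩
  have hch : ∀ T', ∃ x, T' ∈ M → x ∈ T' ∧ x ∉ T := by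
    intro T'
    by_cases h : T' ∈ M
    · obtain ⟨h1, h2, -⟩ := (hmemM T').1 h
      have h3 : ¬ T' ⊆ T := fun hsub =>
        h1 (Finset.eq_of_subset_of_card_le hsub (by rw [h2.2.card_eq, hT.2.card_eq]))
      rw [Finset.not_subset] at h3
      obtain ⟨x, hx1, hx2⟩ := h3
      exact ⟨x, fun _ => ⟨hx1, hx2⟩⟩
    · obtain ⟨x, -⟩ : T.Nonempty := by
        rw [← Finset.card_pos, hT.2.card_eq]
        norm_num
      exact ⟨x, fun h' => absurd h' h⟩
  choose f hf using hch
  have hsub : M.image f ⊆ A := by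
    intro x hx
    obtain ⟨T', hT', rfl⟩ := Finset.mem_image.1 hx
    exact ((hmemM T').1 hT').2.1.1 (hf T' hT').1
  refine ⟨M.image f, hsub, Finset.card_image_le.trans hMcard, ?_⟩
  have hTB : IsT G (A \ M.image f) T := by
    refine ⟨fun x hx => ?_, hT.2⟩
    rw [Finset.mem_sdiff]
    refine ⟨hT.1 hx, fun hx2 => ?_⟩
    obtain ⟨T', hT', rfl⟩ := Finset.mem_image.1 hx2
    exact (hf T' hT').2 hx
  refine pc_of_isolated (hP.mono Finset.sdiff_subset) hTB ?_
  intro T' hT' hne
  rw [Finset.disjoint_right]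
  intro v hv hv'
  have h1 : T' ∈ M := (hmemM T').2 ⟨hne, RLd_mono Finset.sdiff_subset hT', v, hv, hv'⟩
  have h2 := hT'.1 (hf T' h1).1
  rw [Finset.mem_sdiff] at h2
  exact h2.2 (Finset.mem_image_of_mem f h1)

/-- A family of pairwise disjoint triangles without `h`, each of which contains an end of a blade
of `h`, has at most 26 elements.

Proof. Every `T ∈ F` contains exactly one end `u T` (`h` sees exactly one vertex of `T`); the blade
`B T = {h, u T, w T}` is determined by `u T` (two triangles share at most one vertex, otherwise a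
vertex outside of a triangle would see two of its vertices). A blade has two ends, and every end is
in at most one `T ∈ F` because these are disjoint; so every blade `B` is `B T` for at most two `T`.
If `|F| ≥ 27` then `F.image B` has at least `14` elements, contradiction to `Fam.card_le` for
`I = F.image B`, where for `B ∈ I` we choose `T ∈ F` with `B T = B`, `u B = u T`, `w B = w T`,
`T = {u T, p B, q B}`. -/
theorem fam_le (hP : Prism G A) {h : α} (hA : h ∈ A) {F : Finset (Finset α)}
    (hF : ∀ T ∈ F, IsT G A T ∧ h ∉ T ∧ ∃ v ∈ T, IsEnd G A h v)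
    (hd : ∀ T ∈ F, ∀ T' ∈ F, T ≠ T' → Disjoint T T') : F.card ≤ 26 := by
  classical
  have hch : ∀ T, ∃ u w p q : α, T ∈ F → u ∈ A ∧ w ∈ A ∧ G.Adj h u ∧ G.Adj h w ∧ G.Adj u w ∧
      G.Adj u p ∧ G.Adj u q ∧ G.Adj p q ∧ T = {u, p, q} := by
    intro T
    by_cases hT : T ∈ F
    · obtain ⟨h1, -, u, hu, hu1, w, hw, h2, h3, h4⟩ := hF T hT
      obtain ⟨p, q, h5, h6, h7, h8⟩ := exists_abc h1.2 hu
      exact ⟨u, w, p, q, fun _ => ⟨hu1, hw, h2, h3, h4, h5, h6, h7, h8⟩⟩
    · exact ⟨h, h, h, h, fun h' => absurd h' hT⟩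
  choose u w p q hall using hch
  set B : Finset α → Finset α := fun T => {h, u T, w T} with hB
  have hBT : ∀ T ∈ F, IsT G A (B T) := fun T hT =>
    RLd_tri hA (hall T hT).1 (hall T hT).2.1 (hall T hT).2.2.1 (hall T hT).2.2.2.1
      (hall T hT).2.2.2.2.1
  have hmem : ∀ T ∈ F, ∀ x, x ∈ T ↔ x ∈ ({u T, p T, q T} : Finset α) := fun T hT x =>
    Finset.ext_iff.1 (hall T hT).2.2.2.2.2.2.2.2 x
  have huT : ∀ T ∈ F, u T ∈ T := fun T hT => (hmem T hT _).2 (by simp)
  have hpT : ∀ T ∈ F, p T ∈ T := fun T hT => (hmem T hT _).2 (by simp)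
  have hqT : ∀ T ∈ F, q T ∈ T := fun T hT => (hmem T hT _).2 (by simp)
  -- a blade is used at most twice
  have h2 : ∀ b ∈ F.image B, (F.filter (fun T => B T = b)).card ≤ 2 := by
    intro b hb
    obtain ⟨T₀, hT₀, rfl⟩ := Finset.mem_image.1 hb
    have hsub : ∀ T ∈ F.filter (fun T => B T = B T₀), u T = u T₀ ∨ u T = w T₀ := by
      intro T hT
      rw [Finset.mem_filter] at hT
      have h1 : u T ∈ B T₀ := by
        rw [← hT.2]
        simp [hB]
      simp only [hB, Finset.mem_insert, Finset.mem_singleton] at h1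
      rcases h1 with h1 | h1 | h1
      · exact absurd h1 (hall T hT.1).2.2.1.ne'
      · exact Or.inl h1
      · exact Or.inr h1
    have hinj : Set.InjOn u (F.filter (fun T => B T = B T₀) : Set (Finset α)) := by
      intro T hT T' hT' e
      rw [Finset.mem_coe, Finset.mem_filter] at hT hT'
      by_contra hne
      exact Finset.disjoint_left.1 (hd T hT.1 T' hT'.1 hne) (huT T hT.1) (e ▸ huT T' hT'.1)
    rw [← Finset.card_image_of_injOn hinj]
    refine (Finset.card_le_card (t := {u T₀, w T₀}) ?_).trans Finset.card_le_two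
    intro x hx
    obtain ⟨T, hT, rfl⟩ := Finset.mem_image.1 hx
    simp only [Finset.mem_insert, Finset.mem_singleton]
    exact hsub T hT
  have h3 := Finset.card_le_mul_card_image F 2 h2
  have hg : ∀ b, ∃ T, b ∈ F.image B → T ∈ F ∧ B T = b := by
    intro b
    by_cases hb : b ∈ F.image B
    · obtain ⟨T, hT, e⟩ := Finset.mem_image.1 hb
      exact ⟨T, fun _ => ⟨hT, e⟩⟩
    · exact ⟨∅, fun h' => absurd h' hb⟩
  choose g hg using hg
  have hfam : Fam G A h (F.image B) (fun b => u (g b)) (fun b => w (g b)) (fun b => p (g b))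
      (fun b => q (g b)) := by
    refine ⟨hP, hA, ?_, ?_, ?_, ?_, ?_, ?_⟩
    · intro b hb
      have h1 := hall _ (hg b hb).1
      have h4 := (hF _ (hg b hb).1).1.1
      exact ⟨h1.1, h1.2.1, h4 (hpT _ (hg b hb).1), h4 (hqT _ (hg b hb).1)⟩
    · intro b hb
      have h1 := hall _ (hg b hb).1
      exact ⟨h1.2.2.1, h1.2.2.2.1, h1.2.2.2.2.1⟩
    · intro b hb
      have h1 := hall _ (hg b hb).1
      exact ⟨h1.2.2.2.2.2.1, h1.2.2.2.2.2.2.1, h1.2.2.2.2.2.2.2.1⟩
    · intro b hb
      have h4 := (hF _ (hg b hb).1).2.1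
      constructor
      · intro e2
        exact h4 (e2 ▸ hpT _ (hg b hb).1)
      · intro e2
        exact h4 (e2 ▸ hqT _ (hg b hb).1)
    · intro b hb b' hb' hne
      have h1 := hg b hb
      have h1' := hg b' hb'
      have key : ∀ x, x ≠ h → x ∈ B (g b) → x ∈ B (g b') → False := by
        intro x hx hx1 hx2
        apply hne
        rw [← h1.2, ← h1'.2]
        exact RLd_eq hP (hBT _ h1.1) (hBT _ h1'.1) hx hx1 (by simp [hB]) hx2 (by simp [hB])
      have hu := (hall _ h1.1).2.2.1.ne'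
      have hw := (hall _ h1.1).2.2.2.1.ne'
      refine ⟨?_, ?_, ?_⟩
      · intro e
        exact key _ hu (by simp [hB]) (by rw [show u (g b) = u (g b') from e]; simp [hB])
      · intro e
        exact key _ hu (by simp [hB]) (by rw [show u (g b) = w (g b') from e]; simp [hB])
      · intro e
        exact key _ hw (by simp [hB]) (by rw [show w (g b) = w (g b') from e]; simp [hB])
    · intro b hb b' hb' hne
      have h1 := hg b hb
      have h1' := hg b' hb'
      have hne2 : g b ≠ g b' := by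
        intro e
        apply hne
        rw [← h1.2, ← h1'.2, e]
      have h5 := hd _ h1.1 _ h1'.1 hne2
      have e := (hall _ h1.1).2.2.2.2.2.2.2.2
      have e' := (hall _ h1'.1).2.2.2.2.2.2.2.2
      rw [e, e'] at h5
      exact h5
  have h4 := hfam.card_le
  omega

/-- Proof. Take a family `F` as in `fam_le` of maximal cardinality and `X = F.biUnion id`, of
cardinality at most `78`. Let `B = A \ X`. Then `h ∈ B`. Every triangle of `F` meets exactly one
triangle through `h` (it contains exactly one neighbour of `h`, and two triangles through `h` share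
only `h`), so as `|trs G A h| ≥ 27` there is a triangle `{h, v, w}` in `B`. If `v` is an end in `B`
(hence in `A`) and `v, x, y` a triangle in `B` with `x, y ≠ h`, then `{v, x, y}` is disjoint from `X`,
and `insert {v, x, y} F` contradicts the maximality. So `Iso G B h`. At most `78` of the triangles
of `S` meet `X` (they are disjoint), so at least three of them are contained in `B`, and at most one
of these contains `h`. Use `Iso.pc`. -/
theorem many_hub (hP : Prism G A) {h : α} (hA : h ∈ A) (h27 : 27 ≤ (trs G A h).card)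
    {S : Finset (Finset α)} (hS : ∀ T ∈ S, IsT G A T)
    (hd : ∀ T ∈ S, ∀ T' ∈ S, T ≠ T' → Disjoint T T') (h81 : 81 ≤ S.card) :
    ∃ X ⊆ A, X.card ≤ 78 ∧ ∃ col : α → ZMod 3, PC G (A \ X) col := by
  classical
  -- the admissible families
  set fams : Finset (Finset (Finset α)) := A.powerset.powerset.filter (fun F =>
    (∀ T ∈ F, IsT G A T ∧ h ∉ T ∧ ∃ v ∈ T, IsEnd G A h v) ∧
      ∀ T ∈ F, ∀ T' ∈ F, T ≠ T' → Disjoint T T') with hfams
  have hmf : ∀ F, F ∈ fams ↔ ((∀ T ∈ F, IsT G A T ∧ h ∉ T ∧ ∃ v ∈ T, IsEnd G A h v) ∧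
      ∀ T ∈ F, ∀ T' ∈ F, T ≠ T' → Disjoint T T') := by
    intro F
    rw [hfams, Finset.mem_filter, Finset.mem_powerset]
    refine ⟨fun h' => h'.2, fun h' => ⟨fun T hT => ?_, h'⟩⟩
    rw [Finset.mem_powerset]
    exact (h'.1 T hT).1.1
  obtain ⟨F, hFm, hmax⟩ := Finset.exists_max_image fams Finset.card
    ⟨∅, (hmf ∅).2 ⟨by simp, by simp⟩⟩
  obtain ⟨hF, hFd⟩ := (hmf F).1 hFm
  have hFc := fam_le hP hA hF hFd
  set X : Finset α := F.biUnion id with hX
  have hXc : X.card ≤ 78 := by
    have h1 : X.card ≤ F.card * 3 := by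
      refine Finset.card_biUnion_le_card_mul _ _ _ fun T hT => ?_
      rw [id, (hF T hT).1.2.card_eq]
    omega
  have hmX : ∀ x, x ∈ X ↔ ∃ T ∈ F, x ∈ T := by
    intro x
    rw [hX, Finset.mem_biUnion]
    rfl
  have hXA : X ⊆ A := by
    intro x hx
    obtain ⟨T, hT, hxT⟩ := (hmX x).1 hx
    exact (hF T hT).1.1 hxT
  have hhX : h ∉ X := by
    intro hx
    obtain ⟨T, hT, hxT⟩ := (hmX h).1 hx
    exact (hF T hT).2.1 hxT
  refine ⟨X, hXA, hXc, ?_⟩
  have hBA : A \ X ⊆ A := Finset.sdiff_subset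
  have hhB : h ∈ A \ X := Finset.mem_sdiff.2 ⟨hA, hhX⟩
  -- a triangle through `h` disjoint from `X`
  have hex : ∃ T ∈ trs G A h, Disjoint T X := by
    by_contra hno
    push Not at hno
    have hch : ∀ T, ∃ T', T ∈ trs G A h → T' ∈ F ∧ ∃ x ∈ T, x ∈ T' := by
      intro T
      by_cases hT : T ∈ trs G A h
      · have h1 := hno T hT
        rw [Finset.not_disjoint_iff] at h1
        obtain ⟨x, hx1, hx2⟩ := h1
        obtain ⟨T', hT', hx3⟩ := (hmX x).1 hx2
        exact ⟨T', fun _ => ⟨hT', x, hx1, hx3⟩⟩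
      · exact ⟨∅, fun h' => absurd h' hT⟩
    choose g hg using hch
    have hle : (trs G A h).card ≤ F.card := by
      refine Finset.card_le_card_of_injOn g (fun T hT => (hg T hT).1) ?_
      intro T hT T' hT' e
      rw [Finset.mem_coe] at hT hT'
      obtain ⟨h1, x, hx1, hx2⟩ := hg T hT
      obtain ⟨h1', x', hx1', hx2'⟩ := hg T' hT'
      rw [← e] at hx2'
      obtain ⟨h3, h4⟩ := mem_trs.1 hT
      obtain ⟨h3', h4'⟩ := mem_trs.1 hT'
      have hgF := hF _ h1
      have hxh : x ≠ h := fun e2 => hgF.2.1 (e2 ▸ hx2)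
      have hxh' : x' ≠ h := fun e2 => hgF.2.1 (e2 ▸ hx2')
      obtain ⟨z, -, -, hz⟩ := hP _ hgF.1.1 hgF.1.2 h hA hgF.2.1
      have e1 := hz x hx2 (h3.adj h4 hx1 hxh.symm)
      have e2 := hz x' hx2' (h3'.adj h4' hx1' hxh'.symm)
      have e3 : x = x' := e1.trans e2.symm
      exact RLd_eq hP h3 h3' hxh hx1 h4 (e3 ▸ hx1') h4'
    omega
  have hend : ∀ v, IsEnd G (A \ X) h v → IsEnd G A h v := by
    rintro v ⟨h1, w, h2, h3⟩
    exact ⟨hBA h1, w, hBA h2, h3⟩
  have hiso : Iso G (A \ X) h := by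
    refine ⟨hP.mono hBA, hhB, ?_, ?_⟩
    · obtain ⟨T, hT, hTX⟩ := hex
      obtain ⟨h1, h2⟩ := mem_trs.1 hT
      obtain ⟨a, b, h3, h4, h5, h6⟩ := exists_abc h1.2 h2
      have haT : a ∈ T := by rw [h6]; simp
      have hbT : b ∈ T := by rw [h6]; simp
      refine ⟨a, Finset.mem_sdiff.2 ⟨h1.1 haT, Finset.disjoint_left.1 hTX haT⟩, b,
        Finset.mem_sdiff.2 ⟨h1.1 hbT, Finset.disjoint_left.1 hTX hbT⟩, h3, h4, h5⟩
    · intro v hv x hx y hy h1 h2 h3
      by_contra hcon
      push Not at hcon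
      obtain ⟨hxh, hyh⟩ := hcon
      have hv' := hend v hv
      have hvh : v ≠ h := by
        obtain ⟨-, w, -, h4, -⟩ := hv
        exact h4.ne'
      have hT0 : IsT G A {v, x, y} := RLd_tri hv'.1 (hBA hx) (hBA hy) h1 h2 h3
      have hhT0 : h ∉ ({v, x, y} : Finset α) := by
        simp only [Finset.mem_insert, Finset.mem_singleton, not_or]
        exact ⟨hvh.symm, hxh.symm, hyh.symm⟩
      have hvX : v ∉ X := (Finset.mem_sdiff.1 hv.1).2
      have hdisX : ∀ z ∈ ({v, x, y} : Finset α), z ∉ X := by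
        intro z hz
        simp only [Finset.mem_insert, Finset.mem_singleton] at hz
        rcases hz with rfl | rfl | rfl
        · exact hvX
        · exact (Finset.mem_sdiff.1 hx).2
        · exact (Finset.mem_sdiff.1 hy).2
      have hdF : ∀ T ∈ F, Disjoint ({v, x, y} : Finset α) T := by
        intro T hT
        rw [Finset.disjoint_left]
        intro z hz hzT
        exact hdisX z hz ((hmX z).2 ⟨T, hT, hzT⟩)
      have hnF : ({v, x, y} : Finset α) ∉ F := by
        intro hin
        exact hvX ((hmX v).2 ⟨_, hin, by simp⟩)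
      have hnew : insert ({v, x, y} : Finset α) F ∈ fams := by
        rw [hmf]
        constructor
        · intro T hT
          rcases Finset.mem_insert.1 hT with rfl | hT
          · exact ⟨hT0, hhT0, v, by simp, hv'⟩
          · exact hF T hT
        · intro T hT T' hT' hne
          rcases Finset.mem_insert.1 hT with rfl | hT
          · rcases Finset.mem_insert.1 hT' with rfl | hT'
            · exact absurd rfl hne
            · exact hdF T' hT'
          · rcases Finset.mem_insert.1 hT' with rfl | hT'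
            · exact (hdF T hT).symm
            · exact hFd T hT T' hT' hne
      have h5 := hmax _ hnew
      rw [Finset.card_insert_of_notMem hnF] at h5
      omega
  -- two disjoint triangles without `h`
  have hmeet : (S.filter (fun T => ¬ Disjoint T X)).card ≤ X.card := by
    have hch : ∀ T : Finset α, ∃ x, ¬ Disjoint T X → x ∈ T ∧ x ∈ X := by
      intro T
      by_cases hT : Disjoint T X
      · exact ⟨h, fun h' => absurd hT h'⟩
      · rw [Finset.not_disjoint_iff] at hT
        obtain ⟨x, hx⟩ := hT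
        exact ⟨x, fun _ => hx⟩
    choose g hg using hch
    refine Finset.card_le_card_of_injOn g (fun T hT => ?_) ?_
    · rw [Finset.mem_coe, Finset.mem_filter] at hT
      exact (hg T hT.2).2
    · intro T hT T' hT' e
      rw [Finset.mem_coe, Finset.mem_filter] at hT hT'
      by_contra hne
      exact Finset.disjoint_left.1 (hd T hT.1 T' hT'.1 hne) (hg T hT.2).1
        (e ▸ (hg T' hT'.2).1)
  have hone : (S.filter (fun T => h ∈ T)).card ≤ 1 := by
    rw [Finset.card_le_one]
    intro T hT T' hT'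
    rw [Finset.mem_filter] at hT hT'
    by_contra hne
    exact Finset.disjoint_left.1 (hd T hT.1 T' hT'.1 hne) hT.2 hT'.2
  have hgood : 1 < (S.filter (fun T => Disjoint T X ∧ h ∉ T)).card := by
    have hsub : S ⊆ S.filter (fun T => Disjoint T X ∧ h ∉ T) ∪
        (S.filter (fun T => ¬ Disjoint T X) ∪ S.filter (fun T => h ∈ T)) := by
      intro T hT
      simp only [Finset.mem_union, Finset.mem_filter]
      by_cases h1 : Disjoint T X <;> by_cases h2 : h ∈ T
      · exact Or.inr (Or.inr ⟨hT, h2⟩)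
      · exact Or.inl ⟨hT, h1, h2⟩
      · exact Or.inr (Or.inl ⟨hT, h1⟩)
      · exact Or.inr (Or.inl ⟨hT, h1⟩)
    have h1 := Finset.card_le_card hsub
    have h2 := Finset.card_union_le (S.filter (fun T => Disjoint T X ∧ h ∉ T))
      (S.filter (fun T => ¬ Disjoint T X) ∪ S.filter (fun T => h ∈ T))
    have h3 := Finset.card_union_le (S.filter (fun T => ¬ Disjoint T X))
      (S.filter (fun T => h ∈ T))
    omega
  obtain ⟨T, hT, T', hT', hne⟩ := Finset.one_lt_card.1 hgood
  rw [Finset.mem_filter] at hT hT'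
  have hsub : ∀ T, T ∈ S → Disjoint T X → IsT G (A \ X) T := by
    intro T hT hTX
    refine ⟨fun x hx => ?_, (hS T hT).2⟩
    exact Finset.mem_sdiff.2 ⟨(hS T hT).1 hx, Finset.disjoint_left.1 hTX hx⟩
  exact hiso.pc (hsub T hT.1 hT.2.1) hT.2.2 (hsub T' hT'.1 hT'.2.1) hT'.2.2
    (hd T hT.1 T' hT'.1 hne)

/-- Proof: `few_hub` or `many_hub`. -/
theorem near_col (hP : Prism G A) {S : Finset (Finset α)} (hS : ∀ T ∈ S, IsT G A T)
    (hd : ∀ T ∈ S, ∀ T' ∈ S, T ≠ T' → Disjoint T T') (h81 : 81 ≤ S.card) :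
    ∃ X ⊆ A, X.card ≤ 78 ∧ ∃ col : α → ZMod 3, PC G (A \ X) col := by
  by_cases hh : ∃ h ∈ A, 27 ≤ (trs G A h).card
  · obtain ⟨h, hA, h27⟩ := hh
    exact many_hub hP hA h27 hS hd h81
  · push Not at hh
    obtain ⟨T, hT⟩ : S.Nonempty := by
      rw [← Finset.card_pos]
      omega
    obtain ⟨X, h1, h2, h3⟩ := few_hub hP (hS T hT) (fun v hv => by
      have := hh v hv
      omega)
    exact ⟨X, h1, by omega, h3⟩

end Pool.Agent.H.MP_ebc13b_lc.h46
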