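import Pool.Agent.H.MP_ebc13b_lc.h46.FinA
import Pool.Agent.H.MP_ebc13b_lc.h46.FinC
import Pool.Agent.H.MP_ebc13b_lc.h46.FinD
import Pool.Agent.H.MP_ebc13b_lc.h46.RLd

/-!
The algorithm for prismatic graphs.
-/

namespace Pool.Agent.H.MP_ebc13b_lc.h46

open Pool.Agent.H.MP_5be563_lc.PT Pool.Agent.H.MP_ebc13b_lc.h61 Pool.Agent.H.MP_ebc13b_lc.h53

/-- Does the graph induced on the vertices outside the columns of `l` have a perfect matching? -/
def pmB (n : ℕ) (Es : List (ℕ × ℕ)) (l : List (List ℕ)) : Bool :=
  decide ((rest n l).length =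
    2 * (maxMatch (List.range (rest n l).length) (relE Es (rest n l))).length)

/-- the number of columns with three elements -/
def ntri (l : List (List ℕ)) : ℕ := (l.filter fun c => decide (c.length = 3)).length

/-- the search for `t` disjoint triangles and a perfect matching of the rest -/
def solv (C n : ℕ) (Es : List (ℕ × ℕ)) (t : ℕ) : Bool :=
  exS (triL n Es) (fun l => decide (l.length = t) && pmB n Es l) 80 [] ||
  (decide (81 ≤ t) && (exS (triL n Es) (fun l => decide (81 ≤ l.length)) 81 [] &&
    allS (List.range n) (fun X => exS (triL n Es ++ edgL n Es)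
      (fun l => (X.all fun v => memb v l.flatten) &&
        test3 C (rest n l).length (relE Es (rest n l)) (t - ntri l)) 78 []) 78 []))

variable {Es : List (ℕ × ℕ)} {n : ℕ}

private theorem FinE_zero {α : Type*} [DecidableEq α] {G : SimpleGraph α} {A : Finset α} :
    Sol G A 0 ↔ PMon G A := by
  constructor
  · rintro ⟨S, h1, -, -, h2⟩
    rw [Finset.card_eq_zero.1 h1] at h2
    simpa using h2
  · intro h
    exact ⟨∅, Finset.card_empty, by simp, by simp, by simpa using h⟩

/-- Proof. `isG_range` for `relE` (`gr_relE`). If the numbers are equal, then `maxMatch` covers all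
vertices (`maxMatch_spec`, `pmon_of_mat`, `length_ends`); conversely `mat_of_pmon` and
`maxMatch_max` (and the number of the ends of a matching is at most the number of the vertices).
Transfer between `relE` and `gr Es` with `sol_rel` for `t = 0` (`Sol G A 0 ↔ PMon G A`). -/
theorem pmB_iff (hG : Gr (Finset.range n) (EE Es)) {l : List (List ℕ)} :
    pmB n Es l = true ↔ Sol (gr Es) (rest n l).toFinset 0 := by
  rw [← sol_rel hG nodup_rest, FinE_zero]
  unfold pmB
  rw [decide_eq_true_eq]
  generalize rest n l = V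
  have hG' := gr_relE (V := V) hG
  obtain ⟨hM1, _⟩ := maxMatch_spec (isG_range hG')
  have hsub : (ends (maxMatch (List.range V.length) (relE Es V))).toFinset ⊆
      Finset.range V.length := by
    intro v hv
    rw [List.mem_toFinset] at hv
    obtain ⟨p, hp, h1⟩ := mem_ends.1 hv
    have h2 : EE (relE Es V) p.1 p.2 := hM1.sub p hp
    rcases h1 with rfl | rfl
    · exact hG'.mem _ _ h2
    · exact hG'.mem' h2
  have hcard : (ends (maxMatch (List.range V.length) (relE Es V))).toFinset.card =
      2 * (maxMatch (List.range V.length) (relE Es V)).length := by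
    rw [List.toFinset_card_of_nodup hM1.nd, length_ends]
  constructor
  · intro h
    have h1 := pmon_of_mat hG' (M := maxMatch (List.range V.length) (relE Es V))
      (fun p hp => hM1.sub p hp) hM1.nd
    have h2 : (ends (maxMatch (List.range V.length) (relE Es V))).toFinset =
        Finset.range V.length :=
      Finset.eq_of_subset_of_card_le hsub (by rw [Finset.card_range, hcard]; omega)
    rwa [h2] at h1
  · intro h
    obtain ⟨M, hM, hnd, hl⟩ := mat_of_pmon hG' h
    have h1 := maxMatch_max (isG_range hG') (M := M) ⟨fun p hp => (hM p hp).1, hnd⟩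
    have h2 := Finset.card_le_card hsub
    rw [hcard, Finset.card_range] at h2
    rw [Finset.card_range] at hl
    omega

/-- Proof: `mem_triL`, `mem_edgL`; the lists are increasing, hence determined by their sets. -/
theorem col_set (hG : Gr (Finset.range n) (EE Es)) {c : List ℕ} (hc : c ∈ triL n Es ++ edgL n Es) :
    c.toFinset ⊆ Finset.range n ∧ c.toFinset.card = c.length ∧
      ((c.length = 3 ∧ (gr Es).IsNClique 3 c.toFinset ∧ c ∈ triL n Es) ∨
        (c.length = 2 ∧ (gr Es).IsNClique 2 c.toFinset)) := by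
  rcases List.mem_append.1 hc with hc | hc
  · obtain ⟨i, j, k, rfl, hi, hj, hk, hij, hjk, ht⟩ := mem_triL.1 hc
    have e : [i, j, k].toFinset = ({i, j, k} : Finset ℕ) := by
      ext x
      simp
    have hcl : (gr Es).IsNClique 3 ({i, j, k} : Finset ℕ) := by
      rw [SimpleGraph.is3Clique_triple_iff]
      exact ⟨(gr_adj hG).2 ht.1, (gr_adj hG).2 ht.2.2, (gr_adj hG).2 ht.2.1⟩
    rw [e]
    refine ⟨?_, ?_, Or.inl ⟨rfl, hcl, hc⟩⟩
    · intro x hx
      simp only [Finset.mem_insert, Finset.mem_singleton] at hx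
      rw [Finset.mem_range]
      rcases hx with rfl | rfl | rfl <;> assumption
    · rw [hcl.card_eq]
      rfl
  · obtain ⟨i, j, rfl, hi, hj, hij, ht⟩ := mem_edgL.1 hc
    have e : [i, j].toFinset = ({i, j} : Finset ℕ) := by
      ext x
      simp
    have hcl : (gr Es).IsNClique 2 ({i, j} : Finset ℕ) := by
      refine ⟨?_, Finset.card_pair hij.ne⟩
      intro a ha b hb hab
      simp only [Finset.coe_insert, Finset.coe_singleton, Set.mem_insert_iff,
        Set.mem_singleton_iff] at ha hb
      have h1 := (gr_adj hG).2 ht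
      rcases ha with rfl | rfl <;> rcases hb with rfl | rfl
      · exact absurd rfl hab
      · exact h1
      · exact h1.symm
      · exact absurd rfl hab
    rw [e]
    refine ⟨?_, ?_, Or.inr ⟨rfl, hcl⟩⟩
    · intro x hx
      simp only [Finset.mem_insert, Finset.mem_singleton] at hx
      rw [Finset.mem_range]
      rcases hx with rfl | rfl <;> assumption
    · rw [hcl.card_eq]
      rfl

/-- Proof: the increasing list of the elements of `T`. -/
theorem exists_col (hG : Gr (Finset.range n) (EE Es)) {T : Finset ℕ} (hT : T ⊆ Finset.range n)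
    (h : (gr Es).IsNClique 3 T ∨ (gr Es).IsNClique 2 T) :
    ∃ c ∈ triL n Es ++ edgL n Es, c.toFinset = T ∧ ((gr Es).IsNClique 3 T → c ∈ triL n Es) := by
  have hadj : ∀ m, (gr Es).IsNClique m T → ∀ u ∈ T, ∀ v ∈ T, u ≠ v → EE Es u v := by
    intro m h u hu v hv huv
    exact (gr_adj hG).1 (h.isClique (Finset.mem_coe.2 hu) (Finset.mem_coe.2 hv) huv)
  rcases h with h | h
  · have key : ∀ i j k, i < j → j < k → T = {i, j, k} → ∃ c ∈ triL n Es ++ edgL n Es,
        c.toFinset = T ∧ ((gr Es).IsNClique 3 T → c ∈ triL n Es) := by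
      intro i j k hij hjk he
      have hi : i ∈ T := by rw [he]; simp
      have hj : j ∈ T := by rw [he]; simp
      have hk : k ∈ T := by rw [he]; simp
      have hc : [i, j, k] ∈ triL n Es := mem_triL.2 ⟨i, j, k, rfl, Finset.mem_range.1 (hT hi),
        Finset.mem_range.1 (hT hj), Finset.mem_range.1 (hT hk), hij, hjk,
        hadj 3 h i hi j hj hij.ne, hadj 3 h j hj k hk hjk.ne, hadj 3 h i hi k hk (hij.trans hjk).ne⟩
      refine ⟨[i, j, k], List.mem_append_left _ hc, ?_, fun _ => hc⟩
      rw [he]
      ext x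
      simp
    obtain ⟨x, y, z, hxy, hxz, hyz, he⟩ := Finset.card_eq_three.1 h.card_eq
    rcases lt_or_gt_of_ne hxy with g1 | g1 <;> rcases lt_or_gt_of_ne hyz with g2 | g2 <;>
      rcases lt_or_gt_of_ne hxz with g3 | g3
    · exact key x y z g1 g2 he
    · omega
    · exact key x z y g3 g2 (by rw [he]; ext v; simp; tauto)
    · exact key z x y g3 g1 (by rw [he]; ext v; simp; tauto)
    · exact key y x z g1 g3 (by rw [he]; ext v; simp; tauto)
    · exact key y z x g2 g3 (by rw [he]; ext v; simp; tauto)
    · omega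
    · exact key z y x g2 g1 (by rw [he]; ext v; simp; tauto)
  · have key : ∀ i j, i < j → T = {i, j} → ∃ c ∈ triL n Es ++ edgL n Es,
        c.toFinset = T ∧ ((gr Es).IsNClique 3 T → c ∈ triL n Es) := by
      intro i j hij he
      have hi : i ∈ T := by rw [he]; simp
      have hj : j ∈ T := by rw [he]; simp
      have hc : [i, j] ∈ edgL n Es := mem_edgL.2 ⟨i, j, rfl, Finset.mem_range.1 (hT hi),
        Finset.mem_range.1 (hT hj), hij, hadj 2 h i hi j hj hij.ne⟩
      refine ⟨[i, j], List.mem_append_right _ hc, ?_, fun h3 => ?_⟩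
      · rw [he]
        ext x
        simp
      · have h1 := h.card_eq
        rw [h3.card_eq] at h1
        omega
    obtain ⟨x, y, hxy, he⟩ := Finset.card_eq_two.1 h.card_eq
    rcases lt_or_gt_of_ne hxy with g1 | g1
    · exact key x y g1 he
    · exact key y x g1 (by rw [he, Finset.pair_comm])

private theorem FinE_rest {l : List (List ℕ)} : (rest n l).toFinset =
    Finset.range n \ (l.map List.toFinset).toFinset.biUnion id := by
  ext v
  rw [List.mem_toFinset, mem_rest, Finset.mem_sdiff, Finset.mem_range]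
  refine and_congr_right fun _ => not_congr ?_
  rw [List.mem_flatten, Finset.mem_biUnion]
  constructor
  · rintro ⟨c, hc, hv⟩
    exact ⟨c.toFinset, List.mem_toFinset.2 (List.mem_map.2 ⟨c, hc, rfl⟩), List.mem_toFinset.2 hv⟩
  · rintro ⟨T, hT, hv⟩
    obtain ⟨c, hc, rfl⟩ := List.mem_map.1 (List.mem_toFinset.1 hT)
    exact ⟨c, hc, List.mem_toFinset.1 hv⟩

private theorem FinE_ntri (hG : Gr (Finset.range n) (EE Es)) {l : List (List ℕ)}
    (hl : ∀ c ∈ l, c ∈ triL n Es ++ edgL n Es) :
    ((l.map List.toFinset).filter fun c => c.card = 3).length = ntri l := by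
  unfold ntri
  rw [← List.countP_eq_length_filter, ← List.countP_eq_length_filter, List.countP_map]
  apply List.countP_congr
  intro c hc
  simp only [Function.comp, decide_eq_true_eq, (col_set hG (hl c hc)).2.1]

private theorem FinE_cols (hG : Gr (Finset.range n) (EE Es)) (K : List (Finset ℕ))
    (hK : ∀ c ∈ K, c ⊆ Finset.range n ∧ ((gr Es).IsNClique 3 c ∨ (gr Es).IsNClique 2 c))
    (hd : K.Pairwise Disjoint) : ∃ l : List (List ℕ), l.map List.toFinset = K ∧
      (∀ c ∈ l, c ∈ triL n Es ++ edgL n Es) ∧
      (∀ c ∈ l, (gr Es).IsNClique 3 c.toFinset → c ∈ triL n Es) ∧ l.Pairwise List.Disjoint := by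
  induction K with
  | nil => exact ⟨[], rfl, by simp, by simp, List.Pairwise.nil⟩
  | cons T K ih =>
    obtain ⟨hd1, hd2⟩ := List.pairwise_cons.1 hd
    obtain ⟨l, h1, h2, h3, h4⟩ := ih (fun c hc => hK c (List.mem_cons_of_mem _ hc)) hd2
    obtain ⟨hT, hT2⟩ := hK T List.mem_cons_self
    obtain ⟨c, hc, hcT, hc3⟩ := exists_col hG hT hT2
    refine ⟨c :: l, ?_, ?_, ?_, ?_⟩
    · rw [List.map_cons, h1, hcT]
    · intro c' hc'
      rcases List.mem_cons.1 hc' with rfl | h5
      · exact hc
      · exact h2 c' h5
    · intro c' hc' h6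
      rcases List.mem_cons.1 hc' with rfl | h5
      · rw [hcT] at h6
        exact hc3 h6
      · exact h3 c' h5 h6
    · refine List.pairwise_cons.2 ⟨fun c' hc' => ?_, h4⟩
      have h5 : c'.toFinset ∈ K := by
        rw [← h1]
        exact List.mem_map.2 ⟨c', hc', rfl⟩
      have h6 := hd1 _ h5
      rw [← hcT] at h6
      exact List.disjoint_toFinset_iff_disjoint.1 h6

/-- Adding the columns of a disjoint family to a solution of the rest.

Proof: `Sol.add_all` for `K = l.map List.toFinset`, `col_set`; `(rest n l).toFinset` is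
`range n \ K.toFinset.biUnion id`. -/
theorem sol_of_rest (hG : Gr (Finset.range n) (EE Es)) {l : List (List ℕ)}
    (hl : ∀ c ∈ l, c ∈ triL n Es ++ edgL n Es) (hd : l.Pairwise List.Disjoint) {t : ℕ}
    (h : Sol (gr Es) (rest n l).toFinset t) : Sol (gr Es) (Finset.range n) (t + ntri l) := by
  rw [FinE_rest] at h
  have h1 := Sol.add_all (K := l.map List.toFinset) (G := gr Es) (A := Finset.range n) (by
    intro c hc
    obtain ⟨c', hc', rfl⟩ := List.mem_map.1 hc
    obtain ⟨a1, a2, a3⟩ := col_set hG (hl c' hc')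
    refine ⟨a1, ?_⟩
    rcases a3 with ⟨_, a4, _⟩ | ⟨_, a4⟩
    · exact Or.inl a4
    · exact Or.inr a4) (by
    rw [List.pairwise_map]
    exact hd.imp (fun h => List.disjoint_toFinset_iff_disjoint.2 h)) h
  rwa [FinE_ntri hG hl] at h1

/-- Soundness.

Proof. First case: a list `l` of `t` disjoint triangles (`exS_nil`), `pmB_iff`, `sol_of_rest`
(`ntri l = t`). Second case: there are `81` disjoint triangles, so `near_col` (with `prism_gr`) gives
`X ⊆ range n` with at most `78` elements and `col` such that `PC (gr Es) (range n \ X) col`. Apply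
the result of `allS` (`allS_nil`) to `X.toList`: there is a disjoint family `l` of at most `78`
columns, whose union contains `X`, with `test3 .. = true`. `(rest n l).toFinset ⊆ range n \ X`, so
`PC (gr Es) (rest n l).toFinset col` (`pc_mono` in `Hered.lean`, or directly with `Prism.mono`),
then `pc_rel`, `test3_sound`, `sol_rel` and `sol_of_rest`; `ntri l ≤ 78 ≤ t`. -/
theorem solv_sound {C : ℕ} (hMain : Main C) (hG : Gr (Finset.range n) (EE Es))
    (hP : Prismatic (Finset.range n) (EE Es)) {t : ℕ} (h : solv C n Es t = true) :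
    Sol (gr Es) (Finset.range n) t := by
  classical
  unfold solv at h
  rw [Bool.or_eq_true] at h
  rcases h with h | h
  · rw [exS_nil] at h
    obtain ⟨l, -, h2, h3, h4⟩ := h
    rw [Bool.and_eq_true, decide_eq_true_eq] at h4
    have h5 := sol_of_rest hG (fun c hc => List.mem_append_left _ (h2 c hc)) h3
      ((pmB_iff hG).1 h4.2)
    have h6 : ntri l = l.length := by
      unfold ntri
      rw [List.filter_eq_self.2]
      intro c hc
      obtain ⟨i, j, k, rfl, _⟩ := mem_triL.1 (h2 c hc)
      rfl
    rwa [h6, h4.1, zero_add] at h5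
  · rw [Bool.and_eq_true, Bool.and_eq_true, decide_eq_true_eq] at h
    obtain ⟨ht, h1, h2⟩ := h
    rw [exS_nil] at h1
    rw [allS_nil] at h2
    obtain ⟨l0, a1, a2, a3, a4⟩ := h1
    rw [decide_eq_true_eq] at a4
    have hl0 : ∀ c ∈ l0, IsT (gr Es) (Finset.range n) c.toFinset := by
      intro c hc
      obtain ⟨b1, b2, b3⟩ := col_set hG (List.mem_append_left (edgL n Es) (a2 c hc))
      obtain ⟨i, j, k, rfl, _⟩ := mem_triL.1 (a2 c hc)
      rcases b3 with ⟨_, b4, _⟩ | ⟨b4, _⟩
      · exact ⟨b1, b4⟩
      · simp at b4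
    have hpd : (l0.map List.toFinset).Pairwise Disjoint := by
      rw [List.pairwise_map]
      exact a3.imp (fun h => List.disjoint_toFinset_iff_disjoint.2 h)
    have hmem : ∀ T ∈ l0.map List.toFinset, IsT (gr Es) (Finset.range n) T := by
      intro T hT
      obtain ⟨c, hc, rfl⟩ := List.mem_map.1 hT
      exact hl0 c hc
    have hnd : (l0.map List.toFinset).Nodup := by
      refine List.Pairwise.imp_of_mem ?_ hpd
      intro T T' hT _ hTT he
      have h3 := (hmem T hT).2.card_eq
      rw [he] at h3 hTT
      rw [disjoint_self.1 hTT] at h3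
      simp at h3
    have hcol : ∃ X ⊆ Finset.range n, X.card ≤ 78 ∧ ∃ col : ℕ → ZMod 3,
        PC (gr Es) (Finset.range n \ X) col := by
      refine near_col (prism_gr hG hP) (S := (l0.map List.toFinset).toFinset) ?_ ?_ ?_
      · intro T hT
        exact hmem T (List.mem_toFinset.1 hT)
      · intro T hT T' hT' hne
        have hsym : Std.Symm (Disjoint : Finset ℕ → Finset ℕ → Prop) := ⟨fun _ _ h => h.symm⟩
        exact hpd.forall (List.mem_toFinset.1 hT) (List.mem_toFinset.1 hT') hne
      · rw [List.toFinset_card_of_nodup hnd, List.length_map]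
        exact a4
    obtain ⟨X, hX, hXc, col, hPC⟩ := hcol
    have h3 := h2 X.toList (by rw [Finset.length_toList]; exact hXc) (by
      intro v hv
      rw [Finset.mem_toList] at hv
      exact List.mem_range.2 (Finset.mem_range.1 (hX hv)))
    rw [exS_nil] at h3
    obtain ⟨l, b1, b2, b3, b4⟩ := h3
    rw [Bool.and_eq_true, List.all_eq_true] at b4
    have hXl : ∀ v ∈ X, v ∈ l.flatten := fun v hv => memb_iff.1 (b4.1 v (Finset.mem_toList.2 hv))
    have hsub : (rest n l).toFinset ⊆ Finset.range n \ X := by
      intro v hv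
      rw [List.mem_toFinset, mem_rest] at hv
      exact Finset.mem_sdiff.2 ⟨Finset.mem_range.2 hv.1, fun h => hv.2 (hXl v h)⟩
    have hPC1 : PC (gr Es) (rest n l).toFinset col :=
      ⟨hPC.pr.mono hsub, fun u hu v hv => hPC.col u (hsub hu) v (hsub hv)⟩
    have hPC2 := pc_rel hG nodup_rest hPC1
    have hS := test3_sound hMain (gr_relE hG) hPC2 b4.2
    rw [sol_rel hG nodup_rest] at hS
    have h5 := sol_of_rest hG b2 b3 hS
    have h6 : ntri l ≤ 78 := le_trans (List.length_filter_le _ _) b1
    rwa [Nat.sub_add_cancel (by omega)] at h5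

/-- Completeness.

Proof. Let `S` be the family of triangles of a solution. If `t ≤ 80`: take the list of the columns of
the `T ∈ S` (`exists_col`), `pmB_iff`. If `t ≥ 81`: choose a subfamily of `S` with `81` elements
for the first test. Let `X` be a list of at most `78` elements of `range n`; `Sol.cover` for
`X.toFinset` gives `K`; `l` is the list of the columns of the elements of `K` (`exists_col`);
`ntri l` is the number of the elements of `K` with three elements, and `(rest n l).toFinset` is
`range n \ K.toFinset.biUnion id`. `sol_rel`, `prism_rel` and `test3_complete`. -/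
theorem solv_complete {C : ℕ} (hG : Gr (Finset.range n) (EE Es))
    (hP : Prismatic (Finset.range n) (EE Es)) {t : ℕ} (h : Sol (gr Es) (Finset.range n) t) :
    solv C n Es t = true := by
  classical
  have h' := h
  obtain ⟨S, hSc, hS, hSd, hPM⟩ := h'
  -- columns for a subfamily of `S`
  have hsubf : ∀ S' ⊆ S, ∃ l : List (List ℕ), l.map List.toFinset = S'.toList ∧
      l.length = S'.card ∧ (∀ c ∈ l, c ∈ triL n Es) ∧ l.Pairwise List.Disjoint := by
    intro S' hS'
    obtain ⟨l, h1, h2, h3, h4⟩ := FinE_cols hG S'.toList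
      (fun c hc => ⟨(hS c (hS' (Finset.mem_toList.1 hc))).1,
        Or.inl (hS c (hS' (Finset.mem_toList.1 hc))).2⟩)
      ((Finset.nodup_toList S').pairwise_of_forall_ne fun c hc c' hc' hne =>
        hSd c (hS' (Finset.mem_toList.1 hc)) c' (hS' (Finset.mem_toList.1 hc')) hne)
    refine ⟨l, h1, ?_, ?_, h4⟩
    · rw [← Finset.length_toList, ← h1, List.length_map]
    · intro c hc
      refine h3 c hc ?_
      have h5 : c.toFinset ∈ S'.toList := by
        rw [← h1]
        exact List.mem_map.2 ⟨c, hc, rfl⟩
      exact (hS _ (hS' (Finset.mem_toList.1 h5))).2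
  unfold solv
  rw [Bool.or_eq_true]
  by_cases ht : t ≤ 80
  · left
    rw [exS_nil]
    obtain ⟨l, h1, h2, h3, h4⟩ := hsubf S (Finset.Subset.refl _)
    refine ⟨l, by omega, h3, h4, ?_⟩
    rw [Bool.and_eq_true, decide_eq_true_eq]
    refine ⟨by omega, (pmB_iff hG).2 ?_⟩
    rw [FinE_rest, h1, Finset.toList_toFinset]
    exact FinE_zero.2 hPM
  · right
    rw [Bool.and_eq_true, Bool.and_eq_true, decide_eq_true_eq]
    refine ⟨by omega, ?_, ?_⟩
    · rw [exS_nil]
      obtain ⟨S', hS', hS'c⟩ := Finset.exists_subset_card_eq (s := S) (n := 81) (by omega)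
      obtain ⟨l, h1, h2, h3, h4⟩ := hsubf S' hS'
      refine ⟨l, by omega, h3, h4, ?_⟩
      rw [decide_eq_true_eq]
      omega
    · rw [allS_nil]
      intro X hXl hXV
      rw [exS_nil]
      obtain ⟨K, k1, k2, k3, k4, k5, k6⟩ := Sol.cover h (X := X.toFinset) (by
        intro v hv
        exact Finset.mem_range.2 (List.mem_range.1 (hXV v (List.mem_toFinset.1 hv))))
      obtain ⟨l, h1, h2, h3, h4⟩ := FinE_cols hG K k2 k3
      have hlen : l.length = K.length := by rw [← h1, List.length_map]
      have hXc := List.toFinset_card_le X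
      refine ⟨l, by omega, h2, h4, ?_⟩
      rw [Bool.and_eq_true, List.all_eq_true]
      constructor
      · intro v hv
        rw [memb_iff]
        obtain ⟨T, hT, hvT⟩ := Finset.mem_biUnion.1 (k4 (List.mem_toFinset.2 hv))
        rw [← h1] at hT
        obtain ⟨c, hc, rfl⟩ := List.mem_map.1 (List.mem_toFinset.1 hT)
        exact List.mem_flatten.2 ⟨c, hc, List.mem_toFinset.1 hvT⟩
      · have hsub : (rest n l).toFinset ⊆ Finset.range n := by
          rw [FinE_rest]
          exact Finset.sdiff_subset
        refine test3_complete (gr_relE hG)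
          (prism_rel hG nodup_rest ((prism_gr hG hP).mono hsub)) ?_
        rw [sol_rel hG nodup_rest, FinE_rest, h1, ← FinE_ntri hG h2, h1]
        exact k6

/-- Proof: `Poly.exS`, `Poly.allS`, `Poly.test3`, `Poly.maxMatch`, `Poly.rest`, `Poly.relE`, ... -/
@[fun_prop]
theorem Poly.solv {α : Type} [Enc α] {C : ℕ} {n : α → ℕ} {Es : α → List (ℕ × ℕ)} {t : α → ℕ}
    (hn : Poly n) (hE : Poly Es) (ht : Poly t) : Poly (fun a => h46.solv C (n a) (Es a) (t a)) := by
  unfold h46.solv
  refine Poly.or ?_ (Poly.and (by fun_prop) (Poly.and ?_ ?_))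
  · refine Poly.exS 80 (L := fun a => triL (n a) (Es a))
      (P := fun a l => decide (l.length = t a) && pmB (n a) (Es a) l) (acc := fun _ => [])
      (by fun_prop) ?_ (by fun_prop)
    unfold pmB
    fun_prop
  · exact Poly.exS 81 (L := fun a => triL (n a) (Es a))
      (P := fun _ l => decide (81 ≤ l.length)) (acc := fun _ => [])
      (by fun_prop) (by fun_prop) (by fun_prop)
  · refine Poly.allS 78 (V := fun a => List.range (n a))
      (P := fun a X => h46.exS (triL (n a) (Es a) ++ edgL (n a) (Es a))
        (fun l => (X.all fun v => memb v l.flatten) &&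
          h46.test3 C (h46.rest (n a) l).length (h46.relE (Es a) (h46.rest (n a) l)) (t a - ntri l)) 78 [])
      (acc := fun _ => []) (by fun_prop) ?_ (by fun_prop)
    refine Poly.exS 78 (L := fun p : α × List ℕ => triL (n p.1) (Es p.1) ++ edgL (n p.1) (Es p.1))
      (P := fun p l => (p.2.all fun v => memb v l.flatten) &&
        h46.test3 C (h46.rest (n p.1) l).length (h46.relE (Es p.1) (h46.rest (n p.1) l)) (t p.1 - ntri l))
      (acc := fun _ => []) (by fun_prop) ?_ (by fun_prop)
    refine Poly.and (by fun_prop) (Poly.test3 C (by fun_prop) (by fun_prop) ?_)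
    unfold ntri
    fun_prop

end Pool.Agent.H.MP_ebc13b_lc.h46
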