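import Pool.Agent.H.MP_ebc13b_lc.h46.FinE
import Pool.Agent.H.MP_ebc13b_lc.h61.Free

/-!
The final theorem, from the main theorem on three-coloured prismatic graphs.
-/

namespace Pool.Agent.H.MP_ebc13b_lc.h46

open Pool.Agent.H.MP_5be563_lc.PT Pool.Agent.H.MP_ebc13b_lc.h61 Pool.Agent.H.MP_ebc13b_lc.h53

/-- the algorithm -/
def alg3 (C n : ℕ) (Es : List (ℕ × ℕ)) (k : ℕ) : Bool :=
  decide (n ≤ k + (maxMatch (List.range n) Es).length) ||
    (List.range (n + 1)).any fun t => (List.range (n + 1)).any fun h =>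
      (decide (n = 3 * t + 2 * h) && decide (t + h ≤ k)) && solv C n Es t

/-- the decision procedure -/
def dec3 (C : ℕ) (raw : List Bool) : Bool := alg3 C (pn raw) (pEs raw) (pk raw)

variable {Es : List (ℕ × ℕ)} {n : ℕ}

/-- Proof. The union of the cliques of a solution and of the edges of the perfect matching is a
covering (`colK_of_cover`) by `t + h` cliques, `n = 3 t + 2 h`. -/
theorem colK_of_sol (hG : Gr (Finset.range n) (EE Es)) {t h k : ℕ} (hn : n = 3 * t + 2 * h)
    (hk : t + h ≤ k) (hS : Sol (gr Es) (Finset.range n) t) : ColK (Finset.range n) (EE Es) k := by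
  classical
  obtain ⟨S, hSt, hS3, hSd, hPM⟩ := hS
  set W := Finset.range n \ S.biUnion id with hW
  obtain ⟨M, hM1, hM2, hM3⟩ := mat_of_pmon hG hPM
  have hcS : (S.biUnion id).card = 3 * t := by
    rw [Finset.card_biUnion (s := S) (t := id) (fun T hT T' hT' hne => hSd T hT T' hT' hne)]
    rw [Finset.sum_congr rfl (fun T hT => show (id T).card = 3 from (hS3 T hT).2.card_eq)]
    rw [Finset.sum_const, hSt, smul_eq_mul, mul_comm]
  have hsub : S.biUnion id ⊆ Finset.range n := by
    intro v hv
    obtain ⟨T, hT, hvT⟩ := Finset.mem_biUnion.1 hv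
    exact (hS3 T hT).1 hvT
  have hWc : W.card = 2 * h := by
    rw [hW, Finset.card_sdiff_of_subset hsub, Finset.card_range, hcS]
    omega
  have hall : ∀ v ∈ W, v ∈ ends M := by
    have h1 : (ends M).toFinset ⊆ W := by
      intro v hv
      rw [List.mem_toFinset] at hv
      obtain ⟨p, hp, h1⟩ := mem_ends.1 hv
      rcases h1 with rfl | rfl
      · exact (hM1 p hp).2.1
      · exact (hM1 p hp).2.2
    have h2 : (ends M).toFinset = W := by
      apply Finset.eq_of_subset_of_card_le h1
      rw [List.toFinset_card_of_nodup hM2, length_ends]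
      omega
    intro v hv
    rw [← h2, List.mem_toFinset] at hv
    exact hv
  refine colK_of_cover ((M.map fun p => ({p.1, p.2} : Finset ℕ)) ++ S.toList) ?_ ?_ ?_
  · intro q hq u hu v hv huv
    rcases List.mem_append.1 hq with hq | hq
    · obtain ⟨p, hp, rfl⟩ := List.mem_map.1 hq
      have h1 := (hM1 p hp).1
      rw [Finset.mem_insert, Finset.mem_singleton] at hu hv
      rcases hu with rfl | rfl <;> rcases hv with rfl | rfl
      · exact absurd rfl huv
      · exact h1
      · exact hG.sym _ _ h1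
      · exact absurd rfl huv
    · rw [Finset.mem_toList] at hq
      exact (gr_adj hG).1 ((hS3 q hq).2.isClique hu hv huv)
  · intro v hv
    by_cases h1 : v ∈ W
    · obtain ⟨p, hp, h2⟩ := mem_ends.1 (hall v h1)
      exact ⟨_, List.mem_append_left _ (List.mem_map.2 ⟨p, hp, rfl⟩), by
        rw [Finset.mem_insert, Finset.mem_singleton]; exact h2⟩
    · have h2 : v ∈ S.biUnion id := by
        by_contra h2
        exact h1 (Finset.mem_sdiff.2 ⟨hv, h2⟩)
      obtain ⟨T, hT, hvT⟩ := Finset.mem_biUnion.1 h2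
      exact ⟨T, List.mem_append_right _ (Finset.mem_toList.2 hT), hvT⟩
  · rw [List.length_append, List.length_map, Finset.length_toList]
    omega

/-- Proof. The classes with three elements, and the classes with two elements; `n` is the sum of the
cardinalities of the classes (compare the beginning of `test_complete` in `h61/Alg.lean`). -/
theorem sol_of_fib (hG : Gr (Finset.range n) (EE Es)) {k : ℕ} {f : ℕ → ℕ}
    (hf1 : ∀ v ∈ Finset.range n, f v < k)
    (hf2 : ∀ u ∈ Finset.range n, ∀ v ∈ Finset.range n, u ≠ v → f u = f v → EE Es u v)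
    (hf3 : ∀ s, (fib (Finset.range n) f s).card = 0 ∨ (fib (Finset.range n) f s).card = 2 ∨
      (fib (Finset.range n) f s).card = 3) :
    ∃ t h, n = 3 * t + 2 * h ∧ t + h ≤ k ∧ Sol (gr Es) (Finset.range n) t := by
  classical
  set X := Finset.range n with hX
  set S3 := (Finset.range k).filter fun s => (fib X f s).card = 3 with hS3
  set S2 := (Finset.range k).filter fun s => (fib X f s).card = 2 with hS2
  have hsum : n = 3 * S3.card + 2 * S2.card := by
    have h5 : X.card = ∑ s ∈ Finset.range k, (fib X f s).card :=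
      Finset.card_eq_sum_card_fiberwise fun v hv => Finset.mem_coe.2 (Finset.mem_range.2 (hf1 v hv))
    rw [hX, Finset.card_range] at h5
    rw [hS3, hS2, Finset.card_filter, Finset.card_filter, Finset.mul_sum, Finset.mul_sum,
      ← Finset.sum_add_distrib]
    rw [h5]
    apply Finset.sum_congr rfl
    intro s _
    rcases hf3 s with h | h | h <;> rw [h] <;> simp
  have hcount : S3.card + S2.card ≤ k := by
    rw [← Finset.card_union_of_disjoint]
    · have : S3 ∪ S2 ⊆ Finset.range k := by
        intro s hs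
        rcases Finset.mem_union.1 hs with hs | hs <;> exact (Finset.mem_filter.1 hs).1
      simpa using Finset.card_le_card this
    · rw [Finset.disjoint_left]
      intro s hs hs'
      have h1 := (Finset.mem_filter.1 hs).2
      have h2 := (Finset.mem_filter.1 hs').2
      omega
  have hS3' : ∀ s ∈ S3, (fib X f s).card = 3 := fun s hs => (Finset.mem_filter.1 hs).2
  refine ⟨S3.card, S2.card, hsum, hcount, S3.image (fib X f), ?_, ?_, ?_, ?_⟩
  · apply Finset.card_image_of_injOn
    intro a ha b hb hab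
    have ha3 := hS3' a ha
    obtain ⟨v, hv⟩ : (fib X f a).Nonempty := Finset.card_pos.1 (by omega)
    have hv' : v ∈ fib X f b := by
      have hab' : fib X f a = fib X f b := hab
      rw [← hab']
      exact hv
    exact (mem_fib.1 hv).2.symm.trans (mem_fib.1 hv').2
  · intro T hT
    obtain ⟨s, hs, rfl⟩ := Finset.mem_image.1 hT
    refine ⟨fun v hv => (mem_fib.1 hv).1, ?_⟩
    rw [SimpleGraph.isNClique_iff]
    refine ⟨?_, hS3' s hs⟩
    intro u hu v hv huv
    have hu' := mem_fib.1 (Finset.mem_coe.1 hu)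
    have hv' := mem_fib.1 (Finset.mem_coe.1 hv)
    exact (gr_adj hG).2 (hf2 u hu'.1 v hv'.1 huv (hu'.2.trans hv'.2.symm))
  · intro T hT T' hT' hne
    obtain ⟨s, hs, rfl⟩ := Finset.mem_image.1 hT
    obtain ⟨s', hs', rfl⟩ := Finset.mem_image.1 hT'
    rw [Finset.disjoint_left]
    intro v hv hv'
    apply hne
    rw [← (mem_fib.1 hv).2, ← (mem_fib.1 hv').2]
  · have hW : ∀ v, v ∈ X \ (S3.image (fib X f)).biUnion id ↔ v ∈ X ∧ (fib X f (f v)).card = 2 := by
      intro v
      rw [Finset.mem_sdiff, Finset.mem_biUnion]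
      constructor
      · rintro ⟨h1, h2⟩
        refine ⟨h1, ?_⟩
        have hvf : v ∈ fib X f (f v) := mem_fib.2 ⟨h1, rfl⟩
        rcases hf3 (f v) with h | h | h
        · rw [Finset.card_eq_zero] at h
          rw [h] at hvf
          exact absurd hvf (Finset.notMem_empty v)
        · exact h
        · exact absurd ⟨fib X f (f v), Finset.mem_image.2 ⟨f v, Finset.mem_filter.2
            ⟨Finset.mem_range.2 (hf1 v h1), h⟩, rfl⟩, hvf⟩ h2
      · rintro ⟨h1, h2⟩
        refine ⟨h1, ?_⟩
        rintro ⟨T, hT, hvT⟩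
        obtain ⟨s, hs, rfl⟩ := Finset.mem_image.1 hT
        have h3 : f v = s := (mem_fib.1 (show v ∈ fib X f s from hvT)).2
        have h4 := hS3' s hs
        rw [← h3] at h4
        omega
    have hg : ∀ v, ∃ w, (v ∈ X ∧ (fib X f (f v)).card = 2) →
        w ≠ v ∧ fib X f (f v) = {v, w} := by
      intro v
      by_cases hv : v ∈ X ∧ (fib X f (f v)).card = 2
      · obtain ⟨x, y, hxy, he⟩ := Finset.card_eq_two.1 hv.2
        have hvf : v ∈ fib X f (f v) := mem_fib.2 ⟨hv.1, rfl⟩
        rw [he, Finset.mem_insert, Finset.mem_singleton] at hvf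
        rcases hvf with h | h
        · exact ⟨y, fun _ => ⟨fun h1 => hxy (h.symm.trans h1.symm), by rw [he, h]⟩⟩
        · refine ⟨x, fun _ => ⟨fun h1 => hxy (h1.trans h), ?_⟩⟩
          rw [he, h, Finset.pair_comm]
      · exact ⟨0, fun h => absurd h hv⟩
    choose g hg using hg
    refine ⟨g, ?_⟩
    intro v hv
    rw [hW] at hv
    obtain ⟨hne, he⟩ := hg v hv
    have hgm : g v ∈ fib X f (f v) := by
      rw [he]
      exact Finset.mem_insert_of_mem (Finset.mem_singleton_self _)
    obtain ⟨hgX, hgf⟩ := mem_fib.1 hgm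
    have hgv : g v ∈ X ∧ (fib X f (f (g v))).card = 2 := ⟨hgX, by rw [hgf]; exact hv.2⟩
    refine ⟨(hW _).2 hgv, (gr_adj hG).2 (hf2 v hv.1 _ hgX hne.symm hgf.symm), ?_⟩
    obtain ⟨hne', he'⟩ := hg (g v) hgv
    rw [hgf] at he'
    have h1 : v ∈ fib X f (f v) := mem_fib.2 ⟨hv.1, rfl⟩
    rw [he', Finset.mem_insert, Finset.mem_singleton] at h1
    rcases h1 with h1 | h1
    · exact absurd h1.symm hne
    · exact h1.symm

/-- Proof: as `alg_iff` in `h61/Alg.lean`, with `colK_cases`, `colK_of_mch`, `solv_sound`,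
`solv_complete`, `colK_of_sol`, `sol_of_fib`. -/
theorem alg3_iff {C : ℕ} (hMain : Main C) (hG : Gr (Finset.range n) (EE Es))
    (hP : Prismatic (Finset.range n) (EE Es)) (k : ℕ) :
    alg3 C n Es k = true ↔ ColK (Finset.range n) (EE Es) k := by
  unfold alg3
  simp only [Bool.or_eq_true, decide_eq_true_eq, List.any_eq_true, List.mem_range, Bool.and_eq_true]
  constructor
  · rintro (h | ⟨t, _, h, _, ⟨h1, h2⟩, h3⟩)
    · obtain ⟨h1, _⟩ := maxMatch_spec (isG_range hG)
      refine colK_of_mch hG (M := maxMatch (List.range n) Es) ⟨?_, h1.nd⟩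
        (by rw [Finset.card_range]; exact h)
      intro p hp
      have h2 := h1.sub p hp
      exact ⟨h2, hG.mem _ _ h2, hG.mem' h2⟩
    · exact colK_of_sol hG h1 h2 (solv_sound hMain hG hP h3)
  · intro h
    rcases colK_cases hG hP h with ⟨M, hM, h1⟩ | ⟨f, h1, h2, h3⟩
    · left
      have h2 := maxMatch_max (isG_range hG) (M := M) ⟨fun p hp => (hM.1 p hp).1, hM.2⟩
      rw [Finset.card_range] at h1
      omega
    · right
      obtain ⟨t, h, hn, hk, hS⟩ := sol_of_fib hG h1 h2 h3
      exact ⟨t, by omega, h, by omega, ⟨hn, hk⟩, solv_complete hG hP hS⟩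

/-- Proof: as `dec_iff` in `h61/Parse.lean`. -/
theorem dec3_iff {C : ℕ} (hMain : Main C) (x : Inst)
    (hP : Prismatic (Finset.range x.n) (EE (pEs x.encode))) :
    dec3 C x.encode = true ↔ x.G.Colorable x.k := by
  unfold dec3
  rw [pn_encode, pk_encode, alg3_iff hMain (gr_encode x) hP, colK_iff, colorable_min]

@[fun_prop]
theorem Poly.dec3 {C : ℕ} {α : Type} [Enc α] {l : α → List Bool} (hl : Poly l) :
    Poly (fun a => h46.dec3 C (l a)) := by
  unfold h46.dec3 h46.alg3
  fun_prop

/-- Proof: as `result` in `Pool/Agent/Results/MP_ebc13b_lc/C4PlusK1Free.lean`. -/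
theorem final {C : ℕ} (hMain : Main C) :
    ∃ f : Inst → Bool,
      Nonempty (Turing.TM2ComputableInPolyTime Inst.encode Computability.encodeBool f) ∧
      ∀ x : Inst,
        ¬ (completeBipartiteGraph (Fin 1) (Fin 3)).IsIndContained x.G →
        ¬ (⊥ : SimpleGraph (Fin 4)).IsIndContained x.G →
        ¬ coDiamond.IsIndContained x.G →
        (f x = true ↔ x.G.Colorable x.k) := by
  have hP : Poly (fun s : List Bool => dec3 C s) := by fun_prop
  obtain ⟨M⟩ := Poly.tm2_raw_bool hP
  refine ⟨fun x => dec3 C x.encode, ⟨?_⟩, ?_⟩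
  · exact
      { tm := M.tm
        inputAlphabet := M.inputAlphabet
        outputAlphabet := M.outputAlphabet
        time := M.time
        outputsFun := fun x => M.outputsFun x.encode }
  · intro x h1 h2 h3
    exact dec3_iff hMain x (prismatic_of x h1 h2 h3)

end Pool.Agent.H.MP_ebc13b_lc.h46
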