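import Pool.Agent.H.MP_ebc13b_lc.h46.LPF
import Pool.Agent.H.MP_ebc13b_lc.h53.Ord

/-!
Integral solutions: disjoint triangles and a perfect matching of the rest. Adding cliques, transfer
along injective maps.
-/

namespace Pool.Agent.H.MP_ebc13b_lc.h46

open Pool.Agent.H.MP_ebc13b_lc.h53

variable {α : Type*} [DecidableEq α]

/-- `t` disjoint triangles such that the rest has a perfect matching -/
def Sol (G : SimpleGraph α) (A : Finset α) (t : ℕ) : Prop :=
  ∃ S : Finset (Finset α), S.card = t ∧ (∀ T ∈ S, T ⊆ A ∧ G.IsNClique 3 T) ∧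
    (∀ T ∈ S, ∀ T' ∈ S, T ≠ T' → Disjoint T T') ∧ PMon G (A \ S.biUnion id)

variable {G : SimpleGraph α} {A : Finset α}

/-- Proof: `insert T S` (`T` is nonempty and disjoint from the elements of `S`). -/
theorem Sol.add_tri {T : Finset α} (hT : T ⊆ A) (h3 : G.IsNClique 3 T) {t : ℕ}
    (h : Sol G (A \ T) t) : Sol G A (t + 1) := by
  classical
  obtain ⟨S, h1, h2, h4, h5⟩ := h
  obtain ⟨x, hx⟩ : T.Nonempty := by
    rw [← Finset.card_pos, h3.card_eq]
    exact Nat.succ_pos 2
  have hTS : T ∉ S := fun hm => (Finset.mem_sdiff.1 ((h2 T hm).1 hx)).2 hx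
  have hd : ∀ T' ∈ S, Disjoint T' T := fun T' hT' =>
    (Finset.subset_sdiff.1 (h2 T' hT').1).2
  refine ⟨insert T S, ?_, ?_, ?_, ?_⟩
  · rw [Finset.card_insert_of_notMem hTS, h1]
  · intro T' hT'
    rcases Finset.mem_insert.1 hT' with h | h
    · rw [h]
      exact ⟨hT, h3⟩
    · exact ⟨(h2 T' h).1.trans Finset.sdiff_subset, (h2 T' h).2⟩
  · intro T₁ h6 T₂ h7 hne
    rcases Finset.mem_insert.1 h6 with h8 | h8
    · rcases Finset.mem_insert.1 h7 with h9 | h9
      · exact absurd (h8.trans h9.symm) hne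
      · rw [h8]
        exact (hd T₂ h9).symm
    · rcases Finset.mem_insert.1 h7 with h9 | h9
      · rw [h9]
        exact hd T₁ h8
      · exact h4 T₁ h8 T₂ h9 hne
  · have he : A \ (insert T S).biUnion id = (A \ T) \ S.biUnion id := by
      rw [Finset.biUnion_insert]
      ext v
      simp only [Finset.mem_union, Finset.mem_sdiff, id]
      tauto
    rw [he]
    exact h5

/-- Proof: the same family, and the involution which exchanges `u` and `v` in addition. -/
theorem Sol.add_edge {u v : α} (hu : u ∈ A) (hv : v ∈ A) (huv : G.Adj u v) {t : ℕ}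
    (h : Sol G (A \ {u, v}) t) : Sol G A t := by
  classical
  obtain ⟨S, h1, h2, h4, f, hf⟩ := h
  have hsub : ∀ T ∈ S, T ⊆ A ∧ u ∉ T ∧ v ∉ T := by
    intro T hT
    have h6 := (h2 T hT).1
    refine ⟨h6.trans Finset.sdiff_subset, fun h7 => ?_, fun h7 => ?_⟩
    · exact (Finset.mem_sdiff.1 (h6 h7)).2 (by simp)
    · exact (Finset.mem_sdiff.1 (h6 h7)).2 (by simp)
  have huS : u ∉ S.biUnion id := by
    intro h6
    obtain ⟨T, hT, h7⟩ := Finset.mem_biUnion.1 h6
    exact (hsub T hT).2.1 h7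
  have hvS : v ∉ S.biUnion id := by
    intro h6
    obtain ⟨T, hT, h7⟩ := Finset.mem_biUnion.1 h6
    exact (hsub T hT).2.2 h7
  refine ⟨S, h1, fun T hT => ⟨(hsub T hT).1, (h2 T hT).2⟩, h4,
    fun x => if x = u then v else if x = v then u else f x, ?_⟩
  intro x hx
  have huv' : v ≠ u := huv.ne'
  by_cases hxu : x = u
  · subst hxu
    simp only [if_true, if_neg huv']
    exact ⟨Finset.mem_sdiff.2 ⟨hv, hvS⟩, huv, trivial⟩
  by_cases hxv : x = v
  · subst hxv
    simp only [if_true, if_neg huv']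
    exact ⟨Finset.mem_sdiff.2 ⟨hu, huS⟩, huv.symm, trivial⟩
  have hx' : x ∈ (A \ {u, v}) \ S.biUnion id := by
    rw [Finset.mem_sdiff] at hx
    rw [Finset.mem_sdiff, Finset.mem_sdiff]
    refine ⟨⟨hx.1, ?_⟩, hx.2⟩
    simp only [Finset.mem_insert, Finset.mem_singleton, not_or]
    exact ⟨hxu, hxv⟩
  obtain ⟨h6, h7, h8⟩ := hf x hx'
  rw [Finset.mem_sdiff, Finset.mem_sdiff, Finset.mem_insert, Finset.mem_singleton, not_or] at h6
  simp only [if_neg hxu, if_neg hxv, if_neg h6.1.2.1, if_neg h6.1.2.2]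
  exact ⟨Finset.mem_sdiff.2 ⟨h6.1.1, h6.2⟩, h7, h8⟩

/-- Proof: induction on `K`. `c` has two or three elements; `add_edge`, `add_tri`. -/
theorem Sol.add_all {K : List (Finset α)} (hK : ∀ c ∈ K, c ⊆ A ∧ (G.IsNClique 3 c ∨ G.IsNClique 2 c))
    (hd : K.Pairwise Disjoint) {t : ℕ}
    (h : Sol G (A \ K.toFinset.biUnion id) t) : Sol G A (t + (K.filter fun c => c.card = 3).length) := by
  classical
  induction K generalizing A t with
  | nil =>
    simpa using h
  | cons c K ih =>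
    rw [List.pairwise_cons] at hd
    obtain ⟨hd1, hd2⟩ := hd
    have hc := hK c (by simp)
    have hK' : ∀ c' ∈ K, c' ⊆ A \ c ∧ (G.IsNClique 3 c' ∨ G.IsNClique 2 c') := by
      intro c' hc'
      have h1 := hK c' (List.mem_cons_of_mem c hc')
      exact ⟨Finset.subset_sdiff.2 ⟨h1.1, (hd1 c' hc').symm⟩, h1.2⟩
    have h' : Sol G ((A \ c) \ K.toFinset.biUnion id) t := by
      have he : (A \ c) \ K.toFinset.biUnion id = A \ (c :: K).toFinset.biUnion id := by
        rw [List.toFinset_cons, Finset.biUnion_insert]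
        ext v
        simp only [Finset.mem_union, Finset.mem_sdiff, id]
        tauto
      rw [he]
      exact h
    have h2 := ih hK' hd2 h'
    rcases hc.2 with h3 | h3
    · have h4 := Sol.add_tri hc.1 h3 h2
      rw [List.filter_cons_of_pos (by simpa using h3.card_eq), List.length_cons, ← Nat.add_assoc]
      exact h4
    · obtain ⟨u, v, huv, he⟩ := Finset.card_eq_two.1 h3.card_eq
      have h5 : G.Adj u v := by
        refine h3.isClique ?_ ?_ huv
        · rw [he]; simp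
        · rw [he]; simp
      have hu : u ∈ A := hc.1 (by rw [he]; simp)
      have hv : v ∈ A := hc.1 (by rw [he]; simp)
      rw [List.filter_cons_of_neg (by simp [h3.card_eq])]
      rw [he] at h2
      exact Sol.add_edge hu hv h5 h2

/-- Every set `X` of vertices is covered by at most `|X|` disjoint cliques of a solution.

Proof. `S` the family of a solution, `f` the involution of the rest. `K` lists the triangles of `S`
which meet `X` and the edges `{v, f v}` of the rest which meet `X` (the image of a map on `X`, so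
at most `|X|` elements). The other triangles of `S` and the restriction of `f` are a solution for
`A \ ⋃ K`. -/
theorem Sol.cover {t : ℕ} (h : Sol G A t) {X : Finset α} (hX : X ⊆ A) :
    ∃ K : List (Finset α), K.length ≤ X.card ∧
      (∀ c ∈ K, c ⊆ A ∧ (G.IsNClique 3 c ∨ G.IsNClique 2 c)) ∧ K.Pairwise Disjoint ∧
      X ⊆ K.toFinset.biUnion id ∧ (K.filter fun c => c.card = 3).length ≤ t ∧
      Sol G (A \ K.toFinset.biUnion id) (t - (K.filter fun c => c.card = 3).length) := by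
  classical
  obtain ⟨S, h1, h2, h4, f, hf⟩ := h
  set R : Finset α := A \ S.biUnion id with hR
  -- the clique of a vertex
  set κ : α → Finset α := fun x => if h : ∃ T ∈ S, x ∈ T then h.choose else {x, f x} with hκ
  have k1 : ∀ x, (∃ T ∈ S, x ∈ T) → κ x ∈ S ∧ x ∈ κ x := by
    intro x hx
    have e : κ x = hx.choose := by
      rw [hκ]
      exact dif_pos hx
    rw [e]
    exact hx.choose_spec
  have k2 : ∀ x ∈ A, (¬ ∃ T ∈ S, x ∈ T) → x ∈ R ∧ κ x = {x, f x} := by
    intro x hx hn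
    refine ⟨Finset.mem_sdiff.2 ⟨hx, fun hm => ?_⟩, ?_⟩
    · obtain ⟨T, hT, hxT⟩ := Finset.mem_biUnion.1 hm
      exact hn ⟨T, hT, hxT⟩
    · rw [hκ]
      exact dif_neg hn
  have hRS : ∀ x ∈ R, ∀ T ∈ S, x ∉ T := by
    intro x hx T hT hxT
    exact (Finset.mem_sdiff.1 hx).2 (Finset.mem_biUnion.2 ⟨T, hT, hxT⟩)
  -- the elements of the cover
  have k3 : ∀ c ∈ X.image κ, c ∈ S ∨ ∃ x ∈ R, c = {x, f x} := by
    intro c hc
    obtain ⟨x, hx, rfl⟩ := Finset.mem_image.1 hc
    by_cases h : ∃ T ∈ S, x ∈ T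
    · exact Or.inl (k1 x h).1
    · obtain ⟨h5, h6⟩ := k2 x (hX hx) h
      exact Or.inr ⟨x, h5, h6⟩
  have k4 : ∀ x ∈ R, ({x, f x} : Finset α) ⊆ R := by
    intro x hx y hy
    simp only [Finset.mem_insert, Finset.mem_singleton] at hy
    rcases hy with rfl | rfl
    · exact hx
    · exact (hf x hx).1
  have k5 : ∀ x ∈ R, G.IsNClique 2 ({x, f x} : Finset α) := by
    intro x hx
    have h5 := (hf x hx).2.1
    refine ⟨?_, Finset.card_pair h5.ne⟩
    intro a ha b hb hab
    simp only [Finset.coe_insert, Finset.coe_singleton, Set.mem_insert_iff,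
      Set.mem_singleton_iff] at ha hb
    rcases ha with rfl | rfl <;> rcases hb with rfl | rfl
    · exact absurd rfl hab
    · exact h5
    · exact h5.symm
    · exact absurd rfl hab
  have k6 : ∀ x ∈ R, ∀ y ∈ R, x ∈ ({y, f y} : Finset α) → ({x, f x} : Finset α) = {y, f y} := by
    intro x hx y hy hxy
    simp only [Finset.mem_insert, Finset.mem_singleton] at hxy
    rcases hxy with rfl | rfl
    · rfl
    · rw [(hf y hy).2.2, Finset.pair_comm]
  have k7 : ∀ c ∈ X.image κ, ∀ c' ∈ X.image κ, c ≠ c' → Disjoint c c' := by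
    intro c hc c' hc' hne
    rcases k3 c hc with h5 | ⟨x, hx, rfl⟩
    · rcases k3 c' hc' with h6 | ⟨y, hy, rfl⟩
      · exact h4 c h5 c' h6 hne
      · rw [Finset.disjoint_right]
        intro z hz
        exact hRS z (k4 y hy hz) c h5
    · rcases k3 c' hc' with h6 | ⟨y, hy, rfl⟩
      · rw [Finset.disjoint_left]
        intro z hz
        exact hRS z (k4 x hx hz) c' h6
      · rw [Finset.disjoint_left]
        intro z hz hz'
        have hzR := k4 x hx hz
        exact hne ((k6 z hzR x hx hz).symm.trans (k6 z hzR y hy hz'))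
  have hnd : (X.image κ).toList.Nodup := Finset.nodup_toList _
  have hfil : ((X.image κ).toList.filter fun c => c.card = 3).length =
      ((X.image κ).filter fun c => c.card = 3).card := by
    rw [← List.toFinset_card_of_nodup (hnd.filter _), List.toFinset_filter,
      Finset.toList_toFinset]
    congr 1
    ext c
    simp
  have hTS : ((X.image κ).filter fun c => c.card = 3) ⊆ S := by
    intro c hc
    obtain ⟨h5, h6⟩ := Finset.mem_filter.1 hc
    rcases k3 c h5 with h7 | ⟨x, hx, rfl⟩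
    · exact h7
    · rw [(k5 x hx).card_eq] at h6
      omega
  refine ⟨(X.image κ).toList, ?_, ?_, ?_, ?_, ?_, ?_⟩
  · rw [Finset.length_toList]
    exact Finset.card_image_le
  · intro c hc
    rw [Finset.mem_toList] at hc
    rcases k3 c hc with h5 | ⟨x, hx, rfl⟩
    · exact ⟨(h2 c h5).1, Or.inl (h2 c h5).2⟩
    · exact ⟨(k4 x hx).trans Finset.sdiff_subset, Or.inr (k5 x hx)⟩
  · refine hnd.pairwise_of_forall_ne ?_
    intro c hc c' hc' hne
    exact k7 c (Finset.mem_toList.1 hc) c' (Finset.mem_toList.1 hc') hne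
  · rw [Finset.toList_toFinset]
    intro x hx
    refine Finset.mem_biUnion.2 ⟨κ x, Finset.mem_image_of_mem κ hx, ?_⟩
    by_cases h : ∃ T ∈ S, x ∈ T
    · exact (k1 x h).2
    · rw [(k2 x (hX hx) h).2]
      simp
  · rw [hfil, ← h1]
    exact Finset.card_le_card hTS
  · rw [hfil, Finset.toList_toFinset]
    refine ⟨S \ ((X.image κ).filter fun c => c.card = 3), ?_, ?_, ?_, f, ?_⟩
    · rw [Finset.card_sdiff_of_subset hTS, h1]
    · intro T hT
      obtain ⟨h5, h6⟩ := Finset.mem_sdiff.1 hT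
      refine ⟨Finset.subset_sdiff.2 ⟨(h2 T h5).1, ?_⟩, (h2 T h5).2⟩
      rw [Finset.disjoint_right]
      intro z hz hzT
      obtain ⟨c, hc, hzc⟩ := Finset.mem_biUnion.1 hz
      rcases k3 c hc with h7 | ⟨x, hx, rfl⟩
      · have hne : T ≠ c := by
          rintro rfl
          exact h6 (Finset.mem_filter.2 ⟨hc, (h2 T h5).2.card_eq⟩)
        exact Finset.disjoint_left.1 (h4 T h5 c h7 hne) hzT hzc
      · exact hRS z (k4 x hx hzc) T h5 hzT
    · intro T hT T' hT' hne
      exact h4 T (Finset.mem_sdiff.1 hT).1 T' (Finset.mem_sdiff.1 hT').1 hne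
    · intro v hv
      rw [Finset.mem_sdiff, Finset.mem_sdiff] at hv
      obtain ⟨⟨h5, h6⟩, h7⟩ := hv
      have hvR : v ∈ R := by
        refine Finset.mem_sdiff.2 ⟨h5, fun hm => ?_⟩
        obtain ⟨T, hT, hvT⟩ := Finset.mem_biUnion.1 hm
        by_cases h8 : T ∈ (X.image κ).filter fun c => c.card = 3
        · exact h6 (Finset.mem_biUnion.2 ⟨T, (Finset.mem_filter.1 h8).1, hvT⟩)
        · exact h7 (Finset.mem_biUnion.2 ⟨T, Finset.mem_sdiff.2 ⟨hT, h8⟩, hvT⟩)
      obtain ⟨h8, h9, h10⟩ := hf v hvR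
      refine ⟨?_, h9, h10⟩
      rw [Finset.mem_sdiff, Finset.mem_sdiff]
      refine ⟨⟨(Finset.mem_sdiff.1 h8).1, fun hm => ?_⟩, fun hm => ?_⟩
      · obtain ⟨c, hc, hvc⟩ := Finset.mem_biUnion.1 hm
        rcases k3 c hc with h11 | ⟨x, hx, rfl⟩
        · exact hRS (f v) h8 c h11 hvc
        · have h12 := k6 (f v) h8 x hx hvc
          rw [h10] at h12
          refine h6 (Finset.mem_biUnion.2 ⟨{x, f x}, hc, ?_⟩)
          change v ∈ ({x, f x} : Finset α)
          rw [← h12]
          simp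
      · obtain ⟨T, hT, hvT⟩ := Finset.mem_biUnion.1 hm
        exact hRS (f v) h8 T (Finset.mem_sdiff.1 hT).1 hvT

variable {β : Type*} [DecidableEq β] {G' : SimpleGraph β} {B : Finset β} {φ : β → α}

/-- images of cliques -/
theorem FinS_clq (hinj : ∀ i ∈ B, ∀ j ∈ B, φ i = φ j → i = j)
    (hadj : ∀ i ∈ B, ∀ j ∈ B, (G'.Adj i j ↔ G.Adj (φ i) (φ j))) {n : ℕ} {T : Finset β}
    (hT : T ⊆ B) (h : G'.IsNClique n T) : G.IsNClique n (T.image φ) := by
  refine ⟨?_, ?_⟩
  · intro a ha b hb hab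
    rw [Finset.mem_coe, Finset.mem_image] at ha hb
    obtain ⟨i, hi, rfl⟩ := ha
    obtain ⟨j, hj, rfl⟩ := hb
    have hij : i ≠ j := fun e => hab (by rw [e])
    exact (hadj i (hT hi) j (hT hj)).1 (h.isClique (by simpa using hi) (by simpa using hj) hij)
  · rw [Finset.card_image_of_injOn, h.card_eq]
    intro i hi j hj hij
    exact hinj i (hT (by simpa using hi)) j (hT (by simpa using hj)) hij

theorem FinS_fwd (hinj : ∀ i ∈ B, ∀ j ∈ B, φ i = φ j → i = j)
    (hadj : ∀ i ∈ B, ∀ j ∈ B, (G'.Adj i j ↔ G.Adj (φ i) (φ j))) {t : ℕ}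
    (h : Sol G' B t) : Sol G (B.image φ) t := by
  classical
  obtain ⟨S, h1, h2, h4, f, hf⟩ := h
  have hS : ∀ T ∈ S, ∀ T' ∈ S, ∀ i ∈ T, φ i ∈ T'.image φ → i ∈ T' := by
    intro T hT T' hT' i hi hm
    obtain ⟨j, hj, hji⟩ := Finset.mem_image.1 hm
    have := hinj j ((h2 T' hT').1 hj) i ((h2 T hT).1 hi) hji
    rwa [← this]
  have hmap : (S.image fun T => T.image φ).biUnion id = (S.biUnion id).image φ := by
    ext a
    simp only [Finset.mem_biUnion, Finset.mem_image, id]
    constructor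
    · rintro ⟨_, ⟨T, hT, rfl⟩, ha⟩
      obtain ⟨i, hi, rfl⟩ := Finset.mem_image.1 ha
      exact ⟨i, ⟨T, hT, hi⟩, rfl⟩
    · rintro ⟨i, ⟨T, hT, hi⟩, rfl⟩
      exact ⟨T.image φ, ⟨T, hT, rfl⟩, Finset.mem_image_of_mem φ hi⟩
  have hsB : ∀ i ∈ S.biUnion id, i ∈ B := by
    intro i hi
    obtain ⟨T, hT, hiT⟩ := Finset.mem_biUnion.1 hi
    exact (h2 T hT).1 hiT
  have hrest : ∀ i ∈ B \ S.biUnion id, φ i ∈ B.image φ \ (S.biUnion id).image φ := by
    intro i hi
    obtain ⟨h5, h6⟩ := Finset.mem_sdiff.1 hi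
    refine Finset.mem_sdiff.2 ⟨Finset.mem_image_of_mem φ h5, fun hm => ?_⟩
    obtain ⟨j, hj, hji⟩ := Finset.mem_image.1 hm
    have := hinj j (hsB j hj) i h5 hji
    exact h6 (this ▸ hj)
  refine ⟨S.image fun T => T.image φ, ?_, ?_, ?_, ?_⟩
  · rw [Finset.card_image_of_injOn, h1]
    intro T hT T' hT' hTT
    have hT1 : T ∈ S := by simpa using hT
    have hT2 : T' ∈ S := by simpa using hT'
    have hTT' : T.image φ = T'.image φ := hTT
    ext i
    constructor
    · intro hi
      exact hS T hT1 T' hT2 i hi (hTT' ▸ Finset.mem_image_of_mem φ hi)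
    · intro hi
      exact hS T' hT2 T hT1 i hi (hTT'.symm ▸ Finset.mem_image_of_mem φ hi)
  · intro T' hT'
    obtain ⟨T, hT, rfl⟩ := Finset.mem_image.1 hT'
    exact ⟨Finset.image_subset_image (h2 T hT).1, FinS_clq hinj hadj (h2 T hT).1 (h2 T hT).2⟩
  · intro T₁ hT₁ T₂ hT₂ hne
    obtain ⟨T, hT, rfl⟩ := Finset.mem_image.1 hT₁
    obtain ⟨T', hT', rfl⟩ := Finset.mem_image.1 hT₂
    have hTT : T ≠ T' := fun e => hne (by rw [e])
    rw [Finset.disjoint_left]
    intro a ha ha'
    obtain ⟨i, hi, rfl⟩ := Finset.mem_image.1 ha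
    exact Finset.disjoint_left.1 (h4 T hT T' hT' hTT) hi (hS T hT T' hT' i hi ha')
  · rw [hmap]
    refine ⟨fun a => if h : ∃ i ∈ B, φ i = a then φ (f h.choose) else a, ?_⟩
    have hfφ : ∀ i ∈ B, (if h : ∃ j ∈ B, φ j = φ i then φ (f h.choose) else φ i) = φ (f i) := by
      intro i hi
      have hex : ∃ j ∈ B, φ j = φ i := ⟨i, hi, rfl⟩
      rw [dif_pos hex]
      have h5 := hex.choose_spec
      rw [hinj _ h5.1 i hi h5.2]
    intro a ha
    obtain ⟨h5, h6⟩ := Finset.mem_sdiff.1 ha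
    obtain ⟨i, hi, rfl⟩ := Finset.mem_image.1 h5
    have hi' : i ∈ B \ S.biUnion id :=
      Finset.mem_sdiff.2 ⟨hi, fun hm => h6 (Finset.mem_image_of_mem φ hm)⟩
    obtain ⟨h7, h8, h9⟩ := hf i hi'
    have h10 := (Finset.mem_sdiff.1 h7).1
    beta_reduce
    rw [hfφ i hi, hfφ (f i) h10, h9]
    exact ⟨hrest (f i) h7, (hadj i hi (f i) h10).1 h8, rfl⟩

/-- Transfer of solutions along an injective map which preserves and reflects adjacency.

Proof. Forward: images of the triangles, and the involution `φ ∘ f ∘ φ⁻¹`. Backward: images under the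
inverse map of `φ : B → B.image φ`. -/
theorem sol_image (hinj : ∀ i ∈ B, ∀ j ∈ B, φ i = φ j → i = j)
    (hadj : ∀ i ∈ B, ∀ j ∈ B, (G'.Adj i j ↔ G.Adj (φ i) (φ j))) {t : ℕ} :
    Sol G' B t ↔ Sol G (B.image φ) t := by
  classical
  refine ⟨FinS_fwd hinj hadj, fun h => ?_⟩
  rcases B.eq_empty_or_nonempty with rfl | ⟨b, hb⟩
  · obtain ⟨S, h1, h2, _, _⟩ := h
    have hS : S = ∅ := by
      rw [Finset.eq_empty_iff_forall_notMem]
      intro T hT
      have h5 := (h2 T hT).1
      rw [Finset.image_empty, Finset.subset_empty] at h5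
      have h6 := (h2 T hT).2.card_eq
      rw [h5] at h6
      simp at h6
    rw [hS, Finset.card_empty] at h1
    subst h1
    exact ⟨∅, Finset.card_empty, by simp, by simp, fun x => x, by simp⟩
  · have hne : Nonempty β := ⟨b⟩
    have hi : Set.InjOn φ (B : Set β) := by
      intro i hi j hj hij
      exact hinj i (by simpa using hi) j (by simpa using hj) hij
    have hψ : ∀ i ∈ B, Function.invFunOn φ (B : Set β) (φ i) = i := by
      intro i hiB
      exact hi.leftInvOn_invFunOn (by simpa using hiB)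
    have h1 : ∀ a ∈ B.image φ, ∀ a' ∈ B.image φ, Function.invFunOn φ (B : Set β) a =
        Function.invFunOn φ (B : Set β) a' → a = a' := by
      intro a ha a' ha' haa
      obtain ⟨i, hiB, rfl⟩ := Finset.mem_image.1 ha
      obtain ⟨j, hjB, rfl⟩ := Finset.mem_image.1 ha'
      rw [hψ i hiB, hψ j hjB] at haa
      rw [haa]
    have h2 : ∀ a ∈ B.image φ, ∀ a' ∈ B.image φ, (G.Adj a a' ↔
        G'.Adj (Function.invFunOn φ (B : Set β) a) (Function.invFunOn φ (B : Set β) a')) := by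
      intro a ha a' ha'
      obtain ⟨i, hiB, rfl⟩ := Finset.mem_image.1 ha
      obtain ⟨j, hjB, rfl⟩ := Finset.mem_image.1 ha'
      rw [hψ i hiB, hψ j hjB]
      exact (hadj i hiB j hjB).symm
    have h3 := FinS_fwd h1 h2 h
    have h4 : (B.image φ).image (Function.invFunOn φ (B : Set β)) = B := by
      ext i
      rw [Finset.mem_image]
      constructor
      · rintro ⟨a, ha, rfl⟩
        obtain ⟨j, hjB, rfl⟩ := Finset.mem_image.1 ha
        rw [hψ j hjB]
        exact hjB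
      · intro hiB
        exact ⟨φ i, Finset.mem_image_of_mem φ hiB, hψ i hiB⟩
    rwa [h4] at h3

theorem FinS_prism (hinj : ∀ i ∈ B, ∀ j ∈ B, φ i = φ j → i = j)
    (hadj : ∀ i ∈ B, ∀ j ∈ B, (G'.Adj i j ↔ G.Adj (φ i) (φ j)))
    (h : Prism G (B.image φ)) : Prism G' B := by
  intro T hT h3 v hv hvT
  have h1 : φ v ∉ T.image φ := by
    intro hm
    obtain ⟨j, hj, hjv⟩ := Finset.mem_image.1 hm
    exact hvT (hinj j (hT hj) v hv hjv ▸ hj)
  obtain ⟨u, hu, h4, h5⟩ := h (T.image φ) (Finset.image_subset_image hT)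
    (FinS_clq hinj hadj hT h3) (φ v) (Finset.mem_image_of_mem φ hv) h1
  obtain ⟨i, hi, rfl⟩ := Finset.mem_image.1 hu
  refine ⟨i, hi, (hadj v hv i (hT hi)).2 h4, ?_⟩
  intro j hj hvj
  exact hinj j (hT hj) i (hT hi)
    (h5 (φ j) (Finset.mem_image_of_mem φ hj) ((hadj v hv j (hT hj)).1 hvj))

/-- Proof: unfold; a triangle of `B` is mapped to a triangle of `B.image φ`. -/
theorem pc_comap (hinj : ∀ i ∈ B, ∀ j ∈ B, φ i = φ j → i = j)
    (hadj : ∀ i ∈ B, ∀ j ∈ B, (G'.Adj i j ↔ G.Adj (φ i) (φ j))) {col : α → ZMod 3}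
    (h : PC G (B.image φ) col) : PC G' B (col ∘ φ) := by
  refine ⟨FinS_prism hinj hadj h.pr, ?_⟩
  intro u hu v hv huv
  exact h.col (φ u) (Finset.mem_image_of_mem φ hu) (φ v) (Finset.mem_image_of_mem φ hv)
    ((hadj u hu v hv).1 huv)

/-- Proof: as in `pc_comap`. -/
theorem prism_comap (hinj : ∀ i ∈ B, ∀ j ∈ B, φ i = φ j → i = j)
    (hadj : ∀ i ∈ B, ∀ j ∈ B, (G'.Adj i j ↔ G.Adj (φ i) (φ j)))
    (h : Prism G (B.image φ)) : Prism G' B := by
  exact FinS_prism hinj hadj h

end Pool.Agent.H.MP_ebc13b_lc.h46
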