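import Pool.Agent.H.MP_ebc13b_lc.h46.FinB
import Pool.Agent.H.MP_ebc13b_lc.h53.Alp

/-!
The test for three-colourable prismatic graphs.
-/

namespace Pool.Agent.H.MP_ebc13b_lc.h46

open Pool.Agent.H.MP_5be563_lc.PT Pool.Agent.H.MP_ebc13b_lc.h61 Pool.Agent.H.MP_ebc13b_lc.h53

/-- The statement of the main theorem on three-coloured prismatic graphs, with the constant `C`. -/
def Main (C : ℕ) : Prop :=
  ∀ (G : SimpleGraph ℕ) (A : Finset ℕ) (col : ℕ → ZMod 3) (t : ℕ) (e : ℝ), PC G A col →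
    ALP G A t e → 0 ≤ e → (C : ℝ) * (A.card + 1) * e ≤ 1 → Even (A.card + t) → ISol G A t

/-- the precision -/
def prc (C n : ℕ) : ℕ := 3 * C * (n + 1) * (n + 1) + 1

/-- the test -/
def test3 (C n : ℕ) (Es : List (ℕ × ℕ)) (τ : ℕ) : Bool :=
  (List.range (n + 1)).any fun h => decide (n = 3 * τ + 2 * h) &&
    (decide ((restL n Es).length + 3 * τ ≤
      2 * (maxMatch (restL n Es) (restE n Es)).length + (n - (restL n Es).length)) &&
    perc n τ h (triL n Es) (edgL n Es)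
      (n * ((τ + h + 1) * (τ + h + 1)) * (prc C n * prc C n) + 1) (prc C n))

@[fun_prop]
theorem Poly.prc {α : Type} [Enc α] (C : ℕ) {n : α → ℕ} (hn : Poly n) :
    Poly (fun a => h46.prc C (n a)) := by
  unfold h46.prc
  fun_prop

theorem Poly.test3 {α : Type} [Enc α] (C : ℕ) {n : α → ℕ} {Es : α → List (ℕ × ℕ)} {τ : α → ℕ}
    (hn : Poly n) (hE : Poly Es) (hτ : Poly τ) : Poly (fun a => h46.test3 C (n a) (Es a) (τ a)) := by
  unfold h46.test3
  fun_prop

end Pool.Agent.H.MP_ebc13b_lc.h46
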