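import Pool.Agent.H.MP_ebc13b_lc.h46.LPF
import Pool.Agent.H.MP_ebc13b_lc.h53.Pos

/-!
Hereditary properties, and the interface of the sampling theorem.
-/

namespace Pool.Agent.H.MP_ebc13b_lc.h46

open Pool.Agent.H.MP_ebc13b_lc.h53

variable {α : Type*} [DecidableEq α] {G : SimpleGraph α} {A B : Finset α} {col : α → ZMod 3}

theorem pc_mono (h : PC G A col) (hB : B ⊆ A) : PC G B col :=
  ⟨h.pr.mono hB, fun u hu v hv => h.col u (hB hu) v (hB hv)⟩

theorem isT_mono {T : Finset α} (hB : B ⊆ A) (h : IsT G B T) : IsT G A T := ⟨h.1.trans hB, h.2⟩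

theorem hub_mono {v : α} (hB : B ⊆ A) (h : Hub G B v) : Hub G A v := by
  obtain ⟨T, T', h1, h2, h3, h4, h5⟩ := h
  exact ⟨T, T', isT_mono hB h1, isT_mono hB h2, h3, h4, h5⟩

theorem nocyc_mono (h : NoCyc G A col) (hB : B ⊆ A) : NoCyc G B col :=
  fun T₁ T₂ T₃ h1 h2 h3 => h T₁ T₂ T₃ (isT_mono hB h1) (isT_mono hB h2) (isT_mono hB h3)

theorem nopar_mono (h : NoPar G A col) (hB : B ⊆ A) : NoPar G B col :=
  fun y x x' T T' h1 h2 h3 h4 h5 => h y x x' T T' (hub_mono hB h1) (hub_mono hB h2)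
    (hub_mono hB h3) (isT_mono hB h4) (isT_mono hB h5)

/-- The statement of the sampling theorem: a feasible linear program of the right parity gives a
feasible slot system whose slots are hubs of the natural order. -/
def T1 (G : SimpleGraph α) (A : Finset α) (col : α → ZMod 3) : Prop :=
  ∀ (L : Line G A col) (t : ℕ), LPF G A t → Even (A.card + t) →
    ∃ (P : Finset α) (O : α → Finset (Finset α)), P.card = t ∧ (∀ p ∈ P, ∃ i < L.m, p = L.h i) ∧
      Slots G A P O ∧ Feas G A P O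

end Pool.Agent.H.MP_ebc13b_lc.h46
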