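import Pool.Agent.H.MP_ebc13b_lc.h46.Hered

/-!
Half-integral minimal slots have exactly the two options `Q_{i-1}` and `Q_i`.
-/

namespace Pool.Agent.H.MP_ebc13b_lc.h46

open Pool.Agent.H.MP_ebc13b_lc.h53

variable {α : Type*} [DecidableEq α] {G : SimpleGraph α} {A P : Finset α} {col : α → ZMod 3}
  {O : α → Finset (Finset α)} {z : Finset α → ℝ} {y : α → α → ℝ}

/-- A two-hub triangle through the hub `h i`.

Proof. `s` lies in `T` and `T''`, which are different (`h i ∈ T`, `h i ∉ T''`), so `s = h j`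
(`Line.share`), `j ≠ i`. By `Line.hub_iff` for `T` and `i`, `j`: `blk T = 2 k + 1` with
`{i, j} = {k, k + 1}`; `Line.eq_Q`, `Line.blk_odd`. -/
theorem two_hub (L : Line G A col) {T T'' : Finset α} (hT : IsT G A T) (hT'' : IsT G A T'')
    {i : ℕ} (hi : i < L.m) (h1 : L.h i ∈ T) (h2 : L.h i ∉ T'') {s : α} (hs : s ∈ T)
    (hs' : s ∈ T'') :
    (L.lk i ∧ T = L.Q i ∧ s = L.h (i + 1)) ∨
      (1 ≤ i ∧ L.lk (i - 1) ∧ T = L.Q (i - 1) ∧ s = L.h (i - 1)) := by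
  have hne : T ≠ T'' := fun h => h2 (h ▸ h1)
  obtain ⟨j, hj, rfl⟩ := L.share T T'' hT hT'' hne s hs hs'
  have hij : i ≠ j := fun h => h2 (h ▸ hs')
  have e1 := (L.hub_iff hT hi).1 h1
  have e2 := (L.hub_iff hT hj).1 hs
  have key : (L.blk T = 2 * i + 1 ∧ j = i + 1) ∨
      (1 ≤ i ∧ L.blk T = 2 * (i - 1) + 1 ∧ j = i - 1) := by omega
  rcases key with ⟨h3, h4⟩ | ⟨h3, h4, h5⟩
  · exact Or.inl ⟨(L.blk_odd T hT i h3).1, L.eq_Q hT h3, by rw [h4]⟩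
  · exact Or.inr ⟨h3, (L.blk_odd T hT (i - 1) h4).1, L.eq_Q hT h4, by rw [h5]⟩

/-- Proof. `O p = {T, T'}`, both weights `1/2` (`Half`). `viol` for `T` and for `T'` (the other
option of `hV` is the other element of the pair) and `two_hub`: both are in `{Q_{i-1}, Q_i}`, and they
are different. -/
theorem hub_opt (hPr : Prism G A) (L : Line G A col) (hS : Slots G A P O)
    (hx : FSol G A P O z y) (hpar : Even (A.card + P.card)) (hH : Half P O z)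
    (hV : ∀ p ∈ P, ∀ T ∈ O p, ∃ T' ∈ O p, T' ≠ T ∧ ∃ D, Vio G A P O z p T T' D) {i : ℕ}
    (hi : i < L.m) (hp : L.h i ∈ P) :
    1 ≤ i ∧ L.lk (i - 1) ∧ L.lk i ∧ L.Q (i - 1) ≠ L.Q i ∧ O (L.h i) = {L.Q (i - 1), L.Q i} ∧
      z (L.Q (i - 1)) = 1 / 2 ∧ z (L.Q i) = 1 / 2 := by
  obtain ⟨T, T', hne, hO, hz, hz'⟩ := hH (L.h i) hp
  have key : ∀ T T' : Finset α, T ≠ T' → O (L.h i) = {T, T'} → z T = 1 / 2 → z T' = 1 / 2 →
      (L.lk i ∧ T = L.Q i) ∨ (1 ≤ i ∧ L.lk (i - 1) ∧ T = L.Q (i - 1)) := by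
    intro T T' hne hO hz hz'
    have hT : T ∈ O (L.h i) := by rw [hO]; simp
    obtain ⟨T₁, hT₁, hne₁, D, hVio⟩ := hV (L.h i) hp T hT
    have e : T₁ = T' := by
      rw [hO, Finset.mem_insert, Finset.mem_singleton] at hT₁
      exact hT₁.resolve_left hne₁
    subst e
    obtain ⟨δ, s, hTe, _, _, _, T'', h1, h2, h3, h4⟩ :=
      viol hPr hS hx hpar hp hne hO hz hz' hVio
    have hsT : s ∈ T := by rw [hTe]; simp
    rcases two_hub L ⟨hS.sub _ hp T hT, hS.clq _ hp T hT⟩ ⟨h1, h2⟩ hi (hS.hub _ hp T hT) h4 hsT h3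
      with ⟨a, b, _⟩ | ⟨a, b, c, _⟩
    · exact Or.inl ⟨a, b⟩
    · exact Or.inr ⟨a, b, c⟩
  rcases key T T' hne hO hz hz' with ⟨a1, a2⟩ | ⟨a1, a2, a3⟩
  · rcases key T' T hne.symm (by rw [hO, Finset.pair_comm]) hz' hz with ⟨b1, b2⟩ | ⟨b1, b2, b3⟩
    · exact absurd (a2.trans b2.symm) hne
    · subst a2 b3
      exact ⟨b1, b2, a1, hne.symm, by rw [hO, Finset.pair_comm], hz', hz⟩
  · rcases key T' T hne.symm (by rw [hO, Finset.pair_comm]) hz' hz with ⟨b1, b2⟩ | ⟨b1, b2, b3⟩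
    · subst a3 b2
      exact ⟨a1, a2, b1, hne, hO, hz, hz'⟩
    · exact absurd (a3.trans b3.symm) hne

end Pool.Agent.H.MP_ebc13b_lc.h46
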