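import Pool.Agent.H.MP_ebc13b_lc.h46.LPF
import Pool.Agent.H.MP_ebc13b_lc.h53.ZPos
import Pool.Agent.H.MP_ebc13b_lc.h53.FOne

/-!
Interior cores: definitions.
-/

namespace Pool.Agent.H.MP_ebc13b_lc.h46

open Pool.Agent.H.MP_ebc13b_lc.h53

variable {α : Type*} [DecidableEq α]

/-- the row of `D` holds at slot level -/
def SlotRow (G : SimpleGraph α) (A P : Finset α) (O : α → Finset (Finset α)) (D : Finset α) :
    Prop :=
  ∀ m : α → ℤ, (∀ p ∈ P, ∀ T ∈ O p, m p ≤ MM G A D T) → ∑ p ∈ P, m p ≤ cc G A D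

/-- `w` is a vertex outside `D` and `N(D)` -/
def Out (G : SimpleGraph α) (A D : Finset α) (w : α) : Prop := w ∈ A ∧ w ∉ D ∧ w ∉ nb G A D

/-- every vertex outside `D` and `N(D)` has a neighbour outside `D` and `N(D)` -/
def Full (G : SimpleGraph α) (A D : Finset α) : Prop :=
  ∀ w, Out G A D w → ∃ w', Out G A D w' ∧ G.Adj w w'

/-- an interior core `{u, t, t'}` of `D` -/
structure IC (G : SimpleGraph α) (A D : Finset α) (u t t' : α) : Prop where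
  stab : Stab G A D
  uD : u ∈ D
  tA : t ∈ A
  tA' : t' ∈ A
  ut : G.Adj u t
  ut' : G.Adj u t'
  tt' : G.Adj t t'
  sees : ∃ d ∈ D, d ≠ u ∧ G.Adj d t
  sees' : ∃ d ∈ D, d ≠ u ∧ G.Adj d t'

theorem IC.symm {G : SimpleGraph α} {A D : Finset α} {u t t' : α} (h : IC G A D u t t') :
    IC G A D u t' t :=
  ⟨h.stab, h.uD, h.tA', h.tA, h.ut', h.ut, h.tt'.symm, h.sees', h.sees⟩

/-- a split slot with the options `Op`, with respect to the interior core `{u, t, t'}` -/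
def Split (G : SimpleGraph α) (A D : Finset α) (Op : Finset (Finset α)) (t t' : α) : Prop :=
  (∀ T ∈ Op, 2 ≤ MM G A D T) ∧ (∃ T ∈ Op, ∃ w ∈ T, Out G A D w ∧ G.Adj w t) ∧
    ∃ T ∈ Op, ∃ w ∈ T, Out G A D w ∧ G.Adj w t'

theorem Split.symm {G : SimpleGraph α} {A D : Finset α} {Op : Finset (Finset α)} {t t' : α}
    (h : Split G A D Op t t') : Split G A D Op t' t := ⟨h.1, h.2.2, h.2.1⟩

/-- the form of a split slot `p` adjacent to `t` -/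
structure SplitAt (G : SimpleGraph α) (A D : Finset α) (Op : Finset (Finset α))
    (p t t' w1 w2 v2 : α) : Prop where
  T1 : ({p, t, w1} : Finset α) ∈ Op
  T2 : ({p, w2, v2} : Finset α) ∈ Op
  two : ∀ T ∈ Op, 2 ≤ MM G A D T
  w1O : Out G A D w1
  w2O : Out G A D w2
  pN : p ∈ nb G A D
  v2N : v2 ∈ nb G A D
  w1t : G.Adj w1 t
  w2t' : G.Adj w2 t'
  pt : G.Adj p t
  pw1 : G.Adj p w1
  pw2 : G.Adj p w2
  pv2 : G.Adj p v2
  w2v2 : G.Adj w2 v2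

/-- colours and the two parts of `D` for a split slot -/
structure SplitCol (G : SimpleGraph α) (A D : Finset α) (col : α → ZMod 3)
    (u p t t' w1 w2 v2 : α) : Prop where
  cu : col u = col p
  ct' : col t' = col w1
  cw2 : col w2 = col t
  cv2 : col v2 = col w1
  dich : ∀ d ∈ D,
    (G.Adj d t ∧ G.Adj d v2 ∧ ¬ G.Adj d p ∧ col d = col p) ∨
    (G.Adj d p ∧ ¬ G.Adj d t ∧ ¬ G.Adj d v2 ∧ G.Adj d t' ∧ col d = col t)

/-- the located form of a split slot `h j`, when `t = h (j+1)` -/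
structure Loc (G : SimpleGraph α) (A : Finset α) (col : α → ZMod 3) (Z : ZLine G A col)
    (D : Finset α) (Op : Finset (Finset α)) (j : ℤ) (u t' w2 v2 : α) (b0 b2 : ℤ) : Prop where
  stab : Stab G A D
  lk : Z.lk j
  Q1 : Z.Q j ∈ Op
  T2 : ({Z.h j, w2, v2} : Finset α) ∈ Op
  two : ∀ T ∈ Op, 2 ≤ MM G A D T
  bT2 : ({Z.h j, w2, v2} : Finset α) ∈ Z.bl b2
  b2 : b2 = 2 * j - 1 ∨ b2 = 2 * j
  bT0 : ({u, Z.h (j + 1), t'} : Finset α) ∈ Z.bl b0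
  b0 : b0 = 2 * j + 2 ∨ b0 = 2 * j + 3
  midO : Out G A D (Z.mid j)
  w2O : Out G A D w2
  hN : Z.h j ∈ nb G A D
  h1N : Z.h (j + 1) ∈ nb G A D
  v2N : v2 ∈ nb G A D
  uD : u ∈ D
  cu : col u = col (Z.h j)
  ct' : col t' = col (Z.h j) + 2
  cw2 : col w2 = col (Z.h j) + 1
  cv2 : col v2 = col (Z.h j) + 2
  dich : ∀ d ∈ D,
    (G.Adj d (Z.h (j + 1)) ∧ G.Adj d v2 ∧ ¬ G.Adj d (Z.h j) ∧ col d = col (Z.h j)) ∨
    (G.Adj d (Z.h j) ∧ ¬ G.Adj d (Z.h (j + 1)) ∧ ¬ G.Adj d v2 ∧ G.Adj d t' ∧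
      col d = col (Z.h j) + 1)
  ex1 : ∃ d ∈ D, d ≠ u ∧ G.Adj d (Z.h (j + 1))
  ex2 : ∃ d ∈ D, G.Adj d (Z.h j)

end Pool.Agent.H.MP_ebc13b_lc.h46
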