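import Pool.Agent.H.MP_ebc13b_lc.h46.ICDefs

/-!
Adding isolated vertices.
-/

namespace Pool.Agent.H.MP_ebc13b_lc.h46

open Pool.Agent.H.MP_ebc13b_lc.h53

variable {α : Type*} [DecidableEq α] {G : SimpleGraph α} {A P D : Finset α}
  {O : α → Finset (Finset α)}

private theorem ICa_mem_nb {v : α} : v ∈ nb G A D ↔ v ∈ A ∧ ∃ d ∈ D, G.Adj v d := by
  simp [nb]

private theorem ICa_nadj {w : α} (hw : Out G A D w) {d : α} (hd : d ∈ D) : ¬ G.Adj w d := fun h =>
  hw.2.2 (ICa_mem_nb.2 ⟨hw.1, d, hd, h⟩)

private theorem ICa_stab (hD : Stab G A D) {w : α} (hw : Out G A D w) :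
    Stab G A (insert w D) := by
  refine ⟨?_, ?_⟩
  · intro v hv
    rcases Finset.mem_insert.1 hv with rfl | hv
    · exact hw.1
    · exact hD.1 hv
  · intro u hu v hv
    rcases Finset.mem_insert.1 hu with hu1 | hu1
    · rcases Finset.mem_insert.1 hv with hv1 | hv1
      · rw [hu1, hv1]
        exact G.irrefl
      · rw [hu1]
        exact ICa_nadj hw hv1
    · rcases Finset.mem_insert.1 hv with hv1 | hv1
      · rw [hv1]
        exact fun h => ICa_nadj hw hu1 h.symm
      · exact hD.2 u hu1 v hv1

private theorem ICa_nb {w : α} (hw : Out G A D w)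
    (hiso : ∀ v, Out G A D v → ¬ G.Adj w v) : nb G A (insert w D) = nb G A D := by
  ext v
  rw [ICa_mem_nb]
  constructor
  · rintro ⟨hvA, d, hd, hvd⟩
    rcases Finset.mem_insert.1 hd with rfl | hd
    · by_contra hv
      have hvD : v ∉ D := fun hvD => ICa_nadj hw hvD hvd.symm
      exact hiso v ⟨hvA, hvD, hv⟩ hvd.symm
    · exact ICa_mem_nb.2 ⟨hvA, d, hd, hvd⟩
  · intro hv
    obtain ⟨hvA, d, hd, hvd⟩ := ICa_mem_nb.1 hv
    exact ⟨hvA, d, Finset.mem_insert_of_mem hd, hvd⟩

private theorem ICa_cc {w : α} (hw : Out G A D w)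
    (hiso : ∀ v, Out G A D v → ¬ G.Adj w v) : cc G A (insert w D) = cc G A D - 1 := by
  unfold cc
  rw [ICa_nb hw hiso, Finset.card_insert_of_notMem hw.2.1]
  push_cast
  ring

private theorem ICa_MM {w : α} (hw : Out G A D w)
    (hiso : ∀ v, Out G A D v → ¬ G.Adj w v) (T : Finset α) :
    MM G A (insert w D) T = MM G A D T - (if w ∈ T then 1 else 0) := by
  unfold MM
  rw [ICa_nb hw hiso]
  split_ifs with h
  · rw [Finset.inter_insert_of_mem h, Finset.card_insert_of_notMem]
    · push_cast
      ring
    · intro h'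
      exact hw.2.1 (Finset.mem_inter.1 h').2
  · rw [Finset.inter_insert_of_notMem h]
    ring

/-- Adding a vertex whose neighbours are in `N(D)`.

Proof. `nb (insert w D) = nb D`: a neighbour of `w` is in `nb D` by hypothesis. So
`cc (insert w D) = cc D - 1` and `MM (insert w D) T = MM D T - (if w ∈ T then 1 else 0)`. Given `m`
for `D`, let `m' p = m p - 1` if some option of `p` contains `w`, and `m' p = m p` otherwise. Then
`m' p ≤ MM (insert w D) T` for all options `T` of `p`. At most one slot `p ∈ P` has an option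
containing `w` (options of different slots are disjoint), so `∑ m p - 1 ≤ ∑ m' p ≤ cc D - 1`. -/
theorem row_plus (hS : Slots G A P O) (hD : Stab G A D) {w : α} (hw : Out G A D w)
    (hiso : ∀ v, Out G A D v → ¬ G.Adj w v) (hrow : SlotRow G A P O (insert w D)) :
    Stab G A (insert w D) ∧ SlotRow G A P O D := by
  classical
  refine ⟨ICa_stab hD hw, ?_⟩
  intro m hm
  have key := hrow (fun p => m p - (if ∃ T ∈ O p, w ∈ T then 1 else 0)) ?_
  · rw [ICa_cc hw hiso, Finset.sum_sub_distrib] at key
    have hle : ∑ p ∈ P, (if ∃ T ∈ O p, w ∈ T then (1 : ℤ) else 0) ≤ 1 := by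
      rw [Finset.sum_boole]
      have : (P.filter (fun p => ∃ T ∈ O p, w ∈ T)).card ≤ 1 := by
        rw [Finset.card_le_one]
        intro p hp q hq
        rw [Finset.mem_filter] at hp hq
        obtain ⟨hp, T, hT, hwT⟩ := hp
        obtain ⟨hq, T', hT', hwT'⟩ := hq
        by_contra hne
        exact Finset.disjoint_left.1 (hS.disj p hp q hq hne T hT T' hT') hwT hwT'
      exact_mod_cast this
    linarith
  · intro p hp T hT
    have h1 := hm p hp T hT
    rw [ICa_MM hw hiso]
    by_cases hwT : w ∈ T
    · have : ∃ T ∈ O p, w ∈ T := ⟨T, hT, hwT⟩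
      simp only [this, hwT, if_true]
      linarith
    · simp only [hwT, if_false]
      split_ifs <;> linarith

/-- It suffices to consider sets without isolated vertices outside.

Proof. Strong induction on `A.card - D.card`: if `D` is not `Full`, take `w` with no neighbour outside;
`insert w D` is stable and larger; `row_plus`. -/
theorem wlog_full (hS : Slots G A P O)
    (h : ∀ D, Stab G A D → Full G A D → SlotRow G A P O D) {D : Finset α} (hD : Stab G A D) :
    SlotRow G A P O D := by
  suffices H : ∀ n : ℕ, ∀ D : Finset α, Stab G A D → A.card - D.card = n → SlotRow G A P O D from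
    H _ D hD rfl
  intro n
  induction n using Nat.strong_induction_on with
  | _ n ih =>
    intro D hD hn
    by_cases hf : Full G A D
    · exact h D hD hf
    · unfold Full at hf
      simp only [not_forall, not_exists, not_and] at hf
      obtain ⟨w, hw, hiso⟩ := hf
      have hs := ICa_stab hD hw
      have hcard : (insert w D).card = D.card + 1 := Finset.card_insert_of_notMem hw.2.1
      have hle : (insert w D).card ≤ A.card := Finset.card_le_card hs.1
      have hlt : A.card - (insert w D).card < n := by omega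
      exact (row_plus hS hD hw hiso (ih _ hlt (insert w D) hs rfl)).2

end Pool.Agent.H.MP_ebc13b_lc.h46
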