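import Pool.Agent.H.MP_ebc13b_lc.h46.ICDefs

/-!
Interior cores: the two maximal stable sets.
-/

namespace Pool.Agent.H.MP_ebc13b_lc.h46

open Pool.Agent.H.MP_ebc13b_lc.h53

variable {α : Type*} [DecidableEq α] {G : SimpleGraph α} {A P D : Finset α}
  {O : α → Finset (Finset α)} {u t t' : α}

/-- a vertex which is not in the core and does not see `u` sees exactly one of `t, t'` -/
theorem ICb_one (h : IC G A D u t t') (hPr : Prism G A) {w : α} (hw : w ∈ A) (hwu : w ≠ u)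
    (hwt : w ≠ t) (hwt' : w ≠ t') (hn : ¬ G.Adj w u) :
    (G.Adj w t ∧ ¬ G.Adj w t') ∨ (¬ G.Adj w t ∧ G.Adj w t') := by
  have huA := h.stab.1 h.uD
  rcases hPr.sees huA h.tA h.tA' h.ut h.ut' h.tt' hw hwu hwt hwt' with h1 | h1 | h1
  · exact absurd h1 hn
  · exact Or.inl ⟨h1, hPr.unique h.tA h.tA' huA h.tt' h.ut.symm h.ut'.symm hw hwu h1⟩
  · exact Or.inr ⟨hPr.unique h.tA' h.tA huA h.tt'.symm h.ut'.symm h.ut.symm hw hwu h1, h1⟩

/-- `d ∈ D`, `d ≠ u`, is not in the triangle `{u, t, t'}` and does not see `u`: it sees exactly one of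
`t, t'` (`Prism.sees`, `Prism.unique`). -/
theorem IC.one (h : IC G A D u t t') (hPr : Prism G A) {d : α} (hd : d ∈ D) (hdu : d ≠ u) :
    (G.Adj d t ∧ ¬ G.Adj d t') ∨ (¬ G.Adj d t ∧ G.Adj d t') := by
  refine ICb_one h hPr (h.stab.1 hd) hdu ?_ ?_ (h.stab.2 d hd u h.uD)
  · intro e
    rw [e] at hd
    exact h.stab.2 u h.uD t hd h.ut
  · intro e
    rw [e] at hd
    exact h.stab.2 u h.uD t' hd h.ut'

theorem ICb_tN (h : IC G A D u t t') : t ∈ nb G A D := mem_nb.2 ⟨h.tA, u, h.uD, h.ut.symm⟩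

/-- the same for `w` outside (`t, t' ∈ N(D)`) -/
theorem IC.oneW (h : IC G A D u t t') (hPr : Prism G A) {w : α} (hw : Out G A D w) :
    (G.Adj w t ∧ ¬ G.Adj w t') ∨ (¬ G.Adj w t ∧ G.Adj w t') := by
  obtain ⟨h1, h2, h3⟩ := hw
  refine ICb_one h hPr h1 ?_ ?_ ?_ ?_
  · intro e
    rw [e] at h2
    exact h2 h.uD
  · intro e
    rw [e] at h3
    exact h3 (ICb_tN h)
  · intro e
    rw [e] at h3
    exact h3 (ICb_tN h.symm)
  · intro e
    exact h3 (mem_nb.2 ⟨h1, u, h.uD, e⟩)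

/-- Two outside vertices which see `t` are not adjacent: otherwise `{t, w, w'}` is a triangle, and
the `d ∈ D` which sees `t'` (so not `t`, `IC.one`) sees none of its vertices. -/
theorem IC.stabL (h : IC G A D u t t') (hPr : Prism G A) {w w' : α} (hw : Out G A D w)
    (hw' : Out G A D w') (h1 : G.Adj w t) (h2 : G.Adj w' t) : ¬ G.Adj w w' := by
  intro h3
  obtain ⟨d, hd, hdu, hdt'⟩ := h.sees'
  have hdt : ¬ G.Adj d t := by
    rcases h.one hPr hd hdu with h4 | h4
    · exact absurd hdt' h4.2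
    · exact h4.1
  have hdA := h.stab.1 hd
  rcases hPr.sees h.tA hw.1 hw'.1 h1.symm h2.symm h3 hdA
    (fun e => Finset.disjoint_left.1 h.stab.disj (ICb_tN h) (e ▸ hd))
    (fun e => hw.2.1 (e ▸ hd)) (fun e => hw'.2.1 (e ▸ hd)) with h4 | h4 | h4
  · exact hdt h4
  · exact hw.2.2 (mem_nb.2 ⟨hw.1, d, hd, h4.symm⟩)
  · exact hw'.2.2 (mem_nb.2 ⟨hw'.1, d, hd, h4.symm⟩)

open Classical in
/-- `D` and the outside vertices which see `t` -/
noncomputable def ext (G : SimpleGraph α) (A D : Finset α) (t : α) : Finset α :=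
  D ∪ A.filter (fun w => Out G A D w ∧ G.Adj w t)

theorem ICb_mem_ext {v : α} : v ∈ ext G A D t ↔ v ∈ D ∨ (Out G A D v ∧ G.Adj v t) := by
  classical
  unfold ext
  rw [Finset.mem_union, Finset.mem_filter]
  constructor
  · rintro (h | h)
    · exact Or.inl h
    · exact Or.inr h.2
  · rintro (h | h)
    · exact Or.inl h
    · exact Or.inr ⟨h.1.1, h⟩

/-- Proof. Stable: `Stab`, outside vertices do not see `D`, `stabL`. Maximal: let `v ∈ A` be outside
`ext`. If `v ∈ N(D)` it sees `D`. Otherwise `v` is outside and sees `t'` (`oneW`); it has an outside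
neighbour `w` (`Full`), and `w` sees `t` (`stabL` for `t'`). -/
theorem IC.maxS (h : IC G A D u t t') (hPr : Prism G A) (hf : Full G A D) :
    MaxS G A (ext G A D t) := by
  refine ⟨?_, ?_, ?_⟩
  · intro v hv
    rcases ICb_mem_ext.1 hv with h1 | h1
    · exact h.stab.1 h1
    · exact h1.1.1
  · intro x hx y hy hxy
    rcases ICb_mem_ext.1 hx with h1 | h1
    · rcases ICb_mem_ext.1 hy with h2 | h2
      · exact h.stab.2 x h1 y h2 hxy
      · exact h2.1.2.2 (mem_nb.2 ⟨h2.1.1, x, h1, hxy.symm⟩)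
    · rcases ICb_mem_ext.1 hy with h2 | h2
      · exact h1.1.2.2 (mem_nb.2 ⟨h1.1.1, y, h2, hxy⟩)
      · exact h.stabL hPr h1.1 h2.1 h1.2 h2.2 hxy
  · intro v hv hvF
    rw [ICb_mem_ext, not_or] at hvF
    by_cases hvN : v ∈ nb G A D
    · obtain ⟨_, d, hd, hvd⟩ := mem_nb.1 hvN
      exact ⟨d, ICb_mem_ext.2 (Or.inl hd), hvd⟩
    · have hvO : Out G A D v := ⟨hv, hvF.1, hvN⟩
      have hvt' : G.Adj v t' := by
        rcases h.oneW hPr hvO with h1 | h1
        · exact absurd ⟨hvO, h1.1⟩ hvF.2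
        · exact h1.2
      obtain ⟨w, hw, hvw⟩ := hf v hvO
      refine ⟨w, ICb_mem_ext.2 (Or.inr ⟨hw, ?_⟩), hvw⟩
      rcases h.oneW hPr hw with h1 | h1
      · exact h1.1
      · exact absurd hvw (h.symm.stabL hPr hvO hw hvt' h1.2)

/-- For a maximal stable set `F`, `nb F = A \ F`. -/
theorem MaxS.nb_eq {F : Finset α} (hF : MaxS G A F) : nb G A F = A \ F := by
  ext v
  rw [mem_nb, Finset.mem_sdiff]
  constructor
  · rintro ⟨h1, f, hf, hvf⟩
    exact ⟨h1, fun hv => hF.stab v hv f hf hvf⟩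
  · rintro ⟨h1, h2⟩
    exact ⟨h1, hF.max v h1 h2⟩

/-- the signs of `ext t`, `ext t'` and `D` -/
theorem ICb_chi (h : IC G A D u t t') (hPr : Prism G A) (hf : Full G A D) {v : α} (hv : v ∈ A) :
    chi G A (ext G A D t) v + chi G A (ext G A D t') v = 2 * chi G A D v := by
  have h1 : nb G A (ext G A D t) = A \ ext G A D t := MaxS.nb_eq (h.maxS hPr hf)
  have h2 : nb G A (ext G A D t') = A \ ext G A D t' := MaxS.nb_eq (h.symm.maxS hPr hf)
  have key : ∀ F : Finset α, nb G A F = A \ F →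
      (v ∈ F → chi G A F v = -1) ∧ (v ∉ F → chi G A F v = 1) := by
    intro F hF
    unfold chi
    rw [hF]
    constructor
    · intro hvF
      rw [if_neg (fun hc => (Finset.mem_sdiff.1 hc).2 hvF), if_pos hvF]
      norm_num
    · intro hvF
      rw [if_pos (Finset.mem_sdiff.2 ⟨hv, hvF⟩), if_neg hvF]
      norm_num
  obtain ⟨k1, k2⟩ := key _ h1
  obtain ⟨k3, k4⟩ := key _ h2
  by_cases hvD : v ∈ D
  · rw [k1 (ICb_mem_ext.2 (Or.inl hvD)), k3 (ICb_mem_ext.2 (Or.inl hvD))]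
    unfold chi
    rw [if_neg (fun hc => Finset.disjoint_left.1 h.stab.disj hc hvD), if_pos hvD]
    norm_num
  · by_cases hvN : v ∈ nb G A D
    · have h3 : ∀ s : α, v ∉ ext G A D s := by
        intro s hs
        rcases ICb_mem_ext.1 hs with h4 | h4
        · exact hvD h4
        · exact h4.1.2.2 hvN
      rw [k2 (h3 t), k4 (h3 t')]
      unfold chi
      rw [if_pos hvN, if_neg hvD]
      norm_num
    · have hvO : Out G A D v := ⟨hv, hvD, hvN⟩
      have h0 : chi G A D v = 0 := by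
        unfold chi
        rw [if_neg hvN, if_neg hvD]
        norm_num
      rcases h.oneW hPr hvO with h3 | h3
      · rw [k1 (ICb_mem_ext.2 (Or.inr ⟨hvO, h3.1⟩)), k4, h0]
        · norm_num
        · intro hc
          rcases ICb_mem_ext.1 hc with h4 | h4
          · exact hvD h4
          · exact h3.2 h4.2
      · rw [k3 (ICb_mem_ext.2 (Or.inr ⟨hvO, h3.2⟩)), k2, h0]
        · norm_num
        · intro hc
          rcases ICb_mem_ext.1 hc with h4 | h4
          · exact hvD h4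
          · exact h3.1 h4.2

theorem ICb_sum (T : Finset α) : MM G A D T = ∑ v ∈ T, chi G A D v := by
  unfold MM chi
  rw [Finset.sum_sub_distrib, Finset.sum_ite_mem, Finset.sum_ite_mem]
  simp

theorem ICb_MM (h : IC G A D u t t') (hPr : Prism G A) (hf : Full G A D) {T : Finset α}
    (hT : T ⊆ A) :
    MM G A (ext G A D t) T + MM G A (ext G A D t') T = 2 * MM G A D T := by
  rw [ICb_sum, ICb_sum, ICb_sum, ← Finset.sum_add_distrib, Finset.mul_sum]
  exact Finset.sum_congr rfl fun v hv => ICb_chi h hPr hf (hT hv)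

theorem ICb_cc (hD : D ⊆ A) : cc G A D = MM G A D A := by
  unfold cc MM
  rw [Finset.inter_eq_right.2 (nb_sub (G := G) (A := A) (D := D)), Finset.inter_eq_right.2 hD]

/-- Proof. With `F = ext t`, `F' = ext t'`: `cc F = A.card - 2 F.card`, `F.card = D.card + L.card`,
`F'.card = D.card + R.card`, and `A` is the disjoint union of `D`, `N(D)`, `L`, `R` (`oneW`). -/
theorem IC.cc_add (h : IC G A D u t t') (hPr : Prism G A) (hf : Full G A D) :
    cc G A (ext G A D t) + cc G A (ext G A D t') = 2 * cc G A D := by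
  rw [ICb_cc (h.maxS hPr hf).sub, ICb_cc (h.symm.maxS hPr hf).sub, ICb_cc h.stab.1]
  exact ICb_MM h hPr hf (Finset.Subset.refl A)

/-- Proof. `MM F T = 3 - 2 |T ∩ F|`, `MM D T = 3 - |T ∩ W| - 2 |T ∩ D|`, with `W` the set of the
outside vertices, `|T ∩ F| + |T ∩ F'| = 2 |T ∩ D| + |T ∩ W|`. -/
theorem IC.MM_add (h : IC G A D u t t') (hPr : Prism G A) (hf : Full G A D) {T : Finset α}
    (hT : T ⊆ A) (h3 : G.IsNClique 3 T) :
    MM G A (ext G A D t) T + MM G A (ext G A D t') T = 2 * MM G A D T :=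
  ICb_MM h hPr hf hT

end Pool.Agent.H.MP_ebc13b_lc.h46
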