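import Pool.Agent.H.MP_ebc13b_lc.h46.ICb

/-!
Interior cores: the row follows from the rows of the two maximal stable sets if no slot is split.
-/

namespace Pool.Agent.H.MP_ebc13b_lc.h46

open Pool.Agent.H.MP_ebc13b_lc.h53

variable {α : Type*} [DecidableEq α] {G : SimpleGraph α} {A P D : Finset α}
  {O : α → Finset (Finset α)} {u t t' : α}

/-- a triangle met by a maximal stable set -/
theorem ICc_hit {F T : Finset α} (hF : MaxS G A F) (hT : IsT G A T) (hh : Hit F T) :
    MM G A F T = 1 := by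
  obtain ⟨w, hwT, hwF⟩ := hh
  exact (MM_of_mem ⟨hF.sub, hF.stab⟩ hT.1 hT.2 hwF hwT).1

/-- a triangle missed by a maximal stable set -/
theorem ICc_miss {F T : Finset α} (hF : MaxS G A F) (hT : IsT G A T) (hh : ¬ Hit F T) :
    MM G A F T = 3 := by
  have hd : Disjoint T F := by
    rw [Finset.disjoint_left]
    exact fun w hw hwF => hh ⟨w, hw, hwF⟩
  have hsub : T ⊆ nb G A F := by
    intro w hw
    exact mem_nb.2 ⟨hT.1 hw, hF.max w (hT.1 hw) (fun hwF => hh ⟨w, hw, hwF⟩)⟩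
  rw [MM_of_disj hd, Finset.inter_eq_left.2 hsub, hT.2.card_eq]
  norm_num

theorem ICc_one_le {F T : Finset α} (hF : MaxS G A F) (hT : IsT G A T) :
    1 ≤ MM G A F T := by
  by_cases hh : Hit F T
  · rw [ICc_hit hF hT hh]
  · rw [ICc_miss hF hT hh]
    norm_num

theorem ICc_mem_ext {t w : α} (h : w ∈ ext G A D t) : w ∈ D ∨ (Out G A D w ∧ G.Adj w t) := by
  classical
  unfold ext at h
  rw [Finset.mem_union, Finset.mem_filter] at h
  rcases h with h | h
  · exact Or.inl h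
  · exact Or.inr h.2

/-- One slot. `F = ext t`, `F' = ext t'`.

Proof. Let `f = 1` if some option meets `F`, `f = 3` otherwise; in the same way `f'`. For a triangle `T`:
`MM F T = 3 - 2 |T ∩ F|` is `1` or `3` (a stable set meets a triangle in at most one vertex). If
`f + f' ≥ 2 m` we are done. `f = f' = 3`: all options miss `F` and `F'`, `MM D T = 3`
(`IC.MM_add`), `m ≤ 3` (`MM_le`; `Op` is nonempty). `f = 1`, `f' = 3` (or conversely): an option `T`
meeting `F` misses `F'`, so `MM D T = 2` by `IC.MM_add`, `m ≤ 2`. `f = f' = 1`: `T` meets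
`F`, `T'` meets `F'`. If some option has `MM D ≤ 1` then `m ≤ 1`. Otherwise all options have
`MM D ≥ 2`, so they do not meet `D` (`MM_of_mem`); the vertex of `T ∩ F` is an outside vertex which sees `t`
and the vertex of `T' ∩ F'` an outside vertex which sees `t'`: the slot is split. -/
theorem IC.slot (h : IC G A D u t t') (hPr : Prism G A) (hf : Full G A D)
    {Op : Finset (Finset α)} (hne : Op.Nonempty) (hT : ∀ T ∈ Op, IsT G A T)
    (hns : ¬ Split G A D Op t t') {m : ℤ} (hm : ∀ T ∈ Op, m ≤ MM G A D T) :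
    ∃ f f' : ℤ, (∀ T ∈ Op, f ≤ MM G A (ext G A D t) T) ∧
      (∀ T ∈ Op, f' ≤ MM G A (ext G A D t') T) ∧ 2 * m ≤ f + f' := by
  have hF : MaxS G A (ext G A D t) := h.maxS hPr hf
  have hF' : MaxS G A (ext G A D t') := h.symm.maxS hPr hf
  have hadd : ∀ T ∈ Op, MM G A (ext G A D t) T + MM G A (ext G A D t') T = 2 * MM G A D T :=
    fun T hTO => h.MM_add hPr hf (hT T hTO).1 (hT T hTO).2
  by_cases c1 : ∃ T ∈ Op, Hit (ext G A D t) T
  · by_cases c2 : ∃ T ∈ Op, Hit (ext G A D t') T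
    · refine ⟨1, 1, fun T hTO => ICc_one_le hF (hT T hTO), fun T hTO => ICc_one_le hF' (hT T hTO),
        ?_⟩
      by_contra hcon
      have hm2 : ∀ T ∈ Op, 2 ≤ MM G A D T := fun T hTO => by
        have := hm T hTO
        omega
      have key : ∀ s : α, (∃ T ∈ Op, Hit (ext G A D s) T) →
          ∃ T ∈ Op, ∃ w ∈ T, Out G A D w ∧ G.Adj w s := by
        rintro s ⟨T, hTO, w, hwT, hwF⟩
        refine ⟨T, hTO, w, hwT, ?_⟩
        rcases ICc_mem_ext hwF with hwD | hw
        · have h1 := (MM_of_mem h.stab (hT T hTO).1 (hT T hTO).2 hwD hwT).1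
          have h2 := hm2 T hTO
          omega
        · exact hw
      exact hns ⟨hm2, key t c1, key t' c2⟩
    · refine ⟨1, 3, fun T hTO => ICc_one_le hF (hT T hTO), fun T hTO => ?_, ?_⟩
      · rw [ICc_miss hF' (hT T hTO) (fun hh => c2 ⟨T, hTO, hh⟩)]
      · obtain ⟨T, hTO, hh⟩ := c1
        have e1 := ICc_hit hF (hT T hTO) hh
        have e2 := ICc_miss hF' (hT T hTO) (fun hh => c2 ⟨T, hTO, hh⟩)
        have e3 := hadd T hTO
        have e4 := hm T hTO
        omega
  · by_cases c2 : ∃ T ∈ Op, Hit (ext G A D t') T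
    · refine ⟨3, 1, fun T hTO => ?_, fun T hTO => ICc_one_le hF' (hT T hTO), ?_⟩
      · rw [ICc_miss hF (hT T hTO) (fun hh => c1 ⟨T, hTO, hh⟩)]
      · obtain ⟨T, hTO, hh⟩ := c2
        have e1 := ICc_hit hF' (hT T hTO) hh
        have e2 := ICc_miss hF (hT T hTO) (fun hh => c1 ⟨T, hTO, hh⟩)
        have e3 := hadd T hTO
        have e4 := hm T hTO
        omega
    · refine ⟨3, 3, fun T hTO => ?_, fun T hTO => ?_, ?_⟩
      · rw [ICc_miss hF (hT T hTO) (fun hh => c1 ⟨T, hTO, hh⟩)]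
      · rw [ICc_miss hF' (hT T hTO) (fun hh => c2 ⟨T, hTO, hh⟩)]
      · obtain ⟨T, hTO⟩ := hne
        have e4 := hm T hTO
        have e5 : MM G A D T ≤ 3 := MM_le (hT T hTO).2
        omega

/-- Proof. `IC.slot` for all slots (choose `f, f'`), the rows of `ext t`, `ext t'`
(`IC.maxS`, also for `h.symm`), `IC.cc_add`. -/
theorem IC.row (h : IC G A D u t t') (hPr : Prism G A) (hf : Full G A D) (hS : Slots G A P O)
    (hne : ∀ p ∈ P, (O p).Nonempty) (hF : ∀ F, MaxS G A F → SlotRow G A P O F)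
    (hns : ∀ p ∈ P, ¬ Split G A D (O p) t t') : SlotRow G A P O D := by
  intro m hm
  have hex : ∀ p, ∃ f f' : ℤ, p ∈ P → (∀ T ∈ O p, f ≤ MM G A (ext G A D t) T) ∧
      (∀ T ∈ O p, f' ≤ MM G A (ext G A D t') T) ∧ 2 * m p ≤ f + f' := by
    intro p
    by_cases hp : p ∈ P
    · obtain ⟨f, f', h1⟩ := h.slot hPr hf (hne p hp) (fun T hT => ⟨hS.sub p hp T hT, hS.clq p hp T hT⟩)
        (hns p hp) (hm p hp)
      exact ⟨f, f', fun _ => h1⟩
    · exact ⟨0, 0, fun h1 => absurd h1 hp⟩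
  choose f f' hff using hex
  have r1 : ∑ p ∈ P, f p ≤ cc G A (ext G A D t) :=
    hF _ (h.maxS hPr hf) f (fun p hp => (hff p hp).1)
  have r2 : ∑ p ∈ P, f' p ≤ cc G A (ext G A D t') :=
    hF _ (h.symm.maxS hPr hf) f' (fun p hp => (hff p hp).2.1)
  have r3 : 2 * ∑ p ∈ P, m p ≤ ∑ p ∈ P, f p + ∑ p ∈ P, f' p := by
    rw [Finset.mul_sum, ← Finset.sum_add_distrib]
    exact Finset.sum_le_sum (fun p hp => (hff p hp).2.2)
  have r4 := h.cc_add hPr hf
  omega

end Pool.Agent.H.MP_ebc13b_lc.h46
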