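import Pool.Agent.H.MP_ebc13b_lc.h46.ICb

/-!
Interior cores: the form of a split slot.
-/

namespace Pool.Agent.H.MP_ebc13b_lc.h46

open Pool.Agent.H.MP_ebc13b_lc.h53

variable {α : Type*} [DecidableEq α] {G : SimpleGraph α} {A P D : Finset α}
  {col : α → ZMod 3} {u t t' : α}

theorem ICd_z3 (a b c x : ZMod 3) (h1 : a ≠ b) (h2 : a ≠ c) (h3 : b ≠ c) (h4 : x ≠ a)
    (h5 : x ≠ b) : x = c := by
  have key : ∀ a b c x : Fin 3, a ≠ b → a ≠ c → b ≠ c → x ≠ a → x ≠ b → x = c := by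
    intro a b c x
    omega
  exact key a b c x h1 h2 h3 h4 h5

/-- an option of value at least two with an outside vertex -/
theorem ICd_two {T : Finset α} (hD : Stab G A D) (hT : IsT G A T) (hm : 2 ≤ MM G A D T) {w : α}
    (hw : w ∈ T) (hwO : Out G A D w) : Disjoint T D ∧ ∀ x ∈ T, x ≠ w → x ∈ nb G A D := by
  have h3 : MM G A D T ≤ 3 := MM_le hT.2
  by_cases h4 : MM G A D T = 3
  · exact absurd ((MM_three hD hT.1 hT.2 h4).1 hw) hwO.2.2
  · have h5 : MM G A D T = 2 := by omega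
    obtain ⟨h6, w', hw', h7, h8⟩ := MM_two hD hT.1 hT.2 h5
    refine ⟨h6, fun x hx hxw => h8 x hx ?_⟩
    intro e
    apply hwO.2.2
    apply h8 w hw
    intro e'
    exact hxw (e.trans e'.symm)

/-- the third vertex of a triangle -/
theorem ICd_third {T : Finset α} (hT : IsT G A T) {p w : α} (hp : p ∈ T) (hw : w ∈ T)
    (hne : p ≠ w) : ∃ v, T = {p, w, v} ∧ G.Adj p w ∧ G.Adj p v ∧ G.Adj w v := by
  obtain ⟨a, b, h1, h2, h3, hTe⟩ := exists_abc hT.2 hp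
  rw [hTe] at hw
  simp only [Finset.mem_insert, Finset.mem_singleton] at hw
  rcases hw with hw | hw | hw
  · exact absurd hw.symm hne
  · subst hw
    exact ⟨b, hTe, h1, h2, h3⟩
  · subst hw
    refine ⟨a, ?_, h2, h1, h3.symm⟩
    rw [hTe]
    ext x
    simp only [Finset.mem_insert, Finset.mem_singleton]
    tauto

/-- a vertex outside a triangle which sees neither `x` nor `y` sees the third vertex -/
theorem ICd_sees (hC : PC G A col) {x y z v : α} (hT : IsT G A {x, y, z}) (hv : v ∈ A)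
    (hvx : v ≠ x) (hvy : v ≠ y) (hvz : v ≠ z) (hnx : ¬ G.Adj v x) (hny : ¬ G.Adj v y) :
    G.Adj v z := by
  have hvT : v ∉ ({x, y, z} : Finset α) := by
    simp only [Finset.mem_insert, Finset.mem_singleton, not_or]
    exact ⟨hvx, hvy, hvz⟩
  obtain ⟨w, hw, hvw, _⟩ := hC.pr _ hT.1 hT.2 v hv hvT
  simp only [Finset.mem_insert, Finset.mem_singleton] at hw
  rcases hw with rfl | rfl | rfl
  · exact absurd hvw hnx
  · exact absurd hvw hny
  · exact hvw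

/-- The impossible case: `p` sees `u`, and the colour of `p` is the colour of `t`.

Proof. `T₁ = {p, w₁, v₁}`, `T₂ = {p, w₂, v₂}` do not meet `D` (`MM_of_mem`), `w₁` is the only outside
vertex of `T₁` and `w₂` the only one of `T₂` (`MM_two`). `p` does not see `t, t'`. `t` and `t'` are not
in `T₁`, `T₂`. `t'` sees exactly one vertex of `T₁`, not `p`, not `w₁` (`oneW`): `t' ~ v₁`. `t` sees
exactly one vertex of `T₂`: `t ~ v₂`. Colours: `v₁` has the colour of `u`, `v₂` the colour of `t'`.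
Some `e ∈ D` sees `v₁` (`v₁ ∈ N(D)`), so not `p`; `e` sees exactly one vertex of `T₂`, not `p`, not
`w₂`: `e ~ v₂`. So `e` has the colour of `t`, `e ≠ u` (`u` sees `p`), `e` does not see `t`, so it sees
`t'`, and `{e, t', v₁}` is a triangle. Let `d ∈ D`, `d ≠ u`, `d ~ t`; `d` does not see `t'`, `d ≠ e`;
`d` sees exactly one vertex of `{e, t', v₁}`: `d ~ v₁`. So `d` does not see `p`, so `d ~ v₂`, so `d`
has the colour of `t`, contradiction to `d ~ t`. -/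
theorem IC.no_u (h : IC G A D u t t') (hC : PC G A col) {p w₁ v₁ w₂ v₂ : α} (hp : p ∈ A)
    (h₁ : IsT G A {p, w₁, v₁}) (h₂ : IsT G A {p, w₂, v₂}) (hm₁ : 2 ≤ MM G A D {p, w₁, v₁})
    (hm₂ : 2 ≤ MM G A D {p, w₂, v₂}) (hw₁ : Out G A D w₁) (hw₂ : Out G A D w₂)
    (ht : G.Adj w₁ t) (ht' : G.Adj w₂ t') (hpu : G.Adj p u) (hc : col p = col t) : False := by
  obtain ⟨a1, a2, a3⟩ := SimpleGraph.is3Clique_triple_iff.1 h₁.2
  obtain ⟨b1, b2, b3⟩ := SimpleGraph.is3Clique_triple_iff.1 h₂.2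
  have hp1 : p ∈ ({p, w₁, v₁} : Finset α) := by simp
  have hw1 : w₁ ∈ ({p, w₁, v₁} : Finset α) := by simp
  have hv1 : v₁ ∈ ({p, w₁, v₁} : Finset α) := by simp
  have hp2 : p ∈ ({p, w₂, v₂} : Finset α) := by simp
  have hw2 : w₂ ∈ ({p, w₂, v₂} : Finset α) := by simp
  have hv2 : v₂ ∈ ({p, w₂, v₂} : Finset α) := by simp
  obtain ⟨d1, n1⟩ := ICd_two h.stab h₁ hm₁ hw1 hw₁
  obtain ⟨d2, n2⟩ := ICd_two h.stab h₂ hm₂ hw2 hw₂
  have hv1A : v₁ ∈ A := h₁.1 hv1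
  have hv2A : v₂ ∈ A := h₂.1 hv2
  have huA : u ∈ A := h.stab.1 h.uD
  have hv1N : v₁ ∈ nb G A D := n1 v₁ hv1 a3.ne'
  have hv1D : v₁ ∉ D := Finset.disjoint_left.1 d1 hv1
  have hv2D : v₂ ∉ D := Finset.disjoint_left.1 d2 hv2
  -- adjacency of w₁, w₂ to the core
  have hw1t' : ¬ G.Adj w₁ t' := by
    rcases h.oneW hC.pr hw₁ with h3 | h3
    · exact h3.2
    · exact absurd ht h3.1
  have hw2t : ¬ G.Adj w₂ t := by
    rcases h.oneW hC.pr hw₂ with h3 | h3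
    · exact absurd ht' h3.2
    · exact h3.1
  have hpt : p ≠ t := fun e => hw2t (e ▸ b1.symm)
  have hpt' : p ≠ t' := fun e => hw1t' (e ▸ a1.symm)
  have hnpt : ¬ G.Adj p t := fun e => hC.col p hp t h.tA e hc
  have hnpt' : ¬ G.Adj p t' :=
    hC.pr.unique huA h.tA' h.tA h.ut' h.ut h.tt'.symm hp hpt hpu
  have htN : t ∈ nb G A D := ICb_tN h
  have htN' : t' ∈ nb G A D := ICb_tN h.symm
  -- t' sees v₁, t sees v₂
  have ht'v1 : G.Adj t' v₁ := by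
    refine ICd_sees hC h₁ h.tA' hpt'.symm ?_ ?_ (fun e => hnpt' e.symm) (fun e => hw1t' e.symm)
    · intro e
      exact hw₁.2.2 (e ▸ htN')
    · intro e
      exact hnpt' (e ▸ a2)
  have htv2 : G.Adj t v₂ := by
    refine ICd_sees hC h₂ h.tA hpt.symm ?_ ?_ (fun e => hnpt e.symm) (fun e => hw2t e.symm)
    · intro e
      exact hw₂.2.2 (e ▸ htN)
    · intro e
      exact hnpt (e ▸ b2)
  -- colours
  have cut : col u ≠ col t := hC.col u huA t h.tA h.ut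
  have cut' : col u ≠ col t' := hC.col u huA t' h.tA' h.ut'
  have ctt' : col t ≠ col t' := hC.col t h.tA t' h.tA' h.tt'
  have cv1 : col v₁ = col u := by
    refine ICd_z3 (col t) (col t') (col u) _ ctt' cut.symm cut'.symm ?_ ?_
    · rw [← hc]
      exact (hC.col p hp v₁ hv1A a2).symm
    · exact (hC.col t' h.tA' v₁ hv1A ht'v1).symm
  have cw2 : col w₂ = col u := by
    refine ICd_z3 (col t) (col t') (col u) _ ctt' cut.symm cut'.symm ?_ ?_
    · rw [← hc]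
      exact (hC.col p hp w₂ hw₂.1 b1).symm
    · exact hC.col w₂ hw₂.1 t' h.tA' ht'
  have cv2 : col v₂ = col t' := by
    refine ICd_z3 (col t) (col u) (col t') _ cut.symm ctt' cut' ?_ ?_
    · exact (hC.col t h.tA v₂ hv2A htv2).symm
    · rw [← cw2]
      exact (hC.col w₂ hw₂.1 v₂ hv2A b3).symm
  -- the vertex `e`
  obtain ⟨_, e, heD, hv1e⟩ := mem_nb.1 hv1N
  have heA : e ∈ A := h.stab.1 heD
  have he1 : e ∉ ({p, w₁, v₁} : Finset α) := fun hc' => Finset.disjoint_left.1 d1 hc' heD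
  have he2 : e ∉ ({p, w₂, v₂} : Finset α) := fun hc' => Finset.disjoint_left.1 d2 hc' heD
  have hep : ¬ G.Adj e p := fun h3 =>
    a2.ne (hC.nb_unique h₁ heA he1 hp1 hv1 h3 hv1e.symm)
  simp only [Finset.mem_insert, Finset.mem_singleton, not_or] at he1 he2
  have hew2 : ¬ G.Adj e w₂ := fun h3 => hw₂.2.2 (mem_nb.2 ⟨hw₂.1, e, heD, h3.symm⟩)
  have hev2 : G.Adj e v₂ := ICd_sees hC h₂ heA he2.1 he2.2.1 he2.2.2 hep hew2
  have ce : col e = col t := by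
    refine ICd_z3 (col u) (col t') (col t) _ cut' cut ctt'.symm ?_ ?_
    · rw [← cv1]
      exact (hC.col v₁ hv1A e heA hv1e).symm
    · rw [← cv2]
      exact hC.col e heA v₂ hv2A hev2
  have heu : e ≠ u := fun h3 => hep (h3 ▸ hpu.symm)
  have het : ¬ G.Adj e t := fun h3 => hC.col e heA t h.tA h3 ce
  have het' : G.Adj e t' := by
    rcases h.one hC.pr heD heu with h3 | h3
    · exact absurd h3.1 het
    · exact h3.2
  have hT3 : IsT G A {e, t', v₁} := by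
    refine ⟨?_, clique_abc het' hv1e.symm ht'v1⟩
    intro x hx
    simp only [Finset.mem_insert, Finset.mem_singleton] at hx
    rcases hx with rfl | rfl | rfl
    · exact heA
    · exact h.tA'
    · exact hv1A
  -- the vertex `d`
  obtain ⟨d, hdD, hdu, hdt⟩ := h.sees
  have hdA : d ∈ A := h.stab.1 hdD
  have hdt' : ¬ G.Adj d t' := by
    rcases h.one hC.pr hdD hdu with h3 | h3
    · exact h3.2
    · exact absurd hdt h3.1
  have hde : d ≠ e := fun h3 => het (h3 ▸ hdt)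
  have hdv1 : G.Adj d v₁ := by
    refine ICd_sees hC hT3 hdA hde ?_ ?_ (h.stab.2 d hdD e heD) hdt'
    · intro h3
      exact Finset.disjoint_left.1 h.stab.disj htN' (h3 ▸ hdD)
    · intro h3
      exact hv1D (h3 ▸ hdD)
  have hd1 : d ∉ ({p, w₁, v₁} : Finset α) := fun hc' => Finset.disjoint_left.1 d1 hc' hdD
  have hd2 : d ∉ ({p, w₂, v₂} : Finset α) := fun hc' => Finset.disjoint_left.1 d2 hc' hdD
  have hdp : ¬ G.Adj d p := fun h3 => a2.ne (hC.nb_unique h₁ hdA hd1 hp1 hv1 h3 hdv1)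
  simp only [Finset.mem_insert, Finset.mem_singleton, not_or] at hd2
  have hdw2 : ¬ G.Adj d w₂ := fun h3 => hw₂.2.2 (mem_nb.2 ⟨hw₂.1, d, hdD, h3.symm⟩)
  have hdv2 : G.Adj d v₂ := ICd_sees hC h₂ hdA hd2.1 hd2.2.1 hd2.2.2 hdp hdw2
  have cd : col d = col t := by
    refine ICd_z3 (col u) (col t') (col t) _ cut' cut ctt'.symm ?_ ?_
    · rw [← cv1]
      exact hC.col d hdA v₁ hv1A hdv1
    · rw [← cv2]
      exact hC.col d hdA v₂ hv2A hdv2
  exact hC.col d hdA t h.tA hdt cd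

/-- the case where `p` sees `t` -/
theorem ICd_at (h : IC G A D u t t') (hC : PC G A col) {Op : Finset (Finset α)}
    {p w₁ v₁ w₂ v₂ : α} (hO₁ : ({p, w₁, v₁} : Finset α) ∈ Op)
    (hO₂ : ({p, w₂, v₂} : Finset α) ∈ Op) (h₁ : IsT G A {p, w₁, v₁}) (h₂ : IsT G A {p, w₂, v₂})
    (htwo : ∀ T ∈ Op, 2 ≤ MM G A D T) (hw₁ : Out G A D w₁) (hw₂ : Out G A D w₂)
    (ht : G.Adj w₁ t) (ht' : G.Adj w₂ t') (hpt : G.Adj p t) :
    SplitAt G A D Op p t t' w₁ w₂ v₂ := by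
  obtain ⟨a1, a2, a3⟩ := SimpleGraph.is3Clique_triple_iff.1 h₁.2
  obtain ⟨b1, b2, b3⟩ := SimpleGraph.is3Clique_triple_iff.1 h₂.2
  have hp1 : p ∈ ({p, w₁, v₁} : Finset α) := by simp
  have hw1 : w₁ ∈ ({p, w₁, v₁} : Finset α) := by simp
  have hp2 : p ∈ ({p, w₂, v₂} : Finset α) := by simp
  have hw2 : w₂ ∈ ({p, w₂, v₂} : Finset α) := by simp
  have hv2 : v₂ ∈ ({p, w₂, v₂} : Finset α) := by simp
  obtain ⟨d1, n1⟩ := ICd_two h.stab h₁ (htwo _ hO₁) hw1 hw₁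
  obtain ⟨d2, n2⟩ := ICd_two h.stab h₂ (htwo _ hO₂) hw2 hw₂
  have htT : t ∈ ({p, w₁, v₁} : Finset α) :=
    hC.mem_of_adj2 h₁ h.tA hp1 hw1 a1.ne hpt.symm ht.symm
  have htv : t = v₁ := by
    simp only [Finset.mem_insert, Finset.mem_singleton] at htT
    rcases htT with h3 | h3 | h3
    · exact absurd h3.symm hpt.ne
    · exact absurd h3.symm ht.ne
    · exact h3
  refine ⟨?_, hO₂, htwo, hw₁, hw₂, n1 p hp1 a1.ne, n2 v₂ hv2 b3.ne', ht, ht', hpt, a1, b1, b2, b3⟩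
  have he : ({p, t, w₁} : Finset α) = {p, w₁, v₁} := by
    rw [htv]
    ext x
    simp only [Finset.mem_insert, Finset.mem_singleton]
    tauto
  rw [he]
  exact hO₁

/-- The form of a split slot.

Proof. `T₁ ∋ w₁`, `T₂ ∋ w₂`, both contain `p`. They do not meet `D`, and `w₁`, `w₂` are their only
outside vertices. `p ∈ N(D)`: otherwise `p = w₁ = w₂`, contradiction to `oneW`. So
`T₁ = {p, w₁, v₁}`, `T₂ = {p, w₂, v₂}`, `v₁, v₂ ∈ N(D)`. `p ∉ {u, t, t'}`: `p ≠ u` (`u ∈ D`);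
`p = t` would give `w₂ ~ t`; `p = t'` would give `w₁ ~ t'`. So `p` sees exactly one of
`u, t, t'`. `p ~ u`: `p` has the colour of `t` or of `t'`: `no_u`, for `h` or for `h.symm`. `p ~ t`:
`t` sees `p` and `w₁`, so `t ∈ T₁` (`PC.mem_of_adj2`), `T₁ = {p, t, w₁}`: first alternative. `p ~ t'`:
`T₂ = {p, t', w₂}`: second alternative. -/
theorem IC.split_adj (h : IC G A D u t t') (hC : PC G A col) {Op : Finset (Finset α)} {p : α}
    (hT : ∀ T ∈ Op, IsT G A T) (hp : ∀ T ∈ Op, p ∈ T) (hs : Split G A D Op t t') :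
    (∃ w1 w2 v2, SplitAt G A D Op p t t' w1 w2 v2) ∨
      ∃ w1 w2 v2, SplitAt G A D Op p t' t w1 w2 v2 := by
  obtain ⟨htwo, ⟨T₁, hT₁, w₁, hw1, hw₁, ht⟩, T₂, hT₂, w₂, hw2, hw₂, ht'⟩ := hs
  have h₁ := hT T₁ hT₁
  have h₂ := hT T₂ hT₂
  have hp1 := hp T₁ hT₁
  have hp2 := hp T₂ hT₂
  obtain ⟨d1, n1⟩ := ICd_two h.stab h₁ (htwo _ hT₁) hw1 hw₁
  obtain ⟨d2, n2⟩ := ICd_two h.stab h₂ (htwo _ hT₂) hw2 hw₂
  have hw1t' : ¬ G.Adj w₁ t' := by
    rcases h.oneW hC.pr hw₁ with h3 | h3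
    · exact h3.2
    · exact absurd ht h3.1
  have hw2t : ¬ G.Adj w₂ t := by
    rcases h.oneW hC.pr hw₂ with h3 | h3
    · exact absurd ht' h3.2
    · exact h3.1
  have hw12 : w₁ ≠ w₂ := fun e => hw2t (e ▸ ht)
  have hpw1 : p ≠ w₁ := by
    intro e
    exact hw₁.2.2 (e ▸ n2 p hp2 (fun e' => hw12 (e.symm.trans e')))
  have hpw2 : p ≠ w₂ := by
    intro e
    exact hw₂.2.2 (e ▸ n1 p hp1 hpw1)
  obtain ⟨v₁, hT1e, a1, a2, a3⟩ := ICd_third h₁ hp1 hw1 hpw1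
  obtain ⟨v₂, hT2e, b1, b2, b3⟩ := ICd_third h₂ hp2 hw2 hpw2
  have hpA : p ∈ A := h₁.1 hp1
  have huA : u ∈ A := h.stab.1 h.uD
  have hpu : p ≠ u := fun e => Finset.disjoint_left.1 d1 hp1 (e ▸ h.uD)
  have hpt : p ≠ t := fun e => hw2t (e ▸ b1.symm)
  have hpt' : p ≠ t' := fun e => hw1t' (e ▸ a1.symm)
  rw [hT1e] at hT₁ h₁
  rw [hT2e] at hT₂ h₂
  rcases hC.pr.sees huA h.tA h.tA' h.ut h.ut' h.tt' hpA hpu hpt hpt' with h3 | h3 | h3
  · exfalso
    have c1 : col p ≠ col u := hC.col p hpA u huA h3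
    have cut : col u ≠ col t := hC.col u huA t h.tA h.ut
    have cut' : col u ≠ col t' := hC.col u huA t' h.tA' h.ut'
    have ctt' : col t ≠ col t' := hC.col t h.tA t' h.tA' h.tt'
    by_cases c2 : col p = col t
    · exact h.no_u hC hpA h₁ h₂ (htwo _ hT₁) (htwo _ hT₂) hw₁ hw₂ ht ht' h3 c2
    · have c3 : col p = col t' := ICd_z3 (col u) (col t) (col t') _ cut cut' ctt' c1 c2
      exact h.symm.no_u hC hpA h₂ h₁ (htwo _ hT₂) (htwo _ hT₁) hw₂ hw₁ ht' ht h3 c3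
  · exact Or.inl ⟨w₁, w₂, v₂, ICd_at h hC hT₁ hT₂ h₁ h₂ htwo hw₁ hw₂ ht ht' h3⟩
  · exact Or.inr ⟨w₂, w₁, v₁, ICd_at h.symm hC hT₂ hT₁ h₂ h₁ htwo hw₂ hw₁ ht' ht h3⟩

end Pool.Agent.H.MP_ebc13b_lc.h46
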