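import Pool.Agent.H.MP_ebc13b_lc.h46.ICb

/-!
Interior cores: colours at a split slot.
-/

namespace Pool.Agent.H.MP_ebc13b_lc.h46

open Pool.Agent.H.MP_ebc13b_lc.h53

variable {α : Type*} [DecidableEq α] {G : SimpleGraph α} {A P D : Finset α}
  {col : α → ZMod 3} {u t t' p w1 w2 v2 : α}

private theorem ICe_z3 : ∀ a b c x : ZMod 3, a ≠ b → a ≠ c → b ≠ c → x ≠ a → x ≠ b → x = c := by
  intro a b c x h1 h2 h3 h4 h5
  by_contra h6
  revert a b c x
  decide

/-- Proof. `T₁ = {p, t, w1}`, `T₂ = {p, w2, v2}` do not meet `D` and `w1`, `w2` are their only outside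
vertices. `p ~ t`, so `p` does not see `u, t'` (`p ∉ {u, t, t'}` since `p = u ∈ D`, or `p = t'` would
give `w1 ~ t'`). `t ∉ T₂` (else `w2 ~ t`), `t' ∉ T₂` (else `p ~ t'`). Every
`d ∈ D` sees exactly one vertex of `T₁`, not `w1`; and exactly one of `T₂`, not `w2`. So either `d ~ p`
and not `t`, `v2`, or `d ~ t`, `d ~ v2` and not `p`. `u` is of the second type. If `d ~ p` then `d ≠ u`
and `d ~ t'` (`IC.one`).
Claim: `col u = col p`. Otherwise, `col u ≠ col t`, so `col u = col w1` and `col t' = col p`.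
`u ~ v2`, so `col v2 = col t` and `col w2 = col u = col w1`. `w1` has an outside neighbour `y`
(`Full`); `y` does not see `t` (`stabL`), so `y ~ t'`. So `col y = col t`. `y ∉ T₂` (the only outside
vertex of `T₂` is `w2`, of another colour), `y` does not see `v2` (same colour), nor `p` (`y ∉ T₁`
sees `w1`), so `y ~ w2`; both see `t'`: contradiction to `stabL` for `h.symm`.
So `col u = col p`, `col t' = col w1`; `w2 ~ t'` gives `col w2 = col t`, `col v2 = col w1`. The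
colours of `d` follow: `d ~ t, v2` gives `col p`; `d ~ p, t'` gives `col t`. -/
theorem IC.colours (h : IC G A D u t t') (hC : PC G A col) (hf : Full G A D)
    {Op : Finset (Finset α)} (hT : ∀ T ∈ Op, IsT G A T) (hs : SplitAt G A D Op p t t' w1 w2 v2) :
    SplitCol G A D col u p t t' w1 w2 v2 := by
  have hz := ICe_z3
  have hPr := hC.pr
  have uA : u ∈ A := h.stab.1 h.uD
  have hpN := hs.pN
  have hvN := hs.v2N
  rw [mem_nb] at hpN hvN
  have pA := hpN.1
  have vA := hvN.1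
  have w1A := hs.w1O.1
  have w2A := hs.w2O.1
  have tA := h.tA
  have tA' := h.tA'
  -- an outside vertex sees no element of `D`
  have hout : ∀ w, Out G A D w → ∀ d ∈ D, ¬ G.Adj d w := by
    intro w hw d hd hdw
    apply hw.2.2
    rw [mem_nb]
    exact ⟨hw.1, d, hd, hdw.symm⟩
  -- elements of `D` are not in `N(D)`
  have hDn : ∀ d ∈ D, d ∉ nb G A D := by
    intro d hd hdn
    rw [mem_nb] at hdn
    obtain ⟨_, e, he, hde⟩ := hdn
    exact h.stab.2 d hd e he hde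
  have htN : t ∈ nb G A D := by
    rw [mem_nb]
    exact ⟨tA, u, h.uD, h.ut.symm⟩
  have hdp : ∀ d ∈ D, d ≠ p := fun d hd he => hDn d hd (he ▸ hs.pN)
  have hdv : ∀ d ∈ D, d ≠ v2 := fun d hd he => hDn d hd (he ▸ hs.v2N)
  have hdt : ∀ d ∈ D, d ≠ t := fun d hd he => hDn d hd (he ▸ htN)
  have hdw1 : ∀ d ∈ D, d ≠ w1 := fun d hd he => hs.w1O.2.1 (he ▸ hd)
  have hdw2 : ∀ d ∈ D, d ≠ w2 := fun d hd he => hs.w2O.2.1 (he ▸ hd)
  -- the two dichotomies
  have d1 : ∀ d ∈ D, G.Adj d p ∨ G.Adj d t := by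
    intro d hd
    rcases hPr.sees pA tA w1A hs.pt hs.pw1 hs.w1t.symm (h.stab.1 hd) (hdp d hd) (hdt d hd)
      (hdw1 d hd) with h1 | h1 | h1
    · exact Or.inl h1
    · exact Or.inr h1
    · exact absurd h1 (hout _ hs.w1O d hd)
  have d1' : ∀ d ∈ D, G.Adj d p → ¬ G.Adj d t := fun d hd h1 =>
    hPr.unique pA tA w1A hs.pt hs.pw1 hs.w1t.symm (h.stab.1 hd) (hdw1 d hd) h1
  have d2 : ∀ d ∈ D, G.Adj d p ∨ G.Adj d v2 := by
    intro d hd
    rcases hPr.sees pA vA w2A hs.pv2 hs.pw2 hs.w2v2.symm (h.stab.1 hd) (hdp d hd) (hdv d hd)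
      (hdw2 d hd) with h1 | h1 | h1
    · exact Or.inl h1
    · exact Or.inr h1
    · exact absurd h1 (hout _ hs.w2O d hd)
  have d2' : ∀ d ∈ D, G.Adj d p → ¬ G.Adj d v2 := fun d hd h1 =>
    hPr.unique pA vA w2A hs.pv2 hs.pw2 hs.w2v2.symm (h.stab.1 hd) (hdw2 d hd) h1
  have hup : ¬ G.Adj u p := fun h1 => d1' u h.uD h1 h.ut
  have huv : G.Adj u v2 := (d2 u h.uD).resolve_left hup
  -- colours
  have c1 := hC.col _ uA _ tA h.ut
  have c2 := hC.col _ uA _ tA' h.ut'
  have c3 := hC.col _ tA _ tA' h.tt'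
  have c4 := hC.col _ pA _ tA hs.pt
  have c5 := hC.col _ pA _ w1A hs.pw1
  have c6 := hC.col _ tA _ w1A hs.w1t.symm
  have c7 := hC.col _ pA _ w2A hs.pw2
  have c8 := hC.col _ pA _ vA hs.pv2
  have c9 := hC.col _ w2A _ vA hs.w2v2
  have c10 := hC.col _ w2A _ tA' hs.w2t'
  have c11 := hC.col _ uA _ vA huv
  have cu : col u = col p := by
    by_contra hne
    have e1 : col u = col w1 := hz _ _ _ _ c4 c5 c6 hne c1
    have e2 : col t' = col p := hz _ _ _ _ c6 c4.symm c5.symm c3.symm (fun e => c2 (e1.trans e.symm))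
    have e3 : col v2 = col t := hz _ _ _ _ c5 c4 c6.symm c8.symm (fun e => c11 (e1.trans e.symm))
    have e4 : col w2 = col w1 := hz _ _ _ _ c4 c5 c6 c7.symm (fun e => c9 (e.trans e3.symm))
    obtain ⟨y, hy, hwy⟩ := hf w1 hs.w1O
    have hyt : ¬ G.Adj y t := fun hyt => h.stabL hPr hs.w1O hy hs.w1t hyt hwy
    have hyt' : G.Adj y t' := by
      rcases h.oneW hPr hy with h1 | h1
      · exact absurd h1.1 hyt
      · exact h1.2
    have f1 := hC.col _ w1A _ hy.1 hwy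
    have f2 := hC.col _ hy.1 _ tA' hyt'
    have e5 : col y = col t := hz _ _ _ _ c5 c4 c6.symm (fun e => f2 (e.trans e2.symm)) f1.symm
    have hyp : y ≠ p := fun e => hy.2.2 (e ▸ hs.pN)
    have hyv : y ≠ v2 := fun e => hy.2.2 (e ▸ hs.v2N)
    have hyT : y ≠ t := fun e => hy.2.2 (e ▸ htN)
    have hyw2 : y ≠ w2 := fun e => c6 (e5.symm.trans ((congrArg col e).trans e4))
    have hyp' : ¬ G.Adj y p :=
      hPr.unique w1A pA tA hs.pw1.symm hs.w1t hs.pt hy.1 hyT hwy.symm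
    have hyv' : ¬ G.Adj y v2 := fun h1 => hC.col _ hy.1 _ vA h1 (e5.trans e3.symm)
    have hyw : G.Adj y w2 := by
      rcases hPr.sees pA vA w2A hs.pv2 hs.pw2 hs.w2v2.symm hy.1 hyp hyv hyw2 with h1 | h1 | h1
      · exact absurd h1 hyp'
      · exact absurd h1 hyv'
      · exact h1
    exact h.symm.stabL hPr hy hs.w2O hyt' hs.w2t' hyw
  have ct' : col t' = col w1 := hz _ _ _ _ c4 c5 c6 (fun e => c2 (cu.trans e.symm)) c3.symm
  have cw2 : col w2 = col t := hz _ _ _ _ c5 c4 c6.symm c7.symm (fun e => c10 (e.trans ct'.symm))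
  have cv2 : col v2 = col w1 := hz _ _ _ _ c4 c5 c6 c8.symm (fun e => c9 (cw2.trans e.symm))
  refine ⟨cu, ct', cw2, cv2, fun d hd => ?_⟩
  have dA := h.stab.1 hd
  by_cases hdp' : G.Adj d p
  · right
    have hdt' := d1' d hd hdp'
    have hdu : d ≠ u := fun e => hup (e ▸ hdp')
    have h1 : G.Adj d t' := by
      rcases h.one hPr hd hdu with h1 | h1
      · exact absurd h1.1 hdt'
      · exact h1.2
    refine ⟨hdp', hdt', d2' d hd hdp', h1, ?_⟩
    exact hz _ _ _ _ c5 c4 c6.symm (hC.col _ dA _ pA hdp')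
      (fun e => hC.col _ dA _ tA' h1 (e.trans ct'.symm))
  · left
    have h1 := (d1 d hd).resolve_left hdp'
    have h2 := (d2 d hd).resolve_left hdp'
    refine ⟨h1, h2, hdp', ?_⟩
    exact hz _ _ _ _ c6 c4.symm c5.symm (hC.col _ dA _ tA h1)
      (fun e => hC.col _ dA _ vA h2 (e.trans cv2.symm))

end Pool.Agent.H.MP_ebc13b_lc.h46
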