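import Pool.Agent.H.MP_ebc13b_lc.h46.ICDefs

/-!
Interior cores: the position of a split slot.
-/

namespace Pool.Agent.H.MP_ebc13b_lc.h46

open Pool.Agent.H.MP_ebc13b_lc.h53

variable {α : Type*} [DecidableEq α] {G : SimpleGraph α} {A P D : Finset α}
  {col : α → ZMod 3} {u t t' p w1 w2 v2 : α} {Z : ZLine G A col}

private theorem ICf_z3 : ∀ a b : ZMod 3, a = b + 1 → b = a + 1 → False := by decide

/-- Proof. Let `T₁ = {p, t, w1} ∈ bl b₁`, `T₂ = {p, w2, v2} ∈ bl b₂`, `T₀ = {u, t, t'} ∈ bl b₀`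
(`ZLine.ex`). `T₁ ≠ T₂` (`t ∉ T₂`, otherwise `w2 ~ t`; but `w2` sees `t'`, `Prism.unique`), both
contain `p`: `p = h j`, `inS j b₁`, `inS j b₂` (`ZLine.share`). `T₁ ≠ T₀` (`u ∈ D`, `T₁` does not meet
`D` since `MM D T₁ ≥ 2`, `MM_of_mem`), both contain `t`: `t = h k`, `inS k b₁`, `inS k b₀`. `k ≠ j`,
so `b₁ = 2 j + 1`, `k = j + 1` or `b₁ = 2 k + 1`, `j = k + 1`; the second case contradicts `hc`
(`col1`). So `T₁ = Q j` (`eqQ`), `w1 = mid j` (the third vertex). `b₂ ≠ 2 j + 1` and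
`b₀ ≠ 2 j + 1` because `bl (2 j + 1)` has the only element `Q j`. `w2 ∉ T₁`: `w2` is outside, so it
would be `w1`, but `w1 ~ t`, `w2 ~ t'` (`oneW`). The colours follow from `SplitCol` and
`col (mid j) = col (h j) + 2`. -/
theorem loc_of (hic : IC G A D u t t') (hC : PC G A col) {Op : Finset (Finset α)}
    (hT : ∀ T ∈ Op, IsT G A T) (hs : SplitAt G A D Op p t t' w1 w2 v2)
    (hcol : SplitCol G A D col u p t t' w1 w2 v2) (hc : col t = col p + 1) :
    ∃ j b0 b2, p = Z.h j ∧ Z.re j ∧ Loc G A col Z D Op j u t' w2 v2 b0 b2 := by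
  have hT1 := hT _ hs.T1
  have hT2 := hT _ hs.T2
  have hT0 : IsT G A {u, t, t'} := by
    refine ⟨?_, clique_abc hic.ut hic.ut' hic.tt'⟩
    intro x hx
    simp only [Finset.mem_insert, Finset.mem_singleton] at hx
    rcases hx with rfl | rfl | rfl
    · exact hic.stab.1 hic.uD
    · exact hic.tA
    · exact hic.tA'
  have htN : t ∈ nb G A D := mem_nb.2 ⟨hic.tA, u, hic.uD, hic.ut.symm⟩
  have htN' : t' ∈ nb G A D := mem_nb.2 ⟨hic.tA', u, hic.uD, hic.ut'.symm⟩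
  obtain ⟨b1, hb1⟩ := Z.ex _ hT1
  obtain ⟨b2, hb2⟩ := Z.ex _ hT2
  obtain ⟨b0, hb0⟩ := Z.ex _ hT0
  have hw2T0 : w2 ∉ ({u, t, t'} : Finset α) := by
    simp only [Finset.mem_insert, Finset.mem_singleton, not_or]
    refine ⟨?_, ?_, ?_⟩
    · intro e
      exact hs.w2O.2.1 (e ▸ hic.uD)
    · intro e
      exact hs.w2O.2.2 (e ▸ htN)
    · intro e
      exact hs.w2O.2.2 (e ▸ htN')
  have htT2 : t ∉ ({p, w2, v2} : Finset α) := by
    simp only [Finset.mem_insert, Finset.mem_singleton, not_or]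
    refine ⟨hs.pt.ne', ?_, ?_⟩
    · intro e
      exact hs.w2O.2.2 (e ▸ htN)
    · intro e
      have h1 : G.Adj w2 t := e ▸ hs.w2v2
      exact hic.tt'.ne (hC.nb_unique hT0 hs.w2O.1 hw2T0 (by simp) (by simp) h1 hs.w2t')
  have h12 : ({p, t, w1} : Finset α) ≠ {p, w2, v2} := by
    intro e
    exact htT2 (e ▸ (by simp))
  have hu1 : u ∉ ({p, t, w1} : Finset α) := by
    intro hu
    have h1 := (MM_of_mem hic.stab hT1.1 hT1.2 hic.uD hu).1
    have h2 := hs.two _ hs.T1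
    omega
  have h10 : ({p, t, w1} : Finset α) ≠ {u, t, t'} := by
    intro e
    exact hu1 (e ▸ (by simp))
  obtain ⟨j, hpj, hj1, hj2⟩ := Z.share b1 b2 _ _ hb1 hb2 h12 p (by simp) (by simp)
  obtain ⟨k, htk, hk1, hk0⟩ := Z.share b1 b0 _ _ hb1 hb0 h10 t (by simp) (by simp)
  have hkj : k ≠ j := by
    intro e
    rw [e, ← hpj] at htk
    exact hs.pt.ne htk.symm
  have hcase : (b1 = 2 * j + 1 ∧ k = j + 1) ∨ (b1 = 2 * k + 1 ∧ j = k + 1) := by omega
  rcases hcase with ⟨e1, e2⟩ | ⟨e1, e2⟩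
  · subst e2
    rw [e1] at hb1
    have hlk : Z.lk j := ⟨_, hb1⟩
    have hQ : ({p, t, w1} : Finset α) = Z.Q j := Z.eq_Q hb1
    have hw1 : w1 = Z.mid j := by
      have h1 : w1 ∈ Z.Q j := hQ ▸ (by simp)
      rcases Z.Q_cases h1 with h | h | h
      · exact absurd (h.trans hpj.symm) hs.pw1.ne'
      · exact h
      · exact absurd (h.trans htk.symm) hs.w1t.ne
    refine ⟨j, b0, b2, hpj, Z.lk_re hlk, ?_⟩
    refine
      { stab := hic.stab
        lk := hlk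
        Q1 := hQ ▸ hs.T1
        T2 := hpj ▸ hs.T2
        two := hs.two
        bT2 := hpj ▸ hb2
        b2 := ?_
        bT0 := htk ▸ hb0
        b0 := ?_
        midO := hw1 ▸ hs.w1O
        w2O := hs.w2O
        hN := hpj ▸ hs.pN
        h1N := htk ▸ htN
        v2N := hs.v2N
        uD := hic.uD
        cu := hpj ▸ hcol.cu
        ct' := ?_
        cw2 := ?_
        cv2 := ?_
        dich := ?_
        ex1 := htk ▸ hic.sees
        ex2 := ?_ }
    · have h1 : b2 ≠ 2 * j + 1 := by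
        intro e
        rw [e] at hb2
        exact h12 (hQ.trans (Z.eq_Q hb2).symm)
      omega
    · have h1 : b0 ≠ 2 * j + 1 := by
        intro e
        rw [e] at hb0
        exact h10 (hQ.trans (Z.eq_Q hb0).symm)
      omega
    · rw [hcol.ct', hw1, Z.colm j hlk]
    · rw [hcol.cw2, hc, hpj]
    · rw [hcol.cv2, hw1, Z.colm j hlk]
    · intro d hd
      rw [← htk, ← hpj]
      rcases hcol.dich d hd with h | ⟨h1, h2, h3, h4, h5⟩
      · exact Or.inl h
      · exact Or.inr ⟨h1, h2, h3, h4, h5.trans hc⟩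
    · obtain ⟨_, d, hd, hpd⟩ := mem_nb.1 hs.pN
      exact ⟨d, hd, hpj ▸ hpd.symm⟩
  · exfalso
    rw [e1] at hb1
    have h1 := Z.col1 k ⟨_, hb1⟩
    rw [← e2, ← hpj, ← htk] at h1
    exact ICf_z3 _ _ hc h1

end Pool.Agent.H.MP_ebc13b_lc.h46
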