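import Pool.Agent.H.MP_ebc13b_lc.h46.ICc
import Pool.Agent.H.MP_ebc13b_lc.h46.ICd
import Pool.Agent.H.MP_ebc13b_lc.h46.ICe

/-!
Interior cores: case (A3), another interior core without split slots.
-/

namespace Pool.Agent.H.MP_ebc13b_lc.h46

open Pool.Agent.H.MP_ebc13b_lc.h53

variable {α : Type*} [DecidableEq α] {G : SimpleGraph α} {A P D : Finset α}
  {O : α → Finset (Finset α)} {col : α → ZMod 3} {Z : ZLine G A col} {j b0 b2 : ℤ}
  {u t' w2 v2 : α}

private theorem ICj_ne1 : ∀ c : ZMod 3, c ≠ c + 1 := by decide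

private theorem ICj_ne2 : ∀ c : ZMod 3, c ≠ c + 2 := by decide

private theorem ICj_12 : ∀ c : ZMod 3, c + 2 ≠ c + 1 := by decide

private theorem ICj_2 : ∀ c : ZMod 3, c + 1 + 1 ≠ c := by decide

/-- Proof. `mid (j-1), h (j-1), h j` is an interior core: `u` sees exactly one vertex of `Q (j-1)`, not
`mid (j-1)` (stable), not `h j` (`dich`, its colour is `col (h j)`), so `u ~ h (j-1)`; `e ~ h j`
(`dich`). Apply `IC.row`. Let `q` be a split slot. `q = h j`: some option `T` contains an outside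
vertex `w` which sees `h (j-1)`; `h j ∈ T`, `w ≠ h j` (`hN`), so `w ~ h j`; `w ∉ Q (j-1)`
(`mid (j-1) ∈ D`, the others are in `N(D)`): contradiction (`PC.nb_unique`). `q ≠ h j`: `IC.split_adj`.
`SplitAt q (h j) (h (j-1))`: `{q, h j, w1} ∈ O q` and `Q j ∈ O (h j)` are not disjoint. `SplitAt q
(h (j-1)) (h j)`: `IC.colours`, `dich` for `e`: `e ~ h (j-1)`, or `col e = col (h (j-1))`; the second
is false (`col (h (j-1)) = c + 2`), the first too: `e` sees `h j`, `e ∉ Q (j-1)`. -/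
theorem Loc.a3 (h : Loc G A col Z D (O (Z.h j)) j u t' w2 v2 b0 b2) (hC : PC G A col)
    (hf : Full G A D) (hS : Slots G A P O) (hne : ∀ p ∈ P, (O p).Nonempty) (hp : Z.h j ∈ P)
    (hF : ∀ F, MaxS G A F → SlotRow G A P O F) (hl : Z.lk (j - 1)) (hm : Z.mid (j - 1) ∈ D)
    {e : α} (he : e ∈ D) (hem : e ≠ Z.mid (j - 1)) (hec : col e = col (Z.h j) + 1) :
    SlotRow G A P O D := by
  have e1 : j - 1 + 1 = j := by ring
  have hQT := Z.Q_T hl
  have m0 : Z.h (j - 1) ∈ Z.Q (j - 1) := Z.h_mem_Q _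
  have m1 : Z.mid (j - 1) ∈ Z.Q (j - 1) := Z.mid_mem_Q _
  have m2 : Z.h j ∈ Z.Q (j - 1) := by
    have := Z.h1_mem_Q (j - 1)
    rwa [e1] at this
  have c1 : col (Z.h j) = col (Z.h (j - 1)) + 1 := by
    have := Z.col1 (j - 1) hl
    rwa [e1] at this
  have c2 : col (Z.mid (j - 1)) = col (Z.h (j - 1)) + 2 := Z.colm (j - 1) hl
  have n01 : Z.h (j - 1) ≠ Z.mid (j - 1) := by
    intro e'
    exact ICj_ne2 _ ((congrArg col e').trans c2)
  have n02 : Z.h (j - 1) ≠ Z.h j := by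
    intro e'
    exact ICj_ne1 _ ((congrArg col e').trans c1)
  have n12 : Z.mid (j - 1) ≠ Z.h j := by
    intro e'
    have h1 := congrArg col e'
    rw [c1, c2] at h1
    exact ICj_12 _ h1
  have a01 := hQT.adj m0 m1 n01
  have a02 := hQT.adj m0 m2 n02
  have a12 := hQT.adj m1 m2 n12
  have hA0 : Z.h (j - 1) ∈ A := hQT.1 m0
  have hAj : Z.h j ∈ A := hQT.1 m2
  have hcase : ∀ x ∈ Z.Q (j - 1), x = Z.h (j - 1) ∨ x = Z.mid (j - 1) ∨ x = Z.h j := by
    intro x hx
    have := Z.Q_cases hx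
    rwa [e1] at this
  have eA : e ∈ A := h.stab.1 he
  have uA : u ∈ A := h.stab.1 h.uD
  have huj : ¬ G.Adj u (Z.h j) := by
    rcases h.dich u h.uD with h1 | h1
    · exact h1.2.2.1
    · exfalso
      exact ICj_ne1 _ (h.cu.symm.trans h1.2.2.2.2)
  have hej : G.Adj e (Z.h j) := by
    rcases h.dich e he with h1 | h1
    · exfalso
      exact ICj_ne1 _ (h1.2.2.2.symm.trans hec)
    · exact h1.1
  have huQ : u ∉ Z.Q (j - 1) := by
    intro h1
    rcases hcase u h1 with h2 | h2 | h2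
    · have h3 := congrArg col h2
      rw [h.cu, c1] at h3
      exact ICj_ne1 _ h3.symm
    · have h3 := congrArg col h2
      rw [h.cu, c1, c2] at h3
      exact ICj_12 _ h3.symm
    · apply Finset.disjoint_left.1 h.stab.disj h.hN
      rw [← h2]
      exact h.uD
  have heQ : e ∉ Z.Q (j - 1) := by
    intro h1
    rcases hcase e h1 with h2 | h2 | h2
    · exact h.stab.2 _ hm e he (by rw [h2]; exact a01.symm)
    · exact hem h2
    · exact h.stab.2 _ hm e he (by rw [h2]; exact a12)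
  have hu0 : G.Adj u (Z.h (j - 1)) := by
    obtain ⟨x, hx, hux, _⟩ := hC.pr _ hQT.1 hQT.2 u uA huQ
    rcases hcase x hx with h2 | h2 | h2
    · rwa [h2] at hux
    · exfalso
      rw [h2] at hux
      exact h.stab.2 u h.uD _ hm hux
    · exfalso
      rw [h2] at hux
      exact huj hux
  have hIC : IC G A D (Z.mid (j - 1)) (Z.h (j - 1)) (Z.h j) := by
    refine ⟨h.stab, hm, hA0, hAj, a01.symm, a12, a02, ⟨u, h.uD, ?_, hu0⟩, ⟨e, he, hem, hej⟩⟩
    intro h1
    exact huQ (h1 ▸ m1)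
  refine hIC.row hC.pr hf hS hne hF ?_
  intro q hq hs
  by_cases hqj : q = Z.h j
  · subst hqj
    obtain ⟨_, ⟨T, hT, w, hwT, hwO, hw0⟩, _⟩ := hs
    have hjT := hS.hub _ hq T hT
    have hwj : w ≠ Z.h j := fun h1 => hwO.2.2 (h1 ▸ h.hN)
    have hadj : G.Adj w (Z.h j) :=
      IsT.adj (G := G) (A := A) ⟨hS.sub _ hq T hT, hS.clq _ hq T hT⟩ hwT hjT hwj
    have hwQ : w ∉ Z.Q (j - 1) := by
      intro h1
      rcases hcase w h1 with h2 | h2 | h2
      · rw [h2] at hw0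
        exact G.loopless.irrefl _ hw0
      · exact hwO.2.1 (h2 ▸ hm)
      · exact hwj h2
    exact n02 (hC.nb_unique hQT hwO.1 hwQ m0 m2 hw0 hadj)
  · have hT : ∀ T ∈ O q, IsT G A T := fun T hT => ⟨hS.sub _ hq T hT, hS.clq _ hq T hT⟩
    rcases hIC.split_adj hC hT (fun T hT => hS.hub _ hq T hT) hs with
      ⟨w1, w2', v2', h1⟩ | ⟨w1, w2', v2', h1⟩
    · have h2 := hIC.colours hC hf hT h1
      rcases h2.dich e he with h3 | h3
      · exact n02 (hC.nb_unique hQT eA heQ m0 m2 h3.1 hej)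
      · have h4 := h3.2.2.2.2
        rw [hec, c1] at h4
        exact ICj_2 _ h4
    · have h2 := hS.disj q hq (Z.h j) hp hqj _ h1.T1 _ h.Q1
      rw [Finset.disjoint_left] at h2
      exact h2 (by simp) (Z.h_mem_Q j)

end Pool.Agent.H.MP_ebc13b_lc.h46
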