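import Pool.Agent.H.MP_ebc13b_lc.h46.ICDefs

/-!
The properties of slot systems used for interior cores.
-/

namespace Pool.Agent.H.MP_ebc13b_lc.h46

open Pool.Agent.H.MP_ebc13b_lc.h53

variable {α : Type*} [DecidableEq α] {G : SimpleGraph α} {A : Finset α} {col : α → ZMod 3}

/-- Slot system `(P, O)` obtained from the masses `z` by sampling, `ε` the error of the masses, `κ`
the margin of the sampling. -/
structure SysOK (Z : ZLine G A col) (P : Finset α) (O : α → Finset (Finset α))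
    (z : Finset α → ℝ) (ε κ : ℝ) : Prop where
  slots : Slots G A P O
  ne : ∀ p ∈ P, (O p).Nonempty
  hub : ∀ p ∈ P, ∃ i, Z.re i ∧ p = Z.h i
  z0 : ∀ T, 0 ≤ z T
  zT : ∀ T, z T ≠ 0 → IsT G A T
  tot : (P.card : ℝ) - ε ≤ ∑ T ∈ A.powerset, z T
  row : ∀ D, Stab G A D → ∑ T ∈ A.powerset, z T * (MM G A D T : ℝ) ≤ (cc G A D : ℝ) + ε
  star : ∀ i, ∑ T ∈ Z.bl (2 * i - 1), z T + ∑ T ∈ Z.bl (2 * i), z T +
    ∑ T ∈ Z.bl (2 * i + 1), z T ≤ 1 + ε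
  blk : ∀ i, Z.re i → Z.h i ∈ P → Z.bl (2 * i) ⊆ O (Z.h i)
  gapR : ∀ i, Z.h i ∈ P → Z.lk i → Z.Q i ∈ O (Z.h i) →
    ∑ T ∈ Z.bl (2 * i + 2), z T + ∑ T ∈ Z.bl (2 * i + 3), z T ≤ 1 - κ
  gapL : ∀ i, Z.h i ∈ P → Z.lk (i - 1) → Z.Q (i - 1) ∈ O (Z.h i) →
    ∑ T ∈ Z.bl (2 * i - 2), z T + ∑ T ∈ Z.bl (2 * i - 3), z T ≤ 1 - κ
  ownL : ∀ i, Z.h i ∈ P → Z.lk (i - 1) → Z.Q (i - 1) ∉ O (Z.h i) → Z.h (i - 1) ∈ P ∨
    (Z.h (i - 2) ∈ P ∧ Z.lk (i - 2) ∧ Z.Q (i - 2) ∈ O (Z.h (i - 2)))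
  ownR : ∀ i, Z.h i ∈ P → Z.lk i → Z.Q i ∉ O (Z.h i) → Z.h (i + 1) ∈ P ∨
    (Z.h (i + 2) ∈ P ∧ Z.lk (i + 1) ∧ Z.Q (i + 1) ∈ O (Z.h (i + 2)))
  e0 : 0 ≤ ε
  ek : 4 * ε < κ

theorem ICsys_mirror_re (Z : ZLine G A col) (hC : PC G A col) (i : ℤ) :
    (Z.mirror hC).re i ↔ Z.re (-i) := by
  constructor
  · rintro ⟨b, hb, hne⟩
    refine ⟨-b, ?_, hne⟩
    unfold inS at hb ⊢
    omega
  · rintro ⟨b, hb, hne⟩
    refine ⟨-b, ?_, ?_⟩
    · unfold inS at hb ⊢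
      omega
    · rw [Z.mirror_bl, neg_neg]
      exact hne

/-- The mirror image.

Proof. `(Z.mirror hC).h i = Z.h (-i)`, `(Z.mirror hC).bl b = Z.bl (-b)`, `(Z.mirror hC).lk i ↔
Z.lk (-i - 1)`, `(Z.mirror hC).Q i = Z.Q (-i - 1)` (`mirror_h`, `mirror_bl`, `mirror_lk`, and a
statement on `Q` in `ZPos.lean`); rewrite the indices, exchange `gapR`, `gapL` and `ownR`, `ownL`. -/
theorem SysOK.mirror {Z : ZLine G A col} {P : Finset α} {O : α → Finset (Finset α)}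
    {z : Finset α → ℝ} {ε κ : ℝ} (h : SysOK Z P O z ε κ) (hC : PC G A col) :
    SysOK (Z.mirror hC) P O z ε κ where
  slots := h.slots
  ne := h.ne
  hub := by
    intro p hp
    obtain ⟨i, hi, e⟩ := h.hub p hp
    refine ⟨-i, ?_, ?_⟩
    · rw [ICsys_mirror_re, neg_neg]
      exact hi
    · rw [Z.mirror_h, neg_neg]
      exact e
  z0 := h.z0
  zT := h.zT
  tot := h.tot
  row := h.row
  star := by
    intro i
    have h1 := h.star (-i)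
    rw [Z.mirror_bl, Z.mirror_bl, Z.mirror_bl]
    have e1 : -(2 * i - 1) = 2 * (-i) + 1 := by ring
    have e2 : -(2 * i) = 2 * (-i) := by ring
    have e3 : -(2 * i + 1) = 2 * (-i) - 1 := by ring
    rw [e1, e2, e3]
    linarith
  blk := by
    intro i hi hp
    rw [ICsys_mirror_re] at hi
    rw [Z.mirror_h] at hp ⊢
    rw [Z.mirror_bl]
    have e2 : -(2 * i) = 2 * (-i) := by ring
    rw [e2]
    exact h.blk (-i) hi hp
  gapR := by
    intro i hp hl hQ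
    rw [Z.mirror_h] at hp hQ
    rw [Z.mirror_lk] at hl
    rw [Z.mirror_Q] at hQ
    rw [Z.mirror_bl, Z.mirror_bl]
    have e1 : -(2 * i + 2) = 2 * (-i) - 2 := by ring
    have e2 : -(2 * i + 3) = 2 * (-i) - 3 := by ring
    rw [e1, e2]
    exact h.gapL (-i) hp hl hQ
  gapL := by
    intro i hp hl hQ
    rw [Z.mirror_h] at hp hQ
    rw [Z.mirror_lk] at hl
    rw [Z.mirror_Q] at hQ
    have e0 : -(i - 1) - 1 = -i := by ring
    rw [e0] at hl hQ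
    rw [Z.mirror_bl, Z.mirror_bl]
    have e1 : -(2 * i - 2) = 2 * (-i) + 2 := by ring
    have e2 : -(2 * i - 3) = 2 * (-i) + 3 := by ring
    rw [e1, e2]
    exact h.gapR (-i) hp hl hQ
  ownL := by
    intro i hp hl hQ
    rw [Z.mirror_h] at hp hQ
    rw [Z.mirror_lk] at hl
    rw [Z.mirror_Q] at hQ
    have e0 : -(i - 1) - 1 = -i := by ring
    rw [e0] at hl hQ
    rw [Z.mirror_h, Z.mirror_h, Z.mirror_lk, Z.mirror_Q]
    have e1 : -(i - 1) = -i + 1 := by ring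
    have e2 : -(i - 2) = -i + 2 := by ring
    have e3 : -(i - 2) - 1 = -i + 1 := by ring
    rw [e3, e1, e2]
    exact h.ownR (-i) hp hl hQ
  ownR := by
    intro i hp hl hQ
    rw [Z.mirror_h] at hp hQ
    rw [Z.mirror_lk] at hl
    rw [Z.mirror_Q] at hQ
    rw [Z.mirror_h, Z.mirror_h, Z.mirror_lk, Z.mirror_Q]
    have e1 : -(i + 1) = -i - 1 := by ring
    have e2 : -(i + 2) = -i - 2 := by ring
    have e3 : -(i + 1) - 1 = -i - 2 := by ring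
    rw [e3, e1, e2]
    exact h.ownL (-i) hp hl hQ
  e0 := h.e0
  ek := h.ek

end Pool.Agent.H.MP_ebc13b_lc.h46
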