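import Pool.Agent.H.MP_ebc13b_lc.h46.ICh
import Pool.Agent.H.MP_ebc13b_lc.h46.ICsys

/-!
Interior cores: cases (A1) and (A2), counting.
-/

namespace Pool.Agent.H.MP_ebc13b_lc.h46

open Pool.Agent.H.MP_ebc13b_lc.h53

variable {α : Type*} [DecidableEq α] {G : SimpleGraph α} {A P D : Finset α}
  {O : α → Finset (Finset α)} {col : α → ZMod 3} {Z : ZLine G A col} {z : Finset α → ℝ}
  {ε κ : ℝ} {j b0 b2 : ℤ} {u t' w2 v2 : α}

/-- Every slot has an option of value at most `2`.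

Proof. `q = h j`: `Q j` contains the outside vertex `mid j`, so `MM D (Q j) ≤ 2` (otherwise
`MM_three`). `q ≠ h j`: take an option `T ∈ bl b` of `q`. `h j, h (j+1) ∉ T`, since `T` is disjoint from
`Q j ∈ O (h j)`. So `Loc.up` applies (`ZLine.mem'`). -/
theorem Loc.cap (h : Loc G A col Z D (O (Z.h j)) j u t' w2 v2 b0 b2) (hC : PC G A col)
    (hs : SysOK Z P O z ε κ) (hp : Z.h j ∈ P) {q : α} (hq : q ∈ P) :
    ∃ T ∈ O q, MM G A D T ≤ 2 := by
  by_cases hqj : q = Z.h j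
  · subst hqj
    refine ⟨Z.Q j, h.Q1, ?_⟩
    have hQ := Z.Q_T h.lk
    have h3 := MM_le (A := A) (D := D) hQ.2
    by_contra hcon
    have h4 : MM G A D (Z.Q j) = 3 := by omega
    exact h.midO.2.2 ((MM_three h.stab hQ.1 hQ.2 h4).1 (Z.mid_mem_Q j))
  · obtain ⟨T, hT⟩ := hs.ne q hq
    refine ⟨T, hT, ?_⟩
    obtain ⟨b, hb⟩ := Z.ex T ⟨hs.slots.sub q hq T hT, hs.slots.clq q hq T hT⟩
    have hd := hs.slots.disj q hq _ hp hqj T hT _ h.Q1
    rw [Finset.disjoint_left] at hd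
    refine h.up hC hb ?_ ?_
    · intro h1
      exact hd (Z.mem' hb h1) (Z.h_mem_Q j)
    · intro h1
      exact hd (Z.mem' hb h1) (Z.h1_mem_Q j)

/-- Counting: triangles outside `S` have value at least `2`. -/
private theorem ICk_count (hs : SysOK Z P O z ε κ) (hD : Stab G A D) (S : Finset (Finset α))
    (h1 : ∀ T, IsT G A T → 1 ≤ MM G A D T) (h2 : ∀ T, IsT G A T → T ∉ S → 2 ≤ MM G A D T) :
    2 * (P.card : ℝ) - 3 * ε - ∑ T ∈ S, z T ≤ (cc G A D : ℝ) := by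
  have hrow := hs.row D hD
  have htot := hs.tot
  have hkey : ∀ T ∈ A.powerset, 2 * z T - (if T ∈ S then z T else 0) ≤
      z T * (MM G A D T : ℝ) := by
    intro T _
    by_cases hz : z T = 0
    · rw [hz]
      simp
    · have hT := hs.zT T hz
      have hz0 := hs.z0 T
      split_ifs with hS
      · have h3 : (1 : ℝ) ≤ (MM G A D T : ℝ) := by exact_mod_cast h1 T hT
        nlinarith
      · have h3 : (2 : ℝ) ≤ (MM G A D T : ℝ) := by exact_mod_cast h2 T hT hS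
        nlinarith
  have hsum := Finset.sum_le_sum hkey
  rw [Finset.sum_sub_distrib, ← Finset.mul_sum, Finset.sum_ite_mem] at hsum
  have hle : ∑ T ∈ A.powerset ∩ S, z T ≤ ∑ T ∈ S, z T :=
    Finset.sum_le_sum_of_subset_of_nonneg Finset.inter_subset_right fun T _ _ => hs.z0 T
  linarith

private theorem ICk_union (hs : SysOK Z P O z ε κ) (S S' : Finset (Finset α)) :
    ∑ T ∈ S ∪ S', z T ≤ ∑ T ∈ S, z T + ∑ T ∈ S', z T := by
  have h1 := Finset.sum_union_inter (s₁ := S) (s₂ := S') (f := z)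
  have h2 : 0 ≤ ∑ T ∈ S ∩ S', z T := Finset.sum_nonneg fun T _ => hs.z0 T
  linarith

private theorem ICk_sum (h : Loc G A col Z D (O (Z.h j)) j u t' w2 v2 b0 b2) (hC : PC G A col)
    (hs : SysOK Z P O z ε κ) (hp : Z.h j ∈ P) {m : α → ℤ}
    (hm : ∀ p ∈ P, ∀ T ∈ O p, m p ≤ MM G A D T) : ∀ q ∈ P, m q ≤ 2 := by
  intro q hq
  obtain ⟨T, hT, h1⟩ := h.cap hC hs hp hq
  exact (hm q hq T hT).trans h1

/-- Case (A1): `mid (j-1) ∉ D`.

Proof. `∑ m ≤ 2 P.card` by `cap`. `Loc.val`: for a triangle `T`, `MM D T ≥ 2`, or `MM D T ≥ 1`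
(`MM_pos`) and `T` is in `bl (2 j + 2)` or `bl (2 j + 3)`. So `∑ z T * MM D T ≥ 2 ∑ z T - (mass of
these two blocks)`, `≥ 2 P.card - 2 ε - (1 - κ)` (`gapR`, `tot`; the sum over `A.powerset` restricted to a
block is the sum over the block). With `row`: `cc D ≥ 2 P.card - 1 - 3 ε + κ > 2 P.card - 1`, so
`cc D ≥ 2 P.card`. -/
theorem Loc.a1 (h : Loc G A col Z D (O (Z.h j)) j u t' w2 v2 b0 b2) (hC : PC G A col)
    (hs : SysOK Z P O z ε κ) (hp : Z.h j ∈ P)
    (hno : ¬ (Z.lk (j - 1) ∧ Z.mid (j - 1) ∈ D)) : SlotRow G A P O D := by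
  intro m hm
  have hcap := ICk_sum h hC hs hp hm
  have hsum : ∑ p ∈ P, m p ≤ ∑ p ∈ P, (2 : ℤ) := Finset.sum_le_sum hcap
  rw [Finset.sum_const, nsmul_eq_mul] at hsum
  have hblk := hs.blk j (Z.lk_re h.lk) hp
  have hcount := ICk_count hs h.stab (Z.bl (2 * j + 2) ∪ Z.bl (2 * j + 3))
    (fun T hT => MM_pos hC.pr h.stab ⟨u, h.uD⟩ hT.1 hT.2) (by
      intro T hT hS
      rw [Finset.mem_union, not_or] at hS
      obtain ⟨b, hb⟩ := Z.ex T hT
      rcases h.val hC hblk hb with h1 | rfl | rfl | h1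
      · exact h1
      · exact absurd hb hS.1
      · exact absurd hb hS.2
      · exact absurd ⟨h1.1, h1.2.1⟩ hno)
  have hu := ICk_union hs (Z.bl (2 * j + 2)) (Z.bl (2 * j + 3))
  have hg := hs.gapR j hp h.lk h.Q1
  have he0 := hs.e0
  have hek := hs.ek
  have h5 : (2 : ℝ) * P.card - 1 < (cc G A D : ℝ) := by linarith
  have h6 : (2 : ℤ) * P.card - 1 < cc G A D := by exact_mod_cast h5
  have h7 : ((P.card : ℕ) : ℤ) * 2 = 2 * P.card := mul_comm _ _
  omega

private theorem ICk_small (h : Loc G A col Z D (O (Z.h j)) j u t' w2 v2 b0 b2) (hC : PC G A col)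
    (hl : Z.lk (j - 1)) (hm : Z.mid (j - 1) ∈ D)
    (hu : ∀ e ∈ D, col e = col (Z.h j) + 1 → e = Z.mid (j - 1)) {T : Finset α}
    (hT : IsT G A T) (hx : Z.h (j - 1) ∈ T) : MM G A D T ≤ 1 := by
  have e1 : j - 1 + 1 = j := by ring
  have hQ := Z.Q_T hl
  have hc1 := Z.col1 _ hl
  rw [e1] at hc1
  have hcm := Z.colm _ hl
  have hmne : Z.mid (j - 1) ≠ Z.h (j - 1) := Z.mid_ne_h hl (Z.lk_re hl)
  have hhj : Z.h j ∈ Z.Q (j - 1) := by
    have := Z.h1_mem_Q (j - 1)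
    rw [e1] at this
    exact this
  -- every element of `D` sees `h (j-1)`
  have hsee : ∀ d ∈ D, d ∉ T → G.Adj d (Z.h (j - 1)) := by
    intro d hd _
    rcases h.dich d hd with ⟨_, _, h3, h4⟩ | ⟨_, _, _, _, h4⟩
    · have hdm : d ≠ Z.mid (j - 1) := by
        rintro rfl
        rw [h4, hc1] at hcm
        revert hcm
        generalize col (Z.h (j - 1)) = a
        revert a
        decide
      have hdh : d ≠ Z.h j := by
        rintro rfl
        exact Finset.disjoint_left.1 h.stab.disj h.hN hd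
      have hdh' : d ≠ Z.h (j - 1) := by
        rintro rfl
        rw [hc1] at h4
        revert h4
        generalize col (Z.h (j - 1)) = a
        revert a
        decide
      have hdQ : d ∉ Z.Q (j - 1) := by
        intro hdQ
        rcases Z.Q_cases hdQ with h5 | h5 | h5
        · exact hdh' h5
        · exact hdm h5
        · rw [e1] at h5
          exact hdh h5
      obtain ⟨x, hxQ, hdx, _⟩ := hC.pr _ hQ.1 hQ.2 d (h.stab.1 hd) hdQ
      rcases Z.Q_cases hxQ with h5 | h5 | h5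
      · rw [h5] at hdx
        exact hdx
      · rw [h5] at hdx
        exact absurd hdx (h.stab.2 d hd _ hm)
      · rw [e1] at h5
        rw [h5] at hdx
        exact absurd hdx h3
    · rw [hu d hd h4]
      exact hQ.adj (Z.mid_mem_Q _) (Z.h_mem_Q _) hmne
  by_cases hdis : Disjoint T D
  · rw [MM_of_disj hdis]
    have h1 : T ∩ nb G A D ⊆ {Z.h (j - 1)} := by
      intro x hx'
      rw [Finset.mem_inter] at hx'
      obtain ⟨hxT, hxn⟩ := hx'
      obtain ⟨_, d, hd, hxd⟩ := mem_nb.1 hxn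
      have hdT : d ∉ T := fun h' => Finset.disjoint_left.1 hdis h' hd
      rw [Finset.mem_singleton]
      exact hC.nb_unique hT (h.stab.1 hd) hdT hxT hx hxd.symm (hsee d hd hdT)
    have h2 := Finset.card_le_card h1
    rw [Finset.card_singleton] at h2
    exact_mod_cast h2
  · obtain ⟨d, hdT, hd⟩ := Finset.not_disjoint_iff.1 hdis
    rw [(MM_of_mem h.stab hT.1 hT.2 hd hdT).1]

/-- Case (A2): `mid (j-1)` is the only element of `D` of colour `c + 1`.

Proof. For every triangle `T ∋ h (j-1)`: `MM D T ≤ 1`: if `T` meets `D`, `MM_of_mem`; otherwise every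
`d ∈ D` sees `h (j-1)`: this is clear for `mid (j-1)`, and if `d` has colour `c` it does not see
`mid (j-1)` nor `h j` (`dich`), and is not in `Q (j-1)`; so every `d` sees no other vertex of `T`, and
`T ∩ N(D) ⊆ {h (j-1)}`. In particular `Q (j-1) ∉ O (h j)` (`two`). By `ownL` some slot `q` (`h (j-1)` or
`h (j-2)`) has an option containing `h (j-1)`, `m q ≤ 1`; so `∑ m ≤ 2 P.card - 1` by `cap`. As in
(A1) with `Loc.val`, the exceptional triangles being in the blocks `2 j + 2`, `2 j + 3`, or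
`2 j - 3`, `2 j - 2`, `2 j - 1` (the star of `h (j-1)`, mass `≤ 1 + ε`):
`cc D ≥ 2 P.card - 2 - 4 ε + κ > 2 P.card - 2`. -/
theorem Loc.a2 (h : Loc G A col Z D (O (Z.h j)) j u t' w2 v2 b0 b2) (hC : PC G A col)
    (hs : SysOK Z P O z ε κ) (hp : Z.h j ∈ P) (hl : Z.lk (j - 1)) (hm : Z.mid (j - 1) ∈ D)
    (hu : ∀ e ∈ D, col e = col (Z.h j) + 1 → e = Z.mid (j - 1)) : SlotRow G A P O D := by
  intro m hmm
  have hcap := ICk_sum h hC hs hp hmm
  have hsm : ∀ T, IsT G A T → Z.h (j - 1) ∈ T → MM G A D T ≤ 1 := fun T hT hx =>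
    ICk_small h hC hl hm hu hT hx
  have hQn : Z.Q (j - 1) ∉ O (Z.h j) := by
    intro hQ
    have h1 := h.two _ hQ
    have h2 := hsm _ (Z.Q_T hl) (Z.h_mem_Q _)
    omega
  -- a slot of value at most one
  obtain ⟨q, hq, hq1⟩ : ∃ q ∈ P, m q ≤ 1 := by
    rcases hs.ownL j hp hl hQn with h1 | ⟨h1, h2, h3⟩
    · obtain ⟨T, hT⟩ := hs.ne _ h1
      exact ⟨_, h1, (hmm _ h1 T hT).trans (hsm T ⟨hs.slots.sub _ h1 T hT, hs.slots.clq _ h1 T hT⟩
        (hs.slots.hub _ h1 T hT))⟩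
    · refine ⟨_, h1, (hmm _ h1 _ h3).trans (hsm _ (Z.Q_T h2) ?_)⟩
      have h4 := Z.h1_mem_Q (j - 2)
      have e2 : j - 2 + 1 = j - 1 := by ring
      rw [e2] at h4
      exact h4
  have hsum : ∑ p ∈ P, m p ≤ 2 * (P.card : ℤ) - 1 := by
    rw [← Finset.sum_erase_add P m hq]
    have h1 : ∑ p ∈ P.erase q, m p ≤ ∑ p ∈ P.erase q, (2 : ℤ) :=
      Finset.sum_le_sum fun p hp' => hcap p (Finset.mem_of_mem_erase hp')
    rw [Finset.sum_const, nsmul_eq_mul, Finset.card_erase_of_mem hq] at h1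
    have h2 : 1 ≤ P.card := Finset.card_pos.2 ⟨q, hq⟩
    push_cast [Nat.cast_sub h2] at h1
    linarith
  have hblk := hs.blk j (Z.lk_re h.lk) hp
  have hcount := ICk_count hs h.stab ((Z.bl (2 * j + 2) ∪ Z.bl (2 * j + 3)) ∪
      ((Z.bl (2 * (j - 1) - 1) ∪ Z.bl (2 * (j - 1))) ∪ Z.bl (2 * (j - 1) + 1)))
    (fun T hT => MM_pos hC.pr h.stab ⟨u, h.uD⟩ hT.1 hT.2) (by
      intro T hT hS
      simp only [Finset.mem_union, not_or] at hS
      obtain ⟨b, hb⟩ := Z.ex T hT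
      rcases h.val hC hblk hb with h1 | rfl | rfl | ⟨_, _, h1⟩
      · exact h1
      · exact absurd hb hS.1.1
      · exact absurd hb hS.1.2
      · rcases h1 with rfl | rfl | rfl
        · exact absurd hb hS.2.1.1
        · exact absurd hb hS.2.1.2
        · exact absurd hb hS.2.2)
  have hu1 := ICk_union hs (Z.bl (2 * j + 2) ∪ Z.bl (2 * j + 3))
    ((Z.bl (2 * (j - 1) - 1) ∪ Z.bl (2 * (j - 1))) ∪ Z.bl (2 * (j - 1) + 1))
  have hu2 := ICk_union hs (Z.bl (2 * j + 2)) (Z.bl (2 * j + 3))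
  have hu3 := ICk_union hs (Z.bl (2 * (j - 1) - 1) ∪ Z.bl (2 * (j - 1))) (Z.bl (2 * (j - 1) + 1))
  have hu4 := ICk_union hs (Z.bl (2 * (j - 1) - 1)) (Z.bl (2 * (j - 1)))
  have hg := hs.gapR j hp h.lk h.Q1
  have hst := hs.star (j - 1)
  have he0 := hs.e0
  have hek := hs.ek
  have h5 : (2 : ℝ) * P.card - 2 < (cc G A D : ℝ) := by linarith
  have h6 : (2 : ℤ) * P.card - 2 < cc G A D := by exact_mod_cast h5
  omega

end Pool.Agent.H.MP_ebc13b_lc.h46
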