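import Pool.Agent.H.MP_ebc13b_lc.h46.ICf
import Pool.Agent.H.MP_ebc13b_lc.h46.ICj
import Pool.Agent.H.MP_ebc13b_lc.h46.ICk

/-!
Interior cores: the row of a set with an interior core.
-/

namespace Pool.Agent.H.MP_ebc13b_lc.h46

open Pool.Agent.H.MP_ebc13b_lc.h53

variable {α : Type*} [DecidableEq α] {G : SimpleGraph α} {A P D : Finset α}
  {O : α → Finset (Finset α)} {col : α → ZMod 3} {Z : ZLine G A col} {z : Finset α → ℝ}
  {ε κ : ℝ} {u t t' : α}

/-- Proof. `Loc.a1`, `Loc.a2` or `Loc.a3`. -/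
theorem Loc.row {j b0 b2 : ℤ} {w2 v2 : α}
    (h : Loc G A col Z D (O (Z.h j)) j u t' w2 v2 b0 b2) (hC : PC G A col)
    (hf : Full G A D) (hs : SysOK Z P O z ε κ) (hp : Z.h j ∈ P)
    (hF : ∀ F, MaxS G A F → SlotRow G A P O F) : SlotRow G A P O D := by
  by_cases h1 : Z.lk (j - 1) ∧ Z.mid (j - 1) ∈ D
  · obtain ⟨hl, hm⟩ := h1
    by_cases h2 : ∀ e ∈ D, col e = col (Z.h j) + 1 → e = Z.mid (j - 1)
    · exact h.a2 hC hs hp hl hm h2
    · simp only [not_forall] at h2
      obtain ⟨e, he, hec, hem⟩ := h2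
      exact h.a3 hC hf hs.slots hs.ne hp hF hl hm he hem hec
  · exact h.a1 hC hs hp h1

/-- The case of a split slot adjacent to `t`. -/
theorem ICfin_aux (hic : IC G A D u t t') (hC : PC G A col) (hf : Full G A D)
    (hs : SysOK Z P O z ε κ) (hF : ∀ F, MaxS G A F → SlotRow G A P O F) {p w1 w2 v2 : α}
    (hp : p ∈ P) (hsp : SplitAt G A D (O p) p t t' w1 w2 v2) : SlotRow G A P O D := by
  have hT : ∀ T ∈ O p, IsT G A T := fun T hT => ⟨hs.slots.sub p hp T hT, hs.slots.clq p hp T hT⟩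
  have hpA : p ∈ A := nb_sub hsp.pN
  have hne : col p ≠ col t := hC.col p hpA t hic.tA hsp.pt
  rcases z3_cases _ _ hne with hc | hc
  · have hcol := hic.colours hC hf hT hsp
    obtain ⟨j, b0, b2, hpj, _, hloc⟩ := loc_of (Z := Z) hic hC hT hsp hcol hc
    subst hpj
    exact hloc.row hC hf hs hp hF
  · have hcol := hic.colours hC.rev hf hT hsp
    have hc' : rcol col t = rcol col p + 1 := (z3_neg1 _ _).2 hc
    obtain ⟨j, b0, b2, hpj, _, hloc⟩ := loc_of (Z := Z.mirror hC) hic hC.rev hT hsp hcol hc'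
    subst hpj
    exact hloc.row hC.rev hf (hs.mirror hC) hp hF

/-- Proof. If no slot is split: `IC.row`. Otherwise let `p` be a split slot. `IC.split_adj`, for `hic` or
for `hic.symm` (`Split.symm`), so assume `SplitAt G A D (O p) p t t' w1 w2 v2`; `IC.colours`. `p ~ t`, so
`col t = col p + 1` or `col t = col p + 2` (`z3_cases`). In the first case `loc_of` and `Loc.row`. In
the second case the same for `Z.mirror hC`, `rcol col`, `hC.rev`, `hs.mirror` (`rcol col t =
rcol col p + 1`; `SplitCol` for `rcol col` by `IC.colours` again). -/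
theorem IC.final (hic : IC G A D u t t') (hC : PC G A col) (hf : Full G A D)
    (hs : SysOK Z P O z ε κ) (hF : ∀ F, MaxS G A F → SlotRow G A P O F) :
    SlotRow G A P O D := by
  by_cases hns : ∀ p ∈ P, ¬ Split G A D (O p) t t'
  · exact hic.row hC.pr hf hs.slots hs.ne hF hns
  · simp only [not_forall, not_not] at hns
    obtain ⟨p, hp, hsplit⟩ := hns
    have hT : ∀ T ∈ O p, IsT G A T :=
      fun T hT => ⟨hs.slots.sub p hp T hT, hs.slots.clq p hp T hT⟩
    rcases hic.split_adj hC hT (hs.slots.hub p hp) hsplit with ⟨w1, w2, v2, h⟩ | ⟨w1, w2, v2, h⟩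
    · exact ICfin_aux hic hC hf hs hF hp h
    · exact ICfin_aux hic.symm hC hf hs hF hp h

end Pool.Agent.H.MP_ebc13b_lc.h46
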