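import Pool.Agent.H.MP_ebc13b_lc.h46.ICDefs

/-!
Interior cores: the triangles met by `D`, the triangles with a small value.
-/

namespace Pool.Agent.H.MP_ebc13b_lc.h46

open Pool.Agent.H.MP_ebc13b_lc.h53

variable {α : Type*} [DecidableEq α] {G : SimpleGraph α} {A P D : Finset α}
  {col : α → ZMod 3} {Z : ZLine G A col} {Op : Finset (Finset α)} {j b0 b2 : ℤ}
  {u t' w2 v2 : α}

/-- elements of `D` do not see vertices outside -/
private theorem ICg_out {w d : α} (hw : Out G A D w) (hd : d ∈ D) : ¬ G.Adj d w :=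
  fun h => hw.2.2 (mem_nb.2 ⟨hw.1, d, hd, h.symm⟩)

/-- elements of `D` are not in `N(D)` -/
private theorem ICg_nb {d : α} (hs : Stab G A D) (hd : d ∈ D) : d ∉ nb G A D :=
  fun h => Finset.disjoint_left.1 hs.disj h hd

/-- Let `c = col (h j)`. A triangle which contains an element `d` of `D` of colour `c` contains
`h (j+1)`.

Proof. Suppose not `inS (j+1) b`. `inS j b` is impossible: `h j ∈ T` has the colour of `d`, so
`d = h j ∈ N(D)`. `b ≠ 2 j + 1`. So `T` and `Q j` are disjoint (`ZLine.disj_of`). Let `e ∈ D` see `h j`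
(`ex2`), so `col e = c + 1` (`dich`; `e` is not of the first type), `e ∉ T` (`D` is stable), `e` sees
exactly one vertex of `T`, not `d`, not the one of colour `c + 1`, so it sees the one of colour `c + 2`:
`vlt e T`. `vgt e (Q j)` (it sees `h j`). If `2 j + 1 < b`: `tlt (Q j) T`, so `vgt d (Q j)`
(`PC.tlt_gt`), so `d ~ mid j` (`gt_adj`), but `mid j` is outside. If `b < 2 j + 1`: `ZLine.inv` for
`T` and `Q j`: `e = mid (j-1)`, `b = 2 j - 3` or `b = 2 j - 2`. If `b2 = 2 j - 1` then `T₂ = Q (j-1)`
contains `e ∈ D`, so `MM D T₂ = 1` (`MM_of_mem`), contradiction to `two`. So `b2 = 2 j`, `T` and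
`T₂` are disjoint, `tlt T T₂`, so `vlt d T₂`: `d ~ w2` (`lt_adj`), but `w2` is outside. -/
theorem Loc.met_c (h : Loc G A col Z D Op j u t' w2 v2 b0 b2) (hC : PC G A col) {b : ℤ}
    {T : Finset α} (hT : T ∈ Z.bl b) {d : α} (hd : d ∈ D) (hdT : d ∈ T)
    (hc : col d = col (Z.h j)) : inS (j + 1) b := by
  by_contra hn
  have iT := Z.isT _ _ hT
  have iQ := Z.Q_T h.lk
  have hQ := Z.Q_mem h.lk
  have hcm := Z.colm j h.lk
  have hnj : ¬ inS j b := by
    intro h1
    have h2 := hC.col_inj iT hdT (Z.mem' hT h1) hc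
    exact ICg_nb h.stab hd (h2 ▸ h.hN)
  have hdisj : Disjoint T (Z.Q j) := by
    refine Z.disj_of hT hQ ?_ ?_
    · rintro rfl
      have := Z.uniq _ _ _ hT hQ
      apply hnj
      rw [inS_iff]
      omega
    · intro i h1 h2
      rw [inS_iff] at h2
      have h3 : i = j ∨ i = j + 1 := by omega
      rcases h3 with rfl | rfl
      · exact hnj h1
      · exact hn h1
  obtain ⟨e, he, hej⟩ := h.ex2
  have heA : e ∈ A := h.stab.1 he
  rcases h.dich e he with ⟨_, _, h1, _⟩ | ⟨_, hej1, _, _, hce⟩
  · exact absurd hej h1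
  have hneq : e ≠ d := by
    rintro rfl
    rw [hc] at hce
    revert hce
    generalize col (Z.h j) = a
    revert a
    decide
  have heT : e ∉ T := fun hm => h.stab.2 e he d hd (iT.adj hm hdT hneq)
  have hlt : vlt G col e T := by
    refine hC.lt_of_not_gt iT heA heT ?_
    rintro ⟨_, x, hx, hex, hxc⟩
    have hxd : x = d := by
      refine hC.col_inj iT hx hdT ?_
      rw [hxc, hce, hc]
      generalize col (Z.h j) = a
      revert a
      decide
    subst hxd
    exact h.stab.2 e he x hd hex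
  have hgt : vgt G col e (Z.Q j) := by
    refine ⟨?_, Z.h j, Z.h_mem_Q j, hej, ?_⟩
    · intro hm
      rcases Z.Q_cases hm with h1 | h1 | h1
      · rw [h1] at hej
        exact G.loopless.irrefl _ hej
      · rw [h1] at he
        exact h.midO.2.1 he
      · rw [h1] at he
        exact ICg_nb h.stab he h.h1N
    · rw [hce]
      generalize col (Z.h j) = a
      revert a
      decide
  rcases lt_trichotomy (2 * j + 1) b with hlb | hlb | hlb
  · have ht := Z.dis _ _ _ _ hQ hT hdisj.symm hlb
    have hg := hC.tlt_gt iQ iT ht d hdT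
    have hadj := hC.gt_adj iQ hg (Z.mid_mem_Q j) (by rw [hcm, hc])
    exact ICg_out h.midO hd hadj
  · apply hnj
    rw [inS_iff]
    omega
  · obtain ⟨i, hli, hei, hb1, hb2⟩ := Z.inv hC hT hQ hlb heA hlt hgt
    have hij : i = j - 1 := by omega
    subst hij
    rcases h.b2 with hb | hb
    · have hT2 := h.bT2
      have e1 : b2 = 2 * (j - 1) + 1 := by omega
      rw [e1] at hT2
      have e2 := Z.eq_Q hT2
      have h5 : e ∈ ({Z.h j, w2, v2} : Finset α) := by
        rw [e2, hei]
        exact Z.mid_mem_Q _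
      have iT2 := Z.isT _ _ h.bT2
      have h6 := (MM_of_mem h.stab iT2.1 iT2.2 he h5).1
      have h7 := h.two _ h.T2
      omega
    · have hT2 := h.bT2
      have iT2 := Z.isT _ _ h.bT2
      have hd2 : Disjoint T ({Z.h j, w2, v2} : Finset α) := by
        refine Z.disj_of hT hT2 (Z.ne_of_lt hT hT2 (by omega)) ?_
        intro k h1 h2
        rw [inS_iff] at h1 h2
        omega
      have ht := Z.dis _ _ _ _ hT hT2 hd2 (by omega)
      have hadj := hC.lt_adj iT2 (ht d hdT) (u := w2) (by simp) (by rw [h.cw2, hc])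
      exact ICg_out h.w2O hd hadj

/-- A triangle which contains an element `e` of `D` of colour `c + 1` contains `h j`.

Proof. Suppose not `inS j b`. `inS (j+1) b` is impossible: `h (j+1) ∈ T` has the colour of `e`, but it is
in `N(D)`. So `T` and `Q j` are disjoint. `u ∉ T`. Every `d ∈ D` of colour `c` is not in `T` and sees the
vertex of `T` of colour `c + 2` (not `e`, not the vertex of the same colour): `vgt d T`. `e ~ h j`. If
`b < 2 j + 1`: `tlt T (Q j)`, so `vlt e (Q j)` and `e ~ mid j`, contradiction. If `2 j + 1 < b`: then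
`b ≥ 2 j + 4 > b0`. Let `T₀ = {u, h (j+1), t'} ∈ bl b0`, `T ≠ T₀`. If `T₀`, `T` are disjoint:
`tlt T₀ T`, `vlt u T`, contradiction to `vgt u T` (`not_both`). Otherwise they share some `h k`, `inS k b0`
and `inS k b`, so `k = j + 2`; `h k ≠ u`, `h k ≠ h (j+1)`, so `t' = h k ∈ T`. By `ex1` some `d ∈ D`,
`d ≠ u`, sees `h (j+1)`; it has colour `c` (`dich`), it does not see `t'` (`PC.nb_unique` for
`T₀`, `d ∉ T₀`). But it sees the vertex of `T` of colour `c + 2`, which is `t'`. -/
theorem Loc.met_c1 (h : Loc G A col Z D Op j u t' w2 v2 b0 b2) (hC : PC G A col) {b : ℤ}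
    {T : Finset α} (hT : T ∈ Z.bl b) {e : α} (he : e ∈ D) (heT : e ∈ T)
    (hc : col e = col (Z.h j) + 1) : inS j b := by
  by_contra hn
  have iT := Z.isT _ _ hT
  have iQ := Z.Q_T h.lk
  have hQ := Z.Q_mem h.lk
  have hcm := Z.colm j h.lk
  have hc1 := Z.col1 j h.lk
  have hnj : ¬ inS (j + 1) b := by
    intro h1
    have h2 := hC.col_inj iT heT (Z.mem' hT h1) (hc.trans hc1.symm)
    exact ICg_nb h.stab he (h2 ▸ h.h1N)
  have hdisj : Disjoint T (Z.Q j) := by
    refine Z.disj_of hT hQ ?_ ?_
    · rintro rfl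
      have := Z.uniq _ _ _ hT hQ
      apply hn
      rw [inS_iff]
      omega
    · intro i h1 h2
      rw [inS_iff] at h2
      have h3 : i = j ∨ i = j + 1 := by omega
      rcases h3 with rfl | rfl
      · exact hn h1
      · exact hnj h1
  -- the elements of `D` of colour `c`
  have hD : ∀ d ∈ D, col d = col (Z.h j) → vgt G col d T := by
    intro d hd hcd
    have hne : d ≠ e := by
      rintro rfl
      rw [hcd] at hc
      revert hc
      generalize col (Z.h j) = a
      revert a
      decide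
    have hdT : d ∉ T := fun hm => h.stab.2 d hd e he (iT.adj hm heT hne)
    refine hC.gt_of_not_lt iT (h.stab.1 hd) hdT ?_
    rintro ⟨_, x, hx, hdx, hxc⟩
    have hxe : x = e := hC.col_inj iT hx heT (by rw [hxc, hcd, hc])
    subst hxe
    exact h.stab.2 d hd x he hdx
  have huT : u ∉ T := (hD u h.uD h.cu).1
  rcases lt_trichotomy (2 * j + 1) b with hlb | hlb | hlb
  · -- `T` is on the right
    have hb4 : 2 * j + 4 ≤ b := by
      rw [inS_iff] at hnj
      omega
    have hT0 := h.bT0
    have iT0 := Z.isT _ _ hT0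
    have hb0 : b0 = 2 * j + 2 ∨ b0 = 2 * j + 3 := h.b0
    have hne : ({u, Z.h (j + 1), t'} : Finset α) ≠ T := Z.ne_of_lt hT0 hT (by omega)
    by_cases hd0 : Disjoint ({u, Z.h (j + 1), t'} : Finset α) T
    · have ht := Z.dis _ _ _ _ hT0 hT hd0 (by omega)
      exact hC.not_both iT (h.stab.1 h.uD) (ht u (by simp)) (hD u h.uD h.cu)
    · obtain ⟨x, hx0, hxT⟩ := Finset.not_disjoint_iff.1 hd0
      have hxt : x = t' := by
        simp only [Finset.mem_insert, Finset.mem_singleton] at hx0
        rcases hx0 with h1 | h1 | h1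
        · exact absurd (h1 ▸ hxT) huT
        · rw [h1] at hxT
          exact absurd ((Z.hub_iff (Z.lk_re1 h.lk) hT).1 hxT) hnj
        · exact h1
      rw [hxt] at hxT
      obtain ⟨d, hd, hdu, hdh⟩ := h.ex1
      rcases h.dich d hd with ⟨_, _, _, hcd⟩ | ⟨_, h1, _⟩
      · have hgt := hD d hd hcd
        have hadj := hC.gt_adj iT hgt hxT (by rw [h.ct', hcd])
        have hd0' : d ∉ ({u, Z.h (j + 1), t'} : Finset α) := by
          simp only [Finset.mem_insert, Finset.mem_singleton, not_or]
          refine ⟨hdu, ?_, ?_⟩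
          · rintro rfl
            exact G.loopless.irrefl _ hdh
          · rintro rfl
            exact G.loopless.irrefl _ hadj
        have heq := hC.nb_unique iT0 (h.stab.1 hd) hd0' (x := Z.h (j + 1)) (y := t') (by simp)
          (by simp) hdh hadj
        have h2 := h.ct'
        rw [← heq, hc1] at h2
        exact z3_12 _ h2
      · exact h1 hdh
  · apply hn
    rw [inS_iff]
    omega
  · have ht := Z.dis _ _ _ _ hT hQ hdisj hlb
    have hadj := hC.lt_adj iQ (ht e heT) (Z.mid_mem_Q j) (by rw [hcm, hc, z3_11])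
    exact ICg_out h.midO he hadj

end Pool.Agent.H.MP_ebc13b_lc.h46
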