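import Pool.Agent.H.MP_ebc13b_lc.h46.ICg

/-!
Interior cores: lower and upper bounds for the values of the triangles.
-/

namespace Pool.Agent.H.MP_ebc13b_lc.h46

open Pool.Agent.H.MP_ebc13b_lc.h53

variable {α : Type*} [DecidableEq α] {G : SimpleGraph α} {A P D : Finset α}
  {col : α → ZMod 3} {Z : ZLine G A col} {Op : Finset (Finset α)} {j b0 b2 : ℤ}
  {u t' w2 v2 : α}

/-- Let `c = col (h j)`. If `T` does not meet `D` and `MM D T ≤ 1`, then `T` contains `h (j-1)`, and
`mid (j-1)` is the only element of `D` of colour `c + 1`.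

Proof. `MM D T = 1` (`MM_pos`), so `T ∩ N(D)` has one element `x` (`MM_of_disj`). Every `d ∈ D` sees a
vertex of `T`, which is in `N(D)`, so `d ~ x`. `u ~ x` and the `e` of `ex2` sees `x`: `col x = c + 2`.
`x ≠ t'`: the `d` of `ex1` does not see `t'` (it sees `h (j+1)`). `T₀ = {u, h (j+1), t'}` and `T` are
disjoint: `u ∈ D`, `h (j+1) ∈ N(D)` has not the colour of `x`, `t'` has the colour of `x`. `vlt x T₀`
(`x ~ u`), so `b < b0`: `b ≠ b0` (both triangles in `bl b0` contain `h (j+1)`), and `b0 < b` would give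
`tlt T₀ T`, `vgt x T₀` (`PC.tlt_gt`). `h (j+1) ∉ T`, so `b < 2 j + 1`; `h j ∉ T` (`hN`, colour), so
`b < 2 j - 1`. Let `e ∈ D`, `col e = c + 1`: `e ~ x` gives `vlt e T`, and `e ~ h j` (`dich`) gives
`vgt e (Q j)`: `ZLine.inv`: `e = mid (j-1)`, `lk (j-1)`, `b = 2 j - 3` or `b = 2 j - 2`. -/
theorem Loc.low (h : Loc G A col Z D Op j u t' w2 v2 b0 b2) (hC : PC G A col) {b : ℤ}
    {T : Finset α} (hT : T ∈ Z.bl b) (hd : Disjoint T D) (hm : MM G A D T ≤ 1) :
    Z.lk (j - 1) ∧ Z.mid (j - 1) ∈ D ∧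
      (∀ e ∈ D, col e = col (Z.h j) + 1 → e = Z.mid (j - 1)) ∧ inS (j - 1) b := by
  have iT := Z.isT _ _ hT
  have iT0 := Z.isT _ _ h.bT0
  have hlk := h.lk
  have hc1 := Z.col1 j hlk
  have hpos := MM_pos hC.pr h.stab ⟨u, h.uD⟩ iT.1 iT.2
  have hm1 : MM G A D T = 1 := le_antisymm hm hpos
  rw [MM_of_disj hd] at hm1
  have hcard : (T ∩ nb G A D).card = 1 := by exact_mod_cast hm1
  obtain ⟨x, hx⟩ := Finset.card_eq_one.1 hcard
  have hxm : x ∈ T ∩ nb G A D := by rw [hx]; exact Finset.mem_singleton_self x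
  obtain ⟨hxT, hxN⟩ := Finset.mem_inter.1 hxm
  have hxu : ∀ y ∈ T, y ∈ nb G A D → y = x := by
    intro y hy hyN
    have : y ∈ T ∩ nb G A D := Finset.mem_inter.2 ⟨hy, hyN⟩
    rw [hx, Finset.mem_singleton] at this
    exact this
  have hDT : ∀ d ∈ D, d ∉ T := fun d hdD hdT => Finset.disjoint_left.1 hd hdT hdD
  have hadj : ∀ d ∈ D, G.Adj d x := by
    intro d hdD
    obtain ⟨y, hy, hdy, _⟩ := hC.pr T iT.1 iT.2 d (h.stab.1 hdD) (hDT d hdD)
    have hyN : y ∈ nb G A D := mem_nb.2 ⟨iT.1 hy, d, hdD, hdy.symm⟩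
    rw [← hxu y hy hyN]
    exact hdy
  have hxA : x ∈ A := iT.1 hxT
  obtain ⟨e, heD, heh⟩ := h.ex2
  have hec : col e = col (Z.h j) + 1 := by
    rcases h.dich e heD with h1 | h1
    · exact absurd heh h1.2.2.1
    · exact h1.2.2.2.2
  have hxc : col x = col (Z.h j) + 2 := by
    have h1 := hC.col u (h.stab.1 h.uD) x hxA (hadj u h.uD)
    have h2 := hC.col e (h.stab.1 heD) x hxA (hadj e heD)
    rw [h.cu] at h1
    rw [hec] at h2
    revert h1 h2
    generalize col (Z.h j) = a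
    generalize col x = b
    revert a b
    decide
  have hxt : x ≠ t' := by
    intro hxt
    obtain ⟨d, hdD, hdu, hdh⟩ := h.ex1
    have hdt : G.Adj d t' := hxt ▸ hadj d hdD
    have hut : G.Adj u t' := hxt ▸ hadj u h.uD
    have hdT0 : d ∉ ({u, Z.h (j + 1), t'} : Finset α) := by
      simp only [Finset.mem_insert, Finset.mem_singleton, not_or]
      exact ⟨hdu, hdh.ne, hdt.ne⟩
    have h1 := hC.nb_unique iT0 (h.stab.1 hdD) hdT0 (x := Z.h (j + 1)) (y := t') (by simp) (by simp)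
      hdh hdt
    have h2 := hc1
    rw [h1, h.ct'] at h2
    exact z3_12 _ h2.symm
  have hh1T : Z.h (j + 1) ∉ T := by
    intro h1
    have h2 := hxu _ h1 h.h1N
    rw [h2, hxc] at hc1
    exact z3_12 _ hc1.symm
  have hdT0 : Disjoint ({u, Z.h (j + 1), t'} : Finset α) T := by
    rw [Finset.disjoint_left]
    intro y hy hyT
    simp only [Finset.mem_insert, Finset.mem_singleton] at hy
    rcases hy with rfl | rfl | rfl
    · exact hDT _ h.uD hyT
    · exact hh1T hyT
    · exact hxt (hC.col_inj iT hxT hyT (hxc.trans h.ct'.symm))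
  have hlt : vlt G col x {u, Z.h (j + 1), t'} := by
    refine ⟨Finset.disjoint_right.1 hdT0 hxT, u, by simp, (hadj u h.uD).symm, ?_⟩
    rw [hxc, h.cu, z3_21]
  have hb1 : ¬ inS (j + 1) b := fun h1 => hh1T (Z.mem' hT h1)
  have hb2 : b < b0 := by
    have hb0 := h.b0
    have hne : b ≠ b0 := by
      rintro rfl
      apply hb1
      unfold inS
      omega
    by_contra hcon
    have hlt2 := Z.dis b0 b _ T h.bT0 hT hdT0 (by omega)
    exact hC.not_both iT0 hxA hlt (hC.tlt_gt iT0 iT hlt2 x hxT)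
  have hhT : Z.h j ∉ T := by
    intro h1
    have h2 := hxu _ h1 h.hN
    rw [← h2] at hxc
    revert hxc
    generalize col (Z.h j) = a
    revert a
    decide
  have hb3 : ¬ inS j b := fun h1 => hhT (Z.mem' hT h1)
  have hb4 : b < 2 * j - 1 := by
    have hb0 := h.b0
    unfold inS at hb1 hb3
    omega
  have key : ∀ e ∈ D, col e = col (Z.h j) + 1 →
      Z.lk (j - 1) ∧ e = Z.mid (j - 1) ∧ inS (j - 1) b := by
    intro e heD hec
    have heA := h.stab.1 heD
    have heh : G.Adj e (Z.h j) := by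
      rcases h.dich e heD with h1 | h1
      · exfalso
        have h2 := hec.symm.trans h1.2.2.2
        revert h2
        generalize col (Z.h j) = a
        revert a
        decide
      · exact h1.1
    have h1 : vlt G col e T := by
      refine ⟨hDT e heD, x, hxT, hadj e heD, ?_⟩
      rw [hxc, hec, z3_11]
    have h2 : vgt G col e (Z.Q j) := by
      refine ⟨?_, Z.h j, Z.h_mem_Q j, heh, ?_⟩
      · intro hm
        rcases Z.Q_cases hm with h3 | h3 | h3
        · exact heh.ne h3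
        · exact h.midO.2.1 (h3 ▸ heD)
        · exact Finset.disjoint_left.1 h.stab.disj h.h1N (h3 ▸ heD)
      · rw [hec]
        generalize col (Z.h j) = a
        revert a
        decide
    obtain ⟨i, hi, he, hbi, hbj⟩ := Z.inv hC hT (Z.Q_mem hlk) (by omega) heA h1 h2
    have hij : i = j - 1 := by omega
    subst hij
    refine ⟨hi, he, ?_⟩
    unfold inS
    omega
  obtain ⟨k1, k2, k3⟩ := key e heD hec
  exact ⟨k1, k2 ▸ heD, fun e' he' hc' => (key e' he' hc').2.1, k3⟩

/-- Proof. If `T` does not meet `D`: `MM D T ≥ 2` or `low`. If `d ∈ D ∩ T` has colour `c`: `met_c`,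
`b = 2 j + 1` (then `T = Q j ∈ Op`, `two`), or `2 j + 2` or `2 j + 3`. If `d` has colour `c + 1`:
`met_c1`; `b = 2 j` or `2 j + 1`: `T ∈ Op`, `two`; `b = 2 j - 1`: `T = Q (j-1)`, `lk (j-1)`, and
`d` is the vertex `mid (j-1)` (colours). -/
theorem Loc.val (h : Loc G A col Z D Op j u t' w2 v2 b0 b2) (hC : PC G A col)
    (hblk : Z.bl (2 * j) ⊆ Op) {b : ℤ} {T : Finset α} (hT : T ∈ Z.bl b) :
    2 ≤ MM G A D T ∨ b = 2 * j + 2 ∨ b = 2 * j + 3 ∨
      (Z.lk (j - 1) ∧ Z.mid (j - 1) ∈ D ∧ inS (j - 1) b) := by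
  have iT := Z.isT _ _ hT
  by_cases hd : Disjoint T D
  · by_cases hm : 2 ≤ MM G A D T
    · exact Or.inl hm
    · have h1 := h.low hC hT hd (by omega)
      exact Or.inr (Or.inr (Or.inr ⟨h1.1, h1.2.1, h1.2.2.2⟩))
  obtain ⟨d, hdT, hdD⟩ := Finset.not_disjoint_iff.1 hd
  have hdc : col d = col (Z.h j) ∨ col d = col (Z.h j) + 1 := by
    rcases h.dich d hdD with h1 | h1
    · exact Or.inl h1.2.2.2
    · exact Or.inr h1.2.2.2.2
  have hQ : b = 2 * j + 1 → 2 ≤ MM G A D T := by
    rintro rfl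
    rw [Z.eq_Q hT]
    exact h.two _ h.Q1
  rcases hdc with hdc | hdc
  · have h1 := h.met_c hC hT hdD hdT hdc
    unfold inS at h1
    rcases h1 with h1 | h1 | h1
    · exact Or.inl (hQ (by omega))
    · exact Or.inr (Or.inl (by omega))
    · exact Or.inr (Or.inr (Or.inl (by omega)))
  · have h1 := h.met_c1 hC hT hdD hdT hdc
    unfold inS at h1
    rcases h1 with h1 | h1 | h1
    · have hbe : b = 2 * (j - 1) + 1 := by omega
      subst hbe
      have hlk : Z.lk (j - 1) := ⟨T, hT⟩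
      have hTQ := Z.eq_Q hT
      rw [hTQ] at hdT
      have hcj := Z.col1 (j - 1) hlk
      have ej : j - 1 + 1 = j := by ring
      rw [ej] at hcj
      refine Or.inr (Or.inr (Or.inr ⟨hlk, ?_, ?_⟩))
      · rcases Z.Q_cases hdT with h3 | h3 | h3
        · exfalso
          rw [h3, hcj] at hdc
          revert hdc
          generalize col (Z.h (j - 1)) = a
          revert a
          decide
        · exact h3 ▸ hdD
        · exfalso
          rw [h3, ej] at hdc
          revert hdc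
          generalize col (Z.h j) = a
          revert a
          decide
      · unfold inS
        omega
    · subst h1
      exact Or.inl (h.two _ (hblk hT))
    · exact Or.inl (hQ h1)

/-- Proof. Otherwise `T ⊆ N(D)` and `T` does not meet `D` (`MM_three`). `b < 2 j - 1`: let `x ∈ T` have the
colour `c + 1`, `x ~ d ∈ D`; `col d = c` (`dich`, `PC.col`), so `vlt d T`. `d ~ v2` (`dich`):
`vgt d T₂` (`d ∉ T₂`, as `MM D T₂ ≥ 2`). `ZLine.inv` for `T`, `T₂`: `d = mid i`, `b2 = 2 i + 2`, so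
`b2 = 2 j`, `i = j - 1` and `col d = c + 1` (`mid_col`), contradiction; or `b2 = 2 i + 3`,
`i = j - 2`, and `d ∈ Q (j-2)`: contradiction to `met_c`. `b > 2 j + 3`: let `x ∈ T` have the
colour `c`, `x ~ d ∈ D`, `col d = c + 1`: `vgt d T`; `d ~ t'`: `vlt d T₀` (`d ∉ T₀`: `u ∈ D` is
the only element of `D` in `T₀`). `ZLine.inv` for `T₀`, `T`: `d = mid i`, `b0 = 2 i`, `i = j + 1`,
`col d = c` , contradiction; or `b0 = 2 i - 1`, `i = j + 2`, `d ∈ Q (j+2)`: contradiction to
`met_c1`. -/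
theorem Loc.up (h : Loc G A col Z D Op j u t' w2 v2 b0 b2) (hC : PC G A col) {b : ℤ}
    {T : Finset α} (hT : T ∈ Z.bl b) (h1 : ¬ inS j b) (h2 : ¬ inS (j + 1) b) :
    MM G A D T ≤ 2 := by
  have iT := Z.isT _ _ hT
  by_contra hcon
  have h3 : MM G A D T = 3 := le_antisymm (MM_le iT.2) (by omega)
  obtain ⟨hsub, hdis⟩ := MM_three h.stab iT.1 iT.2 h3
  have hDT : ∀ d ∈ D, d ∉ T := fun d hdD hdT => Finset.disjoint_left.1 hdis hdT hdD
  have hb : b < 2 * j - 1 ∨ 2 * j + 3 < b := by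
    unfold inS at h1 h2
    omega
  rcases hb with hb | hb
  · obtain ⟨x, hxT, hxc⟩ := hC.ex_col iT (col (Z.h j) + 1)
    obtain ⟨_, d, hdD, hxd⟩ := mem_nb.1 (hsub hxT)
    have hdA := h.stab.1 hdD
    have hdt : G.Adj d v2 ∧ col d = col (Z.h j) := by
      rcases h.dich d hdD with h4 | h4
      · exact ⟨h4.2.1, h4.2.2.2⟩
      · exact absurd (hxc.trans h4.2.2.2.2.symm) (hC.col x (iT.1 hxT) d hdA hxd)
    have k1 : vlt G col d T := ⟨hDT d hdD, x, hxT, hxd.symm, by rw [hxc, hdt.2]⟩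
    have iT2 := Z.isT _ _ h.bT2
    have k2 : vgt G col d {Z.h j, w2, v2} := by
      refine ⟨fun hm => ?_, v2, by simp, hdt.1, by rw [h.cv2, hdt.2]⟩
      have h5 := (MM_of_mem h.stab iT2.1 iT2.2 hdD hm).1
      have h6 := h.two _ h.T2
      omega
    have hb2 := h.b2
    obtain ⟨i, hi, he, hbi, hbj⟩ := Z.inv hC hT h.bT2 (by omega) hdA k1 k2
    have hij : i = j - 1 ∨ i = j - 2 := by omega
    rcases hij with rfl | rfl
    · have h5 := Z.mid_col hi
      have ej : j - 1 + 1 = j := by ring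
      rw [← he, ej, hdt.2] at h5
      revert h5
      generalize col (Z.h j) = a
      revert a
      decide
    · have h5 := h.met_c hC (Z.Q_mem hi) hdD (he ▸ Z.mid_mem_Q (j - 2)) hdt.2
      unfold inS at h5
      omega
  · obtain ⟨x, hxT, hxc⟩ := hC.ex_col iT (col (Z.h j))
    obtain ⟨_, d, hdD, hxd⟩ := mem_nb.1 (hsub hxT)
    have hdA := h.stab.1 hdD
    have hdt : G.Adj d t' ∧ col d = col (Z.h j) + 1 := by
      rcases h.dich d hdD with h4 | h4
      · exact absurd (hxc.trans h4.2.2.2.symm) (hC.col x (iT.1 hxT) d hdA hxd)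
      · exact ⟨h4.2.2.2.1, h4.2.2.2.2⟩
    have k1 : vgt G col d T := by
      refine ⟨hDT d hdD, x, hxT, hxd.symm, ?_⟩
      rw [hxc, hdt.2]
      generalize col (Z.h j) = a
      revert a
      decide
    have iT0 := Z.isT _ _ h.bT0
    have k2 : vlt G col d {u, Z.h (j + 1), t'} := by
      refine ⟨fun hm => ?_, t', by simp, hdt.1, by rw [h.ct', hdt.2, z3_11]⟩
      have h5 := (MM_of_mem h.stab iT0.1 iT0.2 h.uD (by simp)).2 d hm ?_
      · exact h5.2 hdD
      · rintro rfl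
        have h6 := hdt.2.symm.trans h.cu
        revert h6
        generalize col (Z.h j) = a
        revert a
        decide
    have hb0 := h.b0
    obtain ⟨i, hi, he, hbi, hbj⟩ := Z.inv hC h.bT0 hT (by omega) hdA k2 k1
    have hij : i = j + 1 ∨ i = j + 2 := by omega
    rcases hij with rfl | rfl
    · have h5 := Z.colm _ hi
      rw [← he, hdt.2, Z.col1 j h.lk] at h5
      revert h5
      generalize col (Z.h j) = a
      revert a
      decide
    · have h5 := h.met_c1 hC (Z.Q_mem hi) hdD (he ▸ Z.mid_mem_Q (j + 2)) hdt.2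
      unfold inS at h5
      omega

end Pool.Agent.H.MP_ebc13b_lc.h46
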