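import Pool.Agent.H.MP_ebc13b_lc.h46.Defs

/-!
Perfect matchings, fractional perfect matchings, labelled barriers, the core.
-/

namespace Pool.Agent.H.MP_ebc13b_lc.h46

variable {α : Type*} [DecidableEq α]

/-- `G[W]` has a perfect matching, given as an involution of `W` -/
def PMon (G : SimpleGraph α) (W : Finset α) : Prop :=
  ∃ f : α → α, ∀ v ∈ W, f v ∈ W ∧ G.Adj v (f v) ∧ f (f v) = v

/-- `G[W]` has a fractional perfect matching -/
def FPM (G : SimpleGraph α) (W : Finset α) : Prop :=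
  ∃ y : α → α → ℝ, (∀ u v, 0 ≤ y u v) ∧ (∀ u v, y u v = y v u) ∧
    (∀ u v, y u v ≠ 0 → G.Adj u v ∧ u ∈ W ∧ v ∈ W) ∧ ∀ v ∈ W, ∑ u ∈ W, y v u = 1

open Classical in
/-- the union of the triangles inside `A` -/
noncomputable def core (G : SimpleGraph α) (A : Finset α) : Finset α :=
  A.filter (fun v => ∃ T ⊆ A, G.IsNClique 3 T ∧ v ∈ T)

/-- the class of the label `i` -/
def cls (W S : Finset α) (c : α → ℕ) (i : ℕ) : Finset α := (W \ S).filter (fun v => c v = i)

/-- the labels of the odd classes -/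
def oddl (W S : Finset α) (c : α → ℕ) : Finset ℕ :=
  ((W \ S).image c).filter (fun i => Odd (cls W S c i).card)

/-- `S` is a set of vertices of `G[W]` and `c` labels the other ones, constant on components -/
structure Bar (G : SimpleGraph α) (W S : Finset α) (c : α → ℕ) : Prop where
  sub : S ⊆ W
  mono : ∀ x ∈ W \ S, ∀ y ∈ W \ S, G.Adj x y → c x = c y

section basic

variable {G : SimpleGraph α} {A W S : Finset α} {c : α → ℕ}

theorem mem_core {v : α} : v ∈ core G A ↔ v ∈ A ∧ ∃ T ⊆ A, G.IsNClique 3 T ∧ v ∈ T := by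
  classical
  unfold core
  rw [Finset.mem_filter]

theorem core_sub : core G A ⊆ A := fun _ h => (mem_core.1 h).1

theorem mem_cls {i : ℕ} {v : α} : v ∈ cls W S c i ↔ (v ∈ W ∧ v ∉ S) ∧ c v = i := by
  unfold cls
  rw [Finset.mem_filter, Finset.mem_sdiff]

theorem mem_oddl {i : ℕ} : i ∈ oddl W S c ↔ Odd (cls W S c i).card := by
  unfold oddl
  rw [Finset.mem_filter]
  constructor
  · exact fun h => h.2
  · intro h
    refine ⟨?_, h⟩
    have h0 : 0 < (cls W S c i).card := h.pos
    obtain ⟨v, hv⟩ := Finset.card_pos.1 h0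
    obtain ⟨h1, h2⟩ := mem_cls.1 hv
    exact Finset.mem_image.2 ⟨v, Finset.mem_sdiff.2 h1, h2⟩

theorem fpm_of_feas {O : α → Finset (Finset α)} (h : Feas G W ∅ O) : FPM G W := by
  obtain ⟨z, y, h⟩ := h
  refine ⟨y, h.y0, h.ysymm, h.yE, ?_⟩
  intro v hv
  have := h.cover v hv
  simpa [load] using this

end basic

end Pool.Agent.H.MP_ebc13b_lc.h46
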