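import Pool.Agent.H.MP_ebc13b_lc.h46.Step
import Pool.Agent.H.MP_ebc13b_lc.h46.PDefs

/-!
The linear program, and integral solutions.
-/

namespace Pool.Agent.H.MP_ebc13b_lc.h46

variable {α : Type*} [DecidableEq α]

/-- the linear program: a fractional partition of `A` into triangles of total weight `t` and edges -/
def LPF (G : SimpleGraph α) (A : Finset α) (t : ℕ) : Prop :=
  ∃ (z : Finset α → ℝ) (y : α → α → ℝ), (∀ T, 0 ≤ z T) ∧
    (∀ T, z T ≠ 0 → T ⊆ A ∧ G.IsNClique 3 T) ∧ (∑ T ∈ A.powerset, z T = t) ∧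
    (∀ u v, 0 ≤ y u v) ∧ (∀ u v, y u v = y v u) ∧
    (∀ u v, y u v ≠ 0 → G.Adj u v ∧ u ∈ A ∧ v ∈ A) ∧
    ∀ v ∈ A, ∑ u ∈ A, y v u + ∑ T ∈ A.powerset, (if v ∈ T then z T else 0) = 1

/-- `t` disjoint triangles such that the rest has a fractional perfect matching -/
def ISol (G : SimpleGraph α) (A : Finset α) (t : ℕ) : Prop :=
  ∃ S : Finset (Finset α), S.card = t ∧ (∀ T ∈ S, T ⊆ A ∧ G.IsNClique 3 T) ∧
    (∀ T ∈ S, ∀ T' ∈ S, T ≠ T' → Disjoint T T') ∧ FPM G (A \ S.biUnion id)

variable {G : SimpleGraph α} {A P : Finset α} {O : α → Finset (Finset α)}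

theorem lpf_sum (hS : Slots G A P O) (f : Finset α → ℝ) :
    ∑ T ∈ A.powerset, (if T ∈ P.biUnion O then f T else 0) = ∑ p ∈ P, ∑ T ∈ O p, f T := by
  classical
  rw [Finset.sum_ite_mem, Finset.inter_eq_right.2, Finset.sum_biUnion]
  · intro p hp q hq hpq
    simp only [Function.onFun]
    rw [Finset.disjoint_left]
    intro T hT hT'
    have h1 := hS.disj p hp q hq hpq T hT T hT'
    exact Finset.disjoint_left.1 h1 (hS.hub p hp T hT) (hS.hub p hp T hT)
  · intro T hT
    obtain ⟨p, hp, hT'⟩ := Finset.mem_biUnion.1 hT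
    exact Finset.mem_powerset.2 (hS.sub p hp T hT')

/-- A feasible slot system gives a solution of the linear program.

Proof. `(z, y)` the solution of the slot system, `z' T = z T` if `T ∈ P.biUnion O`, `0` otherwise. The
sets `O p`, `p ∈ P`, are pairwise disjoint (an option is nonempty, and options of different slots are
disjoint), and contained in `A.powerset`, so sums over `A.powerset` of `z'` times a function are sums
over `p ∈ P` and `T ∈ O p` (`Finset.sum_biUnion`, `Finset.sum_subset`). -/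
theorem lpf_of_feas (hS : Slots G A P O) (hF : Feas G A P O) : LPF G A P.card := by
  classical
  obtain ⟨z, y, hx⟩ := hF
  refine ⟨fun T => if T ∈ P.biUnion O then z T else 0, y, ?_, ?_, ?_, hx.y0, hx.ysymm, hx.yE, ?_⟩
  · intro T
    dsimp only
    split_ifs with h
    · obtain ⟨p, hp, hT⟩ := Finset.mem_biUnion.1 h
      exact hx.z0 p hp T hT
    · exact le_rfl
  · intro T hT
    have h : T ∈ P.biUnion O := by
      by_contra h
      exact hT (if_neg h)
    obtain ⟨p, hp, hT'⟩ := Finset.mem_biUnion.1 h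
    exact ⟨hS.sub p hp T hT', hS.clq p hp T hT'⟩
  · rw [lpf_sum hS z]
    rw [Finset.sum_congr rfl hx.z1, Finset.sum_const, nsmul_eq_mul, mul_one]
  · intro v hv
    have h1 := hx.cover v hv
    unfold load at h1
    rw [← h1]
    congr 1
    rw [← lpf_sum hS (fun T => if v ∈ T then z T else 0)]
    refine Finset.sum_congr rfl fun T _ => ?_
    by_cases h2 : v ∈ T
    · rw [if_pos h2, if_pos h2]
    · rw [if_neg h2, if_neg h2, ite_self]

/-- Proof: the sum of the `z T`, `T ⊆ A`, is `0`, so they all vanish. -/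
theorem isol_zero (h : LPF G A 0) : ISol G A 0 := by
  obtain ⟨z, y, h1, _, h3, h4, h5, h6, h7⟩ := h
  refine ⟨∅, Finset.card_empty, by simp, by simp, ?_⟩
  rw [Finset.biUnion_empty, Finset.sdiff_empty]
  refine ⟨y, h4, h5, h6, ?_⟩
  intro v hv
  have h8 : ∀ T ∈ A.powerset, z T = 0 := by
    rw [← Finset.sum_eq_zero_iff_of_nonneg fun T _ => h1 T, h3, Nat.cast_zero]
  have h9 := h7 v hv
  rw [Finset.sum_eq_zero (s := A.powerset), add_zero] at h9
  · exact h9
  · intro T hT
    rw [h8 T hT, ite_self]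

/-- Proof: `insert T S`; `T ∉ S` because `T` is nonempty and the elements of `S` are contained in
`A \ T`; `A \ (insert T S).biUnion id = (A \ T) \ S.biUnion id`. -/
theorem isol_insert {T : Finset α} {t : ℕ} (hT : T ⊆ A) (h3 : G.IsNClique 3 T)
    (h : ISol G (A \ T) t) : ISol G A (t + 1) := by
  classical
  obtain ⟨S, h1, h2, h4, h5⟩ := h
  obtain ⟨x, hx⟩ : T.Nonempty := by
    rw [← Finset.card_pos, h3.card_eq]
    exact Nat.succ_pos 2
  have hTS : T ∉ S := fun hm => (Finset.mem_sdiff.1 ((h2 T hm).1 hx)).2 hx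
  have hd : ∀ T' ∈ S, Disjoint T' T := fun T' hT' =>
    (Finset.subset_sdiff.1 (h2 T' hT').1).2
  refine ⟨insert T S, ?_, ?_, ?_, ?_⟩
  · rw [Finset.card_insert_of_notMem hTS, h1]
  · intro T' hT'
    rcases Finset.mem_insert.1 hT' with h | h
    · rw [h]
      exact ⟨hT, h3⟩
    · exact ⟨(h2 T' h).1.trans Finset.sdiff_subset, (h2 T' h).2⟩
  · intro T₁ h6 T₂ h7 hne
    rcases Finset.mem_insert.1 h6 with h8 | h8
    · rcases Finset.mem_insert.1 h7 with h9 | h9
      · exact absurd (h8.trans h9.symm) hne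
      · rw [h8]
        exact (hd T₂ h9).symm
    · rcases Finset.mem_insert.1 h7 with h9 | h9
      · rw [h9]
        exact hd T₁ h8
      · exact h4 T₁ h8 T₂ h9 hne
  · have he : A \ (insert T S).biUnion id = (A \ T) \ S.biUnion id := by
      rw [Finset.biUnion_insert]
      ext v
      simp only [Finset.mem_union, Finset.mem_sdiff, id]
      tauto
    rw [he]
    exact h5

end Pool.Agent.H.MP_ebc13b_lc.h46
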