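import Pool.Agent.H.MP_ebc13b_lc.h46.NoShift

/-!
Rounding: the induction.
-/

namespace Pool.Agent.H.MP_ebc13b_lc.h46

open Pool.Agent.H.MP_ebc13b_lc.h53

variable {α : Type*} [DecidableEq α] {G : SimpleGraph α} {A P : Finset α} {col : α → ZMod 3}
  {O : α → Finset (Finset α)}

/-- From a feasible slot system one gets an integral solution, or a triangle which can be deleted.

Proof. Let `idx p` be the index of the hub `p` (`0` if there is none). Among the feasible slot systems
`(P', O')` with `P'.card = P.card` and all slots hubs, take one with `∑ p ∈ P', idx p` maximal (the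
sums are at most `P.card * L.m`: use `Nat.findGreatest` or strong induction on
`P.card * L.m - ∑ p ∈ P, idx p`). Apply `step`. In the first alternative we are done (`Feas.congr`
not needed: `T` is a triangle in `A`, `lpf_of_feas` for `A \ T` with `Slots.del`). In the second
alternative, as `P'` is nonempty, take the slot `h i` with the largest index; `shift_feas` (for `O'`)
gives a feasible system with a larger sum, contradiction. -/
theorem reduce (hC : PC G A col) (L : Line G A col) (hS : Slots G A P O) (hF : Feas G A P O)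
    (hP : ∀ p ∈ P, ∃ j < L.m, p = L.h j) (hpar : Even (A.card + P.card))
    (hne : P.Nonempty) :
    ∃ T, IsT G A T ∧ LPF G (A \ T) (P.card - 1) := by
  classical
  induction' hn : ∑ j ∈ (Finset.range L.m).filter (fun j => L.h j ∈ P), (L.m - j) using
    Nat.strong_induction_on with n ih generalizing P O
  obtain ⟨O', hsub, hS', h⟩ := step hC.pr hS hF
  rcases h with ⟨p, hp, T, hT, hF'⟩ | ⟨z, y, hx, hH, hV⟩
  · have hTO : T ∈ O' p := by rw [hT]; exact Finset.mem_singleton_self T
    refine ⟨T, ⟨hS'.sub p hp T hTO, hS'.clq p hp T hTO⟩, ?_⟩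
    have h1 := lpf_of_feas (hS'.del hp hTO) hF'
    rwa [Finset.card_erase_of_mem hp] at h1
  · have hne' : ((Finset.range L.m).filter (fun j => L.h j ∈ P)).Nonempty := by
      obtain ⟨p, hp⟩ := hne
      obtain ⟨j, hj, rfl⟩ := hP p hp
      exact ⟨j, Finset.mem_filter.2 ⟨Finset.mem_range.2 hj, hp⟩⟩
    obtain ⟨i, hi, hmax⟩ := Finset.exists_max_image _ (fun j => j) hne'
    obtain ⟨hi1, hi2⟩ := Finset.mem_filter.1 hi
    rw [Finset.mem_range] at hi1
    obtain ⟨h1, h2, h3, h4⟩ := shift_feas hC L hS' hx hpar hH hV hP hi1 hi2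
      (fun j hj hjP => hmax j (Finset.mem_filter.2 ⟨Finset.mem_range.2 hj, hjP⟩))
    have hcard : (insert (L.h (i + 1)) (P.erase (L.h i))).card = P.card := by
      rw [Finset.card_insert_of_notMem (fun hm => h1 (Finset.mem_of_mem_erase hm)),
        Finset.card_erase_add_one hi2]
    have hfil : (Finset.range L.m).filter
        (fun j => L.h j ∈ insert (L.h (i + 1)) (P.erase (L.h i))) =
        insert (i + 1) (((Finset.range L.m).filter (fun j => L.h j ∈ P)).erase i) := by
      ext j
      simp only [Finset.mem_filter, Finset.mem_range, Finset.mem_insert, Finset.mem_erase]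
      constructor
      · rintro ⟨hj, hj' | ⟨hj1, hj2⟩⟩
        · exact Or.inl (L.inj j hj (i + 1) h2 hj')
        · refine Or.inr ⟨?_, hj, hj2⟩
          rintro rfl
          exact hj1 rfl
      · rintro (rfl | ⟨hj1, hj2, hj3⟩)
        · exact ⟨h2, Or.inl rfl⟩
        · exact ⟨hj2, Or.inr ⟨fun e => hj1 (L.inj j hj2 i hi1 e), hj3⟩⟩
    have hlt : ∑ j ∈ (Finset.range L.m).filter
        (fun j => L.h j ∈ insert (L.h (i + 1)) (P.erase (L.h i))), (L.m - j) < n := by
      rw [hfil, Finset.sum_insert, ← hn, ← Finset.add_sum_erase _ _ hi]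
      · have : L.m - (i + 1) < L.m - i := by omega
        exact Nat.add_lt_add_right this _
      · rw [Finset.mem_erase, Finset.mem_filter]
        rintro ⟨_, _, h5⟩
        exact h1 h5
    have hP' : ∀ p ∈ insert (L.h (i + 1)) (P.erase (L.h i)), ∃ j < L.m, p = L.h j := by
      intro p hp
      rcases Finset.mem_insert.1 hp with rfl | hp
      · exact ⟨i + 1, h2, rfl⟩
      · exact hP p (Finset.mem_of_mem_erase hp)
    obtain ⟨T, hT1, hT2⟩ := ih _ hlt h3 h4 hP' (by rwa [hcard]) (Finset.insert_nonempty _ _) rfl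
    rw [hcard] at hT2
    exact ⟨T, hT1, hT2⟩

private theorem round_par {T : Finset α} (hT : IsT G A T) {t : ℕ} (hpar : Even (A.card + (t + 1))) :
    Even ((A \ T).card + t) := by
  have h1 := hT.2.card_eq
  have h2 := Finset.card_le_card hT.1
  rw [Finset.card_sdiff_of_subset hT.1]
  rw [Nat.even_iff] at hpar ⊢
  omega

/-- The sampling theorem for all induced subgraphs implies the rounding theorem.

Proof. Induction on `t`. `t = 0`: `isol_zero`. Otherwise take a `Line` for `A` (`exists_line`; if `A` is
empty then `t = 0`, so `α` is nonempty), `T1`, `reduce`, the induction hypothesis for `A \ T`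
(`Even ((A \ T).card + (t - 1))`), `isol_insert`. -/
theorem round_all (hT1 : ∀ B ⊆ A, T1 G B col) (hC : PC G A col) (hN : NoCyc G A col)
    (hP : NoPar G A col) {t : ℕ} (h : LPF G A t) (hpar : Even (A.card + t)) : ISol G A t := by
  classical
  induction' t with t ih generalizing A
  · exact isol_zero h
  · haveI : Nonempty α := by
      rcases A.eq_empty_or_nonempty with rfl | ⟨x, _⟩
      · exfalso
        obtain ⟨z, y, _, h2, h3, _⟩ := h
        rw [Finset.powerset_empty, Finset.sum_singleton] at h3
        have h4 : z ∅ ≠ 0 := by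
          rw [h3]
          exact Nat.cast_ne_zero.2 (Nat.succ_ne_zero t)
        have h5 := (h2 ∅ h4).2.card_eq
        rw [Finset.card_empty] at h5
        omega
      · exact ⟨x⟩
    obtain ⟨L⟩ := exists_line hC hN hP
    obtain ⟨P, O, hc, hPi, hS, hF⟩ := hT1 A (Finset.Subset.refl A) L (t + 1) h hpar
    obtain ⟨T, hT, hL⟩ := reduce hC L hS hF hPi (by rwa [hc])
      (Finset.card_pos.1 (by rw [hc]; exact Nat.succ_pos t))
    rw [hc, Nat.add_sub_cancel] at hL
    exact isol_insert hT.1 hT.2 (ih (fun B hB => hT1 B (hB.trans Finset.sdiff_subset))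
      (pc_mono hC Finset.sdiff_subset) (nocyc_mono hN Finset.sdiff_subset)
      (nopar_mono hP Finset.sdiff_subset) hL (round_par hT hpar))

/-- The version which starts with a slot system.

Proof. `P = ∅`: `FPM G A` by `fpm_of_feas`, `S = ∅`. Otherwise `reduce`, then `round_all` for `A \ T`,
`isol_insert`. -/
theorem round_slots (hT1 : ∀ B ⊆ A, T1 G B col) (hC : PC G A col) (hN : NoCyc G A col)
    (hP : NoPar G A col) (L : Line G A col) (hS : Slots G A P O) (hF : Feas G A P O)
    (hP' : ∀ p ∈ P, ∃ j < L.m, p = L.h j) (hpar : Even (A.card + P.card)) :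
    ISol G A P.card := by
  classical
  rcases P.eq_empty_or_nonempty with rfl | hne
  · refine ⟨∅, by simp, by simp, by simp, ?_⟩
    rw [Finset.biUnion_empty, Finset.sdiff_empty]
    exact fpm_of_feas hF
  · obtain ⟨T, hT, hL⟩ := reduce hC L hS hF hP' hpar hne
    obtain ⟨n, hn⟩ : ∃ n, P.card = n + 1 := Nat.exists_eq_succ_of_ne_zero (Finset.card_pos.2 hne).ne'
    rw [hn] at hpar hL ⊢
    rw [Nat.add_sub_cancel] at hL
    exact isol_insert hT.1 hT.2 (round_all (fun B hB => hT1 B (hB.trans Finset.sdiff_subset))
      (pc_mono hC Finset.sdiff_subset) (nocyc_mono hN Finset.sdiff_subset)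
      (nopar_mono hP Finset.sdiff_subset) hL (round_par hT hpar))

end Pool.Agent.H.MP_ebc13b_lc.h46
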