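import Pool.Agent.H.MP_ebc13b_lc.h46.FinT
import Pool.Agent.H.MP_ebc13b_lc.h53.Elim
import Pool.Agent.H.MP_ebc13b_lc.h73.T1D

/-!
The main theorem on three-coloured prismatic graphs with the constant 512.
-/

namespace Pool.Agent.H.MP_ebc13b_lc.h46

open Pool.Agent.H.MP_ebc13b_lc.h53

theorem main512 : Main 512 := by
  intro G A col t e hC hA he hle hev
  have hpos : (0 : ℝ) < (A.card : ℝ) + 1 := by positivity
  have he1 : e < 1 := by
    by_contra hcon
    push Not at hcon
    have h1 : (1 : ℝ) ≤ (A.card : ℝ) + 1 := by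
      have : (0 : ℝ) ≤ (A.card : ℝ) := Nat.cast_nonneg _
      linarith
    have h2 : ((512 : ℕ) : ℝ) * ((A.card : ℝ) + 1) * e ≥ 512 * 1 * 1 := by
      push_cast
      have h3 : (512 : ℝ) * ((A.card : ℝ) + 1) ≥ 512 * 1 := by linarith
      nlinarith
    norm_num at h2 hle
    linarith
  refine elim (n := A.card) he1 ?_ G A col t le_rfl hC hA hev
  intro G' A' col' t' hn hC' hcyc hpar hA' hev'
  refine Pool.Agent.H.MP_ebc13b_lc.h73.round_alp hC' hcyc hpar hA' ?_ hev'
  have hcard : (A'.card : ℝ) ≤ A.card := by exact_mod_cast hn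
  have h5 : (512 : ℝ) * ((A'.card : ℝ) + 1) * e ≤ 512 * ((A.card : ℝ) + 1) * e := by
    have : (512 : ℝ) * ((A'.card : ℝ) + 1) ≤ 512 * ((A.card : ℝ) + 1) := by linarith
    exact mul_le_mul_of_nonneg_right this he
  have h6 : (512 : ℝ) * ((A.card : ℝ) + 1) * e ≤ 1 := by
    have := hle
    push_cast at this
    exact this
  linarith

end Pool.Agent.H.MP_ebc13b_lc.h46
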