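import Pool.Agent.H.MP_ebc13b_lc.h46.FT2
import Pool.Agent.H.MP_ebc13b_lc.h46.Del

/-!
Minimal slot systems.
-/

namespace Pool.Agent.H.MP_ebc13b_lc.h46

variable {α : Type*} [DecidableEq α] {G : SimpleGraph α} {A P : Finset α}
  {O : α → Finset (Finset α)} {z : Finset α → ℝ} {y : α → α → ℝ}

/-- In a minimal system all the weights are positive: if `z T = 0` then `(z, y)` is a solution for
the system without the option `T` of `p` (other slots do not change; `load` does not change as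
`z T = 0`). -/
theorem pos_of_min (hS : Slots G A P O) (hx : FSol G A P O z y) {p : α} (hp : p ∈ P)
    {T : Finset α} (hT : T ∈ O p)
    (hmin : ¬ Feas G A P (Function.update O p ((O p).erase T))) : 0 < z T := by
  by_contra hcon
  have hz : z T = 0 := le_antisymm (not_lt.1 hcon) (hx.z0 p hp T hT)
  have key : ∀ (f : Finset α → ℝ), f T = 0 → ∀ q,
      ∑ T₁ ∈ Function.update O p ((O p).erase T) q, f T₁ = ∑ T₁ ∈ O q, f T₁ := by
    intro f hf q
    by_cases hq : q = p
    · subst hq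
      rw [Function.update_self, Finset.sum_erase _ hf]
    · rw [Function.update_of_ne hq]
  apply hmin
  refine ⟨z, y, ?_, ?_, hx.y0, hx.ysymm, hx.yE, ?_⟩
  · intro q hq T₁ hT₁
    apply hx.z0 q hq T₁
    by_cases hqp : q = p
    · subst hqp
      rw [Function.update_self] at hT₁
      exact Finset.mem_of_mem_erase hT₁
    · rwa [Function.update_of_ne hqp] at hT₁
  · intro q hq
    rw [key z hz q]
    exact hx.z1 q hq
  · intro v hv
    rw [← hx.cover v hv]
    congr 1
    unfold load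
    apply Finset.sum_congr rfl
    intro q hq
    apply key
    rw [hz]
    simp

/-- One option of a minimal system.

Proof. `T'' ∈ O p`, `T'' ≠ T`. By `pos_of_min` all `z > 0`, so `0 < z T < 1` (there is another option
with positive weight). Let `O' = Function.update O p ((O p).erase T)`, a slot system with nonempty
sets of options; `ft2` gives `D`, `m` with `∑ q ∈ P, m q ≥ cc D + 1`, `m q ≤ MM D T₁` for
`T₁ ∈ O' q`. Write `a q = ∑ T₁ ∈ O q, z T₁ * MM D T₁`. `row_le`: `∑ q ∈ P, a q ≤ cc D`. For `q ≠ p`,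
`m q ≤ a q`. For `p`: `a p ≥ z T * MM D T + (1 - z T) * m p`. So
`1 ≤ ∑ (m q - a q) ≤ m p - a p ≤ z T * (m p - MM D T)`; `D` is nonempty (otherwise all `MM` are `0`,
`m q ≤ 0`, `cc = 0`, contradiction), so `m p ≤ 3`, `MM D T ≥ 1` (`MM_pos`, `MM_le`), `m p - MM D T ≤ 2`.
As `z T < 1`, `m p - MM D T = 2`: `m p = 3`, `MM D T = 1`; `z T ≥ 1 / 2`. -/
theorem one_option (hPr : Prism G A) (hS : Slots G A P O) (hx : FSol G A P O z y)
    (hmin : ∀ p ∈ P, ∀ T ∈ O p, ¬ Feas G A P (Function.update O p ((O p).erase T)))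
    {p : α} (hp : p ∈ P) {T T'' : Finset α} (hT : T ∈ O p) (hT'' : T'' ∈ O p) (hne : T'' ≠ T) :
    1 / 2 ≤ z T ∧ ∃ D, Stab G A D ∧ MM G A D T = 1 ∧ (∀ T₁ ∈ O p, T₁ ≠ T → MM G A D T₁ = 3) ∧
      ∃ m : α → ℤ, (∀ q ∈ P, q ≠ p → ∀ T₁ ∈ O q, m q ≤ MM G A D T₁) ∧ m p = 3 ∧
        cc G A D + 1 ≤ ∑ q ∈ P, m q := by
  classical
  have hzT : 0 < z T := pos_of_min hS hx hp hT (hmin p hp T hT)
  have hzT'' : 0 < z T'' := pos_of_min hS hx hp hT'' (hmin p hp T'' hT'')
  have hzlt : z T < 1 := by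
    have h1 : ∑ x ∈ ({T, T''} : Finset (Finset α)), z x ≤ ∑ x ∈ O p, z x := by
      apply Finset.sum_le_sum_of_subset_of_nonneg
      · intro x hx'
        rw [Finset.mem_insert, Finset.mem_singleton] at hx'
        rcases hx' with rfl | rfl
        · exact hT
        · exact hT''
      · intro x hx' _
        exact hx.z0 p hp x hx'
    rw [Finset.sum_pair hne.symm, hx.z1 p hp] at h1
    linarith
  have hsub : ∀ q ∈ P, Function.update O p ((O p).erase T) q ⊆ O q := by
    intro q hq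
    by_cases hqp : q = p
    · subst hqp
      rw [Function.update_self]
      exact Finset.erase_subset _ _
    · rw [Function.update_of_ne hqp]
  have hS' : Slots G A P (Function.update O p ((O p).erase T)) := hS.sub_opt hsub
  have hne' : ∀ q ∈ P, (Function.update O p ((O p).erase T) q).Nonempty := by
    intro q hq
    by_cases hqp : q = p
    · subst hqp
      rw [Function.update_self]
      exact ⟨T'', Finset.mem_erase.2 ⟨hne, hT''⟩⟩
    · rw [Function.update_of_ne hqp]
      by_contra hcon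
      rw [Finset.not_nonempty_iff_eq_empty] at hcon
      have h1 := hx.z1 q hq
      rw [hcon, Finset.sum_empty] at h1
      norm_num at h1
  obtain ⟨D, hD, m, hm, hc⟩ := ft2 hPr hS' hne' (hmin p hp T hT)
  have hm1 : ∀ q ∈ P, q ≠ p → ∀ T₁ ∈ O q, m q ≤ MM G A D T₁ := by
    intro q hq hqp T₁ hT₁
    apply hm q hq T₁
    rwa [Function.update_of_ne hqp]
  have hm2 : ∀ T₁ ∈ O p, T₁ ≠ T → m p ≤ MM G A D T₁ := by
    intro T₁ hT₁ hT₁'
    apply hm p hp T₁
    rw [Function.update_self]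
    exact Finset.mem_erase.2 ⟨hT₁', hT₁⟩
  have hrow := row_le hS hx hD
  have hDne : D.Nonempty := by
    by_contra hcon
    rw [Finset.not_nonempty_iff_eq_empty] at hcon
    subst hcon
    have hnb : nb G A (∅ : Finset α) = ∅ := by
      ext v
      rw [mem_nb]
      simp
    have hcc : cc G A (∅ : Finset α) = 0 := by
      unfold cc
      rw [hnb]
      simp
    rw [hcc] at hc
    have h1 : ∑ q ∈ P, m q ≤ 0 := by
      apply Finset.sum_nonpos
      intro q hq
      obtain ⟨T₁, hT₁⟩ := hne' q hq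
      have h2 := hm q hq T₁ hT₁
      rwa [MM_empty] at h2
    omega
  have hMT : 1 ≤ MM G A D T := MM_pos hPr hD hDne (hS.sub p hp T hT) (hS.clq p hp T hT)
  have hM3 : ∀ T₁ ∈ O p, MM G A D T₁ ≤ 3 := fun T₁ hT₁ => MM_le (hS.clq p hp T₁ hT₁)
  have hmp3 : m p ≤ 3 := (hm2 T'' hT'' hne).trans (hM3 T'' hT'')
  -- the averages
  have ha : ∀ q ∈ P.erase p, (m q : ℝ) ≤ ∑ T₁ ∈ O q, z T₁ * (MM G A D T₁ : ℝ) := by
    intro q hq
    obtain ⟨hqp, hq⟩ := Finset.mem_erase.1 hq
    calc (m q : ℝ) = ∑ T₁ ∈ O q, z T₁ * (m q : ℝ) := by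
          rw [← Finset.sum_mul, hx.z1 q hq, one_mul]
      _ ≤ ∑ T₁ ∈ O q, z T₁ * (MM G A D T₁ : ℝ) := by
          apply Finset.sum_le_sum
          intro T₁ hT₁
          apply mul_le_mul_of_nonneg_left _ (hx.z0 q hq T₁ hT₁)
          exact_mod_cast hm1 q hq hqp T₁ hT₁
  have hap : z T * (MM G A D T : ℝ) + (1 - z T) * (m p : ℝ) ≤
      ∑ T₁ ∈ O p, z T₁ * (MM G A D T₁ : ℝ) := by
    rw [← Finset.add_sum_erase _ _ hT]
    have h1 : ∑ T₁ ∈ (O p).erase T, z T₁ = 1 - z T := by
      have h2 := hx.z1 p hp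
      rw [← Finset.add_sum_erase _ _ hT] at h2
      linarith
    rw [← h1, Finset.sum_mul]
    have h3 : ∑ T₁ ∈ (O p).erase T, z T₁ * (m p : ℝ) ≤
        ∑ T₁ ∈ (O p).erase T, z T₁ * (MM G A D T₁ : ℝ) := by
      apply Finset.sum_le_sum
      intro T₁ hT₁
      obtain ⟨h4, h5⟩ := Finset.mem_erase.1 hT₁
      apply mul_le_mul_of_nonneg_left _ (hx.z0 p hp T₁ h5)
      exact_mod_cast hm2 T₁ h5 h4
    linarith
  have hc' : (cc G A D : ℝ) + 1 ≤ ∑ q ∈ P, (m q : ℝ) := by
    have h1 : cc G A D + 1 ≤ ∑ q ∈ P, m q := hc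
    exact_mod_cast h1
  rw [← Finset.add_sum_erase _ _ hp] at hc' hrow
  have hsum := Finset.sum_le_sum ha
  have hfin : 1 ≤ z T * ((m p : ℝ) - (MM G A D T : ℝ)) := by
    nlinarith
  have hk1 : 2 ≤ m p - MM G A D T := by
    by_contra hcon
    have h1 : m p - MM G A D T ≤ 1 := by omega
    have h2 : ((m p : ℝ) - (MM G A D T : ℝ)) ≤ 1 := by exact_mod_cast h1
    nlinarith
  have hmp : m p = 3 := by omega
  have hMT1 : MM G A D T = 1 := by omega
  refine ⟨?_, D, hD, hMT1, ?_, m, hm1, hmp, hc⟩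
  · rw [hmp, hMT1] at hfin
    push_cast at hfin
    linarith
  · intro T₁ hT₁ hT₁'
    have h1 := hm2 T₁ hT₁ hT₁'
    have h2 := hM3 T₁ hT₁
    omega

/-- Structure of minimal systems.

Proof. Let `p ∈ P`, two different options `T, T'` (`hge`). By `one_option` for each of them
`z T ≥ 1 / 2`, `z T' ≥ 1 / 2`, all other options of `p` have positive weight (`pos_of_min`) and the sum
is `1`: so `O p = {T, T'}` and both weights are `1/2`. So `Half`. For `T ∈ O p` let `T'` be the other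
option and `D`, `m` from `one_option`. `∑ q, a q ≤ cc D ≤ ∑ q, m q - 1` with `a q` as there,
`a p = (1 + 3) / 2 = 2 = m p - 1`, and `m q ≤ a q` for `q ≠ p`. So `a q = m q` for `q ≠ p` and the row
is tight. Both options of `q` have weight `1/2` and `MM ≥ m q`, so both have `MM = m q`. -/
theorem min_half (hPr : Prism G A) (hS : Slots G A P O) (hx : FSol G A P O z y)
    (hge : ∀ p ∈ P, 2 ≤ (O p).card)
    (hmin : ∀ p ∈ P, ∀ T ∈ O p, ¬ Feas G A P (Function.update O p ((O p).erase T))) :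
    Half P O z ∧ ∀ p ∈ P, ∀ T ∈ O p, ∃ T' ∈ O p, T' ≠ T ∧ ∃ D, Vio G A P O z p T T' D := by
  classical
  have hhalf : Half P O z := by
    intro p hp
    obtain ⟨T, hT, T', hT', hne⟩ := Finset.one_lt_card.1 (hge p hp)
    have h1 := (one_option hPr hS hx hmin hp hT hT' hne.symm).1
    have h2 := (one_option hPr hS hx hmin hp hT' hT hne).1
    have hO : O p = {T, T'} := by
      ext T₁
      rw [Finset.mem_insert, Finset.mem_singleton]
      constructor
      · intro hT₁
        by_contra hcon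
        push Not at hcon
        have h3 := pos_of_min hS hx hp hT₁ (hmin p hp T₁ hT₁)
        have h4 : ∑ x ∈ ({T₁, T, T'} : Finset (Finset α)), z x ≤ ∑ x ∈ O p, z x := by
          apply Finset.sum_le_sum_of_subset_of_nonneg
          · intro x hx'
            rw [Finset.mem_insert, Finset.mem_insert, Finset.mem_singleton] at hx'
            rcases hx' with rfl | rfl | rfl
            · exact hT₁
            · exact hT
            · exact hT'
          · intro x hx' _
            exact hx.z0 p hp x hx'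
        rw [Finset.sum_insert (by
          rw [Finset.mem_insert, Finset.mem_singleton]
          push Not
          exact hcon), Finset.sum_pair hne, hx.z1 p hp] at h4
        linarith
      · rintro (rfl | rfl)
        · exact hT
        · exact hT'
    have h5 := hx.z1 p hp
    rw [hO, Finset.sum_pair hne] at h5
    exact ⟨T, T', hne, hO, by linarith, by linarith⟩
  refine ⟨hhalf, ?_⟩
  intro p hp T hT
  have hex : ∃ T' ∈ O p, T' ≠ T ∧ O p = {T, T'} ∧ z T = 1 / 2 ∧ z T' = 1 / 2 := by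
    obtain ⟨S, S', hne, hO, h1, h2⟩ := hhalf p hp
    rw [hO, Finset.mem_insert, Finset.mem_singleton] at hT
    rcases hT with rfl | rfl
    · refine ⟨S', ?_, hne.symm, hO, h1, h2⟩
      rw [hO]
      simp
    · refine ⟨S, ?_, hne, ?_, h2, h1⟩
      · rw [hO]
        simp
      · rw [hO, Finset.pair_comm]
  obtain ⟨T', hT', hne, hO, hz1, hz2⟩ := hex
  obtain ⟨-, D, hD, h1, h3, m, hm, hmp, hc⟩ := one_option hPr hS hx hmin hp hT hT' hne
  refine ⟨T', hT', hne, D, hD, h1, h3 T' hT' hne, ?_, ?_⟩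
  all_goals
    have hrow := row_le hS hx hD
    have ha : ∀ q ∈ P.erase p, (m q : ℝ) ≤ ∑ T₁ ∈ O q, z T₁ * (MM G A D T₁ : ℝ) := by
      intro q hq
      obtain ⟨hqp, hq⟩ := Finset.mem_erase.1 hq
      calc (m q : ℝ) = ∑ T₁ ∈ O q, z T₁ * (m q : ℝ) := by
            rw [← Finset.sum_mul, hx.z1 q hq, one_mul]
        _ ≤ ∑ T₁ ∈ O q, z T₁ * (MM G A D T₁ : ℝ) := by
            apply Finset.sum_le_sum
            intro T₁ hT₁
            apply mul_le_mul_of_nonneg_left _ (hx.z0 q hq T₁ hT₁)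
            exact_mod_cast hm q hq hqp T₁ hT₁
    have hap : ∑ T₁ ∈ O p, z T₁ * (MM G A D T₁ : ℝ) = 2 := by
      rw [hO, Finset.sum_pair hne.symm, hz1, hz2, h1, h3 T' hT' hne]
      norm_num
    have hc' : (cc G A D : ℝ) + 1 ≤ ∑ q ∈ P, (m q : ℝ) := by
      exact_mod_cast hc
    rw [← Finset.add_sum_erase _ _ hp] at hc' hrow
    rw [hap] at hrow
    rw [hmp] at hc'
    push_cast at hc'
    have hsum := Finset.sum_le_sum ha
  · intro q hq hqp T₁ hT₁ T₂ hT₂
    have heq : (m q : ℝ) = ∑ T₁ ∈ O q, z T₁ * (MM G A D T₁ : ℝ) := by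
      by_contra hcon
      have h5 := Finset.sum_lt_sum ha ⟨q, Finset.mem_erase.2 ⟨hqp, hq⟩,
        lt_of_le_of_ne (ha q (Finset.mem_erase.2 ⟨hqp, hq⟩)) hcon⟩
      linarith
    have hboth : ∀ T₃ ∈ O q, MM G A D T₃ = m q := by
      obtain ⟨S, S', hneS, hOS, hzS, hzS'⟩ := hhalf q hq
      rw [hOS, Finset.sum_pair hneS, hzS, hzS'] at heq
      have h6 : m q ≤ MM G A D S := hm q hq hqp S (by rw [hOS]; simp)
      have h7 : m q ≤ MM G A D S' := hm q hq hqp S' (by rw [hOS]; simp)
      have h8 : 2 * m q = MM G A D S + MM G A D S' := by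
        have h9 : 2 * (m q : ℝ) = (MM G A D S : ℝ) + (MM G A D S' : ℝ) := by linarith
        exact_mod_cast h9
      intro T₃ hT₃
      rw [hOS, Finset.mem_insert, Finset.mem_singleton] at hT₃
      rcases hT₃ with rfl | rfl
      · omega
      · omega
    rw [hboth T₁ hT₁, hboth T₂ hT₂]
  · unfold Tight
    rw [← Finset.add_sum_erase _ _ hp, hap]
    linarith

end Pool.Agent.H.MP_ebc13b_lc.h46
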