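import Pool.Agent.H.MP_ebc13b_lc.h46.Defs

/-!
Potentials: the maximum of the negative parts over the neighbours.
-/

namespace Pool.Agent.H.MP_ebc13b_lc.h46

variable {α : Type*} [DecidableEq α] {G : SimpleGraph α} {A P : Finset α}
  {O : α → Finset (Finset α)}

open Classical in
/-- the maximum of `0` and the values of `ν` at the neighbours of `v` in `A` -/
noncomputable def mx (G : SimpleGraph α) (A : Finset α) (ν : α → ℝ) (v : α) : ℝ :=
  (A.filter (fun u => G.Adj v u)).fold max 0 ν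

/-- a nonnegative function supported on a stable subset of `A` -/
structure Pot (G : SimpleGraph α) (A : Finset α) (ν : α → ℝ) : Prop where
  nn : ∀ v, 0 ≤ ν v
  out : ∀ v, v ∉ A → ν v = 0
  stab : ∀ u v, ν u ≠ 0 → ν v ≠ 0 → ¬ G.Adj u v

/-- `Finset.fold_max_le`, `Finset.le_fold_max` -/
theorem mx_le_iff {ν : α → ℝ} {v : α} {c : ℝ} :
    mx G A ν v ≤ c ↔ 0 ≤ c ∧ ∀ u ∈ A, G.Adj v u → ν u ≤ c := by
  classical
  unfold mx
  rw [Finset.fold_max_le]
  refine and_congr Iff.rfl ?_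
  constructor
  · intro h u hu hvu
    exact h u (Finset.mem_filter.2 ⟨hu, hvu⟩)
  · intro h u hu
    obtain ⟨h1, h2⟩ := Finset.mem_filter.1 hu
    exact h u h1 h2

theorem le_mx_iff {ν : α → ℝ} {v : α} {c : ℝ} (hc : 0 < c) :
    c ≤ mx G A ν v ↔ ∃ u ∈ A, G.Adj v u ∧ c ≤ ν u := by
  classical
  unfold mx
  rw [Finset.le_fold_max]
  constructor
  · rintro (h | ⟨u, hu, h⟩)
    · exact absurd h (not_le.2 hc)
    · obtain ⟨h1, h2⟩ := Finset.mem_filter.1 hu
      exact ⟨u, h1, h2, h⟩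
  · rintro ⟨u, h1, h2, h⟩
    exact Or.inr ⟨u, Finset.mem_filter.2 ⟨h1, h2⟩, h⟩

/-- Reduction of the dual certificate.

Proof. For `v ∈ A` let `ν v = max 0 (-π v)`, and `ν v = 0` outside `A`. If `ν u, ν v ≠ 0` then
`u, v ∈ A` and `π u, π v < 0`, so `u, v` are not adjacent. Put `π' v = mx G A ν v - ν v`. For `v ∈ A`
we have `π' v ≤ π v`: if `π v < 0` then for every neighbour `u ∈ A` of `v`, `π u ≥ -π v > 0`, so
`ν u = 0`, `mx = 0` (`mx_le_iff`) and `π' v = π v`; if `π v ≥ 0` then `ν v = 0` and for every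
neighbour `u ∈ A`: `ν u = max 0 (-π u) ≤ π v`, so `mx ≤ π v`. For `p ∈ P` let
`V p = (O p).biUnion id` and `l' p = l p - ∑ v ∈ V p, (π v - π' v)`. The sets `V p ⊆ A` are pairwise
disjoint (`disj`), so `∑ p ∈ P, ∑ v ∈ V p, (π v - π' v) ≤ ∑ v ∈ A, (π v - π' v)`
(`Finset.sum_biUnion`, `Finset.sum_le_sum_of_subset_of_nonneg`), which gives the last inequality. For
`T ∈ O p`, `∑ v ∈ T, π' v = ∑ v ∈ T, π v - ∑ v ∈ T, (π v - π' v) ≥ l p - ∑ v ∈ V p, (π v - π' v)`. -/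
theorem reduce_cert (hS : Slots G A P O) {π l : α → ℝ}
    (h1 : ∀ u ∈ A, ∀ v ∈ A, G.Adj u v → 0 ≤ π u + π v)
    (h2 : ∀ p ∈ P, ∀ T ∈ O p, l p ≤ ∑ v ∈ T, π v) (h3 : ∑ v ∈ A, π v < ∑ p ∈ P, l p) :
    ∃ (ν l' : α → ℝ), Pot G A ν ∧ (∀ p ∈ P, ∀ T ∈ O p, l' p ≤ ∑ v ∈ T, (mx G A ν v - ν v)) ∧
      ∑ v ∈ A, (mx G A ν v - ν v) < ∑ p ∈ P, l' p := by
  classical
  let ν : α → ℝ := fun v => if v ∈ A then max 0 (-π v) else 0
  have hνA : ∀ v ∈ A, ν v = max 0 (-π v) := fun v hv => if_pos hv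
  have hν0 : ∀ v, v ∉ A → ν v = 0 := fun v hv => if_neg hv
  have hnn : ∀ v, 0 ≤ ν v := by
    intro v
    by_cases hv : v ∈ A
    · rw [hνA v hv]; exact le_max_left _ _
    · rw [hν0 v hv]
  have hpos : ∀ v, ν v ≠ 0 → v ∈ A ∧ π v < 0 := by
    intro v hv
    have hvA : v ∈ A := by
      by_contra h
      exact hv (hν0 v h)
    refine ⟨hvA, ?_⟩
    by_contra h
    push Not at h
    apply hv
    rw [hνA v hvA]
    exact max_eq_left (by linarith)
  have hPot : Pot G A ν := by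
    refine ⟨hnn, hν0, ?_⟩
    intro u v hu hv huv
    obtain ⟨a1, a2⟩ := hpos u hu
    obtain ⟨b1, b2⟩ := hpos v hv
    have := h1 u a1 v b1 huv
    linarith
  have hle : ∀ v ∈ A, mx G A ν v - ν v ≤ π v := by
    intro v hv
    by_cases h : π v < 0
    · have hm : mx G A ν v ≤ 0 := by
        rw [mx_le_iff]
        refine ⟨le_refl _, ?_⟩
        intro u hu hvu
        have := h1 v hv u hu hvu
        rw [hνA u hu]
        exact max_le (le_refl _) (by linarith)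
      have : ν v = -π v := by
        rw [hνA v hv]
        exact max_eq_right (by linarith)
      linarith
    · push Not at h
      have hm : mx G A ν v ≤ π v := by
        rw [mx_le_iff]
        refine ⟨h, ?_⟩
        intro u hu hvu
        have := h1 v hv u hu hvu
        rw [hνA u hu]
        exact max_le h (by linarith)
      have := hnn v
      linarith
  let δ : α → ℝ := fun v => π v - (mx G A ν v - ν v)
  have hδ : ∀ v ∈ A, 0 ≤ δ v := fun v hv => sub_nonneg.2 (hle v hv)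
  let V : α → Finset α := fun p => (O p).biUnion id
  have hVA : ∀ p ∈ P, V p ⊆ A := by
    intro p hp v hv
    obtain ⟨T, hT, hvT⟩ := Finset.mem_biUnion.1 hv
    exact hS.sub p hp T hT hvT
  have hVd : ∀ p ∈ P, ∀ q ∈ P, p ≠ q → Disjoint (V p) (V q) := by
    intro p hp q hq hpq
    rw [Finset.disjoint_left]
    intro v hv hv'
    obtain ⟨T, hT, hvT⟩ := Finset.mem_biUnion.1 hv
    obtain ⟨T', hT', hvT'⟩ := Finset.mem_biUnion.1 hv'
    exact Finset.disjoint_left.1 (hS.disj p hp q hq hpq T hT T' hT') hvT hvT'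
  have hsum : ∑ p ∈ P, ∑ v ∈ V p, δ v ≤ ∑ v ∈ A, δ v := by
    rw [← Finset.sum_biUnion (fun p hp q hq hpq => hVd p hp q hq hpq)]
    refine Finset.sum_le_sum_of_subset_of_nonneg ?_ (fun v hv _ => hδ v hv)
    intro v hv
    obtain ⟨p, hp, hvp⟩ := Finset.mem_biUnion.1 hv
    exact hVA p hp hvp
  refine ⟨ν, fun p => l p - ∑ v ∈ V p, δ v, hPot, ?_, ?_⟩
  · intro p hp T hT
    have hTV : T ⊆ V p := fun v hv => Finset.mem_biUnion.2 ⟨T, hT, hv⟩
    have e1 : ∑ v ∈ T, δ v ≤ ∑ v ∈ V p, δ v :=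
      Finset.sum_le_sum_of_subset_of_nonneg hTV (fun v hv _ => hδ v (hVA p hp hv))
    have e2 : ∑ v ∈ T, δ v = ∑ v ∈ T, π v - ∑ v ∈ T, (mx G A ν v - ν v) := by
      rw [← Finset.sum_sub_distrib]
    have e3 := h2 p hp T hT
    show l p - ∑ v ∈ V p, δ v ≤ _
    linarith
  · show _ < ∑ p ∈ P, (l p - ∑ v ∈ V p, δ v)
    have e4 : ∑ p ∈ P, (l p - ∑ v ∈ V p, δ v) = ∑ p ∈ P, l p - ∑ p ∈ P, ∑ v ∈ V p, δ v :=
      Finset.sum_sub_distrib _ _
    have e2 : ∑ v ∈ A, δ v = ∑ v ∈ A, π v - ∑ v ∈ A, (mx G A ν v - ν v) := by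
      rw [← Finset.sum_sub_distrib]
    rw [e4]
    linarith

end Pool.Agent.H.MP_ebc13b_lc.h46
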