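import Pool.Agent.H.MP_ebc13b_lc.h46.Hered

/-!
Shifting the last slot to the right.
-/

namespace Pool.Agent.H.MP_ebc13b_lc.h46

open Pool.Agent.H.MP_ebc13b_lc.h53

variable {α : Type*} [DecidableEq α] {G : SimpleGraph α} {A P : Finset α} {col : α → ZMod 3}
  {O : α → Finset (Finset α)} {z : Finset α → ℝ} {y : α → α → ℝ}

open Classical in
/-- all triangles through `v` -/
noncomputable def star (G : SimpleGraph α) (A : Finset α) (v : α) : Finset (Finset α) :=
  A.powerset.filter (fun T => G.IsNClique 3 T ∧ v ∈ T)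

theorem mem_star {v : α} {T : Finset α} : T ∈ star G A v ↔ IsT G A T ∧ v ∈ T := by
  classical
  unfold star IsT
  rw [Finset.mem_filter, Finset.mem_powerset, and_assoc]

/-- An option of another slot is disjoint from the triangles through the new hub. -/
theorem Shift_disj (L : Line G A col) (hS : Slots G A P O)
    (hP : ∀ p ∈ P, ∃ j < L.m, p = L.h j)
    (hQ : ∀ j < L.m, L.h j ∈ P → 1 ≤ j ∧ L.lk (j - 1) ∧ L.lk j ∧
      O (L.h j) = {L.Q (j - 1), L.Q j}) {i : ℕ} (hi : i < L.m) (hp : L.h i ∈ P)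
    (hmax : ∀ j < L.m, L.h j ∈ P → j ≤ i) {q : α} (hq : q ∈ P) (hqi : q ≠ L.h i)
    {T T' : Finset α} (hT : T ∈ O q) (hT' : T' ∈ star G A (L.h (i + 1))) : Disjoint T T' := by
  obtain ⟨hT1, hT2⟩ := mem_star.1 hT'
  obtain ⟨i1, i2, i3, i4⟩ := hQ i hi hp
  have him : i + 1 < L.m := L.lk_lt i i3
  obtain ⟨j, hj, rfl⟩ := hP q hq
  obtain ⟨j1, j2, j3, j4⟩ := hQ j hj hq
  have hji : j < i := by
    have h1 := hmax j hj hq
    have h2 : j ≠ i := fun h => hqi (by rw [h])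
    omega
  have hTQ : T = L.Q (j - 1) ∨ T = L.Q j := by
    rw [j4] at hT
    simpa using hT
  have hTT : IsT G A T := by
    rcases hTQ with h | h
    · rw [h]; exact L.Q_T j2
    · rw [h]; exact L.Q_T j3
  have hTb : L.blk T = 2 * (j - 1) + 1 ∨ (L.blk T = 2 * j + 1 ∧ T = L.Q j) := by
    rcases hTQ with h | h
    · left; rw [h]; exact L.Q_blk j2
    · right; exact ⟨by rw [h]; exact L.Q_blk j3, h⟩
  by_contra hnd
  rw [Finset.not_disjoint_iff] at hnd
  obtain ⟨v, hv, hv'⟩ := hnd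
  have hne : T ≠ T' := by
    rintro rfl
    have := (L.hub_iff hTT him).1 hT2
    omega
  obtain ⟨k, hk, rfl⟩ := L.share T T' hTT hT1 hne v hv hv'
  have a1 := (L.hub_iff hTT hk).1 hv
  have a2 := (L.hub_iff hT1 hk).1 hv'
  have a3 := (L.hub_iff hT1 him).1 hT2
  rcases hTb with h | ⟨h, h'⟩
  · omega
  · have hjk : j = i - 1 := by omega
    have h1 : T ∈ O (L.h i) := by
      rw [i4, h', hjk]
      simp
    have h2 := hS.disj _ hp _ hq hqi.symm T h1 T hT
    rw [Finset.disjoint_self_iff_empty] at h2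
    rw [h2] at hv
    exact absurd hv (Finset.notMem_empty _)

/-- The shifted system is a slot system.

Proof. Disjointness: let `q ∈ P`, `q ≠ h i`, `q = h j`, `j < i`, `T ∈ O q`, so `T = Q_{j-1}` or
`T = Q_j` (`hQ`), and `T' ∋ h (i+1)`. If `T, T'` are not disjoint: `T ≠ T'` (by `Line.hub_iff`
`h (i+1) ∉ T`), so `Line.share` gives `h k ∈ T ∩ T'`, `Line.hub_iff`: `k ≤ j + 1` and `k ≥ i`, so
`j + 1 = i = k` and `T = Q_j = Q_{i-1}`. But `Q_{i-1} ∈ O (h i)` (`hQ`), and the options of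
`h i` and `q` are disjoint. -/
theorem shift_slots (L : Line G A col) (hS : Slots G A P O)
    (hP : ∀ p ∈ P, ∃ j < L.m, p = L.h j)
    (hQ : ∀ j < L.m, L.h j ∈ P → 1 ≤ j ∧ L.lk (j - 1) ∧ L.lk j ∧
      O (L.h j) = {L.Q (j - 1), L.Q j}) {i : ℕ} (hi : i < L.m) (hp : L.h i ∈ P)
    (hmax : ∀ j < L.m, L.h j ∈ P → j ≤ i) :
    L.h (i + 1) ∉ P ∧ Slots G A (insert (L.h (i + 1)) (P.erase (L.h i)))
      (Function.update O (L.h (i + 1)) (star G A (L.h (i + 1)))) := by
  obtain ⟨i1, i2, i3, i4⟩ := hQ i hi hp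
  have him : i + 1 < L.m := L.lk_lt i i3
  have hn : L.h (i + 1) ∉ P := by
    intro h
    have := hmax (i + 1) him h
    omega
  have key : ∀ p ∈ insert (L.h (i + 1)) (P.erase (L.h i)), ∀ T,
      T ∈ Function.update O (L.h (i + 1)) (star G A (L.h (i + 1))) p →
      (p = L.h (i + 1) ∧ T ∈ star G A (L.h (i + 1))) ∨ (p ∈ P ∧ p ≠ L.h i ∧ T ∈ O p) := by
    intro p hp' T hT
    rw [Finset.mem_insert] at hp'
    rcases hp' with rfl | hp'
    · left
      rw [Function.update_self] at hT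
      exact ⟨rfl, hT⟩
    · right
      have h1 := Finset.mem_of_mem_erase hp'
      have h2 : p ≠ L.h (i + 1) := by
        rintro rfl
        exact hn h1
      rw [Function.update_of_ne h2] at hT
      exact ⟨h1, Finset.ne_of_mem_erase hp', hT⟩
  refine ⟨hn, ?_, ?_, ?_, ?_⟩
  · intro p hp' T hT
    rcases key p hp' T hT with ⟨rfl, h⟩ | ⟨h1, _, h2⟩
    · exact (mem_star.1 h).1.1
    · exact hS.sub p h1 T h2
  · intro p hp' T hT
    rcases key p hp' T hT with ⟨rfl, h⟩ | ⟨h1, _, h2⟩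
    · exact (mem_star.1 h).1.2
    · exact hS.clq p h1 T h2
  · intro p hp' T hT
    rcases key p hp' T hT with ⟨rfl, h⟩ | ⟨h1, _, h2⟩
    · exact (mem_star.1 h).2
    · exact hS.hub p h1 T h2
  · intro p hp' q hq' hpq T hT T' hT'
    rcases key p hp' T hT with ⟨rfl, h⟩ | ⟨h1, h1', h2⟩
    · rcases key q hq' T' hT' with ⟨rfl, h'⟩ | ⟨h3, h3', h4⟩
      · exact absurd rfl hpq
      · exact (Shift_disj L hS hP hQ hi hp hmax h3 h3' h4 h).symm
    · rcases key q hq' T' hT' with ⟨rfl, h'⟩ | ⟨h3, h3', h4⟩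
      · exact Shift_disj L hS hP hQ hi hp hmax h1 h1' h2 h'
      · exact hS.disj p h1 q h3 hpq T h2 T' h4

end Pool.Agent.H.MP_ebc13b_lc.h46
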