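import Pool.Agent.H.MP_ebc13b_lc.h46.Step

/-!
Replacing a slot by another one: the violator.
-/

namespace Pool.Agent.H.MP_ebc13b_lc.h46

variable {α : Type*} [DecidableEq α] {G : SimpleGraph α} {A P : Finset α}
  {O : α → Finset (Finset α)} {z : Finset α → ℝ} {y : α → α → ℝ}

/-- If the system with the slot `p'` (options `O'`) instead of `p` is infeasible we get a violator.

Proof. `ft2` for `P' = insert p' (P.erase p)` and `Function.update O p' O'` gives `D` and `m` with
`cc D + 1 ≤ m p' + ∑ q ∈ P.erase p, m q`. With `a = MM D T₁`, `b = MM D T₂`: `row_le` gives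
`(a + b) / 2 + ∑ q ∈ P.erase p, ∑ T ∈ O q, z T * MM D T ≤ cc D`, and every term of the sum is
`≥ m q` (`z1`, `z0`). So `a + b ≤ 2 m p' - 2`, `m p' ≤ b` (`T₂ ∈ O'`), `b ≤ 3` (`MM_le`). If
`D = ∅` all `MM` are `0` (`MM_empty`), contradiction; so `1 ≤ a` (`MM_pos`). So `a ≤ b - 2`,
`b = 3`, `a = 1`, `m p' = 3`, and all inequalities are equalities: `Tight`, and
`∑ T ∈ O q, z T * MM D T = m q` for `q ∈ P.erase p`; as `z T > 0` (`Half`), `MM D T = m q`. -/
theorem shift_vio (hPr : Prism G A) (hS : Slots G A P O) (hx : FSol G A P O z y)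
    (hH : Half P O z) {p p' : α} (hp : p ∈ P) (hp' : p' ∉ P) {O' : Finset (Finset α)}
    (hS' : Slots G A (insert p' (P.erase p)) (Function.update O p' O')) {T₁ T₂ : Finset α}
    (hne : T₁ ≠ T₂) (hO : O p = {T₁, T₂}) (hz₁ : z T₁ = 1 / 2) (hz₂ : z T₂ = 1 / 2)
    (hT₂ : T₂ ∈ O')
    (hinf : ¬ Feas G A (insert p' (P.erase p)) (Function.update O p' O')) :
    ∃ D, Vio G A P O z p T₁ T₂ D ∧ ∀ T ∈ O', MM G A D T = 3 := by
  classical
  have hT1 : T₁ ∈ O p := by rw [hO]; simp
  have hT2 : T₂ ∈ O p := by rw [hO]; simp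
  have hne' : ∀ q ∈ insert p' (P.erase p), (Function.update O p' O' q).Nonempty := by
    intro q hq
    by_cases hqp : q = p'
    · subst hqp
      rw [Function.update_self]
      exact ⟨T₂, hT₂⟩
    · rw [Function.update_of_ne hqp]
      have hqP : q ∈ P := Finset.mem_of_mem_erase (Finset.mem_of_mem_insert_of_ne hq hqp)
      rw [Finset.nonempty_iff_ne_empty]
      intro h0
      have h1 := hx.z1 q hqP
      rw [h0, Finset.sum_empty] at h1
      exact zero_ne_one h1
  obtain ⟨D, hD, m, hm, hc⟩ := ft2 hPr hS' hne' hinf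
  have hpe : p' ∉ P.erase p := fun h => hp' (Finset.mem_of_mem_erase h)
  rw [Finset.sum_insert hpe] at hc
  have hmp : ∀ T ∈ O', m p' ≤ MM G A D T := by
    intro T hT
    refine hm p' (Finset.mem_insert_self _ _) T ?_
    rw [Function.update_self]
    exact hT
  have hmq : ∀ q ∈ P.erase p, ∀ T ∈ O q, m q ≤ MM G A D T := by
    intro q hq T hT
    refine hm q (Finset.mem_insert_of_mem hq) T ?_
    have hqp : q ≠ p' := fun h => hpe (h ▸ hq)
    rw [Function.update_of_ne hqp]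
    exact hT
  have hrow := row_le hS hx hD
  rw [← Finset.add_sum_erase P _ hp, hO, Finset.sum_pair hne, hz₁, hz₂] at hrow
  have ha : ∀ q ∈ P.erase p, (m q : ℝ) ≤ ∑ T ∈ O q, z T * (MM G A D T : ℝ) := by
    intro q hq
    have hqP := Finset.mem_of_mem_erase hq
    calc (m q : ℝ) = ∑ T ∈ O q, z T * (m q : ℝ) := by
          rw [← Finset.sum_mul, hx.z1 q hqP, one_mul]
      _ ≤ ∑ T ∈ O q, z T * (MM G A D T : ℝ) :=
          Finset.sum_le_sum fun T hT => mul_le_mul_of_nonneg_left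
            (by exact_mod_cast hmq q hq T hT) (hx.z0 q hqP T hT)
  have hsum : (∑ q ∈ P.erase p, (m q : ℝ)) ≤
      ∑ q ∈ P.erase p, ∑ T ∈ O q, z T * (MM G A D T : ℝ) := Finset.sum_le_sum ha
  have hcR : (cc G A D : ℝ) + 1 ≤ (m p' : ℝ) + ∑ q ∈ P.erase p, (m q : ℝ) := by
    have h1 : cc G A D + 1 ≤ m p' + ∑ q ∈ P.erase p, m q := hc
    exact_mod_cast h1
  have hab : MM G A D T₁ + MM G A D T₂ ≤ 2 * m p' - 2 := by
    have h1 : (MM G A D T₁ : ℝ) + MM G A D T₂ ≤ 2 * m p' - 2 := by linarith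
    exact_mod_cast h1
  have hb : m p' ≤ MM G A D T₂ := hmp T₂ hT₂
  have hb3 : MM G A D T₂ ≤ 3 := MM_le (hS.clq p hp T₂ hT2)
  have hDne : D.Nonempty := by
    rw [Finset.nonempty_iff_ne_empty]
    intro h0
    rw [h0, MM_empty] at hab hb
    rw [MM_empty] at hab
    omega
  have ha1 : 1 ≤ MM G A D T₁ := MM_pos hPr hD hDne (hS.sub p hp T₁ hT1) (hS.clq p hp T₁ hT1)
  have eb : MM G A D T₂ = 3 := by omega
  have ea : MM G A D T₁ = 1 := by omega
  have em : m p' = 3 := by omega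
  have eaR : (MM G A D T₁ : ℝ) = 1 := by exact_mod_cast ea
  have ebR : (MM G A D T₂ : ℝ) = 3 := by exact_mod_cast eb
  have emR : (m p' : ℝ) = 3 := by exact_mod_cast em
  have hsumeq : (∑ q ∈ P.erase p, (m q : ℝ)) =
      ∑ q ∈ P.erase p, ∑ T ∈ O q, z T * (MM G A D T : ℝ) := by
    rw [eaR, ebR] at hrow
    linarith
  have heach := (Finset.sum_eq_sum_iff_of_le ha).1 hsumeq
  refine ⟨D, ⟨hD, ea, eb, ?_, ?_⟩, ?_⟩
  · intro q hq hqp
    have hqe : q ∈ P.erase p := Finset.mem_erase.2 ⟨hqp, hq⟩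
    have hall : ∀ T ∈ O q, MM G A D T = m q := by
      obtain ⟨S, S', hSS, hOq, hzS, hzS'⟩ := hH q hq
      have h1 := heach q hqe
      rw [hOq, Finset.sum_pair hSS, hzS, hzS'] at h1
      have h2 := hmq q hqe S (by rw [hOq]; simp)
      have h3 := hmq q hqe S' (by rw [hOq]; simp)
      have h4 : 2 * m q = MM G A D S + MM G A D S' := by
        have h5 : 2 * (m q : ℝ) = MM G A D S + MM G A D S' := by linarith
        exact_mod_cast h5
      intro T hT
      rw [hOq, Finset.mem_insert, Finset.mem_singleton] at hT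
      rcases hT with rfl | rfl
      · omega
      · omega
    intro S hS1 S' hS2
    rw [hall S hS1, hall S' hS2]
  · unfold Tight
    rw [← Finset.add_sum_erase P _ hp, hO, Finset.sum_pair hne, hz₁, hz₂, eaR, ebR]
    rw [eaR, ebR] at hrow
    linarith
  · intro T hT
    have h1 := hmp T hT
    have h2 : MM G A D T ≤ 3 := by
      refine MM_le (hS'.clq p' (Finset.mem_insert_self _ _) T ?_)
      rw [Function.update_self]
      exact hT
    omega

end Pool.Agent.H.MP_ebc13b_lc.h46
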