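import Pool.Agent.H.MP_ebc13b_lc.h46.HubOpt
import Pool.Agent.H.MP_ebc13b_lc.h46.Shift
import Pool.Agent.H.MP_ebc13b_lc.h46.ShiftV

/-!
The shift of the last slot is always possible.
-/

namespace Pool.Agent.H.MP_ebc13b_lc.h46

open Pool.Agent.H.MP_ebc13b_lc.h53

variable {α : Type*} [DecidableEq α] {G : SimpleGraph α} {A P : Finset α} {col : α → ZMod 3}
  {O : α → Finset (Finset α)} {z : Finset α → ℝ} {y : α → α → ℝ}

/-- A stable set inside `N(h (i-1))`, whose only possible neighbour of `h i` is `mid (i-1)`, sees at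
most two vertices of a triangle through `h (i+1)`, not through `h i`.

Proof. Let `c = col (h i)` and `t ∈ T` the vertex of colour `c` (`ex_col`). If `MM D T = 3`, some
`d ∈ D` sees `t`, `d ∉ T` (`MM_three`). `d` sees `h (i-1)` of colour `c + 2` and `t` of colour `c`,
so `col d = c + 1` (`PC.col`) and `vgt d T`. If `d ∉ Q_{i-1}` then `vlt d Q_{i-1}`, and
`blk Q_{i-1} = 2 i - 1 < blk T` (`hub_iff`: `blk T` is `2 i + 1`, `2 i + 2` or `2 i + 3`, `T` does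
not contain `h i` so it is not `2 i + 1`). `Line.inv`: `d = mid k` with `h k ∈ Q_{i-1}`,
`Q_{i-1} ≠ Q_k`, `h (k+1) ∈ T`: `k = i`, but `col (mid i) = c + 2` (`lk_mid`). If `d ∈ Q_{i-1}` then
`d = mid (i-1)` by its colour (`PC.col_inj`, `mid_col`), and `Line.mid_lt` gives `vlt d T`,
contradiction (`PC.not_both`). -/
theorem no_three (hC : PC G A col) (L : Line G A col) {i : ℕ} (hi1 : 1 ≤ i)
    (hl : L.lk (i - 1)) (hl' : L.lk i) {D : Finset α} (hD : Stab G A D)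
    (hDs : ∀ d ∈ D, G.Adj d (L.h (i - 1))) {T : Finset α} (hT : IsT G A T)
    (h1 : L.h (i + 1) ∈ T) (h2 : L.h i ∉ T) : MM G A D T ≠ 3 := by
  obtain ⟨k, rfl⟩ : ∃ k, i = k + 1 := ⟨i - 1, by omega⟩
  simp only [Nat.add_sub_cancel] at hl hDs
  intro h3
  obtain ⟨hsub, hdis⟩ := MM_three hD hT.1 hT.2 h3
  obtain ⟨t, ht, htc⟩ := hC.ex_col hT (col (L.h k) + 1)
  obtain ⟨_, d, hdD, htd⟩ := mem_nb.1 (hsub ht)
  have hdA : d ∈ A := hD.1 hdD
  have hdT : d ∉ T := fun h => Finset.disjoint_left.1 hdis h hdD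
  have hkA : L.h k ∈ A := L.hA k (L.lk_m hl)
  have hc1 : col d ≠ col (L.h k) := hC.col d hdA _ hkA (hDs d hdD)
  have hc2 : col d ≠ col t := hC.col d hdA t (hT.1 ht) htd.symm
  have hc : col d = col (L.h k) + 2 := by
    rw [htc] at hc2
    revert hc1 hc2
    generalize col (L.h k) = a
    generalize col d = b
    revert a b
    decide
  have hgt : vgt G col d T := by
    refine ⟨hdT, t, ht, htd.symm, ?_⟩
    rw [htc, hc]
    generalize col (L.h k) = a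
    revert a
    decide
  have hb : 2 * k + 1 < L.blk T := by
    have h4 := (L.hub_iff hT (L.lk_lt _ hl')).1 h1
    omega
  by_cases hdQ : d ∈ L.Q k
  · have hm : d = L.mid k := by
      apply hC.col_inj (L.Q_T hl) hdQ (L.mid_mem_Q k)
      rw [hc, L.lk_mid k hl]
    have hlt := L.mid_lt hl hT h2 hb
    rw [← hm] at hlt
    exact hC.not_both hT hdA hlt hgt
  · have hlt : vlt G col d (L.Q k) := by
      refine ⟨hdQ, L.h k, L.h_mem_Q k, hDs d hdD, ?_⟩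
      rw [hc]
      generalize col (L.h k) = a
      revert a
      decide
    obtain ⟨j, hj, hdj, a1, a2, a3, a4⟩ := L.inv hC (L.Q_T hl) hT
      (by rw [L.Q_blk hl]; exact hb) hdA hlt hgt
    have h5 := (L.hub_iff (L.Q_T hl) (L.lk_m hj)).1 a1
    rw [L.Q_blk hl] at h5
    have hjk : j ≠ k := by
      rintro rfl
      exact a3 rfl
    have hjk' : j = k + 1 := by omega
    subst hjk'
    have h6 := L.lk_mid _ hj
    rw [← hdj, hc, L.lk_col k hl] at h6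
    revert h6
    generalize col (L.h k) = a
    revert a
    decide

/-- The shifted system is feasible.

Proof. Otherwise `shift_slots` and `shift_vio` (`p = h i`, `p' = h (i+1)`, `T₁ = Q_{i-1}`, `T₂ = Q_i`)
give `D`. `viol` for `T₁`: `Q_{i-1} = {h i, δ, s}`, `D ⊆ N(s)`, and `s ∈ T''`, `h i ∉ T''`;
`two_hub`: `s = h (i-1)` (the other case gives `Q_{i-1} = Q_i`). The violator of `hV` for `T₂ = Q_i`
and `viol`, `two_hub`: there is a triangle `T''` with `h (i+1) ∈ T''`, `h i ∉ T''`. By `shift_vio`,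
`MM D T'' = 3`, contradiction to `no_three`. -/
theorem shift_feas (hC : PC G A col) (L : Line G A col) (hS : Slots G A P O)
    (hx : FSol G A P O z y) (hpar : Even (A.card + P.card)) (hH : Half P O z)
    (hV : ∀ p ∈ P, ∀ T ∈ O p, ∃ T' ∈ O p, T' ≠ T ∧ ∃ D, Vio G A P O z p T T' D)
    (hP : ∀ p ∈ P, ∃ j < L.m, p = L.h j) {i : ℕ} (hi : i < L.m) (hp : L.h i ∈ P)
    (hmax : ∀ j < L.m, L.h j ∈ P → j ≤ i) :
    L.h (i + 1) ∉ P ∧ i + 1 < L.m ∧ Slots G A (insert (L.h (i + 1)) (P.erase (L.h i)))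
      (Function.update O (L.h (i + 1)) (star G A (L.h (i + 1)))) ∧
    Feas G A (insert (L.h (i + 1)) (P.erase (L.h i)))
      (Function.update O (L.h (i + 1)) (star G A (L.h (i + 1)))) := by
  have hQ : ∀ j < L.m, L.h j ∈ P → 1 ≤ j ∧ L.lk (j - 1) ∧ L.lk j ∧
      O (L.h j) = {L.Q (j - 1), L.Q j} := by
    intro j hj hjP
    obtain ⟨b1, b2, b3, _, b5, _⟩ := hub_opt hC.pr L hS hx hpar hH hV hj hjP
    exact ⟨b1, b2, b3, b5⟩
  obtain ⟨hn, hS'⟩ := shift_slots L hS hP hQ hi hp hmax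
  obtain ⟨hi1, hl, hl', hne, hO, hz1, hz2⟩ := hub_opt hC.pr L hS hx hpar hH hV hi hp
  refine ⟨hn, L.lk_lt i hl', hS', ?_⟩
  by_contra hinf
  have hQs : L.Q i ∈ star G A (L.h (i + 1)) := mem_star.2 ⟨L.Q_T hl', L.h1_mem_Q i⟩
  obtain ⟨D, hVD, h3⟩ := shift_vio hC.pr hS hx hH hp hn hS' hne hO hz1 hz2 hQs hinf
  have hi_mem : L.h i ∈ L.Q (i - 1) := by
    have := L.h1_mem_Q (i - 1)
    rwa [Nat.sub_add_cancel hi1] at this
  obtain ⟨δ, s, hTe, _, hDs, _, T'', hA'', h3'', hs'', hp''⟩ :=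
    viol hC.pr hS hx hpar hp hne hO hz1 hz2 hVD
  have hsQ : s ∈ L.Q (i - 1) := by rw [hTe]; simp
  have hs1 : s = L.h (i - 1) := by
    rcases two_hub L (L.Q_T hl) (T'' := T'') ⟨hA'', h3''⟩ hi hi_mem hp'' hsQ hs'' with
      ⟨_, h4, _⟩ | ⟨_, _, _, h4⟩
    · exact absurd h4 hne
    · exact h4
  have hQi : L.Q i ∈ O (L.h i) := by rw [hO]; simp
  obtain ⟨T', hT', hT'ne, D', hVD'⟩ := hV _ hp _ hQi
  have hT'e : T' = L.Q (i - 1) := by
    rw [hO, Finset.mem_insert, Finset.mem_singleton] at hT'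
    exact hT'.resolve_right hT'ne
  subst hT'e
  obtain ⟨δ', s', hTe', _, _, _, T₃, hA₃, h3₃, hs₃, hp₃⟩ :=
    viol hC.pr hS hx hpar hp hne.symm (by rw [hO, Finset.pair_comm]) hz2 hz1 hVD'
  have hsQ' : s' ∈ L.Q i := by rw [hTe']; simp
  have hs1' : s' = L.h (i + 1) := by
    rcases two_hub L (L.Q_T hl') (T'' := T₃) ⟨hA₃, h3₃⟩ hi (L.h_mem_Q i) hp₃ hsQ' hs₃ with
      ⟨_, _, h4⟩ | ⟨_, _, h4, _⟩
    · exact h4
    · exact absurd h4.symm hne
  have hh₃ : L.h (i + 1) ∈ T₃ := hs1' ▸ hs₃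
  have hDs' : ∀ d ∈ D, G.Adj d (L.h (i - 1)) := fun d hd => hs1 ▸ hDs d hd
  exact no_three hC L hi1 hl hl' hVD.stab hDs' ⟨hA₃, h3₃⟩ hh₃ hp₃
    (h3 T₃ (mem_star.2 ⟨⟨hA₃, h3₃⟩, hh₃⟩))

end Pool.Agent.H.MP_ebc13b_lc.h46
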