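import Pool.Agent.H.MP_ebc13b_lc.h46.PDefs

/-!
Tutte's theorem with labels.
-/

namespace Pool.Agent.H.MP_ebc13b_lc.h46

variable {α : Type*} [DecidableEq α] {G : SimpleGraph α}

/-- The number of the odd classes has the parity of the number of the labelled vertices.

Proof. `(W \ S).card = ∑ i ∈ (W \ S).image c, (cls W S c i).card` (`Finset.card_eq_sum_card_image`),
and a sum has the parity of the number of its odd terms (`Finset.odd_sum_iff_odd_card_odd`). -/
theorem oddl_parity (W S : Finset α) (c : α → ℕ) :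
    Even (W \ S).card ↔ Even (oddl W S c).card := by
  have h1 : (W \ S).card = ∑ i ∈ (W \ S).image c, (cls W S c i).card :=
    Finset.card_eq_sum_card_image c (W \ S)
  have h2 : Odd (W \ S).card ↔ Odd (oddl W S c).card := by
    rw [h1, Finset.odd_sum_iff_odd_card_odd]
    rfl
  rw [← Nat.not_odd_iff_even, ← Nat.not_odd_iff_even, h2]

/-- labels from the components of a finite graph -/
private theorem PTutte_aux {V' : Type*} [Finite V'] (H' : SimpleGraph V') (g : V' → α)
    (hg : Function.Injective g) (hadj : ∀ x y, G.Adj (g x) (g y) → H'.Adj x y) {W S : Finset α}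
    (hS : S ⊆ W) (him : ∀ v, v ∈ W ∧ v ∉ S ↔ ∃ x, g x = v) :
    ∃ c : α → ℕ, Bar G W S c ∧ H'.oddComponents.ncard ≤ (oddl W S c).card := by
  classical
  obtain ⟨e, he⟩ := exists_injective_nat H'.ConnectedComponent
  set c : α → ℕ := fun v => if h : ∃ x, g x = v then e (H'.connectedComponentMk h.choose) else 0
    with hc
  have hcg : ∀ x, c (g x) = e (H'.connectedComponentMk x) := by
    intro x
    have h : ∃ y, g y = g x := ⟨x, rfl⟩
    have h1 : h.choose = x := hg h.choose_spec
    rw [hc]
    simp only [h, dif_pos]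
    rw [h1]
  refine ⟨c, ⟨hS, ?_⟩, ?_⟩
  · intro x hx y hy hxy
    obtain ⟨x', rfl⟩ := (him x).1 (Finset.mem_sdiff.1 hx)
    obtain ⟨y', rfl⟩ := (him y).1 (Finset.mem_sdiff.1 hy)
    rw [hcg, hcg]
    exact congrArg e (SimpleGraph.ConnectedComponent.sound (hadj _ _ hxy).reachable)
  · have hcls : ∀ K : H'.ConnectedComponent, (cls W S c (e K) : Set α) = g '' K.supp := by
      intro K
      ext v
      rw [Finset.mem_coe, mem_cls, him]
      constructor
      · rintro ⟨⟨x, rfl⟩, h⟩
        rw [hcg] at h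
        exact ⟨x, he h, rfl⟩
      · rintro ⟨x, hx, rfl⟩
        refine ⟨⟨x, rfl⟩, ?_⟩
        rw [hcg]
        exact congrArg e hx
    have hcard : ∀ K : H'.ConnectedComponent, (cls W S c (e K)).card = K.supp.ncard := by
      intro K
      rw [← Set.ncard_coe_finset, hcls K, Set.ncard_image_of_injective _ hg]
    have hsub : e '' H'.oddComponents ⊆ (oddl W S c : Set ℕ) := by
      rintro _ ⟨K, hK, rfl⟩
      rw [Finset.mem_coe, mem_oddl, hcard]
      exact hK
    have h1 := Set.ncard_le_ncard hsub (Finset.finite_toSet _)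
    rwa [Set.ncard_image_of_injective _ he, Set.ncard_coe_finset] at h1

/-- Tutte's theorem.

Proof. Let `H = G.induce (W : Set α)` on the finite type `↥W`. If `H` has a perfect matching `M`, then
every `v` has a unique `w` with `M.Adj v w`; this gives `f` (extended by the identity). Otherwise
`SimpleGraph.tutte` gives a violator `u : Set ↥W`. Put `S` = the image of `u`; for `v ∈ W \ S` let
`c v = e (component of v in ((⊤ : H.Subgraph).deleteVerts u).coe)`, where `e` is an injection of the
(finite) type of the components into `ℕ` (`Finite.equivFin`); `c v = 0` elsewhere. Adjacent vertices of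
`W \ S` are in the same component. The classes are the components, so the number of odd classes is the
number of odd components, which is `≥ S.card + 1`; it is `≥ S.card + 2` by `oddl_parity`
(`W.card = S.card + (W \ S).card` is even). -/
theorem tutte_lab {W : Finset α} (hW : Even W.card) :
    PMon G W ∨ ∃ (S : Finset α) (c : α → ℕ), Bar G W S c ∧ S.card + 2 ≤ (oddl W S c).card := by
  classical
  let H : SimpleGraph {x // x ∈ W} := G.comap (fun x => (x : α))
  by_cases hM : ∃ M : H.Subgraph, M.IsPerfectMatching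
  · left
    obtain ⟨M, hM⟩ := hM
    rw [SimpleGraph.Subgraph.isPerfectMatching_iff] at hM
    choose f₀ hf₀ hun using hM
    refine ⟨fun v => if h : v ∈ W then (f₀ ⟨v, h⟩ : α) else v, fun v hv => ?_⟩
    have h1 : (if h : v ∈ W then (f₀ ⟨v, h⟩ : α) else v) = f₀ ⟨v, hv⟩ := dif_pos hv
    have h2 : (f₀ ⟨v, hv⟩ : α) ∈ W := (f₀ ⟨v, hv⟩).2
    have h3 : G.Adj v (f₀ ⟨v, hv⟩) := (hf₀ ⟨v, hv⟩).adj_sub
    have h4 : f₀ (f₀ ⟨v, hv⟩) = ⟨v, hv⟩ := (hun _ _ (hf₀ ⟨v, hv⟩).symm).symm
    have h5 : (if h : (f₀ ⟨v, hv⟩ : α) ∈ W then (f₀ ⟨(f₀ ⟨v, hv⟩ : α), h⟩ : α)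
        else (f₀ ⟨v, hv⟩ : α)) = v := by
      rw [dif_pos h2]
      exact congrArg Subtype.val h4
    refine ⟨?_, ?_, ?_⟩
    · show (if h : v ∈ W then (f₀ ⟨v, h⟩ : α) else v) ∈ W
      rw [h1]
      exact h2
    · show G.Adj v (if h : v ∈ W then (f₀ ⟨v, h⟩ : α) else v)
      rw [h1]
      exact h3
    · show (if h : (if h : v ∈ W then (f₀ ⟨v, h⟩ : α) else v) ∈ W then
        (f₀ ⟨(if h : v ∈ W then (f₀ ⟨v, h⟩ : α) else v), h⟩ : α)
        else (if h : v ∈ W then (f₀ ⟨v, h⟩ : α) else v)) = v
      simp only [h1]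
      exact h5
  · right
    rw [SimpleGraph.tutte] at hM
    push Not at hM
    obtain ⟨u, hu⟩ := hM
    set S : Finset α := (Finset.univ.filter (fun x : {x // x ∈ W} => x ∈ u)).map
      (Function.Embedding.subtype _) with hSdef
    have hSm : ∀ v, v ∈ S ↔ ∃ h : v ∈ W, (⟨v, h⟩ : {x // x ∈ W}) ∈ u := by
      intro v
      rw [hSdef, Finset.mem_map]
      constructor
      · rintro ⟨x, hx, rfl⟩
        exact ⟨x.2, (Finset.mem_filter.1 hx).2⟩
      · rintro ⟨h, hx⟩
        exact ⟨⟨v, h⟩, Finset.mem_filter.2 ⟨Finset.mem_univ _, hx⟩, rfl⟩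
    have hScard : S.card = u.ncard := by
      rw [hSdef, Finset.card_map, ← Set.ncard_coe_finset]
      congr 1
      ext x
      simp
    have hSW : S ⊆ W := fun v hv => ((hSm v).1 hv).1
    have key : ∀ z : {x // x ∈ W}, z ∈ ((⊤ : H.Subgraph).deleteVerts u).verts ↔ z ∉ u := by
      intro z
      simp [SimpleGraph.Subgraph.deleteVerts_verts]
    obtain ⟨c, hb, hc⟩ := PTutte_aux (G := G) (((⊤ : H.Subgraph).deleteVerts u).coe)
      (fun x => ((x : {x // x ∈ W}) : α))
      (fun x y hxy => Subtype.ext (Subtype.ext hxy))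
      (fun x y hxy => by
        rw [SimpleGraph.Subgraph.coe_adj, SimpleGraph.Subgraph.deleteVerts_adj]
        have hx := (key _).1 x.2
        have hy := (key _).1 y.2
        exact ⟨trivial, hx, trivial, hy, hxy⟩)
      hSW
      (fun v => by
        constructor
        · rintro ⟨h1, h2⟩
          exact ⟨⟨⟨v, h1⟩, (key _).2 fun h => h2 ((hSm v).2 ⟨h1, h⟩)⟩, rfl⟩
        · rintro ⟨x, rfl⟩
          have hx := (key _).1 x.2
          refine ⟨x.1.2, fun h => hx ?_⟩
          obtain ⟨h1, h2⟩ := (hSm _).1 h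
          exact h2)
    refine ⟨S, c, hb, ?_⟩
    have h1 : u.ncard < (((⊤ : H.Subgraph).deleteVerts u).coe).oddComponents.ncard := hu
    have h2 : (W \ S).card + S.card = W.card := Finset.card_sdiff_add_card_eq_card hSW
    have h3 := oddl_parity W S c
    have h4 : S.card < (oddl W S c).card := by
      rw [hScard]
      exact h1.trans_le hc
    by_contra h5
    have h6 : (oddl W S c).card = S.card + 1 := by omega
    rw [h6] at h3
    rw [← h2, Nat.even_add, h3, Nat.even_add_one] at hW
    by_cases h7 : Even S.card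
    · exact hW.2 h7 h7
    · exact h7 (hW.1 h7)

end Pool.Agent.H.MP_ebc13b_lc.h46
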