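import Pool.Agent.H.MP_ebc13b_lc.h53.Ord

/-!
A vertex whose blades meet no other triangles: the graph is three-colourable.
-/

namespace Pool.Agent.H.MP_ebc13b_lc.h46

open Pool.Agent.H.MP_ebc13b_lc.h53

variable {α : Type*} [DecidableEq α]

/-- `v` is an end of a blade of `h`: a vertex other than `h` of a triangle containing `h` -/
def IsEnd (G : SimpleGraph α) (A : Finset α) (h v : α) : Prop :=
  v ∈ A ∧ ∃ w ∈ A, G.Adj h v ∧ G.Adj h w ∧ G.Adj v w

/-- `h` has a blade, and the ends of the blades of `h` lie in no triangle which misses `h`. -/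
structure Iso (G : SimpleGraph α) (A : Finset α) (h : α) : Prop where
  pr : Prism G A
  hA : h ∈ A
  ex : ∃ v, IsEnd G A h v
  cl : ∀ v, IsEnd G A h v → ∀ x ∈ A, ∀ y ∈ A, G.Adj v x → G.Adj v y → G.Adj x y → x = h ∨ y = h

variable {G : SimpleGraph α} {A : Finset α} {h : α}

/-- Proof. `v, w` the two ends of a blade (`w` is an end as well). `z` is outside the triangle
`{h, v, w}` (if `z = v` or `z = w`, it would be adjacent to `h`), so `z` sees exactly one of its
vertices, and not `h`. -/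
theorem Iso.other (H : Iso G A h) {v w z : α} (hv : v ∈ A) (hw : w ∈ A) (h1 : G.Adj h v)
    (h2 : G.Adj h w) (h3 : G.Adj v w) (hz : z ∈ A) (hzh : z ≠ h) (hn : ¬ G.Adj h z) :
    (G.Adj z v ∧ ¬ G.Adj z w) ∨ (G.Adj z w ∧ ¬ G.Adj z v) := by
  have hA := H.hA
  rcases H.pr.sees hA hv hw h1 h2 h3 hz hzh (fun e => hn (e ▸ h1)) (fun e => hn (e ▸ h2)) with
    h4 | h4 | h4
  · exact absurd h4.symm hn
  · exact Or.inl ⟨h4, H.pr.unique hv hw hA h3 h1.symm h2.symm hz hzh h4⟩
  · exact Or.inr ⟨h4, H.pr.unique hw hv hA h3.symm h2.symm h1.symm hz hzh h4⟩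

/-- Two adjacent vertices other than `h` have no common neighbour among the ends, unless one of them
is a blade end of the same blade.

Proof: `cl`. -/
theorem Iso.no_common (H : Iso G A h) {v x y : α} (hv : IsEnd G A h v) (hx : x ∈ A) (hy : y ∈ A)
    (hxh : x ≠ h) (hyh : y ≠ h) (h1 : G.Adj v x) (h2 : G.Adj v y) : ¬ G.Adj x y := by
  intro h3
  rcases H.cl v hv x hx y hy h1 h2 h3 with h4 | h4
  · exact hxh h4
  · exact hyh h4

/-- Let `{a, b, c}` be a triangle without `h`, with `a` adjacent to `h`. Then an end `v` of `h` is not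
adjacent to `a`, and adjacent to exactly one of `b, c`.

Proof. `v` is not a vertex of the triangle, by `cl` (for instance if `v = a` then `x = b`, `y = c`
contradict `cl`). So `v` is adjacent to exactly one vertex of the triangle. If `v` is adjacent to `a`:
`h` has the neighbours `a, v`; let `w` be the other vertex of the blade of `v`. `a` is outside the
triangle `{h, v, w}` (`a` is not an end: otherwise `cl` for `a`, `b`, `c`), and adjacent to `h` and to
`v`: contradiction to `Prism.unique`. -/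
theorem Iso.tri (H : Iso G A h) {a b c : α} (ha : a ∈ A) (hb : b ∈ A) (hc : c ∈ A)
    (hab : G.Adj a b) (hac : G.Adj a c) (hbc : G.Adj b c) (hah : G.Adj h a) (hbh : b ≠ h)
    (hch : c ≠ h) {v : α} (hv : IsEnd G A h v) :
    ¬ G.Adj v a ∧ ((G.Adj v b ∧ ¬ G.Adj v c) ∨ (G.Adj v c ∧ ¬ G.Adj v b)) := by
  have hA := H.hA
  have hva : v ≠ a := by
    rintro rfl
    rcases H.cl v hv b hb c hc hab hac hbc with h4 | h4
    · exact hbh h4
    · exact hch h4
  have hvb : v ≠ b := by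
    rintro rfl
    rcases H.cl v hv a ha c hc hab.symm hbc hac with h4 | h4
    · exact hah.ne h4.symm
    · exact hch h4
  have hvc : v ≠ c := by
    rintro rfl
    rcases H.cl v hv a ha b hb hac.symm hbc.symm hab with h4 | h4
    · exact hah.ne h4.symm
    · exact hbh h4
  have hna : ¬ G.Adj v a := by
    intro h4
    obtain ⟨w, hw, h5, h6, h7⟩ := hv.2
    have haw : a ≠ w := by
      rintro rfl
      have hend : IsEnd G A h a := ⟨ha, v, hv.1, h6, h5, h7.symm⟩
      rcases H.cl a hend b hb c hc hab hac hbc with h8 | h8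
      · exact hbh h8
      · exact hch h8
    exact H.pr.unique hA hv.1 hw h5 h6 h7 ha haw hah.symm h4.symm
  refine ⟨hna, ?_⟩
  rcases H.pr.sees ha hb hc hab hac hbc hv.1 hva hvb hvc with h4 | h4 | h4
  · exact absurd h4 hna
  · exact Or.inl ⟨h4, H.pr.unique hb hc ha hbc hab.symm hac.symm hv.1 hva h4⟩
  · exact Or.inr ⟨h4, H.pr.unique hc hb ha hbc.symm hac.symm hab.symm hv.1 hva h4⟩

/-- A vertex `z` which is not adjacent to `h`, adjacent to an end which sees `b` and to an end which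
sees `c`, is adjacent to `a`.

Proof. `z` is not `b`: otherwise `w` sees `b` and `c`, contradiction to `Iso.tri`; similarly `z ≠ c`;
and `z ≠ a` because `z` is not adjacent to `h`. So `z` is adjacent to `a`, `b` or `c`
(`Prism.sees`). If `z` is adjacent to `b`, then `z, b` are adjacent vertices with the common neighbour
`v`: `no_common`. If `z` is adjacent to `c`: the same with `w`. -/
theorem Iso.mixed (H : Iso G A h) {a b c : α} (ha : a ∈ A) (hb : b ∈ A) (hc : c ∈ A)
    (hab : G.Adj a b) (hac : G.Adj a c) (hbc : G.Adj b c) (hah : G.Adj h a) (hbh : b ≠ h)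
    (hch : c ≠ h) {v w z : α} (hv : IsEnd G A h v) (hw : IsEnd G A h w) (hvb : G.Adj v b)
    (hwc : G.Adj w c) (hz : z ∈ A) (hzh : z ≠ h) (hn : ¬ G.Adj h z) (hzv : G.Adj z v)
    (hzw : G.Adj z w) : G.Adj z a := by
  have tv := (H.tri ha hb hc hab hac hbc hah hbh hch hv).2
  have tw := (H.tri ha hb hc hab hac hbc hah hbh hch hw).2
  have hza : z ≠ a := by
    rintro rfl
    exact hn hah
  have hzb : z ≠ b := by
    rintro rfl
    rcases tw with h4 | h4
    · exact h4.2 hwc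
    · exact h4.2 hzw.symm
  have hzc : z ≠ c := by
    rintro rfl
    rcases tv with h4 | h4
    · exact h4.2 hzv.symm
    · exact h4.2 hvb
  rcases H.pr.sees ha hb hc hab hac hbc hz hza hzb hzc with h4 | h4 | h4
  · exact h4
  · exact absurd h4 (H.no_common hv hz hb hzh hbh hzv.symm hvb)
  · exact absurd h4 (H.no_common hw hz hc hzh hch hzw.symm hwc)

/-- Two disjoint triangles without `h` induce the same partition of the ends.

Proof. Otherwise, as every end sees exactly one of `b', c'` and exactly one of `b, c` (`Iso.tri`),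
there are ends `v, w` with, say: `v` sees `b`, `w` sees `c`, and both `v, w` see `b'` (or both
see `c'`).
[If the first alternative fails there is an end `e₁` with `e₁ ~ b, e₁ ~ c'` or `e₁ ~ c, e₁ ~ b'`; if
the second fails there is an end `e₂` with `e₂ ~ b, e₂ ~ b'` or `e₂ ~ c, e₂ ~ c'`. In each of the
four cases `e₁` and `e₂` agree on one triangle and differ on the other one, or agree on the other
one and differ on the first one. If they agree on `{b, c}`, say both see `b`, and one sees `b'` and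
the other one sees `c'`, then pass to the other ends `f₁, f₂` of the two blades; every vertex
`b, c, b', c'` sees exactly one end of every blade (`Iso.other`; these four vertices are not adjacent
to `h`, by `Prism.unique`), so: `e₁ ~ b, b'`, `f₁ ~ c, c'`, `e₂ ~ b, c'`, `f₂ ~ c, b'`; now `v = e₁`,
`w = f₂` see `b'` and `v ~ b`, `w ~ c`.]
By `Iso.mixed` with `z = b'`, `b'` is adjacent to `a`. Similarly (the other ends of the two blades)
`c'` is adjacent to `a`. As `a` is not in `{a', b', c'}`, this contradicts `Prism.unique`. -/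
theorem Iso.same (H : Iso G A h) {a b c a' b' c' : α} (ha : a ∈ A) (hb : b ∈ A) (hc : c ∈ A)
    (hab : G.Adj a b) (hac : G.Adj a c) (hbc : G.Adj b c) (hah : G.Adj h a) (hbh : b ≠ h)
    (hch : c ≠ h) (ha' : a' ∈ A) (hb' : b' ∈ A) (hc' : c' ∈ A) (hab' : G.Adj a' b')
    (hac' : G.Adj a' c') (hbc' : G.Adj b' c') (hah' : G.Adj h a') (hbh' : b' ≠ h) (hch' : c' ≠ h)
    (hd : Disjoint ({a, b, c} : Finset α) {a', b', c'}) :
    (∀ v, IsEnd G A h v → (G.Adj v b ↔ G.Adj v b')) ∨
      (∀ v, IsEnd G A h v → (G.Adj v b ↔ G.Adj v c')) := by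
  by_contra hcon
  rw [not_or] at hcon
  obtain ⟨hc1, hc2⟩ := hcon
  obtain ⟨e₁, hc1'⟩ := not_forall.1 hc1
  obtain ⟨e₂, hc2'⟩ := not_forall.1 hc2
  obtain ⟨he₁, hd₁⟩ := Classical.not_imp.1 hc1'
  obtain ⟨he₂, hd₂⟩ := Classical.not_imp.1 hc2'
  have hA := H.hA
  -- the vertices of the triangles are not adjacent to `h`
  have nb : ¬ G.Adj h b := H.pr.unique ha hb hc hab hac hbc hA (Ne.symm hch) hah
  have nb' : ¬ G.Adj h b' := H.pr.unique ha' hb' hc' hab' hac' hbc' hA (Ne.symm hch') hah'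
  have nc' : ¬ G.Adj h c' := H.pr.unique ha' hc' hb' hac' hab' hbc'.symm hA (Ne.symm hbh') hah'
  have T := fun v hv => (H.tri ha hb hc hab hac hbc hah hbh hch (v := v) hv).2
  have T' := fun v hv => (H.tri ha' hb' hc' hab' hac' hbc' hah' hbh' hch' (v := v) hv).2
  have cOf : ∀ e, IsEnd G A h e → ¬ G.Adj e b → G.Adj e c := fun e he hn =>
    (T e he).elim (fun h9 => absurd h9.1 hn) (fun h9 => h9.1)
  have cOf' : ∀ e, IsEnd G A h e → ¬ G.Adj e b' → G.Adj e c' := fun e he hn =>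
    (T' e he).elim (fun h9 => absurd h9.1 hn) (fun h9 => h9.1)
  have bOf' : ∀ e, IsEnd G A h e → ¬ G.Adj e c' → G.Adj e b' := fun e he hn =>
    (T' e he).elim (fun h9 => h9.1) (fun h9 => absurd h9.1 hn)
  have flip : ∀ e, IsEnd G A h e → ∃ f, IsEnd G A h f ∧ (G.Adj f b ↔ ¬ G.Adj e b) ∧
      (G.Adj f b' ↔ ¬ G.Adj e b') := by
    intro e he
    obtain ⟨f, hf, h5, h6, h7⟩ := he.2
    refine ⟨f, ⟨hf, e, he.1, h6, h5, h7.symm⟩, ?_, ?_⟩
    · rcases H.other he.1 hf h5 h6 h7 hb hbh nb with h8 | h8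
      · exact ⟨fun h9 => absurd h9.symm h8.2, fun h9 => absurd h8.1.symm h9⟩
      · exact ⟨fun _ h9 => h8.2 h9.symm, fun _ => h8.1.symm⟩
    · rcases H.other he.1 hf h5 h6 h7 hb' hbh' nb' with h8 | h8
      · exact ⟨fun h9 => absurd h9.symm h8.2, fun h9 => absurd h8.1.symm h9⟩
      · exact ⟨fun _ h9 => h8.2 h9.symm, fun _ => h8.1.symm⟩
  have hx : ∃ v₁ v₂, IsEnd G A h v₁ ∧ IsEnd G A h v₂ ∧ G.Adj v₁ b ∧ G.Adj v₁ c' ∧
      G.Adj v₂ c ∧ G.Adj v₂ b' := by
    obtain ⟨f, hf, hf1, hf2⟩ := flip e₁ he₁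
    by_cases h8 : G.Adj e₁ b
    · have h9 : ¬ G.Adj e₁ b' := fun h9 => hd₁ ⟨fun _ => h9, fun _ => h8⟩
      exact ⟨e₁, f, he₁, hf, h8, cOf' e₁ he₁ h9, cOf f hf (fun h10 => hf1.1 h10 h8), hf2.2 h9⟩
    · have h9 : G.Adj e₁ b' := by
        by_contra h9
        exact hd₁ ⟨fun h10 => absurd h10 h8, fun h10 => absurd h10 h9⟩
      exact ⟨f, e₁, hf, he₁, hf1.2 h8, cOf' f hf (fun h10 => hf2.1 h10 h9), cOf e₁ he₁ h8, h9⟩
  have hy : ∃ v₁ v₂, IsEnd G A h v₁ ∧ IsEnd G A h v₂ ∧ G.Adj v₁ b ∧ G.Adj v₁ b' ∧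
      G.Adj v₂ c ∧ G.Adj v₂ c' := by
    obtain ⟨f, hf, hf1, hf2⟩ := flip e₂ he₂
    by_cases h8 : G.Adj e₂ b
    · have h9 : ¬ G.Adj e₂ c' := fun h9 => hd₂ ⟨fun _ => h9, fun _ => h8⟩
      have h11 : G.Adj e₂ b' := bOf' e₂ he₂ h9
      exact ⟨e₂, f, he₂, hf, h8, h11, cOf f hf (fun h10 => hf1.1 h10 h8),
        cOf' f hf (fun h10 => hf2.1 h10 h11)⟩
    · have h9 : G.Adj e₂ c' := by
        by_contra h9
        exact hd₂ ⟨fun h10 => absurd h10 h8, fun h10 => absurd h10 h9⟩
      have h11 : ¬ G.Adj e₂ b' := by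
        rcases T' e₂ he₂ with h12 | h12
        · exact absurd h9 h12.2
        · exact h12.2
      exact ⟨f, e₂, hf, he₂, hf1.2 h8, hf2.2 h11, cOf e₂ he₂ h8, h9⟩
  obtain ⟨v₁, v₂, hv₁, hv₂, a1, a2, a3, a4⟩ := hx
  obtain ⟨v₃, v₄, hv₃, hv₄, a5, a6, a7, a8⟩ := hy
  have hba : G.Adj b' a := H.mixed ha hb hc hab hac hbc hah hbh hch hv₃ hv₂ a5 a3 hb' hbh' nb'
    a6.symm a4.symm
  have hca : G.Adj c' a := H.mixed ha hb hc hab hac hbc hah hbh hch hv₁ hv₄ a1 a7 hc' hch' nc'
    a2.symm a8.symm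
  have haa : a ≠ a' := by
    rintro rfl
    exact Finset.disjoint_left.1 hd (by simp) (by simp : a ∈ ({a, b', c'} : Finset α))
  exact H.pr.unique hb' hc' ha' hbc' hab'.symm hac'.symm ha haa hba.symm hca.symm

theorem RLa_pc (H : Iso G A h) {a b c a' b' c' : α} (ha : a ∈ A) (hb : b ∈ A) (hc : c ∈ A)
    (hab : G.Adj a b) (hac : G.Adj a c) (hbc : G.Adj b c) (hah : G.Adj h a) (hbh : b ≠ h)
    (hch : c ≠ h) (ha' : a' ∈ A) (hb' : b' ∈ A) (hc' : c' ∈ A) (hab' : G.Adj a' b')
    (hac' : G.Adj a' c') (hbc' : G.Adj b' c') (hah' : G.Adj h a') (hbh' : b' ≠ h) (hch' : c' ≠ h)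
    (haa : a ≠ a')
    (hs : ∀ v, IsEnd G A h v → (G.Adj v b ↔ G.Adj v b')) :
    ∃ col : α → ZMod 3, PC G A col := by
  classical
  have hA := H.hA
  have T := fun v hv => (H.tri ha hb hc hab hac hbc hah hbh hch (v := v) hv).2
  have T' := fun v hv => (H.tri ha' hb' hc' hab' hac' hbc' hah' hbh' hch' (v := v) hv).2
  have nb : ¬ G.Adj h b := H.pr.unique ha hb hc hab hac hbc hA (Ne.symm hch) hah
  have cOf : ∀ e, IsEnd G A h e → ¬ G.Adj e b → G.Adj e c := fun e he hn =>
    (T e he).elim (fun h9 => absurd h9.1 hn) (fun h9 => h9.1)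
  have cOf' : ∀ e, IsEnd G A h e → ¬ G.Adj e b' → G.Adj e c' := fun e he hn =>
    (T' e he).elim (fun h9 => absurd h9.1 hn) (fun h9 => h9.1)
  -- the blade of an end: one end sees `b`, the other one sees `c`
  have blade : ∀ z ∈ A, z ≠ h → ¬ G.Adj h z → ∀ u, IsEnd G A h u → ¬ G.Adj z u →
      ∃ w, IsEnd G A h w ∧ G.Adj z w ∧ (G.Adj w b ↔ ¬ G.Adj u b) := by
    intro z hz hzh hn u hu hzu
    obtain ⟨w, hw, h5, h6, h7⟩ := hu.2
    refine ⟨w, ⟨hw, u, hu.1, h6, h5, h7.symm⟩, ?_, ?_⟩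
    · rcases H.other hu.1 hw h5 h6 h7 hz hzh hn with h8 | h8
      · exact absurd h8.1 hzu
      · exact h8.1
    · rcases H.other hu.1 hw h5 h6 h7 hb hbh nb with h8 | h8
      · exact ⟨fun h9 => absurd h9.symm h8.2, fun h9 => absurd h8.1.symm h9⟩
      · exact ⟨fun _ h9 => h8.2 h9.symm, fun _ => h8.1.symm⟩
  have hz1 : ∀ z ∈ A, z ≠ h → ¬ G.Adj h z → (¬ ∃ u, IsEnd G A h u ∧ G.Adj u b ∧ G.Adj z u) →
      ∀ u w, IsEnd G A h u → G.Adj u b → w ∈ A → G.Adj h w → G.Adj u w → G.Adj z w := by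
    intro z hz hzh hn hno u w hu hub hw hhw huw
    obtain ⟨w', hw', h5, h6, h7⟩ := hu.2
    rcases H.other hu.1 hw h5 hhw huw hz hzh hn with h8 | h8
    · exact absurd ⟨u, hu, hub, h8.1⟩ hno
    · exact h8.1
  refine ⟨fun v => if v = h then 0 else if G.Adj h v then
    (if IsEnd G A h v ∧ G.Adj v b then 1 else 2) else
    (if ∃ u, IsEnd G A h u ∧ G.Adj u b ∧ G.Adj v u then 0 else 1), H.pr, ?_⟩
  -- adjacent neighbours of `h` are ends
  have hend : ∀ x ∈ A, ∀ y ∈ A, G.Adj x y → G.Adj h x → G.Adj h y → IsEnd G A h x := by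
    intro x hx y hy hxy h1 h2
    exact ⟨hx, y, hy, h1, h2, hxy⟩
  have hsame : ∀ x y d, IsEnd G A h x → IsEnd G A h y → d ∈ A → d ≠ h → G.Adj x d →
      G.Adj y d → ¬ G.Adj x y := by
    intro x y d hx hy hd hdh h1 h2 h3
    obtain ⟨y', _, h5, _, _⟩ := hy.2
    exact H.no_common hx hy.1 hd h5.ne' hdh h3 h1 h2
  have h0 : ∀ x ∈ A, ∀ y ∈ A, G.Adj x y → x ≠ h → y ≠ h → ¬ G.Adj h x → ¬ G.Adj h y →
      (∃ u, IsEnd G A h u ∧ G.Adj u b ∧ G.Adj x u) → (∃ u, IsEnd G A h u ∧ G.Adj u b ∧ G.Adj y u) →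
      False := by
    intro x hx y hy hxy hxh hyh hnx hny ⟨u₁, hu₁, hb₁, hx₁⟩ ⟨u₂, hu₂, hb₂, hy₂⟩
    have hx₂ : ¬ G.Adj x u₂ := fun h9 => H.no_common hu₂ hx hy hxh hyh h9.symm hy₂.symm hxy
    have hy₁ : ¬ G.Adj y u₁ := fun h9 => H.no_common hu₁ hx hy hxh hyh hx₁.symm h9.symm hxy
    obtain ⟨w₂, hw₂, hxw, hwb⟩ := blade x hx hxh hnx u₂ hu₂ hx₂
    obtain ⟨w₁, hw₁, hyw, hwb'⟩ := blade y hy hyh hny u₁ hu₁ hy₁
    have su1 := hs u₁ hu₁
    have su2 := hs u₂ hu₂
    have n2 : ¬ G.Adj w₂ b := fun h9 => hwb.1 h9 hb₂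
    have n1 : ¬ G.Adj w₁ b := fun h9 => hwb'.1 h9 hb₁
    have e1 : G.Adj w₂ c := cOf w₂ hw₂ n2
    have e2 : G.Adj w₂ c' := cOf' w₂ hw₂ (fun h9 => n2 ((hs w₂ hw₂).2 h9))
    have e3 : G.Adj w₁ c := cOf w₁ hw₁ n1
    have e4 : G.Adj w₁ c' := cOf' w₁ hw₁ (fun h9 => n1 ((hs w₁ hw₁).2 h9))
    have xa : G.Adj x a := H.mixed ha hb hc hab hac hbc hah hbh hch hu₁ hw₂ hb₁ e1 hx hxh hnx
      hx₁ hxw
    have xa' : G.Adj x a' := H.mixed ha' hb' hc' hab' hac' hbc' hah' hbh' hch' hu₁ hw₂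
      (su1.1 hb₁) e2 hx hxh hnx hx₁ hxw
    have ya : G.Adj y a := H.mixed ha hb hc hab hac hbc hah hbh hch hu₂ hw₁ hb₂ e3 hy hyh hny
      hy₂ hyw
    have ya' : G.Adj y a' := H.mixed ha' hb' hc' hab' hac' hbc' hah' hbh' hch' hu₂ hw₁
      (su2.1 hb₂) e4 hy hyh hny hy₂ hyw
    exact H.pr.unique hx hy ha hxy xa ya ha' haa.symm xa'.symm ya'.symm
  have h1 : ∀ x ∈ A, ∀ y ∈ A, G.Adj x y → x ≠ h → y ≠ h → ¬ G.Adj h x → ¬ G.Adj h y →
      (¬ ∃ u, IsEnd G A h u ∧ G.Adj u b ∧ G.Adj x u) →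
      (¬ ∃ u, IsEnd G A h u ∧ G.Adj u b ∧ G.Adj y u) → False := by
    intro x hx y hy hxy hxh hyh hnx hny hx' hy'
    obtain ⟨e, he⟩ := H.ex
    obtain ⟨f, hf, h5, h6, h7⟩ := he.2
    have hfe : IsEnd G A h f := ⟨hf, e, he.1, h6, h5, h7.symm⟩
    rcases H.other he.1 hf h5 h6 h7 hb hbh nb with h8 | h8
    · have e1 := hz1 x hx hxh hnx hx' e f he h8.1.symm hf h6 h7
      have e2 := hz1 y hy hyh hny hy' e f he h8.1.symm hf h6 h7
      exact H.no_common hfe hx hy hxh hyh e1.symm e2.symm hxy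
    · have e1 := hz1 x hx hxh hnx hx' f e hfe h8.1.symm he.1 h5 h7.symm
      have e2 := hz1 y hy hyh hny hy' f e hfe h8.1.symm he.1 h5 h7.symm
      exact H.no_common he hx hy hxh hyh e1.symm e2.symm hxy
  intro x hx y hy hxy hcol
  have z01 : (0 : ZMod 3) ≠ 1 := by decide
  have z02 : (0 : ZMod 3) ≠ 2 := by decide
  have z12 : (1 : ZMod 3) ≠ 2 := by decide
  by_cases xh : x = h
  · subst xh
    have yh : y ≠ x := hxy.ne'
    simp only [if_true, if_neg yh, if_pos hxy] at hcol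
    split_ifs at hcol
    · exact z01 hcol
    · exact z02 hcol
  by_cases yh : y = h
  · subst yh
    simp only [if_true, if_neg xh, if_pos hxy.symm] at hcol
    split_ifs at hcol
    · exact z01 hcol.symm
    · exact z02 hcol.symm
  simp only [if_neg xh, if_neg yh] at hcol
  by_cases hhx : G.Adj h x
  · by_cases hhy : G.Adj h y
    · have ex := hend x hx y hy hxy hhx hhy
      have ey := hend y hy x hx hxy.symm hhy hhx
      simp only [if_pos hhx, if_pos hhy] at hcol
      by_cases xb : G.Adj x b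
      · by_cases yb : G.Adj y b
        · exact hsame x y b ex ey hb hbh xb yb hxy
        · rw [if_pos ⟨ex, xb⟩, if_neg (fun h9 => yb h9.2)] at hcol
          exact z12 hcol
      · by_cases yb : G.Adj y b
        · rw [if_neg (fun h9 => xb h9.2), if_pos ⟨ey, yb⟩] at hcol
          exact z12 hcol.symm
        · exact hsame x y c ex ey hc hch (cOf x ex xb) (cOf y ey yb) hxy
    · simp only [if_pos hhx, if_neg hhy] at hcol
      split_ifs at hcol with h2 h3 h3
      · exact z01 hcol.symm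
      · exact h3 ⟨x, h2.1, h2.2, hxy.symm⟩
      · exact z02 hcol.symm
      · exact z12 hcol.symm
  · by_cases hhy : G.Adj h y
    · simp only [if_neg hhx, if_pos hhy] at hcol
      split_ifs at hcol with h2 h3 h3
      · exact z01 hcol
      · exact z02 hcol
      · exact h2 ⟨y, h3.1, h3.2, hxy⟩
      · exact z12 hcol
    · simp only [if_neg hhx, if_neg hhy] at hcol
      split_ifs at hcol with h2 h3 h3
      · exact h0 x hx y hy hxy xh yh hhx hhy h2 h3
      · exact z01 hcol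
      · exact z01 hcol.symm
      · exact h1 x hx y hy hxy xh yh hhx hhy h2 h3

/-- the vertices of a triangle which misses `h`, the first one is adjacent to `h` -/
theorem RLa_abc (H : Iso G A h) {T : Finset α} (hT : IsT G A T) (hh : h ∉ T) :
    ∃ a b c, T = {a, b, c} ∧ a ∈ A ∧ b ∈ A ∧ c ∈ A ∧ G.Adj a b ∧ G.Adj a c ∧ G.Adj b c ∧
      G.Adj h a ∧ b ≠ h ∧ c ≠ h := by
  obtain ⟨u, hu, hhu, _⟩ := H.pr T hT.1 hT.2 h H.hA hh
  obtain ⟨b, c, h1, h2, h3, rfl⟩ := exists_abc hT.2 hu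
  refine ⟨u, b, c, rfl, hT.1 (by simp), hT.1 (by simp), hT.1 (by simp), h1, h2, h3, hhu, ?_, ?_⟩
  · rintro rfl
    exact hh (by simp)
  · rintro rfl
    exact hh (by simp)

/-- Assume `Iso` and two disjoint triangles without `h`. Then `G[A]` is three-colourable.

Proof. Let `a, b, c` and `a', b', c'` be as in `Iso.same` (`h` sees exactly one vertex of each
triangle), with the first alternative (swap `b', c'`). An end is a `u` if it sees `b`, a `w` if it
sees `c`. Colours (`e, e'` range over the ends):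
* `0` for `h` and for the non-neighbours of `h` which see some `u`;
* `1` for the `u`-ends and the non-neighbours of `h` which see no `u`;
* `2` for the `w`-ends and the neighbours of `h` which are no ends.
Every vertex of `A` gets exactly one colour. Let `x, y` be adjacent in `A` with the same colour.
`0`: `h` has no neighbour of colour `0`; so both are non-neighbours of `h` which see some `u`.
If `x` sees all `u`'s, then `y` sees one of them, `no_common`. The same if `y` sees all `u`'s. So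
`x` and `y` do not see some `u`, hence they see the other end of the blade of this `u`, which is
a `w` (this end sees `c`: `b` sees exactly one end of the blade by `Iso.other`, then `Iso.tri`). By
`Iso.mixed` `x` and `y` are both adjacent to `a`; by `Iso.mixed` for the other triangle they are both
adjacent to `a'`. But `{x, y, a}` is a triangle, `a'` is outside of it (`a' ≠ a` by disjointness;
`x, y` are not adjacent to `h`), contradiction (`Prism.unique`).
`1`: two `u`-ends both see `b`, and `b` is not `h`: `cl` for `v = x`, with the triangle `x, y, b`. A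
`u`-end and a vertex which sees no `u`: clear. If both see no `u`: they both see a `w` of any fixed
blade (`Iso.other`): `no_common`.
`2`: two `w`-ends both see `c`, as before. A `w`-end `x` and a neighbour `y` of `h` which is no end:
then `{h, x, y}` is a triangle, so `y` is an end. Two neighbours of `h`: the same. -/
theorem Iso.pc (H : Iso G A h) {T' T'' : Finset α} (h1 : IsT G A T') (h1h : h ∉ T')
    (h2 : IsT G A T'') (h2h : h ∉ T'') (hd : Disjoint T' T'') :
    ∃ col : α → ZMod 3, PC G A col := by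
  obtain ⟨a, b, c, rfl, ha, hb, hc, hab, hac, hbc, hah, hbh, hch⟩ := RLa_abc H h1 h1h
  obtain ⟨a', b', c', rfl, ha', hb', hc', hab', hac', hbc', hah', hbh', hch'⟩ :=
    RLa_abc H h2 h2h
  have haa : a ≠ a' := by
    rintro rfl
    exact Finset.disjoint_left.1 hd (by simp) (by simp : a ∈ ({a, b', c'} : Finset α))
  rcases H.same ha hb hc hab hac hbc hah hbh hch ha' hb' hc' hab' hac' hbc' hah' hbh' hch' hd
    with hs | hs
  · exact RLa_pc H ha hb hc hab hac hbc hah hbh hch ha' hb' hc' hab' hac' hbc' hah' hbh' hch'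
      haa hs
  · exact RLa_pc H ha hb hc hab hac hbc hah hbh hch ha' hc' hb' hac' hab' hbc'.symm hah' hch'
      hbh' haa hs

end Pool.Agent.H.MP_ebc13b_lc.h46
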