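import Mathlib

/-!
A sparse relation has an independent triple.
-/

namespace Pool.Agent.H.MP_ebc13b_lc.h46

variable {ι : Type*} [DecidableEq ι]

/-- Proof. Otherwise every `j ∈ S` has two different `k, k' ∈ S` other than `j` with `F k j`,
`F k' j`. The number of pairs `(k, j)` in `S × S` with `k ≠ j`, `F k j` is at least `2 |S|`, and at
most `|S|`, because every `k` has at most one such `j`. So `S` is empty. -/
theorem rlg_low {S : Finset ι} {F : ι → ι → Prop} (hne : S.Nonempty)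
    (hF : ∀ k ∈ S, ∀ j ∈ S, ∀ j' ∈ S, j ≠ k → j' ≠ k → F k j → F k j' → j = j') :
    ∃ j ∈ S, ∀ k ∈ S, ∀ k' ∈ S, k ≠ j → k' ≠ j → F k j → F k' j → k = k' := by
  classical
  by_contra hcon
  have h := Finset.card_mul_le_card_mul (s := S) (t := S) (m := 2) (n := 1)
    (fun j k => k ≠ j ∧ F k j)
    (by
      intro j hj
      by_contra hlt
      apply hcon
      refine ⟨j, hj, ?_⟩
      intro k hk k' hk' h1 h2 h3 h4
      by_contra hkk
      apply hlt
      have : 1 < (Finset.bipartiteAbove (fun j k => k ≠ j ∧ F k j) S j).card := by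
        rw [Finset.one_lt_card]
        exact ⟨k, by simp [Finset.mem_bipartiteAbove, hk, h1, h3], k',
          by simp [Finset.mem_bipartiteAbove, hk', h2, h4], hkk⟩
      omega)
    (by
      intro k hk
      rw [Finset.card_le_one]
      intro j hj j' hj'
      rw [Finset.mem_bipartiteBelow] at hj hj'
      exact hF k hk j hj.1 j' hj'.1 (Ne.symm hj.2.1) (Ne.symm hj'.2.1) hj.2.2 hj'.2.2)
  have hpos := hne.card_pos
  omega

/-- Proof. `rlg_low` gives `j`; remove `j`, its at most one in-neighbour and its at most one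
out-neighbour. -/
theorem rlg_step {S : Finset ι} {F : ι → ι → Prop} (hne : S.Nonempty)
    (hF : ∀ k ∈ S, ∀ j ∈ S, ∀ j' ∈ S, j ≠ k → j' ≠ k → F k j → F k j' → j = j') :
    ∃ j ∈ S, ∃ S' ⊆ S, j ∉ S' ∧ S.card ≤ S'.card + 3 ∧ ∀ k ∈ S', ¬ F k j ∧ ¬ F j k := by
  classical
  obtain ⟨j, hj, hlow⟩ := rlg_low hne hF
  set A : Finset ι := S.filter (fun k => k ≠ j ∧ F k j) with hA
  set B : Finset ι := S.filter (fun k => k ≠ j ∧ F j k) with hB
  have hA1 : A.card ≤ 1 := by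
    rw [Finset.card_le_one]
    intro a ha b hb
    rw [hA, Finset.mem_filter] at ha hb
    exact hlow a ha.1 b hb.1 ha.2.1 hb.2.1 ha.2.2 hb.2.2
  have hB1 : B.card ≤ 1 := by
    rw [Finset.card_le_one]
    intro a ha b hb
    rw [hB, Finset.mem_filter] at ha hb
    exact hF j hj a ha.1 b hb.1 ha.2.1 hb.2.1 ha.2.2 hb.2.2
  refine ⟨j, hj, S \ (insert j (A ∪ B)), Finset.sdiff_subset, ?_, ?_, ?_⟩
  · simp
  · have h1 : S.card ≤ (S \ (insert j (A ∪ B))).card + (insert j (A ∪ B)).card := by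
      have := Finset.le_card_sdiff (insert j (A ∪ B)) S
      omega
    have h2 := Finset.card_insert_le j (A ∪ B)
    have h3 := Finset.card_union_le A B
    omega
  · intro k hk
    rw [Finset.mem_sdiff, Finset.mem_insert, Finset.mem_union, not_or, not_or] at hk
    obtain ⟨hkS, hkj, hkA, hkB⟩ := hk
    constructor
    · intro h
      exact hkA (by rw [hA, Finset.mem_filter]; exact ⟨hkS, hkj, h⟩)
    · intro h
      exact hkB (by rw [hB, Finset.mem_filter]; exact ⟨hkS, hkj, h⟩)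

/-- Proof: `rlg_step` twice, then any element of the remaining set, which has at least
`7 - 3 - 3 = 1` elements. -/
theorem indep_triple {S : Finset ι} {F : ι → ι → Prop} (h7 : 7 ≤ S.card)
    (hF : ∀ k ∈ S, ∀ j ∈ S, ∀ j' ∈ S, j ≠ k → j' ≠ k → F k j → F k j' → j = j') :
    ∃ i ∈ S, ∃ j ∈ S, ∃ k ∈ S, i ≠ j ∧ i ≠ k ∧ j ≠ k ∧ ¬ F i j ∧ ¬ F j i ∧ ¬ F i k ∧ ¬ F k i ∧
      ¬ F j k ∧ ¬ F k j := by
  classical
  have hne : S.Nonempty := Finset.card_pos.mp (by omega)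
  obtain ⟨i, hi, S₁, hS₁, hiS₁, hc₁, hS₁F⟩ := rlg_step hne hF
  have hne₁ : S₁.Nonempty := Finset.card_pos.mp (by omega)
  obtain ⟨j, hj, S₂, hS₂, hjS₂, hc₂, hS₂F⟩ := rlg_step (F := F) hne₁
    (fun k hk a ha b hb => hF k (hS₁ hk) a (hS₁ ha) b (hS₁ hb))
  have hne₂ : S₂.Nonempty := Finset.card_pos.mp (by omega)
  obtain ⟨k, hk⟩ := hne₂
  refine ⟨i, hi, j, hS₁ hj, k, hS₁ (hS₂ hk), ?_, ?_, ?_, (hS₁F j hj).2, (hS₁F j hj).1,
    (hS₁F k (hS₂ hk)).2, (hS₁F k (hS₂ hk)).1, (hS₂F k hk).2, (hS₂F k hk).1⟩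
  · rintro rfl
    exact hiS₁ hj
  · rintro rfl
    exact hiS₁ (hS₂ hk)
  · rintro rfl
    exact hjS₂ hk

end Pool.Agent.H.MP_ebc13b_lc.h46
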