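import Pool.Agent.H.MP_ebc13b_lc.h46.Row

/-!
Violators: the balance of a bipartite rest.
-/

namespace Pool.Agent.H.MP_ebc13b_lc.h46

variable {α : Type*} [DecidableEq α] {G : SimpleGraph α} {A P : Finset α}
  {O : α → Finset (Finset α)} {z : Finset α → ℝ} {y : α → α → ℝ}

private theorem vioB_chi_of_rest {D : Finset α} {v : α} (h : v ∈ A \ (D ∪ nb G A D)) :
    chi G A D v = 0 := by
  rw [Finset.mem_sdiff, Finset.mem_union, not_or] at h
  unfold chi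
  rw [if_neg h.2.1, if_neg h.2.2]
  rfl

private theorem vioB_rest_of_chi {D : Finset α} (hD : Stab G A D) {v : α} (hv : v ∈ A)
    (h : chi G A D v = 0) : v ∈ A \ (D ∪ nb G A D) := by
  rw [Finset.mem_sdiff, Finset.mem_union, not_or]
  have hdj := Finset.disjoint_left.1 hD.disj
  unfold chi at h
  refine ⟨hv, ?_, ?_⟩
  · intro hd
    rw [if_pos hd] at h
    have hn : v ∉ nb G A D := fun hn => hdj hn hd
    rw [if_neg hn] at h
    omega
  · intro hn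
    rw [if_pos hn, if_neg (hdj hn)] at h
    omega

private theorem vioB_side (hS : Slots G A P O) (hx : FSol G A P O z y) {D : Finset α}
    (hD : Stab G A D) (ht : Tight G A P O z D) {Z₁ Z₂ : Finset α}
    (hZ : A \ (D ∪ nb G A D) = Z₁ ∪ Z₂) (h₁ : ∀ u ∈ Z₁, ∀ v ∈ Z₁, ¬ G.Adj u v) :
    ∑ v ∈ Z₁, (1 - load P O z v) = ∑ v ∈ Z₁, ∑ u ∈ Z₂, y v u := by
  have hsub : Z₁ ∪ Z₂ ⊆ A := by
    rw [← hZ]
    exact Finset.sdiff_subset
  refine Finset.sum_congr rfl ?_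
  intro v hv
  have hvA : v ∈ A := hsub (Finset.mem_union_left _ hv)
  have hc := hx.cover v hvA
  have hvr : v ∈ A \ (D ∪ nb G A D) := by
    rw [hZ]
    exact Finset.mem_union_left _ hv
  have hchi := vioB_chi_of_rest hvr
  have hsum : ∑ u ∈ Z₂, y v u = ∑ u ∈ A, y v u := by
    refine Finset.sum_subset (fun u hu => hsub (Finset.mem_union_right _ hu)) ?_
    intro u huA hu2
    by_contra hne
    have hadj := (hx.yE v u hne).1
    have hte := tight_edge hS hx hD ht hne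
    rw [hchi] at hte
    have hcu : chi G A D u = 0 := by omega
    have hur := vioB_rest_of_chi hD huA hcu
    rw [hZ, Finset.mem_union] at hur
    rcases hur with h | h
    · exact h₁ v hv u h hadj
    · exact hu2 h
  rw [hsum]
  linarith

private theorem vioB_load (Z : Finset α) :
    ∑ v ∈ Z, load P O z v = ∑ q ∈ P, ∑ T₁ ∈ O q, z T₁ * ((T₁ ∩ Z).card : ℝ) := by
  unfold load
  rw [Finset.sum_comm]
  refine Finset.sum_congr rfl ?_
  intro q _
  rw [Finset.sum_comm]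
  refine Finset.sum_congr rfl ?_
  intro T _
  rw [← Finset.sum_filter, Finset.sum_const, nsmul_eq_mul, mul_comm]
  congr 2
  congr 1
  ext v
  simp only [Finset.mem_filter, Finset.mem_inter]
  tauto

/-- The balance of a bipartite `W`.

Proof. For `v ∈ Z₁`: `1 - load v = ∑ u ∈ A, y v u`, and `y v u ≠ 0` implies `chi u = -chi v = 0`
(`tight_edge`), so `u ∈ W` (`chi u = 0` and `u ∈ A` imply `u ∉ D`, `u ∉ N(D)`, as these are
disjoint), `G.Adj v u`, so `u ∈ Z₂`. So `∑ v ∈ Z₁, (1 - load v) = ∑ v ∈ Z₁, ∑ u ∈ Z₂, y v u`, which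
is symmetric: it is also `∑ v ∈ Z₂, (1 - load v)`. And `∑ v ∈ Z₁, load v = ∑ q ∈ P, ∑ T₁ ∈ O q,
z T₁ * |T₁ ∩ Z₁|`. -/
theorem W_balance (hS : Slots G A P O) (hx : FSol G A P O z y) {D : Finset α}
    (hD : Stab G A D) (ht : Tight G A P O z D) {Z₁ Z₂ : Finset α}
    (hZ : A \ (D ∪ nb G A D) = Z₁ ∪ Z₂) (hdisj : Disjoint Z₁ Z₂)
    (h₁ : ∀ u ∈ Z₁, ∀ v ∈ Z₁, ¬ G.Adj u v) (h₂ : ∀ u ∈ Z₂, ∀ v ∈ Z₂, ¬ G.Adj u v) :
    (Z₁.card : ℝ) - Z₂.card =
      ∑ q ∈ P, ∑ T₁ ∈ O q, z T₁ * (((T₁ ∩ Z₁).card : ℝ) - (T₁ ∩ Z₂).card) := by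
  have e1 := vioB_side hS hx hD ht hZ h₁
  have e2 := vioB_side hS hx hD ht (hZ.trans (Finset.union_comm _ _)) h₂
  have e3 : ∑ v ∈ Z₁, ∑ u ∈ Z₂, y v u = ∑ v ∈ Z₂, ∑ u ∈ Z₁, y v u := by
    rw [Finset.sum_comm]
    refine Finset.sum_congr rfl fun u _ => Finset.sum_congr rfl fun v _ => ?_
    exact hx.ysymm v u
  have l1 := vioB_load (P := P) (O := O) (z := z) Z₁
  have l2 := vioB_load (P := P) (O := O) (z := z) Z₂
  have s1 : ∑ v ∈ Z₁, (1 - load P O z v) = (Z₁.card : ℝ) - ∑ v ∈ Z₁, load P O z v := by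
    rw [Finset.sum_sub_distrib, Finset.sum_const, nsmul_eq_mul, mul_one]
  have s2 : ∑ v ∈ Z₂, (1 - load P O z v) = (Z₂.card : ℝ) - ∑ v ∈ Z₂, load P O z v := by
    rw [Finset.sum_sub_distrib, Finset.sum_const, nsmul_eq_mul, mul_one]
  have s3 : ∑ q ∈ P, ∑ T₁ ∈ O q, z T₁ * (((T₁ ∩ Z₁).card : ℝ) - (T₁ ∩ Z₂).card) =
      ∑ v ∈ Z₁, load P O z v - ∑ v ∈ Z₂, load P O z v := by
    rw [l1, l2, ← Finset.sum_sub_distrib]
    refine Finset.sum_congr rfl fun q _ => ?_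
    rw [← Finset.sum_sub_distrib]
    refine Finset.sum_congr rfl fun T _ => ?_
    ring
  rw [s3]
  linarith

end Pool.Agent.H.MP_ebc13b_lc.h46
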