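import Pool.Agent.H.MP_ebc13b_lc.h46.VioA
import Pool.Agent.H.MP_ebc13b_lc.h46.Row

/-!
Violators: parity.
-/

namespace Pool.Agent.H.MP_ebc13b_lc.h46

variable {α : Type*} [DecidableEq α] {G : SimpleGraph α} {A P : Finset α}
  {O : α → Finset (Finset α)} {z : Finset α → ℝ} {y : α → α → ℝ}

/-- The parity of `|W|`, `W = A \ (D ∪ N(D))`.

Proof. `A` is the disjoint union of `D`, `N(D)` and `W`. The tight row:
`cc D = ∑ q ∈ P, ∑ T₁ ∈ O q, z T₁ * MM T₁`; the slot `p` contributes `(1 + 3) / 2 = 2`, a slot `q ≠ p`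
contributes `M q`, the common value of `MM` on `O q` (`z1`), `M q ∈ {1, 2, 3}` (`MM_pos`, `MM_le`, `D`
is nonempty since `MM D T = 1`; `O q` is nonempty by `z1`). Let `t` be the number of `q ∈ P`, `q ≠ p`,
with `M q = 2`. Modulo 2: `|W| ≡ |A| + |D| + |N(D)| ≡ |P| + cc D ≡ |P| + ∑ (q ≠ p), M q ≡
|P| + (|P| - 1 - t) ≡ 1 + t`. -/
theorem W_parity (hPr : Prism G A) (hS : Slots G A P O) (hx : FSol G A P O z y)
    (hpar : Even (A.card + P.card)) {p : α} (hp : p ∈ P) {T T' D : Finset α} (hne : T ≠ T')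
    (hO : O p = {T, T'}) (hzT : z T = 1 / 2) (hzT' : z T' = 1 / 2)
    (hV : Vio G A P O z p T T' D) :
    Odd ((A \ (D ∪ nb G A D)).card +
      (P.filter (fun q => q ≠ p ∧ ∃ T₁ ∈ O q, MM G A D T₁ = 2)).card) := by
  have hDne : D.Nonempty := by
    rcases D.eq_empty_or_nonempty with h | h
    · have h1 := hV.one
      rw [h, MM_empty] at h1
      norm_num at h1
    · exact h
  have hex : ∀ q ∈ P, ∃ m : ℤ, (∑ T₁ ∈ O q, z T₁ * (MM G A D T₁ : ℝ) = (m : ℝ)) ∧
      Even (m + 1 + ((if q = p then 1 else 0) +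
        (if q ≠ p ∧ ∃ T₁ ∈ O q, MM G A D T₁ = 2 then 1 else 0))) := by
    intro q hq
    by_cases hqp : q = p
    · subst hqp
      refine ⟨2, ?_, ?_⟩
      · rw [hO, Finset.sum_pair hne, hzT, hzT', hV.one, hV.three]
        norm_num
      · have h1 : ¬ (q ≠ q ∧ ∃ T₁ ∈ O q, MM G A D T₁ = 2) := fun h => h.1 rfl
        rw [if_pos rfl, if_neg h1]
        decide
    · have hOne : (O q).Nonempty := by
        rcases (O q).eq_empty_or_nonempty with h | h
        · have h1 := hx.z1 q hq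
          rw [h, Finset.sum_empty] at h1
          norm_num at h1
        · exact h
      obtain ⟨T₀, hT₀⟩ := hOne
      have hc : ∀ T₁ ∈ O q, MM G A D T₁ = MM G A D T₀ := fun T₁ hT₁ =>
        hV.const q hq hqp T₁ hT₁ T₀ hT₀
      have h1 := MM_pos hPr hV.stab hDne (hS.sub q hq T₀ hT₀) (hS.clq q hq T₀ hT₀)
      have h2 := MM_le (A := A) (D := D) (hS.clq q hq T₀ hT₀)
      refine ⟨MM G A D T₀, ?_, ?_⟩
      · rw [Finset.sum_congr rfl (fun T₁ hT₁ => by rw [hc T₁ hT₁]), ← Finset.sum_mul,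
          hx.z1 q hq, one_mul]
      · rw [if_neg hqp]
        by_cases h3 : MM G A D T₀ = 2
        · rw [if_pos ⟨hqp, T₀, hT₀, h3⟩, h3]
          decide
        · have h4 : ¬ (q ≠ p ∧ ∃ T₁ ∈ O q, MM G A D T₁ = 2) := by
            rintro ⟨_, T₁, hT₁, h5⟩
            rw [hc T₁ hT₁] at h5
            exact h3 h5
          rw [if_neg h4]
          have h5 : MM G A D T₀ = 1 ∨ MM G A D T₀ = 3 := by omega
          rcases h5 with h5 | h5
          · rw [h5]
            decide
          · rw [h5]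
            decide
  choose! m hm1 hm2 using hex
  have hcc : cc G A D = ∑ q ∈ P, m q := by
    have h1 := hV.tight
    unfold Tight at h1
    rw [Finset.sum_congr rfl hm1] at h1
    exact_mod_cast h1.symm
  have hev : Even (∑ q ∈ P, (m q + 1 + ((if q = p then (1 : ℤ) else 0) +
      (if q ≠ p ∧ ∃ T₁ ∈ O q, MM G A D T₁ = 2 then (1 : ℤ) else 0)))) := Finset.even_sum _ hm2
  rw [Finset.sum_add_distrib, Finset.sum_add_distrib, Finset.sum_add_distrib, ← hcc,
    Finset.sum_boole, Finset.sum_boole, Finset.sum_const, nsmul_eq_mul, mul_one,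
    Finset.filter_eq' P p, if_pos hp, Finset.card_singleton] at hev
  have hW : (A \ (D ∪ nb G A D)).card + (D.card + (nb G A D).card) = A.card := by
    rw [← Finset.card_union_of_disjoint hV.stab.disj.symm]
    exact Finset.card_sdiff_add_card_eq_card (Finset.union_subset hV.stab.1 nb_sub)
  unfold cc at hev
  obtain ⟨k, hk⟩ := hev
  obtain ⟨l, hl⟩ := hpar
  have hW' : ((A \ (D ∪ nb G A D)).card : ℤ) = A.card - D.card - (nb G A D).card := by
    omega
  rw [Nat.odd_iff]
  simp only [Nat.cast_one] at hk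
  omega

end Pool.Agent.H.MP_ebc13b_lc.h46
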