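import Pool.Agent.H.MP_ebc13b_lc.h46.VioA
import Pool.Agent.H.MP_ebc13b_lc.h46.VioP
import Pool.Agent.H.MP_ebc13b_lc.h46.VioB

/-!
Violators: there is a split slot.
-/

namespace Pool.Agent.H.MP_ebc13b_lc.h46

variable {α : Type*} [DecidableEq α] {G : SimpleGraph α} {A P : Finset α}
  {O : α → Finset (Finset α)} {z : Finset α → ℝ} {y : α → α → ℝ}

private theorem vioq_cards {T₁ D Z₁ Z₂ : Finset α} (hD : Stab G A D) (hT : T₁ ⊆ A)
    (h3 : G.IsNClique 3 T₁)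
    (hZ : A \ (D ∪ nb G A D) = Z₁ ∪ Z₂) (hdisj : Disjoint Z₁ Z₂)
    (h₁ : ∀ u ∈ Z₁, ∀ v ∈ Z₁, ¬ G.Adj u v) (h₂ : ∀ u ∈ Z₂, ∀ v ∈ Z₂, ¬ G.Adj u v) :
    (T₁ ∩ Z₁).card ≤ 1 ∧ (T₁ ∩ Z₂).card ≤ 1 ∧
      (((T₁ ∩ Z₁).card + (T₁ ∩ Z₂).card = 0 ∧ MM G A D T₁ = 1) ∨
        (((T₁ ∩ Z₁).card : ℤ) + (T₁ ∩ Z₂).card = 3 - MM G A D T₁)) := by
  have hone : ∀ Z : Finset α, (∀ u ∈ Z, ∀ v ∈ Z, ¬ G.Adj u v) → (T₁ ∩ Z).card ≤ 1 := by
    intro Z h
    rw [Finset.card_le_one]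
    intro a ha b hb
    rw [Finset.mem_inter] at ha hb
    by_contra hab
    exact h a ha.2 b hb.2 (h3.isClique ha.1 hb.1 hab)
  have hsum : (T₁ ∩ Z₁).card + (T₁ ∩ Z₂).card = (T₁ ∩ (A \ (D ∪ nb G A D))).card := by
    rw [hZ, Finset.inter_union_distrib_left, Finset.card_union_of_disjoint]
    exact hdisj.mono Finset.inter_subset_right Finset.inter_subset_right
  refine ⟨hone Z₁ h₁, hone Z₂ h₂, ?_⟩
  by_cases hmeet : ∃ d ∈ D, d ∈ T₁
  · obtain ⟨d, hd, hdT⟩ := hmeet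
    obtain ⟨hM, hall⟩ := MM_of_mem hD hT h3 hd hdT
    refine Or.inl ⟨?_, hM⟩
    rw [hsum, Finset.card_eq_zero, Finset.eq_empty_iff_forall_notMem]
    intro x hx
    rw [Finset.mem_inter, Finset.mem_sdiff, Finset.mem_union] at hx
    obtain ⟨hx1, -, hx2⟩ := hx
    by_cases hxd : x = d
    · exact hx2 (Or.inl (hxd ▸ hd))
    · exact hx2 (Or.inr (hall x hx1 hxd).1)
  · have hdis : Disjoint T₁ D :=
      Finset.disjoint_left.2 (fun x hxT hxD => hmeet ⟨x, hxD, hxT⟩)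
    have hM := MM_of_disj (G := G) (A := A) hdis
    refine Or.inr ?_
    have he : T₁ ∩ (A \ (D ∪ nb G A D)) = T₁ \ nb G A D := by
      ext x
      simp only [Finset.mem_inter, Finset.mem_sdiff, Finset.mem_union, not_or]
      constructor
      · rintro ⟨a, -, -, b⟩
        exact ⟨a, b⟩
      · rintro ⟨a, b⟩
        exact ⟨a, hT a, Finset.disjoint_left.1 hdis a, b⟩
    rw [he] at hsum
    have hc := Finset.card_sdiff_add_card_inter T₁ (nb G A D)
    rw [h3.card_eq] at hc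
    rw [hM]
    omega

/-- There is a split slot.

Proof. Suppose not. By `W_balance`, `|Z₁| - |Z₂| = ∑ q ∈ P, e q`, `e q` the contribution of the slot
`q`. The two options of `p` do not meet `W`: `T'` is in `N(D)` (`MM_three`), `T` meets `D` in one
vertex and its other vertices are in `N(D)` (`exists_VA`), so `e p = 0`. For `q ≠ p`
with `M q = 3`: `T₁ ⊆ N(D)`, `e q = 0`. `M q = 1`: if `T₁` meets `D` then (`MM_of_mem`) it does not meet
`W`; otherwise it has two vertices in `W`, which are adjacent, so one of them is in `Z₁` and the other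
one in `Z₂`: `e q = 0`. `M q = 2`: every `T₁ ∈ O q` has exactly one vertex in `W` (`MM_two`), and by
assumption they are all in `Z₁` or all in `Z₂`; so `e q = 1` or `e q = -1` (`z1`). So `|Z₁| - |Z₂|` is
an integer congruent modulo 2 to the number of `q ≠ p` with `M q = 2`, and so is `|W| = |Z₁| + |Z₂|`,
contradiction to `W_parity`. -/
theorem exists_split (hPr : Prism G A) (hS : Slots G A P O) (hx : FSol G A P O z y)
    (hpar : Even (A.card + P.card)) {p : α} (hp : p ∈ P) {T T' D : Finset α} (hne : T ≠ T')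
    (hO : O p = {T, T'}) (hzT : z T = 1 / 2) (hzT' : z T' = 1 / 2)
    (hV : Vio G A P O z p T T' D) {Z₁ Z₂ : Finset α}
    (hZ : A \ (D ∪ nb G A D) = Z₁ ∪ Z₂) (hdisj : Disjoint Z₁ Z₂)
    (h₁ : ∀ u ∈ Z₁, ∀ v ∈ Z₁, ¬ G.Adj u v) (h₂ : ∀ u ∈ Z₂, ∀ v ∈ Z₂, ¬ G.Adj u v) :
    ∃ q ∈ P, q ≠ p ∧ ∃ T₁ ∈ O q, ∃ T₂ ∈ O q, MM G A D T₁ = 2 ∧ MM G A D T₂ = 2 ∧
      (T₁ ∩ Z₁).Nonempty ∧ (T₂ ∩ Z₂).Nonempty := by
  classical
  by_contra hcon
  have hDne : D.Nonempty := by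
    rw [Finset.nonempty_iff_ne_empty]
    intro h
    have h1 := hV.one
    rw [h, MM_empty] at h1
    exact absurd h1 (by norm_num)
  have hbal := W_balance hS hx hV.stab hV.tight hZ hdisj h₁ h₂
  have hpar' := W_parity hPr hS hx hpar hp hne hO hzT hzT' hV
  have key : ∀ q ∈ P, ∃ e : ℤ,
      ∑ T₁ ∈ O q, z T₁ * (((T₁ ∩ Z₁).card : ℝ) - (T₁ ∩ Z₂).card) = (e : ℝ) ∧
      Even (e + if q ≠ p ∧ ∃ T₁ ∈ O q, MM G A D T₁ = 2 then 1 else 0) := by
    intro q hq
    have hcards : ∀ T₁ ∈ O q, _ := fun T₁ hT₁ =>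
      vioq_cards hV.stab (hS.sub q hq T₁ hT₁) (hS.clq q hq T₁ hT₁) hZ hdisj h₁ h₂
    have hzero : (∀ T₁ ∈ O q, MM G A D T₁ = 1 ∨ MM G A D T₁ = 3) →
        ∑ T₁ ∈ O q, z T₁ * (((T₁ ∩ Z₁).card : ℝ) - (T₁ ∩ Z₂).card) = ((0 : ℤ) : ℝ) := by
      intro hall
      rw [Int.cast_zero]
      apply Finset.sum_eq_zero
      intro T₁ hT₁
      have h4 := hcards T₁ hT₁
      have h5 : (T₁ ∩ Z₁).card = (T₁ ∩ Z₂).card := by
        rcases hall T₁ hT₁ with h6 | h6 <;> rw [h6] at h4 <;> omega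
      rw [h5, sub_self, mul_zero]
    by_cases hqp : q = p
    · subst hqp
      refine ⟨0, hzero ?_, ?_⟩
      · intro T₁ hT₁
        rw [hO, Finset.mem_insert, Finset.mem_singleton] at hT₁
        rcases hT₁ with h | h
        · left
          rw [h]
          exact hV.one
        · right
          rw [h]
          exact hV.three
      · simp
    · have hne0 : (O q).Nonempty := by
        rw [Finset.nonempty_iff_ne_empty]
        intro h
        have h1 := hx.z1 q hq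
        rw [h, Finset.sum_empty] at h1
        exact absurd h1 (by norm_num)
      obtain ⟨T₀, hT₀⟩ := hne0
      have hsame : ∀ T₁ ∈ O q, MM G A D T₁ = MM G A D T₀ := fun T₁ hT₁ =>
        hV.const q hq hqp T₁ hT₁ T₀ hT₀
      have hge := MM_pos hPr hV.stab hDne (hS.sub q hq T₀ hT₀) (hS.clq q hq T₀ hT₀)
      have hle := MM_le (G := G) (A := A) (D := D) (hS.clq q hq T₀ hT₀)
      by_cases h2 : MM G A D T₀ = 2
      · have hind : (q ≠ p ∧ ∃ T₁ ∈ O q, MM G A D T₁ = 2) := ⟨hqp, T₀, hT₀, h2⟩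
        rw [if_pos hind]
        have hnosplit : ∀ T₁ ∈ O q, ∀ T₂ ∈ O q, (T₁ ∩ Z₁).card = 1 → (T₂ ∩ Z₂).card = 1 →
            False := by
          intro T₁ hT₁ T₂ hT₂ c1 c2
          exact hcon ⟨q, hq, hqp, T₁, hT₁, T₂, hT₂, (hsame T₁ hT₁).trans h2,
            (hsame T₂ hT₂).trans h2, Finset.card_pos.1 (by omega), Finset.card_pos.1 (by omega)⟩
        have htype : ∀ T₁ ∈ O q, ((T₁ ∩ Z₁).card = 1 ∧ (T₁ ∩ Z₂).card = 0) ∨
            ((T₁ ∩ Z₁).card = 0 ∧ (T₁ ∩ Z₂).card = 1) := by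
          intro T₁ hT₁
          have h4 := hcards T₁ hT₁
          rw [hsame T₁ hT₁, h2] at h4
          omega
        rcases htype T₀ hT₀ with h0 | h0
        · refine ⟨1, ?_, by decide⟩
          rw [Int.cast_one, ← hx.z1 q hq]
          apply Finset.sum_congr rfl
          intro T₁ hT₁
          rcases htype T₁ hT₁ with h5 | h5
          · rw [h5.1, h5.2]
            norm_num
          · exact (hnosplit T₀ hT₀ T₁ hT₁ h0.1 h5.2).elim
        · refine ⟨-1, ?_, by decide⟩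
          rw [Int.cast_neg, Int.cast_one, ← hx.z1 q hq, ← Finset.sum_neg_distrib]
          apply Finset.sum_congr rfl
          intro T₁ hT₁
          rcases htype T₁ hT₁ with h5 | h5
          · exact (hnosplit T₁ hT₁ T₀ hT₀ h5.1 h0.2).elim
          · rw [h5.1, h5.2]
            norm_num
      · refine ⟨0, hzero ?_, ?_⟩
        · intro T₁ hT₁
          rw [hsame T₁ hT₁]
          omega
        · have hind : ¬ (q ≠ p ∧ ∃ T₁ ∈ O q, MM G A D T₁ = 2) := by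
            rintro ⟨-, T₁, hT₁, h5⟩
            exact h2 ((hsame T₁ hT₁) ▸ h5)
          rw [if_neg hind]
          simp
  choose! e he1 he2 using key
  have hsum : ((Z₁.card : ℤ) - Z₂.card) = ∑ q ∈ P, e q := by
    have h1 : ((Z₁.card : ℝ) - Z₂.card) = ∑ q ∈ P, (e q : ℝ) := by
      rw [hbal]
      exact Finset.sum_congr rfl he1
    exact_mod_cast h1
  have hev : Even (∑ q ∈ P, (e q + if q ≠ p ∧ ∃ T₁ ∈ O q, MM G A D T₁ = 2 then 1 else 0)) :=
    Finset.even_sum _ he2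
  rw [Finset.sum_add_distrib, ← hsum, Finset.sum_boole] at hev
  rw [hZ, Finset.card_union_of_disjoint hdisj] at hpar'
  obtain ⟨a, ha⟩ := hev
  obtain ⟨b, hb⟩ := hpar'
  omega

end Pool.Agent.H.MP_ebc13b_lc.h46
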