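import Pool.Agent.H.MP_ebc13b_lc.h46.VioS
import Pool.Agent.H.MP_ebc13b_lc.h46.VioQ

/-!
The structure of violators.
-/

namespace Pool.Agent.H.MP_ebc13b_lc.h46

variable {α : Type*} [DecidableEq α] {G : SimpleGraph α} {A P : Finset α}
  {O : α → Finset (Finset α)} {z : Finset α → ℝ} {y : α → α → ℝ}

/-- Structure of violators: a violator `D` for the option `T = {p, δ, s}` is contained in `N(s)`, only
`δ` sees `p`, and `s` is a vertex of another triangle.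

Proof. `exists_VA` gives `δ, s`. `W = A \ (D ∪ N(D))`, `Z₁ = {w ∈ W | w ~ p}`,
`Z₂ = {w ∈ W | w ~ s}`; `W = Z₁ ∪ Z₂` disjointly (`oneW`), `Z₁` is stable (`near_stable`). If `Z₂` is
not stable: `folded`, and the triangle `{s, w, w'}` does not contain `p` (`p ∈ N(D)`). If `Z₂` is stable:
`exists_split` gives `q, T₁, T₂`; `ζ₁ ∈ T₁ ∩ Z₁`, `ζ₂ ∈ T₂ ∩ Z₂`; `VA.split` (disjointness from
`Slots.disj`). -/
theorem viol (hPr : Prism G A) (hS : Slots G A P O) (hx : FSol G A P O z y)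
    (hpar : Even (A.card + P.card)) {p : α} (hp : p ∈ P) {T T' D : Finset α} (hne : T ≠ T')
    (hO : O p = {T, T'}) (hzT : z T = 1 / 2) (hzT' : z T' = 1 / 2)
    (hV : Vio G A P O z p T T' D) :
    ∃ δ s, T = {p, δ, s} ∧ VA G A p δ s T' D ∧ (∀ d ∈ D, G.Adj d s) ∧
      (∀ d ∈ D, G.Adj d p → d = δ) ∧ ∃ T'' ⊆ A, G.IsNClique 3 T'' ∧ s ∈ T'' ∧ p ∉ T'' := by
  classical
  have hT : T ∈ O p := by rw [hO]; simp
  have hT' : T' ∈ O p := by rw [hO]; simp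
  obtain ⟨δ, s, hTe, hVA⟩ := exists_VA hPr hS hp hT hT' hV.stab hV.one hV.three
  refine ⟨δ, s, hTe, hVA, ?_⟩
  let W : Finset α := A \ (D ∪ nb G A D)
  let Z₁ : Finset α := W.filter (fun w => G.Adj w p)
  let Z₂ : Finset α := W.filter (fun w => G.Adj w s)
  have memW : ∀ w, w ∈ W ↔ w ∈ A ∧ w ∉ D ∧ w ∉ nb G A D := by
    intro w
    simp only [W, Finset.mem_sdiff, Finset.mem_union, not_or]
  have hZ : W = Z₁ ∪ Z₂ := by
    ext w
    simp only [Z₁, Z₂, Finset.mem_union, Finset.mem_filter]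
    constructor
    · intro hw
      obtain ⟨a1, a2, a3⟩ := (memW w).1 hw
      rcases hVA.oneW w a1 a2 a3 with h | h
      · exact Or.inl ⟨hw, h.1⟩
      · exact Or.inr ⟨hw, h.2⟩
    · rintro (h | h)
      · exact h.1
      · exact h.1
  have hdisj : Disjoint Z₁ Z₂ := by
    rw [Finset.disjoint_left]
    intro w hw hw'
    simp only [Z₁, Z₂, Finset.mem_filter] at hw hw'
    obtain ⟨a1, a2, a3⟩ := (memW w).1 hw.1
    rcases hVA.oneW w a1 a2 a3 with h | h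
    · exact h.2 hw'.2
    · exact h.1 hw.2
  have hst₁ : ∀ u ∈ Z₁, ∀ v ∈ Z₁, ¬ G.Adj u v := by
    intro u hu v hv
    simp only [Z₁, Finset.mem_filter] at hu hv
    obtain ⟨a1, a2, a3⟩ := (memW u).1 hu.1
    obtain ⟨b1, b2, b3⟩ := (memW v).1 hv.1
    exact hVA.near_stable hPr a1 a3 b1 b3 hu.2 hv.2 a2 b2
  by_cases hst₂ : ∀ u ∈ Z₂, ∀ v ∈ Z₂, ¬ G.Adj u v
  · obtain ⟨q, hq, hqp, T₁, hT₁, T₂, hT₂, hm₁, hm₂, hn₁, hn₂⟩ :=
      exists_split hPr hS hx hpar hp hne hO hzT hzT' hV hZ hdisj hst₁ hst₂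
    obtain ⟨ζ₁, hζ₁⟩ := hn₁
    obtain ⟨ζ₂, hζ₂⟩ := hn₂
    obtain ⟨c1, c2⟩ := Finset.mem_inter.1 hζ₁
    obtain ⟨d1, d2⟩ := Finset.mem_inter.1 hζ₂
    simp only [Z₁, Finset.mem_filter] at c2
    simp only [Z₂, Finset.mem_filter] at d2
    have e1 := ((memW ζ₁).1 c2.1).2.2
    have e2 := ((memW ζ₂).1 d2.1).2.2
    exact hVA.split hPr (hS.sub q hq T₁ hT₁) (hS.clq q hq T₁ hT₁) (hS.hub q hq T₁ hT₁)
      (hS.sub q hq T₂ hT₂) (hS.clq q hq T₂ hT₂) (hS.hub q hq T₂ hT₂)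
      (by rw [← hTe]; exact hS.disj q hq p hp hqp T₁ hT₁ T hT)
      (by rw [← hTe]; exact hS.disj q hq p hp hqp T₂ hT₂ T hT)
      hm₁ hm₂ c1 d1 e1 e2 c2.2 d2.2
  · push Not at hst₂
    obtain ⟨u, hu, v, hv, huv⟩ := hst₂
    simp only [Z₂, Finset.mem_filter] at hu hv
    obtain ⟨a1, a2, a3⟩ := (memW u).1 hu.1
    obtain ⟨b1, b2, b3⟩ := (memW v).1 hv.1
    obtain ⟨f1, f2⟩ := hVA.folded hPr a1 a3 b1 b3 hu.2 hv.2 a2 b2 huv
    refine ⟨f1, f2, {s, u, v}, ?_, clique_abc hu.2.symm hv.2.symm huv, by simp, ?_⟩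
    · intro x hx
      simp only [Finset.mem_insert, Finset.mem_singleton] at hx
      rcases hx with rfl | rfl | rfl
      · exact hVA.sA
      · exact a1
      · exact b1
    · simp only [Finset.mem_insert, Finset.mem_singleton, not_or]
      refine ⟨hVA.ps.ne, ?_, ?_⟩
      · rintro rfl
        exact a3 hVA.pN
      · rintro rfl
        exact b3 hVA.pN

end Pool.Agent.H.MP_ebc13b_lc.h46
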