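import Pool.Agent.H.MP_ebc13b_lc.h46.MinO
import Pool.Agent.H.MP_ebc13b_lc.h46.Viol
import Pool.Agent.H.MP_ebc13b_lc.h46.Del

/-!
The main step, and the theorem for slots whose options contain no other hub.
-/

namespace Pool.Agent.H.MP_ebc13b_lc.h46

variable {α : Type*} [DecidableEq α] {G : SimpleGraph α} {A P : Finset α}
  {O : α → Finset (Finset α)}

/-- A feasible system has a minimal feasible subsystem.

Proof. Strong induction on `∑ p ∈ P, (O p).card`: if some `T ∈ O p`, `p ∈ P` can be erased (the
system `Function.update O p ((O p).erase T)` is feasible) apply the induction hypothesis to it. -/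
theorem exists_minimal (hS : Slots G A P O) (hF : Feas G A P O) :
    ∃ O' : α → Finset (Finset α), (∀ p ∈ P, O' p ⊆ O p) ∧ Feas G A P O' ∧
      ∀ p ∈ P, ∀ T ∈ O' p, ¬ Feas G A P (Function.update O' p ((O' p).erase T)) := by
  classical
  induction' hn : ∑ p ∈ P, (O p).card using Nat.strong_induction_on with n ih generalizing O
  by_cases h : ∃ p ∈ P, ∃ T ∈ O p, Feas G A P (Function.update O p ((O p).erase T))
  · obtain ⟨p, hp, T, hT, hFe⟩ := h
    have hsub : ∀ q ∈ P, Function.update O p ((O p).erase T) q ⊆ O q := by
      intro q _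
      by_cases hqp : q = p
      · subst hqp
        rw [Function.update_self]
        exact Finset.erase_subset _ _
      · rw [Function.update_of_ne hqp]
    have hlt : ∑ q ∈ P, (Function.update O p ((O p).erase T) q).card < n := by
      rw [← hn]
      refine Finset.sum_lt_sum (fun q hq => Finset.card_le_card (hsub q hq)) ⟨p, hp, ?_⟩
      rw [Function.update_self]
      exact Finset.card_erase_lt_of_mem hT
    obtain ⟨O', h1, h2, h3⟩ := ih _ hlt (hS.sub_opt hsub) hFe rfl
    exact ⟨O', fun q hq => (h1 q hq).trans (hsub q hq), h2, h3⟩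
  · push Not at h
    exact ⟨O, fun p _ => Finset.Subset.refl _, hF, h⟩

/-- The main step.

Proof. Take `O'` from `exists_minimal`, a solution `(z, y)` of it. All `O' p` are nonempty (`z1`). If
some `O' p`, `p ∈ P`, has one element `T`: first alternative (`Feas.del` for `O'`, then the options of
the other slots may be enlarged: a solution for `O'` is a solution for `O` after setting `z = 0` on the
additional options; or simply keep `O'` in the statement). Otherwise `min_half`. -/
theorem step (hPr : Prism G A) (hS : Slots G A P O) (hF : Feas G A P O) :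
    ∃ O' : α → Finset (Finset α), (∀ p ∈ P, O' p ⊆ O p) ∧ Slots G A P O' ∧
      ((∃ p ∈ P, ∃ T, O' p = {T} ∧ Feas G (A \ T) (P.erase p) O') ∨
        ∃ z y, FSol G A P O' z y ∧ Half P O' z ∧
          ∀ p ∈ P, ∀ T ∈ O' p, ∃ T' ∈ O' p, T' ≠ T ∧ ∃ D, Vio G A P O' z p T T' D) := by
  classical
  obtain ⟨O', hsub, hF', hmin⟩ := exists_minimal hS hF
  have hS' := hS.sub_opt hsub
  refine ⟨O', hsub, hS', ?_⟩
  obtain ⟨z, y, hx⟩ := hF'
  by_cases h1 : ∃ p ∈ P, (O' p).card = 1
  · obtain ⟨p, hp, hc⟩ := h1
    obtain ⟨T, hT⟩ := Finset.card_eq_one.1 hc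
    exact Or.inl ⟨p, hp, T, hT, Feas.del hS' hp hT ⟨z, y, hx⟩⟩
  · push Not at h1
    have hge : ∀ p ∈ P, 2 ≤ (O' p).card := by
      intro p hp
      have h0 : (O' p).card ≠ 0 := by
        intro h0
        have h2 := hx.z1 p hp
        rw [Finset.card_eq_zero.1 h0, Finset.sum_empty] at h2
        exact zero_ne_one h2
      have := h1 p hp
      omega
    obtain ⟨h2, h3⟩ := min_half hPr hS' hx hge hmin
    exact Or.inr ⟨z, y, hx, h2, h3⟩

/-- T2a: a feasible slot system of the right parity, in which the vertices `≠ p` of the options of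
the slot `p` are in no other triangle, has an integral solution.

Proof. Induction on `P.card`. `P = ∅`: trivial (`A \ ∅ = A`, `Feas` with `P = ∅`). Otherwise `step`. In
the first alternative apply the induction hypothesis to `A \ T`, `P.erase p`, `O'` (`Slots.del`,
`par_del`, `Prism.mono`) and add `S p = T`. In the second alternative take any `p ∈ P`
(`P` is nonempty), `T ∈ O' p`, `T'`, `D`; `viol` gives `s ∈ T`, `s ≠ p`, in a triangle `T''` with
`p ∉ T''`, contradiction to `hhub` (`p ∈ T`). -/
theorem t2a (hPr : Prism G A) (hS : Slots G A P O) (hF : Feas G A P O)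
    (hpar : Even (A.card + P.card))
    (hhub : ∀ p ∈ P, ∀ T ∈ O p, ∀ x ∈ T, x ≠ p → ∀ T'' ⊆ A, G.IsNClique 3 T'' → x ∈ T'' →
      T'' = T) :
    ∃ S : α → Finset α, (∀ p ∈ P, S p ∈ O p) ∧
      Feas G (A \ P.biUnion S) ∅ (fun _ => ∅) := by
  classical
  induction' hn : P.card with n ih generalizing A P O
  · have hP := Finset.card_eq_zero.1 hn
    subst hP
    refine ⟨fun _ => ∅, by simp, ?_⟩
    rw [Finset.biUnion_empty, Finset.sdiff_empty]
    exact Feas.congr (by simp) hF
  · obtain ⟨O', hsub, hS', h⟩ := step hPr hS hF
    rcases h with ⟨p, hp, T, hT, hF'⟩ | ⟨z, y, hx, hH, hV⟩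
    · have hTO : T ∈ O' p := by rw [hT]; exact Finset.mem_singleton_self T
      have hc : (P.erase p).card = n := by
        rw [Finset.card_erase_of_mem hp, hn]
        rfl
      obtain ⟨S, h1, h2⟩ := ih (A := A \ T) (P := P.erase p) (O := O')
        (hPr.mono Finset.sdiff_subset) (hS'.del hp hTO) hF' (par_del hS' hp hTO hpar)
        (fun q hq T₁ hT₁ x hx hxq T'' hT'' h3 hxT =>
          hhub q (Finset.mem_of_mem_erase hq) T₁ (hsub q (Finset.mem_of_mem_erase hq) hT₁) x hx hxq
            T'' (hT''.trans Finset.sdiff_subset) h3 hxT) hc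
      refine ⟨Function.update S p T, ?_, ?_⟩
      · intro q hq
        by_cases hqp : q = p
        · subst hqp
          rw [Function.update_self]
          exact hsub q hq hTO
        · rw [Function.update_of_ne hqp]
          exact hsub q hq (h1 q (Finset.mem_erase.2 ⟨hqp, hq⟩))
      · have he : A \ P.biUnion (Function.update S p T) =
            (A \ T) \ (P.erase p).biUnion S := by
          ext x
          simp only [Finset.mem_sdiff, Finset.mem_biUnion, not_exists, not_and,
            Finset.mem_erase]
          constructor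
          · rintro ⟨hxA, hx⟩
            refine ⟨⟨hxA, ?_⟩, ?_⟩
            · have := hx p hp
              rwa [Function.update_self] at this
            · rintro q ⟨hqp, hq⟩
              have := hx q hq
              rwa [Function.update_of_ne hqp] at this
          · rintro ⟨⟨hxA, hxT⟩, hx⟩
            refine ⟨hxA, ?_⟩
            intro q hq
            by_cases hqp : q = p
            · subst hqp
              rwa [Function.update_self]
            · rw [Function.update_of_ne hqp]
              exact hx q ⟨hqp, hq⟩
        rw [he]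
        exact h2
    · exfalso
      obtain ⟨p, hp⟩ : P.Nonempty := by
        rw [← Finset.card_pos, hn]
        exact Nat.succ_pos n
      obtain ⟨T₁, T₂, hne, hO, hz1, hz2⟩ := hH p hp
      have hT1 : T₁ ∈ O' p := by rw [hO]; simp
      obtain ⟨T', hT', hne', D, hVio⟩ := hV p hp T₁ hT1
      have hT'2 : T' = T₂ := by
        rw [hO] at hT'
        simp only [Finset.mem_insert, Finset.mem_singleton] at hT'
        rcases hT' with h | h
        · exact absurd h hne'
        · exact h
      subst hT'2
      obtain ⟨δ, s, hTe, _, _, _, T'', hT''A, hT''c, hsT, hpT⟩ :=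
        viol hPr hS' hx hpar hp hne hO hz1 hz2 hVio
      have hsp : s ≠ p := by
        intro hsp
        have h3 := (hS'.clq p hp T₁ hT1).card_eq
        rw [hTe, hsp] at h3
        have h4 : ({p, δ, p} : Finset α).card ≤ 2 := by
          have : ({p, δ, p} : Finset α) = {p, δ} := by
            ext x
            simp only [Finset.mem_insert, Finset.mem_singleton]
            tauto
          rw [this]
          exact Finset.card_le_two
        omega
      have h5 := hhub p hp T₁ (hsub p hp hT1) s (by rw [hTe]; simp) hsp T'' hT''A hT''c hsT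
      apply hpT
      rw [h5, hTe]
      simp

end Pool.Agent.H.MP_ebc13b_lc.h46
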