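import Pool.Agent.H.MP_ebc13b_lc.h46.Defs

/-!
The numbers `M_D(T)` of the triangles.
-/

namespace Pool.Agent.H.MP_ebc13b_lc.h46

variable {α : Type*} [DecidableEq α] {G : SimpleGraph α} {A D T : Finset α}

/-- The other two vertices of `T` are adjacent to `d`, so they are in `N(D)` and not in `D`
(`D` is stable); `d ∉ N(D)` (`Stab.disj`). So `T ∩ N(D) = T \ {d}` and `T ∩ D = {d}`. -/
theorem MM_of_mem (hD : Stab G A D) (hT : T ⊆ A) (h3 : G.IsNClique 3 T) {d : α} (hd : d ∈ D)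
    (hdT : d ∈ T) : MM G A D T = 1 ∧ ∀ x ∈ T, x ≠ d → x ∈ nb G A D ∧ x ∉ D := by
  have h1 : ∀ x ∈ T, x ≠ d → x ∈ nb G A D ∧ x ∉ D := by
    intro x hx hxd
    have h4 : G.Adj x d := h3.isClique hx hdT hxd
    have h5 : x ∈ nb G A D := mem_nb.2 ⟨hT hx, d, hd, h4⟩
    exact ⟨h5, fun h6 => hD.2 x h6 d hd h4⟩
  have hdn : d ∉ nb G A D := fun h => Finset.disjoint_left.1 hD.disj h hd
  refine ⟨?_, h1⟩
  have e1 : T ∩ nb G A D = T.erase d := by
    ext x
    rw [Finset.mem_inter, Finset.mem_erase]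
    constructor
    · rintro ⟨hx, hx2⟩
      refine ⟨?_, hx⟩
      rintro rfl
      exact hdn hx2
    · rintro ⟨hx, hx2⟩
      exact ⟨hx2, (h1 x hx2 hx).1⟩
  have e2 : T ∩ D = {d} := by
    ext x
    rw [Finset.mem_inter, Finset.mem_singleton]
    constructor
    · rintro ⟨hx, hx2⟩
      by_contra hne
      exact (h1 x hx hne).2 hx2
    · rintro rfl
      exact ⟨hdT, hd⟩
  unfold MM
  rw [e1, e2, Finset.card_erase_of_mem hdT, h3.card_eq]
  norm_num

theorem MM_of_disj (h : Disjoint T D) : MM G A D T = ((T ∩ nb G A D).card : ℤ) := by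
  unfold MM
  rw [Finset.disjoint_iff_inter_eq_empty.1 h]
  simp

theorem MM_le (h3 : G.IsNClique 3 T) : MM G A D T ≤ 3 := by
  unfold MM
  have h1 : (T ∩ nb G A D).card ≤ T.card := Finset.card_le_card Finset.inter_subset_left
  rw [h3.card_eq] at h1
  omega

/-- If `T` meets `D`: `MM_of_mem`. Otherwise `MM_of_disj`, it is nonnegative. -/
theorem MM_nonneg (hD : Stab G A D) (hT : T ⊆ A) (h3 : G.IsNClique 3 T) : 0 ≤ MM G A D T := by
  by_cases h : Disjoint T D
  · rw [MM_of_disj h]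
    positivity
  · obtain ⟨d, hdT, hd⟩ := Finset.not_disjoint_iff.1 h
    rw [(MM_of_mem hD hT h3 hd hdT).1]
    norm_num

/-- If `T` meets `D`: `MM_of_mem`. Otherwise `MM_of_disj`, and an element `d ∈ D` (not in `T`, but
in `A`) has a neighbour in `T` (`Prism`), which is in `T ∩ N(D)`. -/
theorem MM_pos (hPr : Prism G A) (hD : Stab G A D) (hne : D.Nonempty) (hT : T ⊆ A)
    (h3 : G.IsNClique 3 T) : 1 ≤ MM G A D T := by
  by_cases h : Disjoint T D
  · rw [MM_of_disj h]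
    obtain ⟨d, hd⟩ := hne
    have hdT : d ∉ T := fun h' => Finset.disjoint_left.1 h h' hd
    obtain ⟨u, hu, hdu, _⟩ := hPr T hT h3 d (hD.1 hd) hdT
    have h1 : u ∈ T ∩ nb G A D :=
      Finset.mem_inter.2 ⟨hu, mem_nb.2 ⟨hT hu, d, hd, hdu.symm⟩⟩
    have h2 := Finset.card_pos.2 ⟨u, h1⟩
    omega
  · obtain ⟨d, hdT, hd⟩ := Finset.not_disjoint_iff.1 h
    rw [(MM_of_mem hD hT h3 hd hdT).1]

/-- `T` does not meet `D` (`MM_of_mem`), so all three vertices of `T` are in `N(D)`. -/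
theorem MM_three (hD : Stab G A D) (hT : T ⊆ A) (h3 : G.IsNClique 3 T) (h : MM G A D T = 3) :
    T ⊆ nb G A D ∧ Disjoint T D := by
  by_cases hdis : Disjoint T D
  · refine ⟨?_, hdis⟩
    rw [MM_of_disj hdis] at h
    have h1 : (T ∩ nb G A D).card = T.card := by
      rw [h3.card_eq]
      omega
    have h2 := Finset.eq_of_subset_of_card_le Finset.inter_subset_left (le_of_eq h1.symm)
    exact Finset.inter_eq_left.1 h2
  · obtain ⟨d, hdT, hd⟩ := Finset.not_disjoint_iff.1 hdis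
    rw [(MM_of_mem hD hT h3 hd hdT).1] at h
    omega

/-- `T` does not meet `D` (`MM_of_mem`), exactly one vertex of `T` is outside `N(D)`. -/
theorem MM_two (hD : Stab G A D) (hT : T ⊆ A) (h3 : G.IsNClique 3 T) (h : MM G A D T = 2) :
    Disjoint T D ∧ ∃ w ∈ T, w ∉ nb G A D ∧ ∀ x ∈ T, x ≠ w → x ∈ nb G A D := by
  by_cases hdis : Disjoint T D
  · refine ⟨hdis, ?_⟩
    rw [MM_of_disj hdis] at h
    have h1 : (T \ nb G A D).card = 1 := by
      have h2 := Finset.card_inter_add_card_sdiff T (nb G A D)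
      rw [h3.card_eq] at h2
      omega
    obtain ⟨w, hw⟩ := Finset.card_eq_one.1 h1
    have h2 : w ∈ T \ nb G A D := by
      rw [hw]
      exact Finset.mem_singleton_self w
    obtain ⟨h4, h5⟩ := Finset.mem_sdiff.1 h2
    refine ⟨w, h4, h5, ?_⟩
    intro x hx hxw
    by_contra hcon
    have h6 : x ∈ T \ nb G A D := Finset.mem_sdiff.2 ⟨hx, hcon⟩
    rw [hw, Finset.mem_singleton] at h6
    exact hxw h6
  · obtain ⟨d, hdT, hd⟩ := Finset.not_disjoint_iff.1 hdis
    rw [(MM_of_mem hD hT h3 hd hdT).1] at h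
    omega

/-- `D` empty: `M` is zero. -/
theorem MM_empty : MM G A ∅ T = 0 := by
  have h : nb G A ∅ = ∅ := by
    ext v
    rw [mem_nb]
    simp
  unfold MM
  rw [h]
  simp

end Pool.Agent.H.MP_ebc13b_lc.h46
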