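import Pool.Agent.H.MP_ebc13b_lc.h46.Tri

/-!
Violators: the first consequences.
-/

namespace Pool.Agent.H.MP_ebc13b_lc.h46

variable {α : Type*} [DecidableEq α] {G : SimpleGraph α} {A P : Finset α}
  {O : α → Finset (Finset α)} {z : Finset α → ℝ} {y : α → α → ℝ}

/-- the data of a violator `D` for the option `T = {p, δ, s}`, the other option being `T'` -/
structure VA (G : SimpleGraph α) (A : Finset α) (p δ s : α) (T' D : Finset α) : Prop where
  stab : Stab G A D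
  pA : p ∈ A
  sA : s ∈ A
  δD : δ ∈ D
  pδ : G.Adj p δ
  ps : G.Adj p s
  δs : G.Adj δ s
  pN : p ∈ nb G A D
  sN : s ∈ nb G A D
  sub : T' ⊆ nb G A D
  T'A : T' ⊆ A
  T'3 : G.IsNClique 3 T'
  pT' : p ∈ T'
  /-- every element of `D` different from `δ` sees exactly one of `p`, `s` -/
  one : ∀ d ∈ D, d ≠ δ → (G.Adj d p ∧ ¬ G.Adj d s) ∨ (¬ G.Adj d p ∧ G.Adj d s)
  /-- every vertex outside `D` and `N(D)` sees exactly one of `p`, `s` -/
  oneW : ∀ w ∈ A, w ∉ D → w ∉ nb G A D →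
    (G.Adj w p ∧ ¬ G.Adj w s) ∨ (¬ G.Adj w p ∧ G.Adj w s)

/-- Proof. `MM D T' = 3`: `T' ⊆ N(D)`, so `p ∈ N(D)`, `p ∉ D`. Suppose `T` does not meet `D`. Then
`T ∩ N(D) = {p}` has one element (`MM_of_disj`), every `d ∈ D` sees exactly one vertex of `T`, so it
sees `p`, and (`d ∉ T'`) it sees no other vertex of `T'`: so `T' ∩ N(D) ⊆ {p}`, contradiction. So some
`δ ∈ D ∩ T`, `δ ≠ p`; `T = {p, δ, s}` (`exists_abc` applied to `p`, then reorder). `s ∈ N(D)` by
`MM_of_mem`. For `d ∈ D`, `d ≠ δ`: `d` is not in `T` (`MM_of_mem`), it does not see `δ`, so it sees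
exactly one of `p`, `s` (`Prism.sees`, `Prism.unique`). For `w` outside `D` and `N(D)`: `w ∉ T`, `w`
does not see `δ`. -/
theorem exists_VA (hPr : Prism G A) (hS : Slots G A P O) {p : α} (hp : p ∈ P)
    {T T' D : Finset α} (hT : T ∈ O p) (hT' : T' ∈ O p) (hD : Stab G A D)
    (h1 : MM G A D T = 1) (h3 : MM G A D T' = 3) :
    ∃ δ s, T = {p, δ, s} ∧ VA G A p δ s T' D := by
  have hTA := hS.sub p hp T hT
  have hT3 := hS.clq p hp T hT
  have hpT := hS.hub p hp T hT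
  have hTA' := hS.sub p hp T' hT'
  have hT3' := hS.clq p hp T' hT'
  have hpT' := hS.hub p hp T' hT'
  obtain ⟨hsub, hdis⟩ := MM_three hD hTA' hT3' h3
  have hpN : p ∈ nb G A D := hsub hpT'
  have hpA : p ∈ A := hTA hpT
  have hpD : p ∉ D := fun h => Finset.disjoint_left.1 hdis hpT' h
  have hex : ∃ δ ∈ D, δ ∈ T := by
    by_contra hcon
    push Not at hcon
    have hdisj : Disjoint T D := Finset.disjoint_left.2 (fun x hxT hxD => hcon x hxD hxT)
    have hcard := MM_of_disj (G := G) (A := A) hdisj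
    rw [h1] at hcard
    have hcard' : (T ∩ nb G A D).card = 1 := by exact_mod_cast hcard.symm
    obtain ⟨x, hx⟩ := Finset.card_eq_one.1 hcard'
    have hpx : p ∈ T ∩ nb G A D := Finset.mem_inter.2 ⟨hpT, hpN⟩
    rw [hx, Finset.mem_singleton] at hpx
    subst hpx
    obtain ⟨a, b, hpa, hpb, hab, hTe⟩ := exists_abc hT3 hpT
    obtain ⟨a', b', hpa', hpb', hab', hTe'⟩ := exists_abc hT3' hpT'
    have ha'T : a' ∈ T' := by rw [hTe']; simp
    have hb'T : b' ∈ T' := by rw [hTe']; simp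
    have haT : a ∈ T := by rw [hTe]; simp
    have hbT : b ∈ T := by rw [hTe]; simp
    obtain ⟨-, d, hdD, had⟩ := mem_nb.1 (hsub ha'T)
    have hdA : d ∈ A := hD.1 hdD
    have hdT : d ∉ T := hcon d hdD
    have hdp : d ≠ p := fun h => hdT (h ▸ hpT)
    have hda : d ≠ a := fun h => hdT (h ▸ haT)
    have hdb : d ≠ b := fun h => hdT (h ▸ hbT)
    have hdb' : d ≠ b' := fun h => Finset.disjoint_left.1 hdis hb'T (h ▸ hdD)
    have key : ∀ y ∈ T, G.Adj p y → ¬ G.Adj d y := by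
      intro y hyT hpy hdy
      have : y ∈ T ∩ nb G A D := Finset.mem_inter.2 ⟨hyT, mem_nb.2 ⟨hTA hyT, d, hdD, hdy.symm⟩⟩
      rw [hx, Finset.mem_singleton] at this
      exact hpy.ne this.symm
    rcases hPr.sees hpA (hTA haT) (hTA hbT) hpa hpb hab hdA hdp hda hdb with h | h | h
    · exact hPr.unique hpA (hTA' ha'T) (hTA' hb'T) hpa' hpb' hab' hdA hdb' h had.symm
    · exact key a haT hpa h
    · exact key b hbT hpb h
  obtain ⟨δ, hδD, hδT⟩ := hex
  have hδp : δ ≠ p := fun h => hpD (h ▸ hδD)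
  have hexs : ∃ s, G.Adj p δ ∧ G.Adj p s ∧ G.Adj δ s ∧ T = {p, δ, s} := by
    obtain ⟨a, b, hpa, hpb, hab, hTe⟩ := exists_abc hT3 hpT
    have hδ' : δ = p ∨ δ = a ∨ δ = b := by
      rw [hTe] at hδT
      simpa using hδT
    rcases hδ' with h | h | h
    · exact absurd h hδp
    · subst h
      exact ⟨b, hpa, hpb, hab, hTe⟩
    · subst h
      refine ⟨a, hpb, hpa, hab.symm, ?_⟩
      rw [hTe]
      ext w
      simp only [Finset.mem_insert, Finset.mem_singleton]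
      tauto
  obtain ⟨s, hpδ, hps, hδs, hTe⟩ := hexs
  have hsT : s ∈ T := by rw [hTe]; simp
  have hsA : s ∈ A := hTA hsT
  have hδA : δ ∈ A := hTA hδT
  have hmem := (MM_of_mem hD hTA hT3 hδD hδT).2
  have hsN : s ∈ nb G A D := (hmem s hsT hδs.ne').1
  have hsD : s ∉ D := (hmem s hsT hδs.ne').2
  have aux : ∀ w ∈ A, w ≠ p → w ≠ δ → w ≠ s → ¬ G.Adj w δ →
      (G.Adj w p ∧ ¬ G.Adj w s) ∨ (¬ G.Adj w p ∧ G.Adj w s) := by
    intro w hw h1 h2 h3 h4
    rcases hPr.sees hpA hδA hsA hpδ hps hδs hw h1 h2 h3 with h | h | h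
    · exact Or.inl ⟨h, hPr.unique hpA hsA hδA hps hpδ hδs.symm hw h2 h⟩
    · exact absurd h h4
    · exact Or.inr ⟨hPr.unique hsA hpA hδA hps.symm hδs.symm hpδ hw h2 h, h⟩
  refine ⟨δ, s, hTe, ⟨hD, hpA, hsA, hδD, hpδ, hps, hδs, hpN, hsN, hsub, hTA', hT3', hpT', ?_, ?_⟩⟩
  · intro d hd hne
    refine aux d (hD.1 hd) (fun h => hpD (h ▸ hd)) hne (fun h => hsD (h ▸ hd)) ?_
    exact hD.2 d hd δ hδD
  · intro w hw hwD hwN
    refine aux w hw (fun h => hwN (h ▸ hpN)) (fun h => hwD (h ▸ hδD)) (fun h => hwN (h ▸ hsN)) ?_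
    intro h
    exact hwN (mem_nb.2 ⟨hw, δ, hδD, h⟩)

section
variable {p δ s : α} {T' D : Finset α}

/-- Some element of `D` does not see `p` (and it sees `s`): `T' = {p, a', b'}`, some `d ∈ D` sees
`a'`; `d ∉ T'` (`T' ⊆ N(D)`), so `d` does not see `p`; `d ≠ δ`. -/
theorem VA.exists_far (hPr : Prism G A) (h : VA G A p δ s T' D) :
    ∃ d ∈ D, ¬ G.Adj d p ∧ G.Adj d s := by
  obtain ⟨a', b', hpa', hpb', hab', hTe'⟩ := exists_abc h.T'3 h.pT'
  have ha'T : a' ∈ T' := by rw [hTe']; simp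
  have hb'T : b' ∈ T' := by rw [hTe']; simp
  obtain ⟨-, d, hdD, had⟩ := mem_nb.1 (h.sub ha'T)
  have hdA : d ∈ A := h.stab.1 hdD
  have hdb' : d ≠ b' := fun e =>
    Finset.disjoint_left.1 h.stab.disj (h.sub hb'T) (e ▸ hdD)
  have hdp : ¬ G.Adj d p := hPr.unique (h.T'A ha'T) h.pA (h.T'A hb'T) hpa'.symm hab' hpb' hdA
    hdb' had.symm
  have hdδ : d ≠ δ := fun e => hdp (e ▸ h.pδ.symm)
  rcases h.one d hdD hdδ with h1 | h1
  · exact absurd h1.1 hdp
  · exact ⟨d, hdD, h1⟩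

/-- If only one element of `D` does not see `p` we get a contradiction: `T' = {p, a', b'}`, the
elements of `D` seeing `a'` or `b'` do not see `p`, and one element cannot see both. -/
theorem VA.not_single (hPr : Prism G A) (h : VA G A p δ s T' D) {r : α}
    (hr : ∀ d ∈ D, ¬ G.Adj d p → d = r) : False := by
  obtain ⟨a', b', hpa', hpb', hab', hTe'⟩ := exists_abc h.T'3 h.pT'
  have ha'T : a' ∈ T' := by rw [hTe']; simp
  have hb'T : b' ∈ T' := by rw [hTe']; simp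
  have hnot : ∀ d ∈ D, d ∉ T' := fun d hd hdT =>
    Finset.disjoint_left.1 h.stab.disj (h.sub hdT) hd
  obtain ⟨-, d, hdD, had⟩ := mem_nb.1 (h.sub ha'T)
  obtain ⟨-, e, heD, hbe⟩ := mem_nb.1 (h.sub hb'T)
  have hdp : ¬ G.Adj d p := hPr.unique (h.T'A ha'T) h.pA (h.T'A hb'T) hpa'.symm hab' hpb'
    (h.stab.1 hdD) (fun e => hnot d hdD (e ▸ hb'T)) had.symm
  have hep : ¬ G.Adj e p := hPr.unique (h.T'A hb'T) h.pA (h.T'A ha'T) hpb'.symm hab'.symm hpa'
    (h.stab.1 heD) (fun e' => hnot e heD (e' ▸ ha'T)) hbe.symm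
  have h1 := hr d hdD hdp
  have h2 := hr e heD hep
  subst h1
  subst h2
  exact hPr.unique (h.T'A ha'T) (h.T'A hb'T) h.pA hab' hpa'.symm hpb'.symm (h.stab.1 hdD)
    (fun e' => hnot e hdD (e' ▸ h.pT')) had.symm hbe.symm

/-- The vertices outside `D` and `N(D)` that see `p` are pairwise not adjacent: otherwise
`{p, w, w'}` is a triangle and the element `d` of `exists_far` sees none of its vertices, and is not
one of them. -/
theorem VA.near_stable (hPr : Prism G A) (h : VA G A p δ s T' D) {w w' : α} (hw : w ∈ A)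
    (hwN : w ∉ nb G A D) (hw' : w' ∈ A) (hwN' : w' ∉ nb G A D) (hp : G.Adj w p)
    (hp' : G.Adj w' p) (hwD : w ∉ D) (hwD' : w' ∉ D) : ¬ G.Adj w w' := by
  intro hww
  obtain ⟨d, hdD, hdp, -⟩ := h.exists_far hPr
  have hpD : p ∉ D := fun e => Finset.disjoint_left.1 h.stab.disj h.pN e
  rcases hPr.sees h.pA hw hw' hp.symm hp'.symm hww (h.stab.1 hdD) (fun e => hpD (e ▸ hdD))
    (fun e => hwD (e ▸ hdD)) (fun e => hwD' (e ▸ hdD)) with h1 | h1 | h1
  · exact hdp h1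
  · exact hwN (mem_nb.2 ⟨hw, d, hdD, h1.symm⟩)
  · exact hwN' (mem_nb.2 ⟨hw', d, hdD, h1.symm⟩)

/-- The folded case: two adjacent vertices outside `D` and `N(D)` that see `s`. Then every element of
`D` sees `s`, and only `δ` sees `p`.

Proof. `{s, w, w'}` is a triangle; every `d ∈ D` is not in it (`s ∈ N(D)`), and does not see `w, w'`,
so it sees `s`; if `d ≠ δ` it does not see `p` (`one`). -/
theorem VA.folded (hPr : Prism G A) (h : VA G A p δ s T' D) {w w' : α} (hw : w ∈ A)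
    (hwN : w ∉ nb G A D) (hw' : w' ∈ A) (hwN' : w' ∉ nb G A D) (hs : G.Adj w s)
    (hs' : G.Adj w' s) (hwD : w ∉ D) (hwD' : w' ∉ D) (hww : G.Adj w w') :
    (∀ d ∈ D, G.Adj d s) ∧ (∀ d ∈ D, G.Adj d p → d = δ) := by
  have hsD : s ∉ D := fun e => Finset.disjoint_left.1 h.stab.disj h.sN e
  have key : ∀ d ∈ D, G.Adj d s := by
    intro d hdD
    rcases hPr.sees h.sA hw hw' hs.symm hs'.symm hww (h.stab.1 hdD) (fun e => hsD (e ▸ hdD))
      (fun e => hwD (e ▸ hdD)) (fun e => hwD' (e ▸ hdD)) with h1 | h1 | h1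
    · exact h1
    · exact absurd (mem_nb.2 ⟨hw, d, hdD, h1.symm⟩) hwN
    · exact absurd (mem_nb.2 ⟨hw', d, hdD, h1.symm⟩) hwN'
  refine ⟨key, fun d hdD hdp => ?_⟩
  by_contra hne
  rcases h.one d hdD hne with h1 | h1
  · exact h1.2 (key d hdD)
  · exact h1.1 hdp

end

end Pool.Agent.H.MP_ebc13b_lc.h46
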