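import Pool.Agent.H.MP_ebc13b_lc.h46.VioA

/-!
Violators: split slots.
-/

namespace Pool.Agent.H.MP_ebc13b_lc.h46

variable {α : Type*} [DecidableEq α] {G : SimpleGraph α} {A P : Finset α}

/-- The third vertex of a triangle with two given vertices. -/
theorem third_vertex {T : Finset α} (h : G.IsNClique 3 T) {q ζ : α} (hq : q ∈ T) (hζ : ζ ∈ T)
    (hne : q ≠ ζ) : ∃ n, G.Adj q n ∧ G.Adj q ζ ∧ G.Adj n ζ ∧ T = {q, n, ζ} := by
  obtain ⟨a, b, h1, h2, h3, hT⟩ := exists_abc h hq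
  have h4 : ζ = q ∨ ζ = a ∨ ζ = b := by
    rw [hT] at hζ
    simpa using hζ
  rcases h4 with h5 | h5 | h5
  · exact absurd h5.symm hne
  · subst h5
    refine ⟨b, h2, h1, h3.symm, ?_⟩
    rw [hT]
    ext w
    simp only [Finset.mem_insert, Finset.mem_singleton]
    tauto
  · subst h5
    exact ⟨a, h1, h2, h3, hT⟩

/-- Split slots.

Proof. Write `T₁ = {q, n₁, ζ₁}`, `T₂ = {q, n₂, ζ₂}`: `ζ₁ ≠ q` and `ζ₂ ≠ q`, since `q = ζ₁` is the only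
vertex of `T₁` outside `N(D)`; then `q ∉ N(D)`, so `q = ζ₂`, and `ζ₁ = ζ₂` sees `p` and `s`,
contradiction to `oneW` (here `MM_two` gives `ζᵢ` as the unique vertex of `Tᵢ` outside `N(D)`).
`q` is not in `T = {p, δ, s}` and `T₁, T₂` are disjoint from `T`. `q` does not see `p`: `p ∉ T₁` would
see `q` and `ζ₁`. `q` does not see `s`: `s ∉ T₂` would see `q` and `ζ₂`. So `q ~ δ`
(`Prism.sees` for the triangle `T`). `s` sees exactly one vertex of `T₁`; it does not see `q`, nor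
`ζ₁` (`oneW`): so `s ~ n₁`. `p` sees exactly one vertex of `T₂`: `p ~ n₂`.
Some `d ∈ D` sees `n₁` (`n₁ ∈ N(D)`), `d` is not in `T₁`, so `d` does not see `q`. Let
`r ∈ D` be any element not seeing `q`: it sees exactly one vertex of `T₁`, not `q`, not `ζ₁`, so
`r ~ n₁`; in the same way `r ~ n₂`. `r ≠ δ` since `δ ~ q`, so `r` sees `p` or `s`.
(a) Suppose some `r ∈ D` not seeing `q` sees `p`: `{r, p, n₂}` is a triangle. For `d ∈ D` not seeing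
`p` (`d ≠ r`): `d` does not see `r`, so it sees `n₂`, so it does not see `q` (`T₂`), so `d ~ n₁`,
and `d ~ s` (`one`). If `d, d'` are two such elements then `{d, s, n₁}` is a triangle, `d' ∉` it, and
`d'` sees `s` and `n₁`, contradiction. So there is only one such element, contradiction
(`not_single`).
(b) So every `r ∈ D` not seeing `q` does not see `p`, and sees `s` and `n₁`; `{r, s, n₁}` is a
triangle. For `d ∈ D`, `d ≠ r`: `d` does not see `r`; it sees `s` or `n₁`; if `d ~ n₁` then `d` does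
not see `q`, so `d ~ s` by the same, but `d` sees exactly one of `s`, `n₁`, contradiction. So `d ~ s`. So
all `d ∈ D` see `s`; and for `d ≠ δ` they do not see `p` (`one`). The triangle `{r, s, n₁}` contains `s`
and not `p` (`r ∈ D` does not see `p`). -/
theorem VA.split {p δ s : α} {T' D : Finset α} (hPr : Prism G A) (h : VA G A p δ s T' D)
    {q : α} {T₁ T₂ : Finset α} (hT₁ : T₁ ⊆ A) (h₁ : G.IsNClique 3 T₁) (hq₁ : q ∈ T₁)
    (hT₂ : T₂ ⊆ A) (h₂ : G.IsNClique 3 T₂) (hq₂ : q ∈ T₂)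
    (hd₁ : Disjoint T₁ {p, δ, s}) (hd₂ : Disjoint T₂ {p, δ, s})
    (hm₁ : MM G A D T₁ = 2) (hm₂ : MM G A D T₂ = 2) {ζ₁ ζ₂ : α} (hz₁ : ζ₁ ∈ T₁)
    (hz₂ : ζ₂ ∈ T₂) (hn₁ : ζ₁ ∉ nb G A D) (hn₂ : ζ₂ ∉ nb G A D) (hp : G.Adj ζ₁ p)
    (hs : G.Adj ζ₂ s) :
    (∀ d ∈ D, G.Adj d s) ∧ (∀ d ∈ D, G.Adj d p → d = δ) ∧
      ∃ T'' ⊆ A, G.IsNClique 3 T'' ∧ s ∈ T'' ∧ p ∉ T'' := by
  obtain ⟨hdis₁, w₁, hw₁, -, hall₁'⟩ := MM_two h.stab hT₁ h₁ hm₁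
  obtain ⟨hdis₂, w₂, hw₂, -, hall₂'⟩ := MM_two h.stab hT₂ h₂ hm₂
  have hall₁ : ∀ x ∈ T₁, x ≠ ζ₁ → x ∈ nb G A D := by
    have e : ζ₁ = w₁ := by
      by_contra hcon
      exact hn₁ (hall₁' ζ₁ hz₁ hcon)
    subst e
    exact hall₁'
  have hall₂ : ∀ x ∈ T₂, x ≠ ζ₂ → x ∈ nb G A D := by
    have e : ζ₂ = w₂ := by
      by_contra hcon
      exact hn₂ (hall₂' ζ₂ hz₂ hcon)
    subst e
    exact hall₂'
  clear hall₁' hall₂' hw₁ hw₂ w₁ w₂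
  have hND₁ : ∀ x ∈ T₁, x ∉ D := fun x hx hxD => Finset.disjoint_left.1 hdis₁ hx hxD
  have hND₂ : ∀ x ∈ T₂, x ∉ D := fun x hx hxD => Finset.disjoint_left.1 hdis₂ hx hxD
  have hζs : ¬ G.Adj ζ₁ s := by
    rcases h.oneW ζ₁ (hT₁ hz₁) (hND₁ _ hz₁) hn₁ with h1 | h1
    · exact h1.2
    · exact absurd hp h1.1
  have hζp : ¬ G.Adj ζ₂ p := by
    rcases h.oneW ζ₂ (hT₂ hz₂) (hND₂ _ hz₂) hn₂ with h1 | h1
    · exact absurd hs h1.2
    · exact h1.1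
  have hζne : ζ₁ ≠ ζ₂ := fun e => hζp (e ▸ hp)
  have hqζ₁ : q ≠ ζ₁ := by
    intro e
    apply hζne
    by_contra hcon
    exact hn₁ (hall₂ ζ₁ (e ▸ hq₂) hcon)
  have hqζ₂ : q ≠ ζ₂ := by
    intro e
    apply hζne
    by_contra hcon
    exact hn₂ (hall₁ ζ₂ (e ▸ hq₁) fun e' => hcon e'.symm)
  obtain ⟨n₁, hqn₁, hqz₁, hnz₁, hTe₁⟩ := third_vertex h₁ hq₁ hz₁ hqζ₁
  obtain ⟨n₂, hqn₂, hqz₂, hnz₂, hTe₂⟩ := third_vertex h₂ hq₂ hz₂ hqζ₂
  have hn₁T : n₁ ∈ T₁ := by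
    rw [hTe₁]
    simp
  have hn₂T : n₂ ∈ T₂ := by
    rw [hTe₂]
    simp
  have hqA : q ∈ A := hT₁ hq₁
  have hn₁A : n₁ ∈ A := hT₁ hn₁T
  have hn₂A : n₂ ∈ A := hT₂ hn₂T
  have hζ₁A : ζ₁ ∈ A := hT₁ hz₁
  have hζ₂A : ζ₂ ∈ A := hT₂ hz₂
  have hδA : δ ∈ A := h.stab.1 h.δD
  have hn₁N : n₁ ∈ nb G A D := hall₁ n₁ hn₁T hnz₁.ne
  have hpD : p ∉ D := fun e => Finset.disjoint_left.1 h.stab.disj h.pN e
  have hsD : s ∉ D := fun e => Finset.disjoint_left.1 h.stab.disj h.sN e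
  have out₁ : ∀ x ∈ T₁, x ≠ p ∧ x ≠ δ ∧ x ≠ s := by
    intro x hx
    have h1 := Finset.disjoint_left.1 hd₁ hx
    simp only [Finset.mem_insert, Finset.mem_singleton, not_or] at h1
    exact h1
  have out₂ : ∀ x ∈ T₂, x ≠ p ∧ x ≠ δ ∧ x ≠ s := by
    intro x hx
    have h1 := Finset.disjoint_left.1 hd₂ hx
    simp only [Finset.mem_insert, Finset.mem_singleton, not_or] at h1
    exact h1
  -- `q` sees `δ`, `s` sees `n₁`, `p` sees `n₂`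
  have hpq : ¬ G.Adj p q :=
    hPr.unique hζ₁A hqA hn₁A hqz₁.symm hnz₁.symm hqn₁ h.pA (out₁ n₁ hn₁T).1.symm hp.symm
  have hsq : ¬ G.Adj s q :=
    hPr.unique hζ₂A hqA hn₂A hqz₂.symm hnz₂.symm hqn₂ h.sA (out₂ n₂ hn₂T).2.2.symm hs.symm
  have hqδ : G.Adj q δ := by
    rcases hPr.sees h.pA hδA h.sA h.pδ h.ps h.δs hqA (out₁ q hq₁).1 (out₁ q hq₁).2.1
      (out₁ q hq₁).2.2 with h1 | h1 | h1
    · exact absurd h1.symm hpq
    · exact h1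
    · exact absurd h1.symm hsq
  have hsn₁ : G.Adj s n₁ := by
    rcases hPr.sees hqA hn₁A hζ₁A hqn₁ hqz₁ hnz₁ h.sA (out₁ q hq₁).2.2.symm
      (out₁ n₁ hn₁T).2.2.symm (out₁ ζ₁ hz₁).2.2.symm with h1 | h1 | h1
    · exact absurd h1 hsq
    · exact h1
    · exact absurd h1.symm hζs
  have hpn₂ : G.Adj p n₂ := by
    rcases hPr.sees hqA hn₂A hζ₂A hqn₂ hqz₂ hnz₂ h.pA (out₂ q hq₂).1.symm
      (out₂ n₂ hn₂T).1.symm (out₂ ζ₂ hz₂).1.symm with h1 | h1 | h1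
    · exact absurd h1 hpq
    · exact h1
    · exact absurd h1.symm hζp
  have hdz₁ : ∀ d ∈ D, ¬ G.Adj d ζ₁ := fun d hd h1 => hn₁ (mem_nb.2 ⟨hζ₁A, d, hd, h1.symm⟩)
  have hdz₂ : ∀ d ∈ D, ¬ G.Adj d ζ₂ := fun d hd h1 => hn₂ (mem_nb.2 ⟨hζ₂A, d, hd, h1.symm⟩)
  have ne₁ : ∀ d ∈ D, ∀ x ∈ T₁, d ≠ x := fun d hd x hx e => hND₁ x hx (e ▸ hd)
  have ne₂ : ∀ d ∈ D, ∀ x ∈ T₂, d ≠ x := fun d hd x hx e => hND₂ x hx (e ▸ hd)
  have claim₁ : ∀ r ∈ D, ¬ G.Adj r q → G.Adj r n₁ := by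
    intro r hr hrq
    rcases hPr.sees hqA hn₁A hζ₁A hqn₁ hqz₁ hnz₁ (h.stab.1 hr) (ne₁ r hr q hq₁)
      (ne₁ r hr n₁ hn₁T) (ne₁ r hr ζ₁ hz₁) with h1 | h1 | h1
    · exact absurd h1 hrq
    · exact h1
    · exact absurd h1 (hdz₁ r hr)
  have claim₂ : ∀ r ∈ D, ¬ G.Adj r q → G.Adj r n₂ := by
    intro r hr hrq
    rcases hPr.sees hqA hn₂A hζ₂A hqn₂ hqz₂ hnz₂ (h.stab.1 hr) (ne₂ r hr q hq₂)
      (ne₂ r hr n₂ hn₂T) (ne₂ r hr ζ₂ hz₂) with h1 | h1 | h1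
    · exact absurd h1 hrq
    · exact h1
    · exact absurd h1 (hdz₂ r hr)
  have conv₁ : ∀ r ∈ D, G.Adj r n₁ → ¬ G.Adj r q := fun r hr hrn =>
    hPr.unique hn₁A hqA hζ₁A hqn₁.symm hnz₁ hqz₁ (h.stab.1 hr) (ne₁ r hr ζ₁ hz₁) hrn
  have conv₂ : ∀ r ∈ D, G.Adj r n₂ → ¬ G.Adj r q := fun r hr hrn =>
    hPr.unique hn₂A hqA hζ₂A hqn₂.symm hnz₂ hqz₂ (h.stab.1 hr) (ne₂ r hr ζ₂ hz₂) hrn
  have nps : ∀ r ∈ D, ¬ G.Adj r p → G.Adj r s := by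
    intro r hr hrp
    have hne : r ≠ δ := fun e => hrp (e ▸ h.pδ.symm)
    rcases h.one r hr hne with h1 | h1
    · exact absurd h1.1 hrp
    · exact h1.2
  by_cases hcase : ∃ r ∈ D, ¬ G.Adj r q ∧ G.Adj r p
  · exfalso
    obtain ⟨r, hr, hrq, hrp⟩ := hcase
    have hrn₂ := claim₂ r hr hrq
    have key : ∀ d ∈ D, ¬ G.Adj d p → G.Adj d s ∧ G.Adj d n₁ := by
      intro d hd hdp
      refine ⟨nps d hd hdp, ?_⟩
      apply claim₁ d hd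
      have hdr : d ≠ r := fun e => hdp (e ▸ hrp)
      rcases hPr.sees (h.stab.1 hr) h.pA hn₂A hrp hrn₂ hpn₂ (h.stab.1 hd) hdr
        (fun e => hpD (e ▸ hd)) (ne₂ d hd n₂ hn₂T) with h1 | h1 | h1
      · exact absurd h1 (h.stab.2 d hd r hr)
      · exact absurd h1 hdp
      · exact conv₂ d hd h1
    obtain ⟨r', hr', hrp', hrs'⟩ := h.exists_far hPr
    apply h.not_single hPr (r := r')
    intro d hd hdp
    by_contra hne
    have h1 := key d hd hdp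
    have h2 := key r' hr' hrp'
    exact hPr.unique h.sA hn₁A (h.stab.1 hr') hsn₁ h2.1.symm h2.2.symm (h.stab.1 hd) hne h1.1 h1.2
  · push Not at hcase
    obtain ⟨-, r, hr, hnr⟩ := mem_nb.1 hn₁N
    have hrn₁ : G.Adj r n₁ := hnr.symm
    have hrq : ¬ G.Adj r q := conv₁ r hr hrn₁
    have hrp : ¬ G.Adj r p := hcase r hr hrq
    have hrs : G.Adj r s := nps r hr hrp
    have hrA : r ∈ A := h.stab.1 hr
    have hall : ∀ d ∈ D, G.Adj d s := by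
      intro d hd
      by_cases hdr : d = r
      · rw [hdr]
        exact hrs
      · rcases hPr.sees hrA h.sA hn₁A hrs hrn₁ hsn₁ (h.stab.1 hd) hdr
          (fun e => hsD (e ▸ hd)) (ne₁ d hd n₁ hn₁T) with h1 | h1 | h1
        · exact absurd h1 (h.stab.2 d hd r hr)
        · exact h1
        · exact nps d hd (hcase d hd (conv₁ d hd h1))
    refine ⟨hall, ?_, {r, s, n₁}, ?_, clique_abc hrs hrn₁ hsn₁, by simp, ?_⟩
    · intro d hd hdp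
      by_contra hne
      rcases h.one d hd hne with h1 | h1
      · exact h1.2 (hall d hd)
      · exact h1.1 hdp
    · intro x hx
      simp only [Finset.mem_insert, Finset.mem_singleton] at hx
      rcases hx with rfl | rfl | rfl
      · exact hrA
      · exact h.sA
      · exact hn₁A
    · simp only [Finset.mem_insert, Finset.mem_singleton, not_or]
      exact ⟨fun e => hpD (e ▸ hr), h.ps.ne, (out₁ n₁ hn₁T).1.symm⟩

end Pool.Agent.H.MP_ebc13b_lc.h46
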